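import Pool.Agent.Lib.MP_391708_nt.X.PH.SpecB
import Pool.Agent.Lib.MP_553de0_nt.AA.KRB

/-!
# MP_391708, Theorem X, part PH, module AWG: the window of the von Mangoldt function times log
-/

set_option autoImplicit false

namespace Pool.Agent.Lib.MP391708.X.PH

open Finset Filter Topology MeasureTheory
open Pool.Agent.Lib.MP391708.MR
open Pool.Agent.Lib.MP391708.MR.OS (CM RP pw)
open Pool.Agent.Lib.MP391708.QPA (Rough rInd PB)
open Pool.Agent.Lib.MP054243.AV (ee)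
open Pool.Agent.Lib.MP553de0.AA (Ker ft kk kap)

namespace AWGM

theorem countable_Gi : Countable Gi := by
  have : Function.Injective (fun z : Gi => (z.re, z.im)) := by
    intro a b h
    simp only [Prod.mk.injEq] at h
    exact Zsqrtd.ext h.1 h.2
  exact this.countable

theorem norm_ee (x : ℝ) : ‖ee x‖ = 1 := by
  unfold ee
  rw [show 2 * (Real.pi : ℂ) * Complex.I * (x : ℂ) = ((2 * Real.pi * x : ℝ) : ℂ) * Complex.I by
    push_cast; ring]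
  exact Complex.norm_exp_ofReal_mul_I _

theorem maj {L : ℝ} (hL : 0 < L) : Integrable (fun u : ℝ => (1 + (u / L) ^ 2)⁻¹) ∧
    ∫ u : ℝ, (1 + (u / L) ^ 2)⁻¹ = Real.pi * L := by
  constructor
  · exact (integrable_inv_one_add_sq).comp_div hL.ne'
  · have h := Measure.integral_comp_div (fun x : ℝ => (1 + x ^ 2)⁻¹) L
    rw [h, integral_univ_inv_one_add_sq, abs_of_pos hL, smul_eq_mul, mul_comm]

/-- the algebra behind the comparison -/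
theorem alg {F D1 D2 P0 P1 N0 : ℂ} {f : ℝ} (hf : 0 < f) (hfF : f ≤ ‖F‖) (h0 : F = 1 + N0)
    (h1 : P0 * F = D1) (h2 : P1 * F + P0 * D1 = D2) :
    ‖P1 - D2‖ ≤ ‖D2‖ * ‖N0‖ / f + ‖D1‖ ^ 2 / f ^ 2 := by
  have hF : F ≠ 0 := by
    rw [← norm_pos_iff]
    linarith
  have h3 : P1 - D2 = -(D2 * N0 / F) - D1 ^ 2 / F ^ 2 := by
    rw [← h1] at h2 ⊢
    have h4 : N0 = F - 1 := by rw [h0]; ring
    rw [h4, ← h2]
    field_simp
    ring
  rw [h3]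
  refine (norm_sub_le _ _).trans (add_le_add ?_ ?_)
  · rw [norm_neg, norm_div, norm_mul]
    exact div_le_div_of_nonneg_left (by positivity) hf hfF
  · rw [norm_div, norm_pow, norm_pow]
    exact div_le_div_of_nonneg_left (by positivity) (by positivity)
      (pow_le_pow_left₀ hf.le hfF 2)

/-- the weight for large frequencies -/
theorem wt {ρ L u k : ℝ} (hρ : 0 < ρ) (hL : 0 < L) (hu : L < |u|) (hk0 : 0 ≤ k)
    (hk : k ≤ 1 / (ρ * u ^ 2)) : k ^ 2 ≤ 4 / (ρ ^ 2 * L ^ 4) * (1 + (u / L) ^ 2)⁻¹ := by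
  have hu2 : L ^ 2 ≤ u ^ 2 := by
    rw [← sq_abs u]
    exact pow_le_pow_left₀ hL.le hu.le 2
  have hu0 : 0 < u ^ 2 := lt_of_lt_of_le (by positivity) hu2
  have h1 : k ^ 2 ≤ (1 / (ρ * u ^ 2)) ^ 2 := pow_le_pow_left₀ hk0 hk 2
  refine h1.trans ?_
  have h2 : 4 / (ρ ^ 2 * L ^ 4) * (1 + (u / L) ^ 2)⁻¹ = 4 / (ρ ^ 2 * (L ^ 2 * (L ^ 2 + u ^ 2))) := by
    field_simp
  have h3 : (1 / (ρ * u ^ 2)) ^ 2 = 4 / (ρ ^ 2 * (4 * (u ^ 2 * u ^ 2))) := by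
    field_simp
  rw [h2, h3]
  refine div_le_div_of_nonneg_left (by norm_num) (by positivity) ?_
  refine mul_le_mul_of_nonneg_left ?_ (by positivity)
  have h4 : L ^ 2 * (L ^ 2 + u ^ 2) ≤ u ^ 2 * (u ^ 2 + u ^ 2) :=
    mul_le_mul hu2 (by linarith) (by positivity) hu0.le
  have h5 : 0 ≤ u ^ 2 * u ^ 2 := by positivity
  linarith

/-- the integral of a sum of four multiples -/
theorem add4 {a b c d : ℝ} {f g h k : ℝ → ℝ} (hf : Integrable (fun u => a * f u))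
    (hg : Integrable (fun u => b * g u)) (hh : Integrable (fun u => c * h u))
    (hk : Integrable (fun u => d * k u)) :
    ∫ u, (a * f u + b * g u + c * h u + d * k u) =
      a * (∫ u, f u) + b * (∫ u, g u) + c * (∫ u, h u) + d * (∫ u, k u) := by
  have h1 : ∫ u, (a * f u + b * g u + c * h u + d * k u) =
      (∫ u, (a * f u + b * g u + c * h u)) + ∫ u, d * k u :=
    integral_add ((hf.add hg).add hh) hk
  have h2 : ∫ u, (a * f u + b * g u + c * h u) = (∫ u, (a * f u + b * g u)) + ∫ u, c * h u :=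
    integral_add (hf.add hg) hh
  have h3 : ∫ u, (a * f u + b * g u) = (∫ u, a * f u) + ∫ u, b * g u := integral_add hf hg
  rw [h1, h2, h3, integral_const_mul, integral_const_mul, integral_const_mul, integral_const_mul]

/-- the constants of the three main terms -/
theorem num1 {c f K X CF θ : ℝ} (hc0 : 0 < c) (hc1 : c ≤ 1) (hK : 1 ≤ K) (hX : 0 < X)
    (hCF : 0 ≤ CF) (hf : f = c / K ^ 8) (hθ : θ = 1 / (K ^ 2 * X ^ 2)) :
    θ / (2 * f) * (CF * K ^ 5 * X ^ 3) + 1 / (2 * θ * f) * (CF * K / X) +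
      1 / f ^ 2 * (CF * K ^ 3 * X) ≤ 2 * CF / c ^ 2 * (K ^ 19 * X) := by
  have hK0 : 0 < K := by linarith
  have h1 : θ / (2 * f) * (CF * K ^ 5 * X ^ 3) + 1 / (2 * θ * f) * (CF * K / X) +
      1 / f ^ 2 * (CF * K ^ 3 * X) = CF / c ^ 2 * (c * K ^ 11 * X) + CF / c ^ 2 * (K ^ 19 * X) := by
    rw [hf, hθ]
    field_simp
    ring
  rw [h1]
  have h2 : c * K ^ 11 * X ≤ K ^ 19 * X := by
    refine mul_le_mul_of_nonneg_right ?_ hX.le
    calc c * K ^ 11 ≤ 1 * K ^ 19 :=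
          mul_le_mul hc1 (pow_le_pow_right₀ hK (by norm_num)) (by positivity) zero_le_one
      _ = K ^ 19 := one_mul _
  have h3 : 0 ≤ CF / c ^ 2 := by positivity
  have h4 := mul_le_mul_of_nonneg_left h2 h3
  have h5 : 2 * CF / c ^ 2 * (K ^ 19 * X) = CF / c ^ 2 * (K ^ 19 * X) + CF / c ^ 2 * (K ^ 19 * X) := by
    ring
  rw [h5]
  linarith

/-- the constant of the term of the large frequencies -/
theorem num2 {CT CF ρ L δ : ℝ} (hCT : 0 ≤ CT) (hCF : 0 ≤ CF) (hρ : 0 < ρ) (hδ : 0 < δ)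
    (hL : 4 ≤ L) (hδL : 4 ≤ δ * L) :
    (CT * L ^ 2 + CF * L ^ 2 / δ) * (4 / (ρ ^ 2 * L ^ 4)) * (Real.pi * L) ≤
      4 * (CT + CF) / ρ ^ 2 := by
  have hL0 : 0 < L := by linarith
  have h1 : (CT * L ^ 2 + CF * L ^ 2 / δ) * (4 / (ρ ^ 2 * L ^ 4)) * (Real.pi * L) =
      4 * Real.pi / ρ ^ 2 * (CT / L + CF / (δ * L)) := by
    field_simp
  rw [h1]
  have h2 : CT / L ≤ CT / 4 := div_le_div_of_nonneg_left hCT (by norm_num) hL
  have h3 : CF / (δ * L) ≤ CF / 4 := div_le_div_of_nonneg_left hCF (by norm_num) hδL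
  have h4 : 4 * Real.pi / ρ ^ 2 ≤ 4 * 4 / ρ ^ 2 := by
    refine div_le_div_of_nonneg_right ?_ (by positivity)
    have := Real.pi_le_four
    linarith
  calc 4 * Real.pi / ρ ^ 2 * (CT / L + CF / (δ * L)) ≤ 4 * 4 / ρ ^ 2 * (CT / 4 + CF / 4) :=
        mul_le_mul h4 (by linarith) (by positivity) (by positivity)
    _ = 4 * (CT + CF) / ρ ^ 2 := by ring

/-- the constant of the window of the second derivative -/
theorem num3 {CW s L δ lam : ℝ} (hCW : 0 ≤ CW) (hs : 0 ≤ s) (hδ : 0 < δ) (hL : 4 ≤ L)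
    (hlam : 0 ≤ lam) :
    CW * s * 1 * (L + 1) ^ 2 * Real.exp (-(lam * L)) / (δ * L) ≤ 4 * CW * (s / δ) * L := by
  have hL0 : 0 < L := by linarith
  have h1 : Real.exp (-(lam * L)) ≤ 1 := by
    rw [Real.exp_le_one_iff]
    have : 0 ≤ lam * L := by positivity
    linarith
  have h2 : (L + 1) ^ 2 ≤ 4 * L ^ 2 := by
    have : (L + 1) ^ 2 ≤ (2 * L) ^ 2 := pow_le_pow_left₀ (by linarith) (by linarith) 2
    linarith [this, show (2 * L) ^ 2 = 4 * L ^ 2 by ring]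
  have h3 : CW * s * 1 * (L + 1) ^ 2 * Real.exp (-(lam * L)) ≤ CW * s * 1 * (4 * L ^ 2) * 1 := by
    refine mul_le_mul (mul_le_mul_of_nonneg_left h2 (by positivity)) h1 (Real.exp_pos _).le
      (by positivity)
  refine (div_le_div_of_nonneg_right h3 (by positivity)).trans (le_of_eq ?_)
  field_simp

end AWGM

open AWGM

theorem specAWG (hPLI : SpecPLI) (hINV : SpecINV) (hSER : SpecSER) (hIDG : SpecIDG)
    (hTPP : SpecTPP) (hWEX : SpecWEX) (hFBG : SpecFBG) (hFLG : SpecFLG) : SpecAWG := by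
  intro ρ hρ hρ16
  obtain ⟨CT, hCT1, -, -, hCT⟩ := hTPP
  obtain ⟨CW, hCW1, hCW⟩ := hWEX
  obtain ⟨CF, hCF1, hCF⟩ := hFBG ρ hρ hρ16
  obtain ⟨c, hc0, hc1, hFL⟩ := hFLG
  obtain ⟨hkk, hkap, -, -, -, -, -, -, -, -, -, hft, -, -⟩ :=
    Pool.Agent.Lib.MP553de0.AA.specKRB ρ hρ hρ16
  refine ⟨2 * CF / c ^ 2 + 4 * CW + 4 * (CT + CF) / ρ ^ 2, c, ?_, hc0, hc1, ?_⟩
  · have h1 : 0 ≤ 2 * CF / c ^ 2 := by positivity
    have h2 : 0 ≤ 4 * (CT + CF) / ρ ^ 2 := by positivity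
    linarith
  intro G δ L K s hδ hδc hδL hK hKδ hs hsδ hG hO hO2
  have hCM : CM G := hG.1
  have hK0 : 0 < K := by linarith
  have hK8 : c * K ^ (-8 : ℝ) = c / K ^ 8 := by
    rw [Real.rpow_neg hK0.le, show (8 : ℝ) = ((8 : ℕ) : ℝ) by norm_num, Real.rpow_natCast]
    rfl
  have hK19 : K ^ (19 : ℝ) = K ^ 19 := by
    rw [show (19 : ℝ) = ((19 : ℕ) : ℝ) by norm_num, Real.rpow_natCast]
  have hδ1 : δ ≤ 1 := by
    have h1 : K ^ (-10 : ℝ) ≤ 1 := Real.rpow_le_one_of_one_le_of_nonpos hK (by norm_num)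
    have h2 : 0 ≤ K ^ (-10 : ℝ) := (Real.rpow_pos_of_pos hK0 _).le
    calc δ ≤ c * K ^ (-10 : ℝ) := hδc
      _ ≤ 1 * 1 := mul_le_mul hc1 h1 h2 zero_le_one
      _ = 1 := one_mul 1
  have hL0 : 0 < L := by
    by_contra h
    push Not at h
    have : δ * L ≤ 0 := mul_nonpos_of_nonneg_of_nonpos hδ.le h
    linarith
  have hL4 : 4 ≤ L := by
    calc 4 ≤ δ * L := hδL
      _ ≤ 1 * L := mul_le_mul_of_nonneg_right hδ1 hL0.le
      _ = L := one_mul L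
  have hlam0 : 0 < 1 / L := by positivity
  have hlam1 : 1 / L ≤ 1 := by
    rw [div_le_one hL0]
    linarith
  set lam : ℝ := 1 / L with hlam
  obtain ⟨hS1, hS2, hS3⟩ := hSER G hCM lam hlam0
  have hF := hFL G δ L K s L hδ hδc hδL hK hs hsδ hL0.le hG hO hO2
  rw [hK8] at hF
  set f : ℝ := c / K ^ 8 with hf
  have hf0 : 0 < f := by positivity
  obtain ⟨-, hB2, hB3⟩ := hCF G δ L hδ hδ1 hδL hG
  obtain ⟨-, hI0, hI1, hI2⟩ := hB3 K s L hK hs hsδ hL0.le hO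
  set X : ℝ := δ * L with hX
  have hX0 : 0 < X := by linarith
  set θ : ℝ := 1 / (K ^ 2 * X ^ 2) with hθ
  have hθ0 : 0 < θ := by positivity
  set A3 : ℝ := (CT * L ^ 2 + CF * L ^ 2 / δ) * (4 / (ρ ^ 2 * L ^ 4)) with hA3
  have hA30 : 0 ≤ A3 := by positivity
  have hcz : Countable Gi := countable_Gi
  have hPL : ∀ j : ℕ, j ≤ 2 →
      Integrable (fun u : ℝ => ‖DN G lam j u‖ ^ 2 * ‖ft (kk ρ) u‖ ^ 2) := by
    intro j hj
    exact (hPLI (1 / ρ) (kk ρ) hkk Gi (fun z => an G lam j z) (fun z => Real.log (nm z))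
      (hS1 j hj).2).2.2.2.1
  -- the pointwise bound
  have hpt : ∀ u : ℝ, ‖PJ G lam 1 u - DN G lam 2 u‖ * ‖ft (kk ρ) u‖ ^ 2 ≤
      θ / (2 * f) * (‖DN G lam 2 u‖ ^ 2 * ‖ft (kk ρ) u‖ ^ 2) +
      1 / (2 * θ * f) * (‖DN G lam 0 u‖ ^ 2 * ‖ft (kk ρ) u‖ ^ 2) +
      1 / f ^ 2 * (‖DN G lam 1 u‖ ^ 2 * ‖ft (kk ρ) u‖ ^ 2) + A3 * (1 + (u / L) ^ 2)⁻¹ := by
    intro u
    obtain ⟨e0, e1, e2, -, -, -⟩ := hS3 u
    obtain ⟨i1, i2⟩ := hIDG G hCM lam u hlam0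
    have hk : 0 ≤ ‖ft (kk ρ) u‖ ^ 2 := by positivity
    have hm : 0 ≤ (1 + (u / L) ^ 2)⁻¹ := by positivity
    rcases le_or_gt |u| L with hu | hu
    · rw [e1] at i1 i2
      rw [e2] at i2
      have h1 := alg hf0 (hF u hu) e0 i1 i2
      have h2 : ‖DN G lam 2 u‖ * ‖DN G lam 0 u‖ ≤
          (θ * ‖DN G lam 2 u‖ ^ 2 + θ⁻¹ * ‖DN G lam 0 u‖ ^ 2) / 2 := by
        have h3 : 0 ≤ θ⁻¹ * (θ * ‖DN G lam 2 u‖ - ‖DN G lam 0 u‖) ^ 2 := by positivity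
        have h4 : θ⁻¹ * (θ * ‖DN G lam 2 u‖ - ‖DN G lam 0 u‖) ^ 2 =
            θ * ‖DN G lam 2 u‖ ^ 2 + θ⁻¹ * ‖DN G lam 0 u‖ ^ 2 -
              2 * (‖DN G lam 2 u‖ * ‖DN G lam 0 u‖) := by
          field_simp
          ring
        linarith
      have h5 : ‖PJ G lam 1 u - DN G lam 2 u‖ ≤
          θ / (2 * f) * ‖DN G lam 2 u‖ ^ 2 + 1 / (2 * θ * f) * ‖DN G lam 0 u‖ ^ 2 +
            1 / f ^ 2 * ‖DN G lam 1 u‖ ^ 2 := by
        refine h1.trans ?_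
        have h6 : ‖DN G lam 2 u‖ * ‖DN G lam 0 u‖ / f ≤
            (θ * ‖DN G lam 2 u‖ ^ 2 + θ⁻¹ * ‖DN G lam 0 u‖ ^ 2) / 2 / f :=
          div_le_div_of_nonneg_right h2 hf0.le
        have h7 : (θ * ‖DN G lam 2 u‖ ^ 2 + θ⁻¹ * ‖DN G lam 0 u‖ ^ 2) / 2 / f =
            θ / (2 * f) * ‖DN G lam 2 u‖ ^ 2 + 1 / (2 * θ * f) * ‖DN G lam 0 u‖ ^ 2 := by
          field_simp
        have h8 : ‖DN G lam 1 u‖ ^ 2 / f ^ 2 = 1 / f ^ 2 * ‖DN G lam 1 u‖ ^ 2 := by ring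
        rw [h7] at h6
        rw [h8]
        linarith
      have h9 := mul_le_mul_of_nonneg_right h5 hk
      have h10 : 0 ≤ A3 * (1 + (u / L) ^ 2)⁻¹ := mul_nonneg hA30 hm
      refine h9.trans ?_
      linarith
    · have h1 : ‖PJ G lam 1 u - DN G lam 2 u‖ ≤ CT * L ^ 2 + CF * L ^ 2 / δ :=
        (norm_sub_le _ _).trans (add_le_add (hCT G hCM L u (by linarith)) (hB2 2 le_rfl u))
      have hu0 : u ≠ 0 := by
        rintro rfl
        rw [abs_zero] at hu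
        linarith
      have h2 := wt hρ hL0 hu (norm_nonneg _) (hft u hu0)
      have h3 : ‖PJ G lam 1 u - DN G lam 2 u‖ * ‖ft (kk ρ) u‖ ^ 2 ≤
          A3 * (1 + (u / L) ^ 2)⁻¹ := by
        rw [hA3, mul_assoc]
        exact mul_le_mul h1 h2 hk (by positivity)
      have h4 : 0 ≤ θ / (2 * f) * (‖DN G lam 2 u‖ ^ 2 * ‖ft (kk ρ) u‖ ^ 2) := by positivity
      have h5 : 0 ≤ 1 / (2 * θ * f) * (‖DN G lam 0 u‖ ^ 2 * ‖ft (kk ρ) u‖ ^ 2) := by positivity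
      have h6 : 0 ≤ 1 / f ^ 2 * (‖DN G lam 1 u‖ ^ 2 * ‖ft (kk ρ) u‖ ^ 2) := by positivity
      linarith
  -- the family
  set cc : (RP × ℕ) ⊕ Gi → ℂ := Sum.elim (fun x => ap G lam 1 x) (fun z => -(an G lam 2 z)) with hcc
  set ll : (RP × ℕ) ⊕ Gi → ℝ := Sum.elim (fun x => Real.log (nm (pw x)))
    (fun z => Real.log (nm z)) with hll
  have hsumc : Summable fun i => ‖cc i‖ := by
    refine Summable.sum _ (hS2 1 le_rfl) ?_
    refine (hS1 2 le_rfl).2.congr (fun z => ?_)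
    simp [hcc]
  have hser : ∀ u : ℝ, ∑' i, cc i * ee (-(u * ll i)) = PJ G lam 1 u - DN G lam 2 u := by
    intro u
    have h1 : Summable ((fun i => cc i * ee (-(u * ll i))) ∘ Sum.inl) := by
      refine Summable.of_norm ((hS2 1 le_rfl).congr (fun x => ?_))
      simp only [Function.comp, hcc, hll, Sum.elim_inl]
      rw [norm_mul, norm_ee, mul_one]
    have h2 : Summable ((fun i => cc i * ee (-(u * ll i))) ∘ Sum.inr) := by
      refine Summable.of_norm ((hS1 2 le_rfl).2.congr (fun x => ?_))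
      simp only [Function.comp, hcc, hll, Sum.elim_inr]
      rw [norm_mul, norm_ee, mul_one, norm_neg]
    rw [Summable.tsum_sum h1 h2]
    simp only [hcc, hll, Sum.elim_inl, Sum.elim_inr, neg_mul]
    rw [tsum_neg, ← sub_eq_add_neg]
    rfl
  have hkb : ∀ x, |kap ρ x| ≤ 1 := hkap.2.1
  have hwin : ∑' i, cc i * ((kap ρ (ll i - L) : ℝ) : ℂ) =
      (∑' x : RP × ℕ, ap G lam 1 x * ((kap ρ (Real.log (nm (pw x)) - L) : ℝ) : ℂ)) -
        WN (kap ρ) G lam 2 0 L := by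
    have h1 : Summable ((fun i => cc i * ((kap ρ (ll i - L) : ℝ) : ℂ)) ∘ Sum.inl) := by
      refine Summable.of_norm_bounded (hS2 1 le_rfl) (fun x => ?_)
      simp only [Function.comp, hcc, hll, Sum.elim_inl]
      rw [norm_mul, Complex.norm_real, Real.norm_eq_abs]
      exact mul_le_of_le_one_right (norm_nonneg _) (hkb _)
    have h2 : Summable ((fun i => cc i * ((kap ρ (ll i - L) : ℝ) : ℂ)) ∘ Sum.inr) := by
      refine Summable.of_norm_bounded (hS1 2 le_rfl).2 (fun x => ?_)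
      simp only [Function.comp, hcc, hll, Sum.elim_inr]
      rw [norm_mul, Complex.norm_real, Real.norm_eq_abs, norm_neg]
      exact mul_le_of_le_one_right (norm_nonneg _) (hkb _)
    rw [Summable.tsum_sum h1 h2]
    simp only [hcc, hll, Sum.elim_inl, Sum.elim_inr, neg_mul]
    rw [tsum_neg, ← sub_eq_add_neg]
    congr 1
    unfold WN
    refine tsum_congr (fun z => ?_)
    have h3 : ee (-(0 * Real.log (nm z))) = 1 := by
      unfold ee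
      simp
    rw [h3, mul_one]
  obtain ⟨hint, hbd⟩ := hINV ρ hρ hρ16 ((RP × ℕ) ⊕ Gi) cc ll hsumc L
  rw [hwin] at hbd
  simp only [hser] at hint hbd
  obtain ⟨hm1, hm2⟩ := maj hL0
  have hP0 := hPL 0 (by norm_num)
  have hP1 := hPL 1 (by norm_num)
  have hP2 := hPL 2 le_rfl
  have hJ2 := hP2.const_mul (θ / (2 * f))
  have hJ0 := hP0.const_mul (1 / (2 * θ * f))
  have hJ1 := hP1.const_mul (1 / f ^ 2)
  have hJ3 := hm1.const_mul A3
  have hmono := integral_mono hint (((hJ2.add hJ0).add hJ1).add hJ3) (fun u => hpt u)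
  have hsum : ∫ u : ℝ, (θ / (2 * f) * (‖DN G lam 2 u‖ ^ 2 * ‖ft (kk ρ) u‖ ^ 2) +
      1 / (2 * θ * f) * (‖DN G lam 0 u‖ ^ 2 * ‖ft (kk ρ) u‖ ^ 2) +
      1 / f ^ 2 * (‖DN G lam 1 u‖ ^ 2 * ‖ft (kk ρ) u‖ ^ 2) + A3 * (1 + (u / L) ^ 2)⁻¹) =
      θ / (2 * f) * (∫ u : ℝ, ‖DN G lam 2 u‖ ^ 2 * ‖ft (kk ρ) u‖ ^ 2) +
      1 / (2 * θ * f) * (∫ u : ℝ, ‖DN G lam 0 u‖ ^ 2 * ‖ft (kk ρ) u‖ ^ 2) +
      1 / f ^ 2 * (∫ u : ℝ, ‖DN G lam 1 u‖ ^ 2 * ‖ft (kk ρ) u‖ ^ 2) +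
      A3 * (∫ u : ℝ, (1 + (u / L) ^ 2)⁻¹) := by
    exact add4 hJ2 hJ0 hJ1 hJ3
  have hmono2 : ∫ u : ℝ, ‖PJ G lam 1 u - DN G lam 2 u‖ * ‖ft (kk ρ) u‖ ^ 2 ≤
      θ / (2 * f) * (∫ u : ℝ, ‖DN G lam 2 u‖ ^ 2 * ‖ft (kk ρ) u‖ ^ 2) +
      1 / (2 * θ * f) * (∫ u : ℝ, ‖DN G lam 0 u‖ ^ 2 * ‖ft (kk ρ) u‖ ^ 2) +
      1 / f ^ 2 * (∫ u : ℝ, ‖DN G lam 1 u‖ ^ 2 * ‖ft (kk ρ) u‖ ^ 2) +
      A3 * (∫ u : ℝ, (1 + (u / L) ^ 2)⁻¹) := hmono.trans (le_of_eq hsum)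
  rw [hm2] at hmono2
  have hk2 := mul_le_mul_of_nonneg_left hI2 (show 0 ≤ θ / (2 * f) by positivity)
  have hk0 := mul_le_mul_of_nonneg_left hI0 (show 0 ≤ 1 / (2 * θ * f) by positivity)
  have hk1 := mul_le_mul_of_nonneg_left hI1 (show 0 ≤ 1 / f ^ 2 by positivity)
  have hn1 := num1 hc0 hc1 hK hX0 (by linarith : (0 : ℝ) ≤ CF) hf hθ
  have hn2 : A3 * (Real.pi * L) ≤ 4 * (CT + CF) / ρ ^ 2 :=
    num2 (by linarith) (by linarith) hρ hδ hL4 hδL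
  have hint2 : ∫ u : ℝ, ‖PJ G lam 1 u - DN G lam 2 u‖ * ‖ft (kk ρ) u‖ ^ 2 ≤
      2 * CF / c ^ 2 * (K ^ 19 * X) + 4 * (CT + CF) / ρ ^ 2 := by
    linarith only [hmono2, hk2, hk0, hk1, hn1, hn2]
  -- the window of the second derivative
  have ht2 : (2 : ℝ) ≤ Real.exp X := by
    have := Real.add_one_le_exp X
    linarith
  have hKX : K * (δ * L) ≤ L := by
    have h1 : K * (δ * L) = (K * δ) * L := by ring
    rw [h1]
    calc K * δ * L ≤ 1 / 2 * L := mul_le_mul_of_nonneg_right hKδ hL0.le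
      _ ≤ L := by linarith
  have hW := (hCW 1 (kap ρ) hkap G (Real.exp X) ht2 hG lam hlam0 hlam1 2 le_rfl 0 L).2.2
    δ K s L L hδ hL0 hs hO hKX (by linarith) (by rw [abs_zero]; exact hL0.le)
  have hW2 := hW.trans (num3 (by linarith) hs hδ hL4 hlam0.le)
  have htri : ‖∑' x : RP × ℕ, ap G lam 1 x * ((kap ρ (Real.log (nm (pw x)) - L) : ℝ) : ℂ)‖ ≤
      (2 * CF / c ^ 2 * (K ^ 19 * X) + 4 * (CT + CF) / ρ ^ 2) + 4 * CW * (s / δ) * L := by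
    have h1 : (∑' x : RP × ℕ, ap G lam 1 x * ((kap ρ (Real.log (nm (pw x)) - L) : ℝ) : ℂ)) =
        ((∑' x : RP × ℕ, ap G lam 1 x * ((kap ρ (Real.log (nm (pw x)) - L) : ℝ) : ℂ)) -
          WN (kap ρ) G lam 2 0 L) + WN (kap ρ) G lam 2 0 L := by ring
    rw [h1]
    exact (norm_add_le _ _).trans (add_le_add (hbd.trans hint2) hW2)
  refine htri.trans ?_
  rw [hK19, hX]
  have a1 : 0 ≤ 2 * CF / c ^ 2 := by positivity
  have a2 : 0 ≤ 4 * (CT + CF) / ρ ^ 2 := by positivity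
  have a3 : 0 ≤ 4 * CW := by linarith
  have a4 : 0 ≤ K ^ 19 * (δ * L) := by positivity
  have a5 : 0 ≤ s / δ * L := by positivity
  have b1 : 0 ≤ (4 * CW + 4 * (CT + CF) / ρ ^ 2) * (K ^ 19 * (δ * L)) :=
    mul_nonneg (by linarith) a4
  have b2 : 0 ≤ (2 * CF / c ^ 2 + 4 * (CT + CF) / ρ ^ 2) * (s / δ * L) :=
    mul_nonneg (by linarith) a5
  have b3 : (2 * CF / c ^ 2 + 4 * CW + 4 * (CT + CF) / ρ ^ 2) * (K ^ 19 * δ + s / δ) * L +
      (2 * CF / c ^ 2 + 4 * CW + 4 * (CT + CF) / ρ ^ 2) =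
      (2 * CF / c ^ 2 * (K ^ 19 * (δ * L)) + 4 * (CT + CF) / ρ ^ 2 + 4 * CW * (s / δ) * L) +
      ((4 * CW + 4 * (CT + CF) / ρ ^ 2) * (K ^ 19 * (δ * L)) +
      (2 * CF / c ^ 2 + 4 * (CT + CF) / ρ ^ 2) * (s / δ * L) + 2 * CF / c ^ 2 + 4 * CW) := by ring
  rw [b3]
  linarith only [b1, b2, a1, a3]

end Pool.Agent.Lib.MP391708.X.PH
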