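import Pool.Agent.Lib.MP_391708_nt.X.PH.SpecC
import Pool.Agent.Lib.MP_391708_nt.MR.Basic
import Pool.Agent.Lib.MP_391708_nt.MR.Dec
import Pool.Agent.Lib.MP_391708_nt.QPA.PNT
import Pool.Agent.Lib.MP_391708_nt.QPA.PNTAP
import Pool.Agent.Lib.MP_553de0_nt.AA.KRB

/-! # MP_391708, Theorem X, part PH, module BLG: from windows to blocks. -/

set_option autoImplicit false

namespace Pool.Agent.Lib.MP391708.X.PH

open Finset Filter Topology MeasureTheory
open Pool.Agent.Lib.MP391708.MR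
open Pool.Agent.Lib.MP054243.AV (ee)
open Pool.Agent.Lib.MP553de0.AA (Ker ft kk kap)

noncomputable section

namespace BLGM

/-! ### the kernel -/

section Kernel

variable {ρ : ℝ}

lemma kap_cont (hρ : 0 < ρ) (hρ' : ρ ≤ 1 / 16) : Continuous (kap ρ) := by
  have h := (Pool.Agent.Lib.MP553de0.AA.specKRB ρ hρ hρ').2.1
  have h1 : LipschitzWith 1 (kap ρ) := by
    refine LipschitzWith.of_dist_le_mul fun x y => ?_
    rw [Real.dist_eq, Real.dist_eq, NNReal.coe_one]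
    exact h.2.2.2 x y
  exact h1.continuous

lemma kap_nonneg' (hρ : 0 < ρ) (hρ' : ρ ≤ 1 / 16) (x : ℝ) : 0 ≤ kap ρ x :=
  (Pool.Agent.Lib.MP553de0.AA.specKRB ρ hρ hρ').2.2.2.1 x

lemma kap_zero' (hρ : 0 < ρ) (hρ' : ρ ≤ 1 / 16) {x : ℝ} (hx : 2 * ρ ≤ |x|) : kap ρ x = 0 :=
  (Pool.Agent.Lib.MP553de0.AA.specKRB ρ hρ hρ').2.2.2.2.2.2.2.1 x hx

lemma ft_zero (g : ℝ → ℝ) : ft g 0 = ((∫ x, g x : ℝ) : ℂ) := by
  unfold ft
  have h : ee (-(0 : ℝ)) = 1 := by
    unfold ee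
    simp
  have h2 : ∀ x : ℝ, ((g x : ℝ) : ℂ) * ee (-(0 * x)) = ((g x : ℝ) : ℂ) := by
    intro x
    rw [zero_mul, h, mul_one]
  simp_rw [h2]
  exact integral_ofReal

lemma kap_integral (hρ : 0 < ρ) (hρ' : ρ ≤ 1 / 16) : ∫ x, kap ρ x = ρ ^ 2 := by
  have h := Pool.Agent.Lib.MP553de0.AA.specKRB ρ hρ hρ'
  have h1 := h.2.2.2.2.2.2.2.2.2.2.2.2.2 0
  have h2 := h.2.2.2.2.2.2.2.2.2.1
  rw [ft_zero, ft_zero, h2] at h1
  exact_mod_cast h1

lemma kap_integrable (hρ : 0 < ρ) (hρ' : ρ ≤ 1 / 16) : Integrable (kap ρ) := by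
  apply (kap_cont hρ hρ').integrable_of_hasCompactSupport
  apply HasCompactSupport.intro (isCompact_Icc (a := -(2 * ρ)) (b := 2 * ρ))
  intro x hx
  apply kap_zero' hρ hρ'
  by_contra h
  push Not at h
  exact hx ⟨by linarith [(abs_lt.1 h).1], by linarith [(abs_lt.1 h).2]⟩

/-- the mass of the kernel at `l` in `[a, b]` -/
def MM' (ρ a b l : ℝ) : ℝ := ∫ L in a..b, kap ρ (l - L)

lemma MM'_nonneg (hρ : 0 < ρ) (hρ' : ρ ≤ 1 / 16) {a b : ℝ} (hab : a ≤ b) (l : ℝ) :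
    0 ≤ MM' ρ a b l :=
  intervalIntegral.integral_nonneg hab fun _ _ => kap_nonneg' hρ hρ' _

lemma MM'_le (hρ : 0 < ρ) (hρ' : ρ ≤ 1 / 16) {a b : ℝ} (hab : a ≤ b) (l : ℝ) :
    MM' ρ a b l ≤ ρ ^ 2 := by
  unfold MM'
  rw [intervalIntegral.integral_of_le hab]
  have h1 : ∫ L, kap ρ (l - L) = ρ ^ 2 := by
    rw [integral_sub_left_eq_self (fun x => kap ρ x) volume l, kap_integral hρ hρ']
  rw [← h1]
  apply setIntegral_le_integral ((kap_integrable hρ hρ').comp_sub_left l)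
  exact Filter.Eventually.of_forall fun _ => kap_nonneg' hρ hρ' _

lemma MM'_eq (hρ : 0 < ρ) (hρ' : ρ ≤ 1 / 16) {a b : ℝ} (hab : a ≤ b) {l : ℝ}
    (h1 : a + 2 * ρ ≤ l) (h2 : l ≤ b - 2 * ρ) : MM' ρ a b l = ρ ^ 2 := by
  unfold MM'
  rw [intervalIntegral.integral_of_le hab]
  have h3 : ∫ L, kap ρ (l - L) = ρ ^ 2 := by
    rw [integral_sub_left_eq_self (fun x => kap ρ x) volume l, kap_integral hρ hρ']
  rw [← h3]
  apply setIntegral_eq_integral_of_forall_compl_eq_zero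
  intro L hL
  apply kap_zero' hρ hρ'
  rw [le_abs]
  by_cases h4 : a < L
  · right
    have h5 : b < L := by
      by_contra h6
      exact hL ⟨h4, not_lt.1 h6⟩
    linarith
  · left
    linarith [not_lt.1 h4]

/-- the weight -/
def WW' (ρ a b l : ℝ) : ℝ :=
  ∫ L in a..b, l * Real.exp (-l) * kap ρ (l - L) * (Real.exp L / L)

lemma wt_cont (hρ : 0 < ρ) (hρ' : ρ ≤ 1 / 16) {a b : ℝ} (ha : 2 ≤ a) (hab : a ≤ b) (l : ℝ) :
    ContinuousOn (fun L => l * Real.exp (-l) * kap ρ (l - L) * (Real.exp L / L))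
      (Set.uIcc a b) := by
  rw [Set.uIcc_of_le hab]
  apply ContinuousOn.mul
  · exact (continuous_const.mul ((kap_cont hρ hρ').comp (by fun_prop))).continuousOn
  · apply ContinuousOn.div Real.continuous_exp.continuousOn continuousOn_id
    intro L hL
    have := hL.1
    simp only [id]
    linarith

lemma wt_bound (hρ : 0 < ρ) (hρ' : ρ ≤ 1 / 16) {l L : ℝ} (hL : 2 ≤ L) :
    |l * Real.exp (-l) * kap ρ (l - L) * (Real.exp L / L) - kap ρ (l - L)| ≤
      10 * ρ * kap ρ (l - L) := by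
  by_cases h : 2 * ρ ≤ |l - L|
  · rw [kap_zero' hρ hρ' h]
    simp
  · push Not at h
    have hk := kap_nonneg' hρ hρ' (l - L)
    have e1 : l * Real.exp (-l) * kap ρ (l - L) * (Real.exp L / L) - kap ρ (l - L) =
        kap ρ (l - L) * ((1 + (l - L) / L) * Real.exp (-(l - L)) - 1) := by
      have h1 : Real.exp (-(l - L)) = Real.exp (-l) * Real.exp L := by
        rw [← Real.exp_add]
        congr 1
        ring
      rw [h1]
      have : L ≠ 0 := by linarith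
      field_simp
      ring
    rw [e1, abs_mul, abs_of_nonneg hk, mul_comm (10 * ρ)]
    refine mul_le_mul_of_nonneg_left ?_ hk
    have h2 : |(l - L) / L| ≤ ρ := by
      rw [abs_div, abs_of_pos (by linarith : (0 : ℝ) < L), div_le_iff₀ (by linarith)]
      nlinarith
    have h3 : |Real.exp (-(l - L)) - 1| ≤ 4 * ρ := by
      have h4 : |-(l - L)| ≤ 1 := by
        rw [abs_neg]
        linarith
      have h5 := Real.abs_exp_sub_one_le h4
      rw [abs_neg] at h5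
      linarith
    have h6 : (1 + (l - L) / L) * Real.exp (-(l - L)) - 1 =
        (l - L) / L * (Real.exp (-(l - L)) - 1) + (l - L) / L + (Real.exp (-(l - L)) - 1) := by
      ring
    rw [h6]
    have h7 : |(l - L) / L * (Real.exp (-(l - L)) - 1)| ≤ ρ * (4 * ρ) := by
      rw [abs_mul]
      exact mul_le_mul h2 h3 (abs_nonneg _) hρ.le
    calc _ ≤ |(l - L) / L * (Real.exp (-(l - L)) - 1)| + |(l - L) / L| +
          |Real.exp (-(l - L)) - 1| :=
          (abs_add_le _ _).trans (add_le_add (abs_add_le _ _) le_rfl)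
      _ ≤ ρ * (4 * ρ) + ρ + 4 * ρ := by linarith
      _ ≤ 10 * ρ := by nlinarith

lemma WW'_sub (hρ : 0 < ρ) (hρ' : ρ ≤ 1 / 16) {a b : ℝ} (ha : 2 ≤ a) (hab : a ≤ b) (l : ℝ) :
    |WW' ρ a b l - MM' ρ a b l| ≤ 10 * ρ * ρ ^ 2 := by
  unfold WW' MM'
  have hc : Continuous (fun L => kap ρ (l - L)) := (kap_cont hρ hρ').comp (by fun_prop)
  rw [← intervalIntegral.integral_sub ((wt_cont hρ hρ' ha hab l).intervalIntegrable)
    (hc.intervalIntegrable _ _), ← Real.norm_eq_abs]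
  have h1 : ‖∫ L in a..b, (l * Real.exp (-l) * kap ρ (l - L) * (Real.exp L / L) -
      kap ρ (l - L))‖ ≤ ∫ L in a..b, 10 * ρ * kap ρ (l - L) := by
    apply intervalIntegral.norm_integral_le_of_norm_le hab
    · exact Filter.Eventually.of_forall fun L hL => by
        rw [Real.norm_eq_abs]
        exact wt_bound hρ hρ' (by linarith [hL.1])
    · exact (continuous_const.mul hc).intervalIntegrable _ _
  refine h1.trans ?_
  rw [intervalIntegral.integral_const_mul]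
  exact mul_le_mul_of_nonneg_left (MM'_le hρ hρ' hab l) (by positivity)

lemma WW'_out (hρ : 0 < ρ) (hρ' : ρ ≤ 1 / 16) {a b : ℝ} (hab : a ≤ b) {l : ℝ}
    (h : l ≤ a - 2 * ρ ∨ b + 2 * ρ ≤ l) : WW' ρ a b l = 0 := by
  unfold WW'
  rw [intervalIntegral.integral_congr (g := fun _ => (0 : ℝ)), intervalIntegral.integral_zero]
  intro L hL
  rw [Set.uIcc_of_le hab] at hL
  have h1 : kap ρ (l - L) = 0 := by
    apply kap_zero' hρ hρ'
    rw [le_abs]
    rcases h with h | h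
    · right
      linarith [hL.1]
    · left
      linarith [hL.2]
  simp only [h1, mul_zero, zero_mul]

/-- the comparison of the weight with the indicator of the block -/
lemma compare (hρ : 0 < ρ) (hρ' : ρ ≤ 1 / 16) {a b : ℝ} (ha : 2 ≤ a) (hab : a ≤ b) (l : ℝ) :
    (a < l ∧ l ≤ b → |1 - (ρ ^ 2)⁻¹ * WW' ρ a b l| ≤ 10 * ρ +
      (if |l - a| < 2 * ρ ∨ |l - b| < 2 * ρ then 2 else 0)) ∧
    (¬ (a < l ∧ l ≤ b) → |(ρ ^ 2)⁻¹ * WW' ρ a b l| ≤
      (if |l - a| < 2 * ρ ∨ |l - b| < 2 * ρ then 2 else 0)) := by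
  have hr : 0 < ρ ^ 2 := by positivity
  have h0 := MM'_nonneg hρ hρ' hab l
  have h1 := MM'_le hρ hρ' hab l
  have h2 := abs_le.1 (WW'_sub hρ hρ' ha hab l)
  have hm0 : 0 ≤ (ρ ^ 2)⁻¹ * MM' ρ a b l := by positivity
  have hm1 : (ρ ^ 2)⁻¹ * MM' ρ a b l ≤ 1 := by
    rw [inv_mul_le_iff₀ hr]
    linarith
  have hd : |(ρ ^ 2)⁻¹ * WW' ρ a b l - (ρ ^ 2)⁻¹ * MM' ρ a b l| ≤ 10 * ρ := by
    rw [← mul_sub, abs_mul, abs_of_pos (inv_pos.2 hr), inv_mul_le_iff₀ hr]
    refine (WW'_sub hρ hρ' ha hab l).trans ?_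
    linarith
  have hd' := abs_le.1 hd
  constructor
  · rintro ⟨h3, h4⟩
    split_ifs with h5
    · rw [abs_le]
      constructor <;> linarith
    · push Not at h5
      obtain ⟨h6, h7⟩ := h5
      have h8 : a + 2 * ρ ≤ l := by
        rcases le_abs.1 h6 with h | h <;> linarith
      have h9 : l ≤ b - 2 * ρ := by
        rcases le_abs.1 h7 with h | h <;> linarith
      have h10 : (ρ ^ 2)⁻¹ * MM' ρ a b l = 1 := by
        rw [MM'_eq hρ hρ' hab h8 h9]
        exact inv_mul_cancel₀ hr.ne'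
      rw [h10] at hd'
      rw [abs_le]
      constructor <;> linarith
  · intro h3
    split_ifs with h5
    · rw [abs_le]
      constructor <;> linarith
    · push Not at h5
      obtain ⟨h6, h7⟩ := h5
      have h8 : l ≤ a - 2 * ρ ∨ b + 2 * ρ ≤ l := by
        rcases le_abs.1 h6 with h | h
        · right
          rcases le_abs.1 h7 with h' | h'
          · linarith
          · exact absurd ⟨by linarith, by linarith⟩ h3
        · left
          linarith
      rw [WW'_out hρ hρ' hab h8]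
      simp

end Kernel

/-! ### counting -/

lemma card_GP_le' {P Q : ℝ} (hP : 0 ≤ P) (hPQ : P ≤ Q) :
    ((GP P Q).card : ℝ) ≤ 2 * ((((Icc 1 ⌊Q⌋₊).filter Nat.Prime).card : ℝ) -
      (((Icc 1 ⌊P⌋₊).filter Nat.Prime).card : ℝ)) := by
  have hf : ⌊P⌋₊ ≤ ⌊Q⌋₊ := Nat.floor_le_floor hPQ
  have h1 : ((Icc 1 ⌊Q⌋₊).filter Nat.Prime) = ((Icc 1 ⌊P⌋₊).filter Nat.Prime) ∪
      ((Ioc ⌊P⌋₊ ⌊Q⌋₊).filter Nat.Prime) := by
    ext p
    simp only [mem_filter, mem_Icc, mem_union, mem_Ioc]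
    constructor
    · rintro ⟨⟨h1, h2⟩, h3⟩
      by_cases h : p ≤ ⌊P⌋₊
      · exact Or.inl ⟨⟨h1, h⟩, h3⟩
      · exact Or.inr ⟨⟨by omega, h2⟩, h3⟩
    · rintro (⟨⟨h1, h2⟩, h3⟩ | ⟨⟨h1, h2⟩, h3⟩)
      · exact ⟨⟨h1, by omega⟩, h3⟩
      · exact ⟨⟨by omega, h2⟩, h3⟩
  have h2 : Disjoint ((Icc 1 ⌊P⌋₊).filter Nat.Prime) ((Ioc ⌊P⌋₊ ⌊Q⌋₊).filter Nat.Prime) := by
    rw [Finset.disjoint_left]
    intro p hp hp'
    have h3 := (mem_Icc.1 (mem_filter.1 hp).1).2
    have h4 := (mem_Ioc.1 (mem_filter.1 hp').1).1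
    omega
  have h3 : (GP P Q).card ≤ 2 * ((Ioc ⌊P⌋₊ ⌊Q⌋₊).filter Nat.Prime).card := by
    apply Finset.card_le_mul_card_image_of_maps_to (f := nm)
    · intro π hπ
      have h4 := mem_GP.1 hπ
      rw [mem_filter, mem_Ioc]
      refine ⟨⟨?_, ?_⟩, h4.2.2.1⟩
      · rw [Nat.floor_lt hP]
        exact h4.2.2.2.2.1
      · rw [Nat.le_floor_iff (hP.trans hPQ)]
        exact h4.2.2.2.2.2
    · intro p _
      exact DecAux.card_GP_nm p
  rw [h1, Finset.card_union_of_disjoint h2]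
  have h4 : ((GP P Q).card : ℝ) ≤ 2 * (((Ioc ⌊P⌋₊ ⌊Q⌋₊).filter Nat.Prime).card : ℝ) := by
    exact_mod_cast h3
  push_cast
  linarith

lemma cntAll : ∃ X₂ : ℝ, ∀ x : ℝ, X₂ ≤ x → ((GP 0 x).card : ℝ) ≤ 4 * (x / Real.log x) := by
  obtain ⟨X₀, h⟩ := QPA.specPNT QPA.specPNTAP 1 one_pos
  refine ⟨max X₀ 0, fun x hx => ?_⟩
  have h1 := card_GP_le' le_rfl ((le_max_right X₀ 0).trans hx)
  have h2 := (abs_le.1 (h x ((le_max_left _ _).trans hx))).2
  have h3 : ((((Icc 1 ⌊(0 : ℝ)⌋₊).filter Nat.Prime).card : ℕ) : ℝ) = 0 := by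
    simp
  rw [h3] at h1
  rw [one_mul] at h2
  linarith

lemma cntInt {ρ : ℝ} (hρ : 0 < ρ) (hρ' : ρ ≤ 1 / 16) : ∃ X₁ : ℝ, ∀ x : ℝ, X₁ ≤ x →
    ((GP x (x * Real.exp (5 * ρ))).card : ℝ) ≤ 20 * ρ * (x / Real.log x) := by
  obtain ⟨X₀, h⟩ := QPA.specPNT QPA.specPNTAP ρ hρ
  refine ⟨max X₀ 3, fun x hx => ?_⟩
  have hx3 : 3 ≤ x := (le_max_right _ _).trans hx
  have hx0 : 0 < x := by linarith
  have hl : 0 < Real.log x := Real.log_pos (by linarith)
  have he : 1 ≤ Real.exp (5 * ρ) := Real.one_le_exp (by positivity)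
  have hX : x ≤ x * Real.exp (5 * ρ) := by nlinarith
  have h1 := card_GP_le' hx0.le hX
  have h2 := (abs_le.1 (h x ((le_max_left _ _).trans hx))).1
  have h3 := (abs_le.1 (h (x * Real.exp (5 * ρ)) (((le_max_left _ _).trans hx).trans hX))).2
  have hlog : Real.log x ≤ Real.log (x * Real.exp (5 * ρ)) := Real.log_le_log hx0 hX
  have h4 : x * Real.exp (5 * ρ) / Real.log (x * Real.exp (5 * ρ)) ≤
      x * Real.exp (5 * ρ) / Real.log x := by
    apply div_le_div_of_nonneg_left (by positivity) hl hlog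
  have h5 : Real.exp (5 * ρ) ≤ 1 + 7 * ρ := by
    have h6 := Real.abs_exp_sub_one_sub_id_le (x := 5 * ρ) (by
      rw [abs_of_pos (by positivity)]
      linarith)
    have h7 := (abs_le.1 h6).2
    nlinarith
  obtain ⟨q, hq⟩ : ∃ q, q = x / Real.log x := ⟨_, rfl⟩
  have hq0 : 0 < q := by
    rw [hq]
    positivity
  have e1 : x * Real.exp (5 * ρ) / Real.log x = Real.exp (5 * ρ) * q := by
    rw [hq]
    ring
  have e2 : ρ * x / Real.log x = ρ * q := by
    rw [hq]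
    ring
  have e3 : ρ * (x * Real.exp (5 * ρ)) / Real.log (x * Real.exp (5 * ρ)) =
      ρ * (x * Real.exp (5 * ρ) / Real.log (x * Real.exp (5 * ρ))) := by
    ring
  rw [e1] at h4
  rw [e2, ← hq] at h2
  rw [e3] at h3
  rw [← hq]
  have h6 : ρ * (x * Real.exp (5 * ρ) / Real.log (x * Real.exp (5 * ρ))) ≤
      ρ * (Real.exp (5 * ρ) * q) := mul_le_mul_of_nonneg_left h4 hρ.le
  have h7 : Real.exp (5 * ρ) * q ≤ (1 + 7 * ρ) * q := mul_le_mul_of_nonneg_right h5 hq0.le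
  have h8 : ρ * (Real.exp (5 * ρ) * q) ≤ ρ * ((1 + 7 * ρ) * q) :=
    mul_le_mul_of_nonneg_left h7 hρ.le
  have h9 : ρ * ρ * q ≤ ρ * (1 / 16) * q := by
    apply mul_le_mul_of_nonneg_right _ hq0.le
    exact mul_le_mul_of_nonneg_left hρ' hρ.le
  nlinarith

/-- `x / log x` is increasing. -/
lemma div_log_mono {x y : ℝ} (hx : Real.exp 1 ≤ x) (hxy : x ≤ y) :
    x / Real.log x ≤ y / Real.log y := by
  have h0 : 0 < x := (Real.exp_pos 1).trans_le hx
  have h0y : 0 < y := h0.trans_le hxy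
  have h1 : 1 ≤ Real.log x := by
    rw [Real.le_log_iff_exp_le h0]
    exact hx
  have h2 : 1 ≤ Real.log y := h1.trans (Real.log_le_log h0 hxy)
  have h3 := Real.log_div_self_antitoneOn (Set.mem_ofPred_eq ▸ hx : x ∈ {x | Real.exp 1 ≤ x})
    (hx.trans hxy) hxy
  simp only at h3
  rw [div_le_div_iff₀ h0y h0] at h3
  rw [div_le_div_iff₀ (by linarith) (by linarith)]
  linarith

/-- `∫ e^L / L` -/
lemma int_exp_div {a b : ℝ} (ha : 2 ≤ a) (hab : a ≤ b) :
    ∫ L in a..b, Real.exp L / L ≤ 2 * (Real.exp b / b) := by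
  have hd : ∀ L ∈ Set.uIcc a b, HasDerivAt (fun L => 2 * (Real.exp L / L))
      (2 * ((Real.exp L * L - Real.exp L * 1) / L ^ 2)) L := by
    intro L hL
    rw [Set.uIcc_of_le hab] at hL
    have h0 : L ≠ 0 := by linarith [hL.1]
    exact ((Real.hasDerivAt_exp L).div (hasDerivAt_id L) h0).const_mul 2
  have hc : ContinuousOn (fun L => 2 * ((Real.exp L * L - Real.exp L * 1) / L ^ 2))
      (Set.uIcc a b) := by
    rw [Set.uIcc_of_le hab]
    apply ContinuousOn.mul continuousOn_const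
    apply ContinuousOn.div (by fun_prop) (by fun_prop)
    intro L hL
    exact pow_ne_zero 2 (by linarith [hL.1])
  have hc2 : ContinuousOn (fun L => Real.exp L / L) (Set.uIcc a b) := by
    rw [Set.uIcc_of_le hab]
    apply ContinuousOn.div (by fun_prop) (by fun_prop)
    intro L hL
    linarith [hL.1]
  have h1 := intervalIntegral.integral_eq_sub_of_hasDerivAt hd hc.intervalIntegrable
  have h2 : ∫ L in a..b, Real.exp L / L ≤
      ∫ L in a..b, 2 * ((Real.exp L * L - Real.exp L * 1) / L ^ 2) := by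
    apply intervalIntegral.integral_mono_on hab hc2.intervalIntegrable hc.intervalIntegrable
    intro L hL
    have hL2 : 2 ≤ L := ha.trans hL.1
    have h3 : 2 * ((Real.exp L * L - Real.exp L * 1) / L ^ 2) =
        Real.exp L / L * (2 * (L - 1) / L) := by
      field_simp
    rw [h3]
    have h4 : 1 ≤ 2 * (L - 1) / L := by
      rw [le_div_iff₀ (by linarith)]
      linarith
    have h5 : 0 ≤ Real.exp L / L := by positivity
    nlinarith
  rw [h1] at h2
  have h3 : 0 ≤ 2 * (Real.exp a / a) := by positivity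
  linarith

/-- The sum over the block against the windows. -/
lemma main_ineq {ρ : ℝ} (hρ : 0 < ρ) (hρ' : ρ ≤ 1 / 16) (F : Gi → ℂ) (hF : ∀ z, ‖F z‖ ≤ 1)
    {a b σ : ℝ} (ha : 2 ≤ a) (hab : a ≤ b) (hσ : 0 ≤ σ)
    (hw : ∀ L, a ≤ L → L ≤ b → ‖∑ π ∈ GP 0 (Real.exp (L + 1)), F π *
      ((Real.log (nm π) / (nm π : ℝ) * kap ρ (Real.log (nm π) - L) : ℝ) : ℂ)‖ ≤ σ) :
    ‖∑ π ∈ GP (Real.exp a) (Real.exp b), F π‖ ≤ 10 * ρ * (GP 0 (Real.exp b)).card +
      2 * ((GP (Real.exp a * Real.exp (-(3 * ρ))) (Real.exp a * Real.exp (-(3 * ρ)) *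
        Real.exp (5 * ρ))).card + (GP (Real.exp b * Real.exp (-(3 * ρ)))
        (Real.exp b * Real.exp (-(3 * ρ)) * Real.exp (5 * ρ))).card) +
      (ρ ^ 2)⁻¹ * (σ * (2 * (Real.exp b / b))) := by
  classical
  obtain ⟨G, hG⟩ : ∃ G, G = GP 0 (Real.exp (b + 1)) := ⟨_, rfl⟩
  have hG0 : ∀ π ∈ G, (0 : ℝ) < nm π := by
    intro π hπ
    rw [hG] at hπ
    exact (mem_GP.1 hπ).2.2.2.2.1
  -- the window over the fixed set
  have hwin : ∀ L, a ≤ L → L ≤ b → ‖∑ π ∈ G, F π *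
      ((Real.log (nm π) / (nm π : ℝ) * kap ρ (Real.log (nm π) - L) : ℝ) : ℂ)‖ ≤ σ := by
    intro L h1 h2
    have h3 : ∑ π ∈ GP 0 (Real.exp (L + 1)), F π *
        ((Real.log (nm π) / (nm π : ℝ) * kap ρ (Real.log (nm π) - L) : ℝ) : ℂ) =
        ∑ π ∈ G, F π *
        ((Real.log (nm π) / (nm π : ℝ) * kap ρ (Real.log (nm π) - L) : ℝ) : ℂ) := by
      apply Finset.sum_subset
      · intro π hπ
        rw [hG]
        rw [mem_GP] at hπ ⊢
        refine ⟨hπ.1, hπ.2.1, hπ.2.2.1, hπ.2.2.2.1, hπ.2.2.2.2.1, hπ.2.2.2.2.2.trans ?_⟩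
        rw [Real.exp_le_exp]
        linarith
      · intro π hπ hπ'
        have hpos := hG0 π hπ
        rw [hG] at hπ
        rw [mem_GP] at hπ hπ'
        have h4 : Real.exp (L + 1) < nm π := by
          by_contra h
          exact hπ' ⟨hπ.1, hπ.2.1, hπ.2.2.1, hπ.2.2.2.1, hπ.2.2.2.2.1, not_lt.1 h⟩
        have h5 : L + 1 ≤ Real.log (nm π) := by
          rw [Real.le_log_iff_exp_le hpos]
          exact h4.le
        rw [kap_zero' hρ hρ' (by rw [le_abs]; left; linarith)]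
        simp
    rw [← h3]
    exact hw L h1 h2
  -- the integral
  have hint : ∑ π ∈ G, F π * ((WW' ρ a b (Real.log (nm π)) : ℝ) : ℂ) =
      ∫ L in a..b, (∑ π ∈ G, F π * ((Real.log (nm π) / (nm π : ℝ) *
        kap ρ (Real.log (nm π) - L) : ℝ) : ℂ)) * ((Real.exp L / L : ℝ) : ℂ) := by
    have h1 : ∀ π ∈ G, F π * ((WW' ρ a b (Real.log (nm π)) : ℝ) : ℂ) =
        ∫ L in a..b, F π * ((Real.log (nm π) / (nm π : ℝ) *
          kap ρ (Real.log (nm π) - L) : ℝ) : ℂ) * ((Real.exp L / L : ℝ) : ℂ) := by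
      intro π hπ
      have h2 : Real.exp (-Real.log (nm π)) = 1 / (nm π : ℝ) := by
        rw [Real.exp_neg, Real.exp_log (hG0 π hπ), one_div]
      unfold WW'
      rw [← intervalIntegral.integral_ofReal, ← intervalIntegral.integral_const_mul]
      apply intervalIntegral.integral_congr
      intro L _
      simp only
      rw [h2]
      push_cast
      ring
    rw [Finset.sum_congr rfl h1, ← intervalIntegral.integral_finsetSum]
    · apply intervalIntegral.integral_congr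
      intro L _
      simp only
      rw [Finset.sum_mul]
    · intro π _
      apply ContinuousOn.intervalIntegrable
      rw [Set.uIcc_of_le hab]
      apply ContinuousOn.mul
      · apply Continuous.continuousOn
        have := kap_cont hρ hρ'
        fun_prop
      · apply Complex.continuous_ofReal.comp_continuousOn
        apply ContinuousOn.div (by fun_prop) (by fun_prop)
        intro L hL
        linarith [hL.1]
  have hnorm : ‖∑ π ∈ G, F π * ((WW' ρ a b (Real.log (nm π)) : ℝ) : ℂ)‖ ≤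
      σ * (2 * (Real.exp b / b)) := by
    rw [hint]
    have hc2 : ContinuousOn (fun L => σ * (Real.exp L / L)) (Set.uIcc a b) := by
      rw [Set.uIcc_of_le hab]
      apply ContinuousOn.mul continuousOn_const
      apply ContinuousOn.div (by fun_prop) (by fun_prop)
      intro L hL
      linarith [hL.1]
    have h1 := intervalIntegral.norm_integral_le_of_norm_le (μ := volume) hab
      (f := fun L => (∑ π ∈ G, F π * ((Real.log (nm π) / (nm π : ℝ) *
        kap ρ (Real.log (nm π) - L) : ℝ) : ℂ)) * ((Real.exp L / L : ℝ) : ℂ))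
      (g := fun L => σ * (Real.exp L / L))
      (Filter.Eventually.of_forall fun L hL => by
        have hL0 : 0 ≤ Real.exp L / L :=
          div_nonneg (Real.exp_pos L).le (by linarith [hL.1])
        rw [norm_mul, Complex.norm_real, Real.norm_eq_abs, abs_of_nonneg hL0]
        exact mul_le_mul_of_nonneg_right (hwin L hL.1.le hL.2) hL0) hc2.intervalIntegrable
    refine h1.trans ?_
    rw [intervalIntegral.integral_const_mul]
    exact mul_le_mul_of_nonneg_left (int_exp_div ha hab) hσ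
  -- the comparison
  have hsub : GP (Real.exp a) (Real.exp b) ⊆ G := by
    intro π hπ
    rw [hG]
    rw [mem_GP] at hπ ⊢
    refine ⟨hπ.1, hπ.2.1, hπ.2.2.1, hπ.2.2.2.1, (Real.exp_pos a).trans hπ.2.2.2.2.1,
      hπ.2.2.2.2.2.trans ?_⟩
    rw [Real.exp_le_exp]
    linarith
  have hmem : ∀ π ∈ G, π ∈ GP (Real.exp a) (Real.exp b) ↔
      a < Real.log (nm π) ∧ Real.log (nm π) ≤ b := by
    intro π hπ
    have hpos := hG0 π hπ
    rw [hG, mem_GP] at hπ
    rw [mem_GP, Real.lt_log_iff_exp_lt hpos, Real.log_le_iff_le_exp hpos]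
    exact ⟨fun h => ⟨h.2.2.2.2.1, h.2.2.2.2.2⟩,
      fun h => ⟨hπ.1, hπ.2.1, hπ.2.2.1, hπ.2.2.2.1, h.1, h.2⟩⟩
  have hdiff : ‖∑ π ∈ GP (Real.exp a) (Real.exp b), F π -
      ((ρ ^ 2)⁻¹ : ℝ) * ∑ π ∈ G, F π * ((WW' ρ a b (Real.log (nm π)) : ℝ) : ℂ)‖ ≤
      ∑ π ∈ G, ((if π ∈ GP (Real.exp a) (Real.exp b) then 10 * ρ else 0) +
        (if |Real.log (nm π) - a| < 2 * ρ ∨ |Real.log (nm π) - b| < 2 * ρ then (2 : ℝ) else 0)) := by
    have h1 : ∑ π ∈ GP (Real.exp a) (Real.exp b), F π =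
        ∑ π ∈ G, if π ∈ GP (Real.exp a) (Real.exp b) then F π else 0 := by
      rw [← Finset.sum_filter]
      congr 1
      ext π
      rw [mem_filter]
      exact ⟨fun h => ⟨hsub h, h⟩, fun h => h.2⟩
    rw [h1, Finset.mul_sum, ← Finset.sum_sub_distrib]
    refine (norm_sum_le _ _).trans (Finset.sum_le_sum fun π hπ => ?_)
    obtain ⟨h2, h3⟩ := compare hρ hρ' ha hab (Real.log (nm π))
    by_cases h4 : π ∈ GP (Real.exp a) (Real.exp b)
    · rw [if_pos h4, if_pos h4]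
      have h5 := h2 ((hmem π hπ).1 h4)
      have h6 : F π - (((ρ ^ 2)⁻¹ : ℝ) : ℂ) * (F π * ((WW' ρ a b (Real.log (nm π)) : ℝ) : ℂ)) =
          F π * ((1 - (ρ ^ 2)⁻¹ * WW' ρ a b (Real.log (nm π)) : ℝ) : ℂ) := by
        push_cast
        ring
      rw [h6, norm_mul, Complex.norm_real, Real.norm_eq_abs]
      calc _ ≤ 1 * _ := mul_le_mul_of_nonneg_right (hF π) (abs_nonneg _)
        _ ≤ _ := by rw [one_mul]; exact h5
    · rw [if_neg h4, if_neg h4]
      have h5 := h3 (fun h => h4 ((hmem π hπ).2 h))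
      have h6 : (0 : ℂ) - (((ρ ^ 2)⁻¹ : ℝ) : ℂ) * (F π * ((WW' ρ a b (Real.log (nm π)) : ℝ) : ℂ)) =
          -(F π * (((ρ ^ 2)⁻¹ * WW' ρ a b (Real.log (nm π)) : ℝ) : ℂ)) := by
        push_cast
        ring
      rw [h6, norm_neg, norm_mul, Complex.norm_real, Real.norm_eq_abs, zero_add]
      calc _ ≤ 1 * _ := mul_le_mul_of_nonneg_right (hF π) (abs_nonneg _)
        _ ≤ _ := by rw [one_mul]; exact h5
  have hsum1 : ∑ π ∈ G, (if π ∈ GP (Real.exp a) (Real.exp b) then 10 * ρ else 0) ≤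
      10 * ρ * (GP 0 (Real.exp b)).card := by
    rw [← Finset.sum_filter, Finset.sum_const, nsmul_eq_mul, mul_comm]
    apply mul_le_mul_of_nonneg_left _ (by positivity)
    have : (G.filter fun π => π ∈ GP (Real.exp a) (Real.exp b)) ⊆ GP 0 (Real.exp b) := by
      intro π hπ
      have h1 := mem_GP.1 (mem_filter.1 hπ).2
      rw [mem_GP]
      exact ⟨h1.1, h1.2.1, h1.2.2.1, h1.2.2.2.1, (Real.exp_pos a).trans h1.2.2.2.2.1,
        h1.2.2.2.2.2⟩
    exact_mod_cast Finset.card_le_card this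
  have hz : ∀ c : ℝ, ∀ π ∈ G, |Real.log (nm π) - c| < 2 * ρ →
      π ∈ GP (Real.exp c * Real.exp (-(3 * ρ))) (Real.exp c * Real.exp (-(3 * ρ)) *
        Real.exp (5 * ρ)) := by
    intro c π hπ h
    have hpos := hG0 π hπ
    rw [hG, mem_GP] at hπ
    rw [mem_GP, ← Real.exp_add, ← Real.exp_add, ← Real.lt_log_iff_exp_lt hpos,
      ← Real.log_le_iff_le_exp hpos]
    have h1 := abs_lt.1 h
    exact ⟨hπ.1, hπ.2.1, hπ.2.2.1, hπ.2.2.2.1, by linarith, by linarith⟩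
  have hsum2 : ∑ π ∈ G, (if |Real.log (nm π) - a| < 2 * ρ ∨ |Real.log (nm π) - b| < 2 * ρ
      then (2 : ℝ) else 0) ≤ 2 * ((GP (Real.exp a * Real.exp (-(3 * ρ)))
        (Real.exp a * Real.exp (-(3 * ρ)) * Real.exp (5 * ρ))).card +
        (GP (Real.exp b * Real.exp (-(3 * ρ)))
        (Real.exp b * Real.exp (-(3 * ρ)) * Real.exp (5 * ρ))).card) := by
    rw [← Finset.sum_filter, Finset.sum_const, nsmul_eq_mul, mul_comm]
    apply mul_le_mul_of_nonneg_left _ (by norm_num)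
    have : (G.filter fun π => |Real.log (nm π) - a| < 2 * ρ ∨ |Real.log (nm π) - b| < 2 * ρ) ⊆
        (GP (Real.exp a * Real.exp (-(3 * ρ)))
        (Real.exp a * Real.exp (-(3 * ρ)) * Real.exp (5 * ρ))) ∪
        (GP (Real.exp b * Real.exp (-(3 * ρ)))
        (Real.exp b * Real.exp (-(3 * ρ)) * Real.exp (5 * ρ))) := by
      intro π hπ
      rw [mem_union]
      obtain ⟨h1, h2⟩ := mem_filter.1 hπ
      exact h2.imp (hz a π h1) (hz b π h1)
    have h2 := (Finset.card_le_card this).trans (Finset.card_union_le _ _)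
    exact_mod_cast h2
  rw [Finset.sum_add_distrib] at hdiff
  have h1 : ‖(((ρ ^ 2)⁻¹ : ℝ) : ℂ) * ∑ π ∈ G, F π * ((WW' ρ a b (Real.log (nm π)) : ℝ) : ℂ)‖ ≤
      (ρ ^ 2)⁻¹ * (σ * (2 * (Real.exp b / b))) := by
    rw [norm_mul, Complex.norm_real, Real.norm_eq_abs, abs_of_pos (by positivity)]
    exact mul_le_mul_of_nonneg_left hnorm (by positivity)
  calc ‖∑ π ∈ GP (Real.exp a) (Real.exp b), F π‖ = ‖(∑ π ∈ GP (Real.exp a) (Real.exp b), F π -
      (((ρ ^ 2)⁻¹ : ℝ) : ℂ) * ∑ π ∈ G, F π * ((WW' ρ a b (Real.log (nm π)) : ℝ) : ℂ)) +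
      (((ρ ^ 2)⁻¹ : ℝ) : ℂ) * ∑ π ∈ G, F π * ((WW' ρ a b (Real.log (nm π)) : ℝ) : ℂ)‖ := by
        rw [sub_add_cancel]
    _ ≤ _ := by
        refine (norm_add_le _ _).trans ?_
        linarith

lemma norm_ps_le {χ : Gi → ℂ} (hχ : ∀ z, χ z = 0 ∨ ‖χ z‖ = 1) (m : ℤ) (z : Gi) :
    ‖ps χ m z‖ ≤ 1 := by
  unfold ps
  rw [norm_mul]
  have h1 : ‖χ z‖ ≤ 1 := by
    rcases hχ z with h | h
    · rw [h, norm_zero]
      exact zero_le_one
    · exact h.le
  have h2 : ‖xi m z‖ ≤ 1 := by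
    unfold xi dir
    rw [norm_zpow, norm_div, Complex.norm_real, norm_norm]
    by_cases h : ‖GaussianInt.toComplex z‖ = 0
    · rw [h, zero_div]
      by_cases hm : m = 0
      · rw [hm, zpow_zero]
      · rw [zero_zpow m hm]
        exact zero_le_one
    · rw [div_self h, one_zpow]
  calc ‖χ z‖ * ‖xi m z‖ ≤ 1 * 1 := mul_le_mul h1 h2 (norm_nonneg _) zero_le_one
    _ = 1 := one_mul 1

end BLGM

open BLGM in
theorem specBLG (hCHB : SpecCHB) (hPWG : SpecPWG) : SpecBLG := by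
  intro ε A δ₀ hε hA hδ hδ1
  obtain ⟨ρ, hρe⟩ : ∃ ρ, ρ = min (1 / 16) (ε / 400) := ⟨_, rfl⟩
  have hρ : 0 < ρ := by
    rw [hρe]
    positivity
  have hρ' : ρ ≤ 1 / 16 := by
    rw [hρe]
    exact min_le_left _ _
  have hρε : ρ ≤ ε / 400 := by
    rw [hρe]
    exact min_le_right _ _
  obtain ⟨σ, hσe⟩ : ∃ σ, σ = ε * ρ ^ 2 / 8 := ⟨_, rfl⟩
  have hσ : 0 < σ := by
    rw [hσe]
    positivity
  obtain ⟨A', hA'e⟩ : ∃ A', A' = A / δ₀ + A + 1 := ⟨_, rfl⟩
  have hAδ : 0 < A / δ₀ := by positivity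
  obtain ⟨L₀, hL₀⟩ := hPWG ρ hρ hρ' σ A' hσ (by linarith)
  obtain ⟨X₁, hX₁⟩ := cntInt hρ hρ'
  obtain ⟨X₂, hX₂⟩ := cntAll
  obtain ⟨Λ, hΛ⟩ : ∃ Λ, Λ = max (max (max L₀ 4) (Real.log (max X₁ 1) + 1))
      (max (Real.log (max X₂ 1)) (δ₀⁻¹ ^ A)) := ⟨_, rfl⟩
  have hΛ1 : L₀ ≤ Λ := by
    rw [hΛ]
    exact (le_max_left _ _).trans ((le_max_left _ _).trans (le_max_left _ _))
  have hΛ2 : 4 ≤ Λ := by
    rw [hΛ]
    exact (le_max_right _ _).trans ((le_max_left _ _).trans (le_max_left _ _))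
  have hΛ3 : Real.log (max X₁ 1) + 1 ≤ Λ := by
    rw [hΛ]
    exact (le_max_right _ _).trans (le_max_left _ _)
  have hΛ4 : Real.log (max X₂ 1) ≤ Λ := by
    rw [hΛ]
    exact (le_max_left _ _).trans (le_max_right _ _)
  have hΛ5 : δ₀⁻¹ ^ A ≤ Λ := by
    rw [hΛ]
    exact (le_max_right _ _).trans (le_max_right _ _)
  refine ⟨Real.exp (Λ / δ₀), ?_⟩
  intro N hN f χ m hf hfN hχ hUI hm hgood y y' hy hyy' hy'N
  have hN0 : 0 < N := (Real.exp_pos _).trans_le hN
  have hlogN : Λ / δ₀ ≤ Real.log N := by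
    rw [Real.le_log_iff_exp_le hN0]
    exact hN
  have hlogN0 : 0 < Real.log N := lt_of_lt_of_le (by positivity) hlogN
  have hy0 : 0 < y := (Real.rpow_pos_of_pos hN0 _).trans_le hy
  have hy'0 : 0 < y' := hy0.trans_le hyy'
  have hlogy : δ₀ * Real.log N ≤ Real.log y := by
    have h1 := Real.log_le_log (Real.rpow_pos_of_pos hN0 δ₀) hy
    rwa [Real.log_rpow hN0] at h1
  have hlogy' : Real.log y ≤ Real.log y' := Real.log_le_log hy0 hyy'
  have hδN : Λ ≤ δ₀ * Real.log N := by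
    have := mul_le_mul_of_nonneg_left hlogN hδ.le
    rwa [mul_div_cancel₀ _ hδ.ne'] at this
  obtain ⟨a, ha⟩ : ∃ a, a = Real.log y := ⟨_, rfl⟩
  obtain ⟨b, hb⟩ : ∃ b, b = Real.log y' := ⟨_, rfl⟩
  have hea : Real.exp a = y := by
    rw [ha, Real.exp_log hy0]
  have heb : Real.exp b = y' := by
    rw [hb, Real.exp_log hy'0]
  have haΛ : Λ ≤ a := by
    rw [ha]
    exact hδN.trans hlogy
  have hab : a ≤ b := by
    rw [ha, hb]
    exact hlogy'
  have h := main_ineq hρ hρ' (ps χ m) (norm_ps_le (hCHB f χ hf hχ).1 m) (a := a) (b := b)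
    (σ := σ) (by linarith) hab hσ.le (by
      intro L hL1 hL2
      have hLΛ : Λ ≤ L := haΛ.trans hL1
      have hL0 : 0 < L := by linarith
      have hLN : Real.log N ≤ L / δ₀ := by
        rw [le_div_iff₀ hδ]
        rw [ha] at hL1
        linarith
      refine hL₀ L (hΛ1.trans hLΛ) f χ m hf ?_ hχ hUI ?_ hgood
      · refine hfN.trans ?_
        calc Real.log N ^ A ≤ (L / δ₀) ^ A := Real.rpow_le_rpow hlogN0.le hLN (by linarith)
          _ = L ^ A * δ₀⁻¹ ^ A := by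
              rw [div_eq_mul_inv, Real.mul_rpow hL0.le (by positivity)]
          _ ≤ L ^ A * L := by
              apply mul_le_mul_of_nonneg_left (hΛ5.trans hLΛ) (by positivity)
          _ = L ^ (A + 1) := by
              rw [Real.rpow_add hL0, Real.rpow_one]
          _ ≤ L ^ A' := by
              apply Real.rpow_le_rpow_of_exponent_le (by linarith)
              linarith
      · refine hm.trans ?_
        rw [Real.rpow_def_of_pos hN0, Real.exp_le_exp]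
        calc Real.log N * A ≤ L / δ₀ * A := mul_le_mul_of_nonneg_right hLN (by linarith)
          _ = A / δ₀ * L := by ring
          _ ≤ A' * L := by
              apply mul_le_mul_of_nonneg_right _ hL0.le
              linarith)
  rw [hea, heb] at h
  -- sizes
  obtain ⟨q, hq⟩ : ∃ q, q = y' / b := ⟨_, rfl⟩
  have hb4 : 4 ≤ b := hΛ2.trans (haΛ.trans hab)
  have hq0 : 0 < q := by
    rw [hq]
    positivity
  have hlarge : ∀ c : ℝ, Λ ≤ c → c ≤ b →
      ((GP (Real.exp c * Real.exp (-(3 * ρ))) (Real.exp c * Real.exp (-(3 * ρ)) *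
        Real.exp (5 * ρ))).card : ℝ) ≤ 20 * ρ * q := by
    intro c hc hcb
    have h1 : Real.exp c * Real.exp (-(3 * ρ)) = Real.exp (c - 3 * ρ) := by
      rw [← Real.exp_add, sub_eq_add_neg]
    have h2 : X₁ ≤ Real.exp (c - 3 * ρ) := by
      have h3 : max X₁ 1 ≤ Real.exp (c - 3 * ρ) := by
        rw [← Real.log_le_iff_le_exp (lt_of_lt_of_le one_pos (le_max_right _ _))]
        linarith
      exact (le_max_left _ _).trans h3
    rw [h1]
    refine (hX₁ _ h2).trans (mul_le_mul_of_nonneg_left ?_ (by positivity))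
    have h3 := div_log_mono (x := Real.exp (c - 3 * ρ)) (y := y') (by
      rw [Real.exp_le_exp]
      linarith) (by
      rw [← heb, Real.exp_le_exp]
      linarith)
    rw [hq, hb]
    exact h3
  have h1 : ((GP 0 y').card : ℝ) ≤ 4 * q := by
    rw [hq, hb]
    apply hX₂
    have h3 : max X₂ 1 ≤ y' := by
      rw [← heb, ← Real.log_le_iff_le_exp (lt_of_lt_of_le one_pos (le_max_right _ _))]
      linarith
    exact (le_max_left _ _).trans h3
  have h2 := hlarge a haΛ hab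
  have h3 := hlarge b (haΛ.trans hab) le_rfl
  rw [hea] at h2
  rw [heb] at h3
  have h4 : (ρ ^ 2)⁻¹ * (σ * (2 * (y' / b))) = ε / 4 * q := by
    rw [hσe, hq]
    field_simp
    ring
  rw [h4] at h
  have h5 : ε * y' / Real.log y' = ε * q := by
    rw [hq, hb]
    ring
  rw [h5]
  have h6 : 10 * ρ * ((GP 0 y').card : ℝ) ≤ 10 * ρ * (4 * q) :=
    mul_le_mul_of_nonneg_left h1 (by positivity)
  have h7 : ρ * q ≤ ε / 400 * q := mul_le_mul_of_nonneg_right hρε hq0.le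
  nlinarith [mul_pos hε hq0]

end

end Pool.Agent.Lib.MP391708.X.PH
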