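import Pool.Agent.Lib.MP_391708_nt.X.PH.SpecA

/-!
# MP_391708, Theorem X, part PH: module CHB, basic facts on characters
-/

set_option autoImplicit false

namespace Pool.Agent.Lib.MP391708.X.PH

open Finset Filter Topology MeasureTheory
open Pool.Agent.Lib.MP391708.MR

namespace CHBM

/-- the representative of a class -/
def rp (f : ℕ) (z : Gi) : Gi := ⟨z.re % (f : ℤ), z.im % (f : ℤ)⟩

lemma mem_RS {q : ℕ} {a : Gi} : a ∈ RS q ↔ 0 ≤ a.re ∧ a.re < q ∧ 0 ≤ a.im ∧ a.im < q := by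
  unfold RS
  rw [mem_image]
  constructor
  · rintro ⟨p, hp, rfl⟩
    rw [mem_product, mem_range, mem_range] at hp
    refine ⟨?_, ?_, ?_, ?_⟩
    · exact Int.natCast_nonneg _
    · show ((p.1 : ℕ) : ℤ) < (q : ℤ)
      exact_mod_cast hp.1
    · exact Int.natCast_nonneg _
    · show ((p.2 : ℕ) : ℤ) < (q : ℤ)
      exact_mod_cast hp.2
  · rintro ⟨h1, h2, h3, h4⟩
    refine ⟨(a.re.toNat, a.im.toNat), ?_, ?_⟩
    · rw [mem_product, mem_range, mem_range]
      constructor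
      · show a.re.toNat < q
        omega
      · show a.im.toNat < q
        omega
    · apply Zsqrtd.ext
      · show ((a.re.toNat : ℕ) : ℤ) = a.re
        exact Int.toNat_of_nonneg h1
      · show ((a.im.toNat : ℕ) : ℤ) = a.im
        exact Int.toNat_of_nonneg h3

lemma rp_mem {f : ℕ} (hf : 0 < f) (z : Gi) : rp f z ∈ RS f := by
  have h : (0 : ℤ) < f := by exact_mod_cast hf
  rw [mem_RS]
  exact ⟨Int.emod_nonneg _ h.ne', Int.emod_lt_of_pos _ h, Int.emod_nonneg _ h.ne',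
    Int.emod_lt_of_pos _ h⟩

lemma rp_dvd (f : ℕ) (z : Gi) : (f : ℤ) ∣ z.re - (rp f z).re ∧ (f : ℤ) ∣ z.im - (rp f z).im :=
  ⟨(Int.mod_modEq z.re f).dvd, (Int.mod_modEq z.im f).dvd⟩

lemma int_uniq {f : ℕ} {a b : ℤ} (ha : 0 ≤ a) (ha' : a < f) (hb : 0 ≤ b) (hb' : b < f)
    (h : (f : ℤ) ∣ a - b) : a = b := by
  have h1 : a % f = b % f := ((Int.modEq_iff_dvd.2 h).symm : a ≡ b [ZMOD f])
  rwa [Int.emod_eq_of_lt ha ha', Int.emod_eq_of_lt hb hb'] at h1

lemma uniq {f : ℕ} {a b : Gi} (ha : a ∈ RS f) (hb : b ∈ RS f)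
    (h : (f : ℤ) ∣ a.re - b.re ∧ (f : ℤ) ∣ a.im - b.im) : a = b := by
  rw [mem_RS] at ha hb
  apply Zsqrtd.ext
  · exact int_uniq ha.1 ha.2.1 hb.1 hb.2.1 h.1
  · exact int_uniq ha.2.2.1 ha.2.2.2 hb.2.2.1 hb.2.2.2 h.2

lemma chi_rp {f : ℕ} {χ : Gi → ℂ} (h : ChQ f χ) (z : Gi) : χ (rp f z) = χ z :=
  (h.per z (rp f z) (rp_dvd f z).1 (rp_dvd f z).2).symm

lemma chi_pow {f : ℕ} {χ : Gi → ℂ} (h : ChQ f χ) (z : Gi) (n : ℕ) : χ (z ^ n) = χ z ^ n := by
  induction n with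
  | zero => rw [pow_zero, pow_zero, h.one]
  | succ n ih => rw [pow_succ, pow_succ, h.mul, ih]

lemma norm_chi {f : ℕ} {χ : Gi → ℂ} (hf : 0 < f) (h : ChQ f χ) (z : Gi) (hz : χ z ≠ 0) :
    ‖χ z‖ = 1 := by
  have h1 : ∃ m n : ℕ, m < n ∧ rp f (z ^ m) = rp f (z ^ n) := by
    have h2 : ¬ Function.Injective (fun n : ℕ => (⟨rp f (z ^ n), rp_mem hf _⟩ : {x // x ∈ RS f})) :=
      not_injective_infinite_finite _
    unfold Function.Injective at h2
    push Not at h2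
    obtain ⟨m, n, h3, h4⟩ := h2
    have h5 : rp f (z ^ m) = rp f (z ^ n) := congrArg Subtype.val h3
    rcases lt_or_gt_of_ne h4 with h6 | h6
    · exact ⟨m, n, h6, h5⟩
    · exact ⟨n, m, h6, h5.symm⟩
  obtain ⟨m, n, hmn, h2⟩ := h1
  have h3 : χ z ^ m = χ z ^ n := by
    rw [← chi_pow h, ← chi_pow h, ← chi_rp h (z ^ m), h2, chi_rp h]
  have h4 : χ z ^ m * χ z ^ (n - m) = χ z ^ m * 1 := by
    rw [← pow_add, Nat.add_sub_cancel' hmn.le, mul_one, h3]
  have h5 : χ z ^ (n - m) = 1 := mul_left_cancel₀ (pow_ne_zero _ hz) h4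
  have h6 : ‖χ z‖ ^ (n - m) = 1 := by rw [← norm_pow, h5, norm_one]
  exact (pow_eq_one_iff_of_nonneg (norm_nonneg _) (by omega)).1 h6

lemma star_cop {f : ℕ} {x : Gi} (h : IsCoprime x (f : Gi)) : IsCoprime (star x) (f : Gi) := by
  obtain ⟨a, b, hab⟩ := h
  refine ⟨star a, star b, ?_⟩
  have h1 : star (a * x + b * (f : Gi)) = star (1 : Gi) := by rw [hab]
  rw [star_add, star_mul', star_mul', star_one, star_natCast] at h1
  exact h1

lemma dvd_iff {f : ℕ} {x y : Gi} : (f : Gi) ∣ x - y ↔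
    (f : ℤ) ∣ x.re - y.re ∧ (f : ℤ) ∣ x.im - y.im := by
  have h := @Zsqrtd.intCast_dvd (-1) (f : ℤ) (x - y)
  rw [Zsqrtd.re_sub, Zsqrtd.im_sub] at h
  have h1 : (((f : ℤ) : Gi)) = (f : Gi) := Int.cast_natCast f
  rw [← h1]
  exact h

lemma orth {f : ℕ} {χ : Gi → ℂ} (hf : 0 < f) (h : ChQ f χ) (x : Gi) (hx : χ x ≠ 0)
    (hx1 : χ x ≠ 1) : ∑ a ∈ RS f, χ a = 0 := by
  have hc : IsCoprime x (f : Gi) := (h.sup x).1 hx
  have hmap : ∀ a ∈ RS f, rp f (x * a) ∈ RS f := fun a _ => rp_mem hf _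
  have hinj : Set.InjOn (fun a => rp f (x * a)) (RS f : Set Gi) := by
    intro a ha b hb hab
    apply uniq ha hb
    rw [← dvd_iff]
    have h1 : (f : Gi) ∣ x * a - rp f (x * a) := dvd_iff.2 (rp_dvd f _)
    have h2 : (f : Gi) ∣ x * b - rp f (x * b) := dvd_iff.2 (rp_dvd f _)
    have h3 : rp f (x * a) = rp f (x * b) := hab
    rw [h3] at h1
    have h4 : (f : Gi) ∣ x * (a - b) := by
      have h5 := dvd_sub h1 h2
      have h6 : x * a - rp f (x * b) - (x * b - rp f (x * b)) = x * (a - b) := by ring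
      rwa [h6] at h5
    exact hc.symm.dvd_of_dvd_mul_left h4
  have hsurj : Set.SurjOn (fun a => rp f (x * a)) (RS f : Set Gi) (RS f : Set Gi) :=
    Finset.surjOn_of_injOn_of_card_le _ hmap hinj le_rfl
  have h1 : ∑ a ∈ RS f, χ (x * a) = ∑ a ∈ RS f, χ a := by
    refine Finset.sum_nbij (fun a => rp f (x * a)) hmap hinj hsurj ?_
    intro a _
    exact (chi_rp h _).symm
  have h2 : ∑ a ∈ RS f, χ (x * a) = χ x * ∑ a ∈ RS f, χ a := by
    rw [mul_sum]
    exact sum_congr rfl fun a _ => h.mul x a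
  rw [h2] at h1
  have h3 : (χ x - 1) * ∑ a ∈ RS f, χ a = 0 := by rw [sub_mul, h1, one_mul, sub_self]
  rcases mul_eq_zero.1 h3 with h4 | h4
  · exact absurd (sub_eq_zero.1 h4) hx1
  · exact h4

end CHBM

open CHBM in
theorem specCHB : SpecCHB := by
  intro f χ hf h
  refine ⟨fun z => ?_, ?_, ?_, fun χ' h' => ?_, ?_, fun z => ?_, fun m => ?_⟩
  · by_cases hz : χ z = 0
    · exact Or.inl hz
    · exact Or.inr (norm_chi hf h z hz)
  · refine ⟨?_, fun x y => ?_, fun x y h1 h2 => ?_, fun x => ?_⟩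
    · show χ 1 ^ 2 = 1
      rw [h.one, one_pow]
    · show χ (x * y) ^ 2 = χ x ^ 2 * χ y ^ 2
      rw [h.mul, mul_pow]
    · show χ x ^ 2 = χ y ^ 2
      rw [h.per x y h1 h2]
    · show χ x ^ 2 ≠ 0 ↔ IsCoprime x (f : Gi)
      rw [← h.sup x]
      exact pow_ne_zero_iff two_ne_zero
  · refine ⟨?_, fun x y => ?_, fun x y h1 h2 => ?_, fun x => ?_⟩
    · show χ (star 1) = 1
      rw [star_one, h.one]
    · show χ (star (x * y)) = χ (star x) * χ (star y)
      rw [star_mul', h.mul]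
    · show χ (star x) = χ (star y)
      apply h.per
      · rw [Zsqrtd.re_star, Zsqrtd.re_star]; exact h1
      · rw [Zsqrtd.im_star, Zsqrtd.im_star]
        have h3 : -x.im - -y.im = -(x.im - y.im) := by ring
        rw [h3]
        exact (dvd_neg).2 h2
    · show χ (star x) ≠ 0 ↔ IsCoprime x (f : Gi)
      rw [h.sup (star x)]
      constructor
      · intro h1
        have h2 := star_cop h1
        rwa [star_star] at h2
      · exact star_cop
  · refine ⟨?_, fun x y => ?_, fun x y h1 h2 => ?_, fun x => ?_⟩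
    · show χ 1 * χ' 1 = 1
      rw [h.one, h'.one, one_mul]
    · show χ (x * y) * χ' (x * y) = χ x * χ' x * (χ y * χ' y)
      rw [h.mul, h'.mul]; ring
    · show χ x * χ' x = χ y * χ' y
      rw [h.per x y h1 h2, h'.per x y h1 h2]
    · show χ x * χ' x ≠ 0 ↔ IsCoprime x (f : Gi)
      rw [mul_ne_zero_iff, h.sup x, h'.sup x, and_self]
  · rintro ⟨x, hx, hx1⟩
    exact orth hf h x hx hx1
  · refine ⟨rp f z, ⟨rp_mem hf z, rp_dvd f z⟩, ?_⟩
    rintro b ⟨hb, h1, h2⟩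
    apply uniq hb (rp_mem hf z)
    have h3 := rp_dvd f z
    constructor
    · have h4 := dvd_sub h3.1 h1
      have h5 : z.re - (rp f z).re - (z.re - b.re) = b.re - (rp f z).re := by ring
      rwa [h5] at h4
    · have h4 := dvd_sub h3.2 h2
      have h5 : z.im - (rp f z).im - (z.im - b.im) = b.im - (rp f z).im := by ring
      rwa [h5] at h4
  · show χ ⟨0, 1⟩ * xi m ⟨0, 1⟩ = χ ⟨0, 1⟩ * Complex.I ^ m
    rw [xi_I]

end Pool.Agent.Lib.MP391708.X.PH
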