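import Pool.Agent.Lib.MP_391708_nt.X.PH.SpecB
import Pool.Agent.Lib.MP_553de0_nt.AA.KRB
import Pool.Agent.Lib.MP_553de0_nt.AA.FBD

/-!
# MP_391708, Theorem X, part PH, module FBG: upper bounds for the series of rough elements
-/

set_option autoImplicit false

namespace Pool.Agent.Lib.MP391708.X.PH

open Finset Filter Topology MeasureTheory
open Pool.Agent.Lib.MP391708.MR
open Pool.Agent.Lib.MP391708.MR.OS (CM RP pw)
open Pool.Agent.Lib.MP391708.QPA (Rough rInd PB)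
open Pool.Agent.Lib.MP054243.AV (ee)
open Pool.Agent.Lib.MP553de0.AA (Ker ft kk kap)

noncomputable section

namespace FBGM

open Pool.Agent.Lib.MP553de0.AA.FBDM (maj pow_exp)

instance : Countable Gi := by
  have : Function.Injective (fun z : Gi => (z.re, z.im)) := by
    intro x y h
    simp only [Prod.mk.injEq] at h
    exact Zsqrtd.ext h.1 h.2
  exact this.countable

lemma norm_ee (x : ℝ) : ‖ee x‖ = 1 := by
  unfold ee
  rw [Complex.norm_exp]
  simp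

lemma ee_zero : ee 0 = 1 := by
  unfold ee
  simp

/-- a power against the exponential function -/
lemma p16 {L v : ℝ} (hL : 1 ≤ L) (hv : 0 ≤ v) {j : ℕ} (hj : j ≤ 2) :
    (v + 1) ^ j * Real.exp (-(v / L)) ≤ 16 * L ^ j * Real.exp (-(v / (2 * L))) := by
  have hL0 : 0 < L := by linarith
  have e1 : Real.exp (-(v / L)) = Real.exp (-(v / (2 * L))) * Real.exp (-(v / (2 * L))) := by
    rw [← Real.exp_add]
    congr 1
    field_simp
    ring
  have e2 : Real.exp (v / (2 * L)) * Real.exp (-(v / (2 * L))) = 1 := by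
    rw [← Real.exp_add]
    simp
  have h0 := Real.exp_pos (-(v / (2 * L)))
  have key : (v + 1) ^ j ≤ 16 * L ^ j * Real.exp (v / (2 * L)) := by
    have h1 : 1 ≤ Real.exp (v / (2 * L)) := Real.one_le_exp (by positivity)
    interval_cases j
    · simp only [pow_zero, mul_one]
      linarith
    · have h := pow_exp hL hv (le_refl 1)
      refine h.trans (mul_le_mul_of_nonneg_right ?_ (by positivity))
      push_cast
      nlinarith
    · have h := pow_exp hL hv (by norm_num : 1 ≤ 2)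
      refine h.trans (mul_le_mul_of_nonneg_right ?_ (by positivity))
      push_cast
      nlinarith
  calc (v + 1) ^ j * Real.exp (-(v / L)) ≤ (16 * L ^ j * Real.exp (v / (2 * L))) * Real.exp (-(v / L)) :=
        mul_le_mul_of_nonneg_right key (Real.exp_pos _).le
    _ = 16 * L ^ j * (Real.exp (v / (2 * L)) * Real.exp (-(v / (2 * L)))) * Real.exp (-(v / (2 * L))) := by
        rw [e1]; ring
    _ = _ := by rw [e2, mul_one]

/-- the trivial bound -/
lemma core1 {f : ℝ → ℂ} {L D C₁ : ℝ} {j : ℕ} (hj : j ≤ 2) (hL : 1 ≤ L) (hD : 0 < D) (hC : 0 ≤ C₁)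
    (h0 : ∀ v, v < 0 → f v = 0)
    (h1 : ∀ v, 0 ≤ v → ‖f v‖ ≤ C₁ * (v + 1) ^ j * Real.exp (-(v / L)) / D) :
    ‖∫ v : ℝ, f v‖ ≤ 32 * C₁ * L ^ j * L / D := by
  have hL0 : 0 < L := by linarith
  have h := maj f (a := 0) (A := 0) (c := C₁ * (16 * L ^ j) / D) (r := 2 * L) le_rfl (by positivity)
    (by positivity) le_rfl h0 (fun v h1 h2 => absurd h2 (not_lt.2 h1)) (fun v hv _ => by
      refine (h1 v hv).trans ?_
      rw [div_mul_eq_mul_div]
      refine div_le_div_of_nonneg_right ?_ hD.le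
      calc C₁ * (v + 1) ^ j * Real.exp (-(v / L)) = C₁ * ((v + 1) ^ j * Real.exp (-(v / L))) := by ring
        _ ≤ C₁ * (16 * L ^ j * Real.exp (-(v / (2 * L)))) := mul_le_mul_of_nonneg_left (p16 hL hv hj) hC
        _ = _ := by ring)
  refine h.trans (le_of_eq ?_)
  ring

/-- below the point `K D` -/
lemma small {v L D K C₁ : ℝ} {j : ℕ} (hL : 1 ≤ L) (hK : 1 ≤ K) (hD : 1 ≤ D) (hC : 0 ≤ C₁) (hv : 0 ≤ v)
    (hva : v < K * D) : C₁ * (v + 1) ^ j * Real.exp (-(v / L)) / D ≤ C₁ * (2 * (K * D)) ^ j / D := by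
  have hL0 : 0 < L := by linarith
  have hKD : 1 ≤ K * D := by nlinarith
  refine div_le_div_of_nonneg_right ?_ (by linarith)
  have h1 : Real.exp (-(v / L)) ≤ 1 := by
    rw [Real.exp_le_one_iff, neg_nonpos]
    positivity
  have h2 : (v + 1) ^ j ≤ (2 * (K * D)) ^ j := pow_le_pow_left₀ (by linarith) (by linarith) j
  calc C₁ * (v + 1) ^ j * Real.exp (-(v / L)) ≤ C₁ * (v + 1) ^ j * 1 :=
        mul_le_mul_of_nonneg_left h1 (by positivity)
    _ ≤ C₁ * (2 * (K * D)) ^ j := by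
        rw [mul_one]
        exact mul_le_mul_of_nonneg_left h2 hC

/-- beyond the point `K D` -/
lemma large {v L D C₁ s : ℝ} {j : ℕ} (hj : j ≤ 2) (hL : 1 ≤ L) (hD : 0 < D) (hC : 0 ≤ C₁) (hs : 0 ≤ s)
    (hv : 0 ≤ v) : C₁ * s * (v + 1) ^ j * Real.exp (-(v / L)) / D ≤
      16 * C₁ * s * L ^ j / D * Real.exp (-(v / (2 * L))) := by
  rw [div_mul_eq_mul_div]
  refine div_le_div_of_nonneg_right ?_ hD.le
  calc C₁ * s * (v + 1) ^ j * Real.exp (-(v / L)) = C₁ * s * ((v + 1) ^ j * Real.exp (-(v / L))) := by ring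
    _ ≤ C₁ * s * (16 * L ^ j * Real.exp (-(v / (2 * L)))) :=
        mul_le_mul_of_nonneg_left (p16 hL hv hj) (by positivity)
    _ = _ := by ring

/-- `s L^j / δ ≤ (δ L)^j` -/
lemma sd {s δ L : ℝ} {j : ℕ} (hj : j ≤ 2) (hδ : 0 < δ) (hδ1 : δ ≤ 1) (hL : 0 < L) (hsδ : s ≤ δ ^ 3) :
    s / δ * L ^ j ≤ (δ * L) ^ j := by
  have h1 : s / δ ≤ δ ^ j := by
    rw [div_le_iff₀ hδ]
    calc s ≤ δ ^ 3 := hsδ
      _ ≤ δ ^ (j + 1) := pow_le_pow_of_le_one hδ.le hδ1 (by omega)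
      _ = δ ^ j * δ := pow_succ _ _
  rw [mul_pow]
  exact mul_le_mul_of_nonneg_right h1 (by positivity)

/-- with oscillation -/
lemma core2 {f : ℝ → ℂ} {L δ K s C₁ : ℝ} {j : ℕ} (hj : j ≤ 2) (hL : 1 ≤ L) (hδ : 0 < δ) (hδ1 : δ ≤ 1)
    (hD : 1 ≤ δ * L) (hC : 0 ≤ C₁) (hK : 1 ≤ K) (hs : 0 ≤ s) (hsδ : s ≤ δ ^ 3)
    (h0 : ∀ v, v < 0 → f v = 0)
    (h1 : ∀ v, 0 ≤ v → ‖f v‖ ≤ C₁ * (v + 1) ^ j * Real.exp (-(v / L)) / (δ * L))
    (h2 : ∀ v, K * (δ * L) ≤ v → ‖f v‖ ≤ C₁ * s * (v + 1) ^ j * Real.exp (-(v / L)) / (δ * L)) :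
    ‖∫ v : ℝ, f v‖ ≤ 36 * C₁ * K ^ (j + 1) * (δ * L) ^ j := by
  have hL0 : 0 < L := by linarith
  have hD0 : 0 < δ * L := by linarith
  have hK0 : 0 < K := by linarith
  have h := maj f (a := K * (δ * L)) (A := C₁ * (2 * (K * (δ * L))) ^ j / (δ * L))
    (c := 16 * C₁ * s * L ^ j / (δ * L)) (r := 2 * L) (by positivity) (by positivity)
    (by positivity) (by positivity) h0 (fun v hv hva => (h1 v hv).trans (small hL hK hD hC hv hva))
    (fun v hv hva => (h2 v hva).trans (large hj hL hD0 hC hs hv))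
  refine h.trans ?_
  have e1 : C₁ * (2 * (K * (δ * L))) ^ j / (δ * L) * (K * (δ * L)) =
      2 ^ j * (C₁ * K ^ (j + 1) * (δ * L) ^ j) := by
    rw [mul_pow, mul_pow, pow_succ]
    field_simp
  have e2 : 16 * C₁ * s * L ^ j / (δ * L) * (2 * L) = 32 * C₁ * (s / δ * L ^ j) := by
    field_simp
    ring
  have h3 : (2 : ℝ) ^ j ≤ 4 := by
    calc (2 : ℝ) ^ j ≤ 2 ^ 2 := pow_le_pow_right₀ (by norm_num) hj
      _ = 4 := by norm_num
  have h4 : C₁ * (s / δ * L ^ j) ≤ C₁ * K ^ (j + 1) * (δ * L) ^ j := by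
    have h5 : (1 : ℝ) ≤ K ^ (j + 1) := one_le_pow₀ hK
    calc C₁ * (s / δ * L ^ j) ≤ C₁ * (δ * L) ^ j :=
          mul_le_mul_of_nonneg_left (sd hj hδ hδ1 hL0 hsδ) hC
      _ ≤ C₁ * K ^ (j + 1) * (δ * L) ^ j := by
          refine mul_le_mul_of_nonneg_right ?_ (by positivity)
          exact le_mul_of_one_le_right hC h5
  have h6 : 0 ≤ C₁ * K ^ (j + 1) * (δ * L) ^ j := by positivity
  rw [e1, e2]
  nlinarith

/-- the square -/
lemma core3 {f : ℝ → ℂ} {L δ K s C₁ : ℝ} {j : ℕ} (hj : j ≤ 2) (hL : 1 ≤ L) (hδ : 0 < δ) (hδ1 : δ ≤ 1)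
    (hD : 1 ≤ δ * L) (hC : 0 ≤ C₁) (hK : 1 ≤ K) (hs : 0 ≤ s) (hsδ : s ≤ δ ^ 3)
    (h0 : ∀ v, v < 0 → f v = 0)
    (h1 : ∀ v, 0 ≤ v → ‖f v‖ ≤ C₁ * (v + 1) ^ j * Real.exp (-(v / L)) / (δ * L))
    (h2 : ∀ v, K * (δ * L) ≤ v → ‖f v‖ ≤ C₁ * s * (v + 1) ^ j * Real.exp (-(v / L)) / (δ * L)) :
    ∫ v : ℝ, ‖f v‖ ^ 2 ≤ 528 * C₁ ^ 2 * K ^ (2 * j + 1) * (δ * L) ^ (2 * j) / (δ * L) := by
  have hL0 : 0 < L := by linarith
  have hD0 : 0 < δ * L := by linarith
  have hK0 : 0 < K := by linarith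
  have h := maj (fun v => ‖f v‖ ^ 2) (a := K * (δ * L)) (A := (C₁ * (2 * (K * (δ * L))) ^ j / (δ * L)) ^ 2)
    (c := (16 * C₁ * s * L ^ j / (δ * L)) ^ 2) (r := 2 * L) (by positivity) (by positivity)
    (by positivity) (by positivity) (fun v hv => by simp only [h0 v hv, norm_zero]; norm_num)
    (fun v hv hva => by
      rw [Real.norm_of_nonneg (by positivity)]
      exact pow_le_pow_left₀ (norm_nonneg _) ((h1 v hv).trans (small hL hK hD hC hv hva)) 2)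
    (fun v hv hva => by
      rw [Real.norm_of_nonneg (by positivity)]
      have h3 := (h2 v hva).trans (large hj hL hD0 hC hs hv)
      have h4 : Real.exp (-(v / (2 * L))) ≤ 1 := by
        rw [Real.exp_le_one_iff, neg_nonpos]
        positivity
      have h5 := Real.exp_pos (-(v / (2 * L)))
      calc ‖f v‖ ^ 2 ≤ (16 * C₁ * s * L ^ j / (δ * L) * Real.exp (-(v / (2 * L)))) ^ 2 :=
            pow_le_pow_left₀ (norm_nonneg _) h3 2
        _ = (16 * C₁ * s * L ^ j / (δ * L)) ^ 2 * (Real.exp (-(v / (2 * L))) * Real.exp (-(v / (2 * L)))) := by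
            ring
        _ ≤ (16 * C₁ * s * L ^ j / (δ * L)) ^ 2 * (Real.exp (-(v / (2 * L))) * 1) := by
            refine mul_le_mul_of_nonneg_left (mul_le_mul_of_nonneg_left h4 h5.le) (by positivity)
        _ = _ := by rw [mul_one])
  refine (Real.le_norm_self _).trans (h.trans ?_)
  have hX : 0 ≤ C₁ ^ 2 * K ^ (2 * j + 1) * (δ * L) ^ (2 * j) / (δ * L) := by positivity
  have e1 : (C₁ * (2 * (K * (δ * L))) ^ j / (δ * L)) ^ 2 * (K * (δ * L)) =
      (2 ^ j) ^ 2 * (C₁ ^ 2 * K ^ (2 * j + 1) * (δ * L) ^ (2 * j) / (δ * L)) := by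
    rw [mul_pow 2, mul_pow K, pow_succ K, pow_mul' K, pow_mul' (δ * L)]
    field_simp
  have e2 : (16 * C₁ * s * L ^ j / (δ * L)) ^ 2 * (2 * L) =
      512 * C₁ ^ 2 * ((s / δ * L ^ j) ^ 2 * δ / (δ * L)) := by
    field_simp
    ring
  have h3 : ((2 : ℝ) ^ j) ^ 2 ≤ 16 := by
    have h3 : (2 : ℝ) ^ j ≤ 4 := by
      calc (2 : ℝ) ^ j ≤ 2 ^ 2 := pow_le_pow_right₀ (by norm_num) hj
        _ = 4 := by norm_num
    have : (0 : ℝ) < 2 ^ j := by positivity
    nlinarith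
  have h4 : C₁ ^ 2 * ((s / δ * L ^ j) ^ 2 * δ / (δ * L)) ≤
      C₁ ^ 2 * K ^ (2 * j + 1) * (δ * L) ^ (2 * j) / (δ * L) := by
    have h5 : (1 : ℝ) ≤ K ^ (2 * j + 1) := one_le_pow₀ hK
    have h6 : (s / δ * L ^ j) ^ 2 ≤ (δ * L) ^ (2 * j) := by
      rw [mul_comm 2 j, pow_mul]
      exact pow_le_pow_left₀ (by positivity) (sd hj hδ hδ1 hL0 hsδ) 2
    rw [← mul_div_assoc]
    refine div_le_div_of_nonneg_right ?_ hD0.le
    have h7 : (0 : ℝ) ≤ (s / δ * L ^ j) ^ 2 := by positivity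
    calc C₁ ^ 2 * ((s / δ * L ^ j) ^ 2 * δ) ≤ C₁ ^ 2 * ((s / δ * L ^ j) ^ 2 * 1) := by
          refine mul_le_mul_of_nonneg_left (mul_le_mul_of_nonneg_left hδ1 h7) (by positivity)
      _ ≤ C₁ ^ 2 * (δ * L) ^ (2 * j) := by
          rw [mul_one]
          exact mul_le_mul_of_nonneg_left h6 (by positivity)
      _ ≤ C₁ ^ 2 * K ^ (2 * j + 1) * (δ * L) ^ (2 * j) := by
          refine mul_le_mul_of_nonneg_right ?_ (by positivity)
          exact le_mul_of_one_le_right (by positivity) h5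
  have e3 : 528 * C₁ ^ 2 * K ^ (2 * j + 1) * (δ * L) ^ (2 * j) / (δ * L) =
      528 * (C₁ ^ 2 * K ^ (2 * j + 1) * (δ * L) ^ (2 * j) / (δ * L)) := by ring
  rw [e1, e2, e3]
  nlinarith

end FBGM

open FBGM in
theorem specFBG (hPLI : SpecPLI) (hSER : SpecSER) (hWEX : SpecWEX) : SpecFBG := by
  intro ρ hρ hρ1
  obtain ⟨C₀, hC₀, hW⟩ := hWEX
  obtain ⟨hKer, -, -, -, -, -, -, -, -, hint, -⟩ := Pool.Agent.Lib.MP553de0.AA.specKRB ρ hρ hρ1
  obtain ⟨C₁, hC₁⟩ : ∃ C₁, C₁ = C₀ * (1 / ρ) := ⟨_, rfl⟩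
  have hC₁p : 0 < C₁ := by rw [hC₁]; positivity
  obtain ⟨C, hC⟩ : ∃ C, C = 1 + 36 * C₁ / ρ + 528 * C₁ ^ 2 := ⟨_, rfl⟩
  have hCa : 0 < 36 * C₁ / ρ := by positivity
  have hCb : 0 < 528 * C₁ ^ 2 := by positivity
  refine ⟨C, by linarith, ?_⟩
  intro G δ L hδ hδ1 hδL hG
  have hL4 : 4 ≤ L := by nlinarith
  have hL0 : 0 < L := by linarith
  have hD0 : 0 < δ * L := by linarith
  have hlamL : 0 < 1 / L := by positivity
  have hlamL1 : 1 / L ≤ 1 := by
    rw [div_le_one hL0]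
    linarith
  have ht2 : 2 ≤ Real.exp (δ * L) := by
    have h1 := Real.add_one_le_exp (δ * L)
    linarith
  have hlogt : Real.log (Real.exp (δ * L)) = δ * L := Real.log_exp _
  have hser := hSER G hG.1
  -- the windows
  have van : ∀ lam : ℝ, 0 < lam → lam ≤ 1 → ∀ j : ℕ, j ≤ 2 → ∀ u v : ℝ, v < 0 →
      WN (kk ρ) G lam j u v = 0 := by
    intro lam h1 h2 j hj u v hv
    refine (hW (1 / ρ) (kk ρ) hKer G _ ht2 hG lam h1 h2 j hj u v).1 ?_
    rw [hlogt]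
    linarith
  have triv : ∀ lam : ℝ, 0 < lam → lam ≤ 1 → ∀ j : ℕ, j ≤ 2 → ∀ u v : ℝ, 0 ≤ v →
      ‖WN (kk ρ) G lam j u v‖ ≤ C₁ * (v + 1) ^ j * Real.exp (-(lam * v)) / (δ * L) := by
    intro lam h1 h2 j hj u v hv
    have h := (hW (1 / ρ) (kk ρ) hKer G _ ht2 hG lam h1 h2 j hj u v).2.1 hv
    rw [hlogt, ← hC₁] at h
    exact h
  have triv' : ∀ lam : ℝ, 1 / L ≤ lam → lam ≤ 1 → ∀ j : ℕ, j ≤ 2 → ∀ u v : ℝ, 0 ≤ v →
      ‖WN (kk ρ) G lam j u v‖ ≤ C₁ * (v + 1) ^ j * Real.exp (-(v / L)) / (δ * L) := by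
    intro lam h1 h2 j hj u v hv
    refine (triv lam (lt_of_lt_of_le hlamL h1) h2 j hj u v hv).trans ?_
    refine div_le_div_of_nonneg_right ?_ hD0.le
    refine mul_le_mul_of_nonneg_left (Real.exp_le_exp.2 ?_) (by positivity)
    have h3 := mul_le_mul_of_nonneg_right h1 hv
    rw [one_div_mul_eq_div] at h3
    linarith
  -- the series from the windows
  have hDN : ∀ lam : ℝ, 0 < lam → ∀ j : ℕ, j ≤ 2 → ∀ u : ℝ,
      ‖DN G lam j u‖ = ‖∫ v : ℝ, WN (kk ρ) G lam j u v‖ / ρ := by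
    intro lam hlam j hj u
    have hsum : Summable fun z : Gi => ‖an G lam j z * ee (-(u * Real.log (nm z)))‖ := by
      refine (((hser lam hlam).1 j hj).2).congr fun z => ?_
      rw [norm_mul, norm_ee, mul_one]
    have h1 := (hPLI (1 / ρ) (kk ρ) hKer Gi (fun z => an G lam j z * ee (-(u * Real.log (nm z))))
      (fun z => Real.log (nm z)) hsum).2.2.2.2.2
    rw [hint] at h1
    have h2 : ‖DN G lam j u * ((ρ : ℝ) : ℂ)‖ = ‖∫ v : ℝ, WN (kk ρ) G lam j u v‖ := by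
      unfold DN WN
      rw [h1]
    rw [← h2, norm_mul, Complex.norm_real, Real.norm_of_nonneg hρ.le]
    field_simp
  have hDJ : ∀ lam : ℝ, 0 < lam → ∀ u : ℝ, ‖DJ G lam 0 u‖ ≤ 1 + ‖DN G lam 0 u‖ := by
    intro lam hlam u
    rw [((hser lam hlam).2.2 u).1]
    exact (norm_add_le _ _).trans (by rw [norm_one])
  refine ⟨?_, ?_, ?_⟩
  · intro lam u h1 h2
    have hlam : 0 < lam := lt_of_lt_of_le hlamL h1
    refine (hDJ lam hlam u).trans (add_le_add_right ?_ 1)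
    rw [hDN lam hlam 0 (by norm_num) u, div_le_iff₀ hρ]
    have h := Pool.Agent.Lib.MP553de0.AA.FBDM.maj (WN (kk ρ) G lam 0 u) (a := 0) (A := 0)
      (c := C₁ / (δ * L)) (r := 1 / lam) le_rfl (by positivity) (by positivity) le_rfl
      (van lam hlam h2 0 (by norm_num) u) (fun v h1 h2 => absurd h2 (not_lt.2 h1)) (fun v hv _ => by
        refine (triv lam hlam h2 0 (by norm_num) u v hv).trans (le_of_eq ?_)
        rw [pow_zero, mul_one, div_div_eq_mul_div, div_one, mul_comm v lam]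
        ring)
    refine h.trans ?_
    rw [mul_zero, zero_add]
    have h3 : C₁ ≤ C * ρ := by
      have h4 : 36 * C₁ = 36 * C₁ / ρ * ρ := by field_simp
      nlinarith
    calc C₁ / (δ * L) * (1 / lam) = C₁ / (lam * (δ * L)) := by field_simp
      _ ≤ C * ρ / (lam * (δ * L)) := div_le_div_of_nonneg_right h3 (by positivity)
      _ = _ := by ring
  · intro j hj u
    rw [hDN (1 / L) hlamL j hj u, div_le_iff₀ hρ]
    refine (core1 hj (by linarith) hD0 hC₁p.le (van (1 / L) hlamL hlamL1 j hj u)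
      (triv' (1 / L) le_rfl hlamL1 j hj u)).trans ?_
    have h3 : 32 * C₁ ≤ C * ρ := by
      have h4 : 36 * C₁ = 36 * C₁ / ρ * ρ := by field_simp
      nlinarith
    calc 32 * C₁ * L ^ j * L / (δ * L) = 32 * C₁ * (L ^ j / δ) := by field_simp
      _ ≤ C * ρ * (L ^ j / δ) := mul_le_mul_of_nonneg_right h3 (by positivity)
      _ = _ := by ring
  · intro K s U hK hs hsδ hU hOsc
    have hK0 : 0 < K := by linarith
    have osc : ∀ lam : ℝ, 1 / L ≤ lam → lam ≤ 1 → ∀ j : ℕ, j ≤ 2 → ∀ u v : ℝ, |u| ≤ U →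
        K * (δ * L) ≤ v →
        ‖WN (kk ρ) G lam j u v‖ ≤ C₁ * s * (v + 1) ^ j * Real.exp (-(v / L)) / (δ * L) := by
      intro lam h1 h2 j hj u v hu hv
      have hv4 : 4 ≤ v := by nlinarith
      have h := (hW (1 / ρ) (kk ρ) hKer G _ ht2 hG lam (lt_of_lt_of_le hlamL h1) h2 j hj u v).2.2
        δ K s L U hδ hL0 hs hOsc hv (by linarith) hu
      have e : C₀ * s * (1 / ρ) = C₁ * s := by rw [hC₁]; ring
      rw [e] at h
      refine h.trans ?_
      refine div_le_div_of_nonneg_right ?_ hD0.le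
      refine mul_le_mul_of_nonneg_left (Real.exp_le_exp.2 ?_) (by positivity)
      have h3 := mul_le_mul_of_nonneg_right h1 (by linarith : 0 ≤ v)
      rw [one_div_mul_eq_div] at h3
      linarith
    have up : ∀ lam u : ℝ, 1 / L ≤ lam → lam ≤ 1 → |u| ≤ U → ∀ j : ℕ, j ≤ 2 →
        ‖DN G lam j u‖ ≤ 36 * C₁ / ρ * (K ^ (j + 1) * (δ * L) ^ j) := by
      intro lam u h1 h2 hu j hj
      have hlam : 0 < lam := lt_of_lt_of_le hlamL h1
      rw [hDN lam hlam j hj u]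
      have h := core2 (f := WN (kk ρ) G lam j u) hj (by linarith) hδ hδ1 (by linarith) hC₁p.le hK hs hsδ
        (van lam hlam h2 j hj u) (triv' lam h1 h2 j hj u) (osc lam h1 h2 j hj u · hu)
      calc _ ≤ 36 * C₁ * K ^ (j + 1) * (δ * L) ^ j / ρ := div_le_div_of_nonneg_right h hρ.le
        _ = _ := by ring
    have sq : ∀ j : ℕ, j ≤ 2 → ∫ u : ℝ, ‖DN G (1 / L) j u‖ ^ 2 * ‖ft (kk ρ) u‖ ^ 2 ≤
        528 * C₁ ^ 2 * K ^ (2 * j + 1) * (δ * L) ^ (2 * j) / (δ * L) := by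
      intro j hj
      have h1 := (hPLI (1 / ρ) (kk ρ) hKer Gi (fun z => an G (1 / L) j z)
        (fun z => Real.log (nm z)) (((hser (1 / L) hlamL).1 j hj).2)).2.2.2.2.1
      have h2 : ∫ u : ℝ, ‖DN G (1 / L) j u‖ ^ 2 * ‖ft (kk ρ) u‖ ^ 2 =
          ∫ v : ℝ, ‖WN (kk ρ) G (1 / L) j 0 v‖ ^ 2 := by
        unfold DN WN
        rw [← h1]
        simp only [zero_mul, neg_zero, ee_zero, mul_one]
      rw [h2]
      exact core3 hj (by linarith) hδ hδ1 (by linarith) hC₁p.le hK hs hsδ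
        (van (1 / L) hlamL hlamL1 j hj 0) (triv' (1 / L) le_rfl hlamL1 j hj 0)
        (fun v hv => osc (1 / L) le_rfl hlamL1 j hj 0 v (by rw [abs_zero]; exact hU) hv)
    have hCc : 528 * C₁ ^ 2 ≤ C := by linarith
    refine ⟨?_, ?_, ?_, ?_⟩
    · intro lam u h1 h2 hu
      have hlam : 0 < lam := lt_of_lt_of_le hlamL h1
      constructor
      · have h3 := up lam u h1 h2 hu 0 (by norm_num)
        have h4 := hDJ lam hlam u
        rw [zero_add, pow_one, pow_zero, mul_one] at h3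
        nlinarith
      · rw [((hser lam hlam).2.2 u).2.1]
        refine (up lam u h1 h2 hu 1 (by norm_num)).trans ?_
        rw [pow_one]
        calc 36 * C₁ / ρ * (K ^ (1 + 1) * (δ * L)) ≤ C * (K ^ (1 + 1) * (δ * L)) :=
              mul_le_mul_of_nonneg_right (by linarith) (by positivity)
          _ = _ := by ring
    · refine (sq 0 (by norm_num)).trans ?_
      refine div_le_div_of_nonneg_right ?_ hD0.le
      simp only [mul_zero, zero_add, pow_one, pow_zero, mul_one]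
      exact mul_le_mul_of_nonneg_right hCc hK0.le
    · refine (sq 1 (by norm_num)).trans ?_
      have e : 528 * C₁ ^ 2 * K ^ (2 * 1 + 1) * (δ * L) ^ (2 * 1) / (δ * L) =
          528 * C₁ ^ 2 * (K ^ 3 * (δ * L)) := by
        field_simp
        ring
      rw [e, mul_assoc C]
      exact mul_le_mul_of_nonneg_right hCc (by positivity)
    · refine (sq 2 (by norm_num)).trans ?_
      have e : 528 * C₁ ^ 2 * K ^ (2 * 2 + 1) * (δ * L) ^ (2 * 2) / (δ * L) =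
          528 * C₁ ^ 2 * (K ^ 5 * (δ * L) ^ 3) := by
        field_simp
        ring
      rw [e, mul_assoc C]
      exact mul_le_mul_of_nonneg_right hCc (by positivity)

end

end Pool.Agent.Lib.MP391708.X.PH
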