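import Pool.Agent.Lib.MP_391708_nt.X.PH.SpecB

/-!
# MP_391708, Theorem X, part PH, module FLG: the lower bound (helper77)
-/

set_option autoImplicit false

namespace Pool.Agent.Lib.MP391708.X.PH

open Finset Filter Topology MeasureTheory
open Pool.Agent.Lib.MP391708.MR
open Pool.Agent.Lib.MP391708.MR.OS (CM RP pw)
open Pool.Agent.Lib.MP391708.QPA (Rough rInd PB)
open Pool.Agent.Lib.MP054243.AV (ee)
open Pool.Agent.Lib.MP553de0.AA (Ker ft kk kap)

namespace FLGM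

theorem rcm_sq {G : Gi → ℂ} {t : ℝ} (h : RCM G t) : RCM (fun z => G z ^ 2) t := by
  obtain ⟨hc, hv, hr⟩ := h
  refine ⟨⟨?_, ?_, ?_, ?_⟩, ?_, ?_⟩
  · simp [hc.one]
  · simp [hc.I]
  · intro x y
    simp only [hc.mul, mul_pow]
  · intro z
    rw [norm_pow]
    exact pow_le_one₀ (norm_nonneg _) (hc.le z)
  · intro z
    rcases hv z with h | h
    · left
      simp [h]
    · right
      rw [norm_pow, h, one_pow]
  · intro z hz
    refine hr z fun h0 => hz ?_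
    simp [h0]

theorem rcm_norm {G : Gi → ℂ} {t : ℝ} (h : RCM G t) :
    RCM (fun z => ((‖G z‖ : ℝ) : ℂ) ^ 2) t := by
  obtain ⟨hc, hv, hr⟩ := h
  refine ⟨⟨?_, ?_, ?_, ?_⟩, ?_, ?_⟩
  · simp [hc.one]
  · simp [hc.I]
  · intro x y
    simp only [hc.mul, norm_mul, Complex.ofReal_mul, mul_pow]
  · intro z
    rw [norm_pow, Complex.norm_real, norm_norm]
    exact pow_le_one₀ (norm_nonneg _) (hc.le z)
  · intro z
    rcases hv z with h | h
    · left
      simp [h]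
    · right
      rw [norm_pow, Complex.norm_real, norm_norm, h, one_pow]
  · intro z hz
    refine hr z fun h0 => hz ?_
    simp [h0]

theorem rcm_star {G : Gi → ℂ} {t : ℝ} (h : RCM G t) : RCM (fun z => G z * G (star z)) t := by
  obtain ⟨hc, hv, hr⟩ := h
  have hI : G (star ⟨0, 1⟩) = 1 := by
    have e : (star ⟨0, 1⟩ : Gi) = ⟨0, 1⟩ * (⟨0, 1⟩ * ⟨0, 1⟩) := by
      rw [Zsqrtd.ext_iff]
      simp
    rw [e, hc.mul, hc.mul, hc.I]
    simp
  refine ⟨⟨?_, ?_, ?_, ?_⟩, ?_, ?_⟩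
  · simp [hc.one]
  · show G ⟨0, 1⟩ * G (star ⟨0, 1⟩) = 1
    rw [hI, hc.I, one_mul]
  · intro x y
    show G (x * y) * G (star (x * y)) = _
    rw [star_mul', hc.mul, hc.mul]
    ring
  · intro z
    rw [norm_mul]
    exact mul_le_one₀ (hc.le z) (norm_nonneg _) (hc.le _)
  · intro z
    rcases hv z with h | h
    · left
      simp [h]
    · rcases hv (star z) with h' | h'
      · left
        simp [h']
      · right
        rw [norm_mul, h, h', one_mul]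
  · intro z hz
    refine hr z fun h0 => hz ?_
    simp [h0]

theorem mvt (hSER : SpecSER) {G : Gi → ℂ} (hG : CM G) {a b M u : ℝ} (ha : 0 < a) (hab : a ≤ b)
    (hM : ∀ r, a ≤ r → r ≤ b → ‖DJ G r 1 u‖ ≤ M) :
    ‖DJ G b 0 u - DJ G a 0 u‖ ≤ M * (b - a) := by
  have h := Convex.norm_image_sub_le_of_norm_hasDerivWithin_le (𝕜 := ℝ)
    (f := fun r : ℝ => DJ G r 0 u) (f' := fun r => -DJ G r 1 u) (C := M) (s := Set.Icc a b)
    (x := a) (y := b) ?_ ?_ (convex_Icc a b) ⟨le_rfl, hab⟩ ⟨hab, le_rfl⟩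
  · rwa [Real.norm_of_nonneg (sub_nonneg.2 hab)] at h
  · intro r hr
    exact ((hSER G hG r (ha.trans_le hr.1)).2.2 u).2.2.2.2.2.hasDerivWithinAt
  · intro r hr
    rw [norm_neg]
    exact hM r hr.1 hr.2

theorem num {C K lam X : ℝ} (hC : 1 ≤ C) (hK : 1 ≤ K) (hl : lam = 1 / (128 * C ^ 9 * K ^ 10))
    (hX : 0 ≤ X) (h : 1 ≤ (2 * C / lam) ^ 3 * X ^ 4 * (C * K) ^ 2) : 2 * C * K ^ 2 * lam ≤ X := by
  have hC0 : 0 < C := by linarith
  have hK0 : 0 < K := by linarith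
  have hl0 : 0 < lam := by rw [hl]; positivity
  by_contra hlt
  rw [not_le] at hlt
  have h1 : X ^ 4 < (2 * C * K ^ 2 * lam) ^ 4 := pow_lt_pow_left₀ hlt hX (by norm_num)
  have h2 : (2 * C / lam) ^ 3 * X ^ 4 * (C * K) ^ 2 <
      (2 * C / lam) ^ 3 * (2 * C * K ^ 2 * lam) ^ 4 * (C * K) ^ 2 := by
    have : 0 < (2 * C / lam) ^ 3 := by positivity
    have h3 : 0 < (C * K) ^ 2 := by positivity
    exact mul_lt_mul_of_pos_right (mul_lt_mul_of_pos_left h1 this) h3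
  have h3 : (2 * C / lam) ^ 3 * (2 * C * K ^ 2 * lam) ^ 4 * (C * K) ^ 2 = 1 := by
    have e : (2 * C / lam) ^ 3 * (2 * C * K ^ 2 * lam) ^ 4 * (C * K) ^ 2 =
        128 * C ^ 9 * K ^ 10 * lam := by
      field_simp
      ring
    rw [e, hl]
    field_simp
  linarith

end FLGM

open FLGM

/-- **FLG**. -/
theorem specFLG (hSER : SpecSER) (hT1G : SpecT1G) (hT2G : SpecT2G) (hFBG : SpecFBG) : SpecFLG := by
  obtain ⟨C, hC, hF⟩ := hFBG (1 / 16) (by norm_num) le_rfl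
  have hC0 : 0 < C := by linarith
  have hC9 : (1 : ℝ) ≤ C ^ 9 := one_le_pow₀ hC
  refine ⟨1 / (128 * C ^ 9), by positivity, ?_, ?_⟩
  · rw [div_le_one (by positivity)]
    linarith
  intro G δ L K s U hδ hδc hδL hK hs hsδ hU hG hO hcase u hu
  have hK0 : 0 < K := by linarith
  have hKr : K ^ (-10 : ℝ) = 1 / K ^ 10 := by
    rw [Real.rpow_neg hK0.le, one_div]
    norm_cast
  have hKr8 : K ^ (-8 : ℝ) = 1 / K ^ 8 := by
    rw [Real.rpow_neg hK0.le, one_div]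
    norm_cast
  set lam : ℝ := 1 / (128 * C ^ 9 * K ^ 10) with hlam
  have hlam0 : 0 < lam := by positivity
  have hδl : δ ≤ lam := by
    refine hδc.trans (le_of_eq ?_)
    rw [hKr, hlam]
    field_simp
  have hlam1 : lam ≤ 1 := by
    rw [hlam, div_le_one (by positivity)]
    have : (1 : ℝ) ≤ K ^ 10 := one_le_pow₀ hK
    nlinarith
  have hδ1 : δ ≤ 1 := hδl.trans hlam1
  have hL0 : 0 < L := by
    by_contra h
    rw [not_lt] at h
    nlinarith
  have hδL0 : 0 < δ * L := by linarith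
  set r : ℝ := lam / (δ * L) with hr
  have hr0 : 0 < r := by positivity
  have hLr : 1 / L ≤ r := by
    rw [hr, div_le_div_iff₀ hL0 hδL0]
    nlinarith
  have hr1 : r ≤ 1 := by
    rw [hr, div_le_one hδL0]
    linarith
  have hrδ : r * (δ * L) = lam := by
    rw [hr]
    field_simp
  have hL1 : 0 < 1 / L := by positivity
  -- the three series at `r`
  have hQ : ‖DJ (fun z => ((‖G z‖ : ℝ) : ℂ) ^ 2) r 0 0‖ ≤ 2 * C / lam := by
    have h1 := (hF _ δ L hδ hδ1 hδL (rcm_norm hG)).1 r 0 hLr hr1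
    rw [hrδ] at h1
    refine h1.trans ?_
    have : (1 : ℝ) ≤ C / lam := by
      rw [le_div_iff₀ hlam0]
      linarith
    have e : 2 * C / lam = C / lam + C / lam := by ring
    linarith
  have hCK : 1 ≤ C * K := by nlinarith
  have hX0 : 0 ≤ ‖DJ G r 0 u‖ := norm_nonneg _
  have key : 1 ≤ (2 * C / lam) ^ 3 * ‖DJ G r 0 u‖ ^ 4 * (C * K) ^ 2 := by
    have hq3 : ‖DJ (fun z => ((‖G z‖ : ℝ) : ℂ) ^ 2) r 0 0‖ ^ 3 ≤ (2 * C / lam) ^ 3 :=
      pow_le_pow_left₀ (norm_nonneg _) hQ 3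
    rcases hcase with h | ⟨hre, hst, h⟩
    · have h1 := (((hF _ δ L hδ hδ1 hδL (rcm_sq hG)).2.2 K s (2 * U) hK hs hsδ (by linarith) h).1
        r (2 * u) hLr hr1 (by rw [abs_mul, abs_two]; linarith)).1
      have h2 := hT1G G hG.1 hG.2.1 r u hr0
      refine h2.trans ?_
      have h3 : ‖DJ (fun z => G z ^ 2) r 0 (2 * u)‖ ≤ (C * K) ^ 2 := by
        refine h1.trans ?_
        nlinarith
      exact mul_le_mul (mul_le_mul_of_nonneg_right hq3 (by positivity)) h3 (norm_nonneg _)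
        (by positivity)
    · have h1 := (((hF _ δ L hδ hδ1 hδL (rcm_star hG)).2.2 K s U hK hs hsδ hU h).1
        r 0 hLr hr1 (by rw [abs_zero]; exact hU)).1
      have h2 := hT2G G hG.1 hre hst r u hr0
      refine h2.trans ?_
      exact mul_le_mul (mul_le_mul_of_nonneg_right hq3 (by positivity))
        (pow_le_pow_left₀ (norm_nonneg _) h1 2) (by positivity) (by positivity)
  have hX := num hC hK hlam hX0 key
  have hD : ∀ x, 1 / L ≤ x → x ≤ r → ‖DJ G x 1 u‖ ≤ C * K ^ 2 * (δ * L) := fun x h1 h2 =>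
    (((hF G δ L hδ hδ1 hδL hG).2.2 K s U hK hs hsδ hU hO).1 x u h1 (h2.trans hr1) hu).2
  have hdiff := mvt hSER hG.1 hL1 hLr hD
  have h1 : C * K ^ 2 * (δ * L) * (r - 1 / L) ≤ C * K ^ 2 * lam := by
    have e : C * K ^ 2 * (δ * L) * (r - 1 / L) =
        C * K ^ 2 * (r * (δ * L)) - C * K ^ 2 * (δ * L) * (1 / L) := by ring
    rw [e, hrδ]
    have : 0 ≤ C * K ^ 2 * (δ * L) * (1 / L) := by positivity
    linarith
  have h2 : ‖DJ G r 0 u‖ ≤ ‖DJ G r 0 u - DJ G (1 / L) 0 u‖ + ‖DJ G (1 / L) 0 u‖ := by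
    have := norm_add_le (DJ G r 0 u - DJ G (1 / L) 0 u) (DJ G (1 / L) 0 u)
    rwa [sub_add_cancel] at this
  have h3 : C * K ^ 2 * lam ≤ ‖DJ G (1 / L) 0 u‖ := by linarith
  refine le_trans ?_ h3
  rw [hKr8, hlam]
  have e : C * K ^ 2 * (1 / (128 * C ^ 9 * K ^ 10)) = C * (1 / (128 * C ^ 9) * (1 / K ^ 8)) := by
    field_simp
  rw [e]
  exact le_mul_of_one_le_left (by positivity) hC

end Pool.Agent.Lib.MP391708.X.PH
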