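import Pool.Agent.Lib.MP_391708_nt.X.PH.SpecA
import Pool.Agent.Lib.MP_391708_nt.QPA.FL
import Pool.Agent.Lib.MP_553de0_nt.AA.KRA

/-!
# MP_391708, Theorem X, part PH: module FLU, the fundamental lemma for windows of the rough elements
-/

set_option autoImplicit false

namespace Pool.Agent.Lib.MP391708.X.PH

open Finset Filter Topology MeasureTheory
open Pool.Agent.Lib.MP391708.MR
open Pool.Agent.Lib.MP391708.MR.OS (CM RP pw)
open Pool.Agent.Lib.MP391708.QPA (Rough rInd PB)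
open Pool.Agent.Lib.MP054243.AV (ee)
open Pool.Agent.Lib.MP553de0.AA (Ker ft kk kap)

noncomputable section

namespace FLUM

/-- grouping by the norm -/
lemma group (D : Finset Gi) (N : ℕ) (hD : ∀ z ∈ D, nm z ∈ Icc 1 N) (r : Gi → ℝ) (φ : ℕ → ℝ) :
    ∑ n ∈ Icc 1 N, (∑ z ∈ D.filter (fun z => nm z = n), r z) * φ n = ∑ z ∈ D, r z * φ (nm z) := by
  rw [← Finset.sum_fiberwise_of_maps_to hD]
  refine sum_congr rfl fun n _ => ?_
  rw [Finset.sum_mul]
  refine sum_congr rfl fun z hz => ?_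
  rw [(mem_filter.1 hz).2]

lemma harm (N : ℕ) : ∑ d ∈ Icc 1 N, (1 / (d : ℝ)) ≤ 1 + Real.log N := by
  have h := harmonic_le_one_add_log N
  rw [harmonic_eq_sum_Icc] at h
  push_cast at h
  simpa [one_div] using h

lemma poly_exp {c w : ℝ} (hc : 0 < c) (hc1 : c ≤ 1) (hw : 0 ≤ w) :
    (1 + w) ^ 2 ≤ 64 / c ^ 2 * Real.exp (c * w / 4) := by
  have h1 : 1 + w ≤ 8 / c * Real.exp (c * w / 8) := by
    have h2 : c * w / 8 + 1 ≤ Real.exp (c * w / 8) := Real.add_one_le_exp _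
    have h3 : 1 + w ≤ 8 / c * (c * w / 8 + 1) := by
      have : 8 / c * (c * w / 8 + 1) = w + 8 / c := by field_simp
      rw [this]
      have : 1 ≤ 8 / c := by rw [le_div_iff₀ hc]; linarith
      linarith
    exact h3.trans (mul_le_mul_of_nonneg_left h2 (by positivity))
  calc (1 + w) ^ 2 ≤ (8 / c * Real.exp (c * w / 8)) ^ 2 := pow_le_pow_left₀ (by linarith) h1 2
    _ = 64 / c ^ 2 * Real.exp (c * w / 4) := by
      rw [mul_pow, ← Real.exp_nat_mul]
      congr 1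
      · ring
      · congr 1; push_cast; ring

/-- the number of prime factors -/
lemma three_pow : ∃ C : ℝ, 0 < C ∧ ∀ δ : ℕ, Squarefree δ →
    (3 : ℝ) ^ δ.primeFactors.card ≤ C * (δ : ℝ) ^ (1 / 8 : ℝ) := by
  obtain ⟨M, hM⟩ : ∃ M : ℕ, ∀ p : ℕ, M ≤ p → (3 : ℝ) ≤ (p : ℝ) ^ (1 / 8 : ℝ) := by
    have h := (tendsto_rpow_atTop (show (0 : ℝ) < 1 / 8 by norm_num)).comp
      (tendsto_natCast_atTop_atTop (R := ℝ))
    exact eventually_atTop.1 (h.eventually_ge_atTop 3)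
  refine ⟨3 ^ M, by positivity, fun δ hδ => ?_⟩
  calc (3 : ℝ) ^ δ.primeFactors.card = ∏ p ∈ δ.primeFactors, (3 : ℝ) := by
        rw [Finset.prod_const]
    _ ≤ ∏ p ∈ δ.primeFactors, ((if p < M then (3 : ℝ) else 1) * (p : ℝ) ^ (1 / 8 : ℝ)) := by
        refine Finset.prod_le_prod (fun _ _ => by norm_num) fun p hp => ?_
        have h1 : (1 : ℝ) ≤ (p : ℝ) := by
          exact_mod_cast (Nat.prime_of_mem_primeFactors hp).one_lt.le
        by_cases h : p < M
        · rw [if_pos h]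
          have : (1 : ℝ) ≤ (p : ℝ) ^ (1 / 8 : ℝ) := Real.one_le_rpow h1 (by norm_num)
          linarith
        · rw [if_neg h, one_mul]
          exact hM p (not_lt.1 h)
    _ = (∏ p ∈ δ.primeFactors, (if p < M then (3 : ℝ) else 1)) *
          ∏ p ∈ δ.primeFactors, (p : ℝ) ^ (1 / 8 : ℝ) := Finset.prod_mul_distrib
    _ ≤ 3 ^ M * (δ : ℝ) ^ (1 / 8 : ℝ) := by
        refine mul_le_mul ?_ (le_of_eq ?_) (Finset.prod_nonneg fun _ _ => by positivity)
          (by positivity)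
        · rw [Finset.prod_ite, Finset.prod_const, Finset.prod_const_one, mul_one]
          refine pow_le_pow_right₀ (by norm_num) ?_
          calc (δ.primeFactors.filter (fun p => p < M)).card ≤ (range M).card :=
                Finset.card_le_card fun p hp => mem_range.2 (mem_filter.1 hp).2
            _ = M := card_range M
        · rw [Real.finsetProd_rpow _ _ (fun _ _ => by positivity)]
          congr 1
          rw [← Nat.cast_prod, Nat.prod_primeFactors_of_squarefree hδ]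

open scoped Classical in
/-- the remainder for one `δ` -/
lemma rem {CU B w : ℝ} {g : ℝ → ℝ} (hCU : 0 < CU) (hB : 0 ≤ B)
    (hU : ∀ (α : Gi), α ≠ 0 → (nm α : ℝ) ≤ Real.exp w →
      |∑ z ∈ (disc (Real.exp (w + 1))).filter (fun z => α ∣ z), g (Real.log (nm z) - w) / (nm z : ℝ)
        - Real.pi / (nm α : ℝ) * ∫ x, g x| ≤
        CU * B / (nm α : ℝ) * (Real.exp w / (nm α : ℝ)) ^ (-(1 / 2) : ℝ))
    (hDIV : SpecDIV) (hw : 0 ≤ w) {δ : ℕ} (hδ : Squarefree δ) (hδw : (δ : ℝ) ^ 2 ≤ Real.exp (w / 2)) :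
    |∑ z ∈ (disc (Real.exp (w + 1))).filter (fun z => δ ∣ nm z),
        g (Real.log (nm z) - w) / (nm z : ℝ) -
        Real.pi * (∫ x, g x) * ∏ p ∈ δ.primeFactors, gG p| ≤
      CU * B * Real.exp (-(w / 4)) * ((3 : ℝ) ^ δ.primeFactors.card / δ) := by
  obtain ⟨n, α, e, hn, hα, hind, hsum⟩ := hDIV δ hδ
  have hδ0 : (0 : ℝ) < δ := by
    have : 0 < δ := Nat.pos_of_ne_zero hδ.ne_zero
    exact_mod_cast this
  set r : Gi → ℝ := fun z => g (Real.log (nm z) - w) / (nm z : ℝ) with hr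
  set J : ℝ := ∫ x, g x with hJ
  have e1 : ∑ z ∈ (disc (Real.exp (w + 1))).filter (fun z => δ ∣ nm z), r z =
      ∑ i, e i * ∑ z ∈ (disc (Real.exp (w + 1))).filter (fun z => α i ∣ z), r z := by
    calc ∑ z ∈ (disc (Real.exp (w + 1))).filter (fun z => δ ∣ nm z), r z =
        ∑ z ∈ disc (Real.exp (w + 1)), (if δ ∣ nm z then (1 : ℝ) else 0) * r z := by
          rw [Finset.sum_filter]
          refine sum_congr rfl fun z _ => ?_
          split_ifs <;> simp
      _ = ∑ z ∈ disc (Real.exp (w + 1)), ∑ i, (if α i ∣ z then e i else 0) * r z := by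
          refine sum_congr rfl fun z _ => ?_
          rw [← hind z, Finset.sum_mul]
      _ = ∑ i, ∑ z ∈ disc (Real.exp (w + 1)), (if α i ∣ z then e i else 0) * r z :=
          Finset.sum_comm
      _ = _ := by
          refine sum_congr rfl fun i _ => ?_
          rw [Finset.sum_filter, Finset.mul_sum]
          refine sum_congr rfl fun z _ => ?_
          split_ifs <;> simp
  have e2 : Real.pi * J * ∏ p ∈ δ.primeFactors, gG p =
      ∑ i, e i * (Real.pi / (nm (α i) : ℝ) * J) := by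
    rw [← hsum, Finset.mul_sum]
    refine sum_congr rfl fun i _ => ?_
    ring
  rw [e1, e2, ← Finset.sum_sub_distrib]
  have hterm : ∀ i : Fin n, |e i * ∑ z ∈ (disc (Real.exp (w + 1))).filter (fun z => α i ∣ z), r z -
      e i * (Real.pi / (nm (α i) : ℝ) * J)| ≤ CU * B * Real.exp (-(w / 4)) / δ := by
    intro i
    obtain ⟨h0, h1, h2, h3⟩ := hα i
    have hnm0 : 0 < nm (α i) := nm_pos h0
    have hle1 : (δ : ℝ) ≤ (nm (α i) : ℝ) := by exact_mod_cast Nat.le_of_dvd hnm0 h1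
    have hle2 : (nm (α i) : ℝ) ≤ Real.exp (w / 2) := by
      have h4 : nm (α i) ≤ δ ^ 2 := Nat.le_of_dvd (by
        have : 0 < δ := Nat.pos_of_ne_zero hδ.ne_zero
        positivity) h2
      have h5 : (nm (α i) : ℝ) ≤ (δ : ℝ) ^ 2 := by exact_mod_cast h4
      linarith
    have hnmr : (0 : ℝ) < (nm (α i) : ℝ) := by exact_mod_cast hnm0
    have h6 := hU (α i) h0 (hle2.trans (Real.exp_le_exp.2 (by linarith)))
    have hq : Real.exp (w / 2) ≤ Real.exp w / (nm (α i) : ℝ) := by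
      rw [le_div_iff₀ hnmr]
      calc Real.exp (w / 2) * (nm (α i) : ℝ) ≤ Real.exp (w / 2) * Real.exp (w / 2) :=
            mul_le_mul_of_nonneg_left hle2 (Real.exp_pos _).le
        _ = Real.exp w := by rw [← Real.exp_add]; congr 1; ring
    have h7 : (Real.exp w / (nm (α i) : ℝ)) ^ (-(1 / 2) : ℝ) ≤ Real.exp (-(w / 4)) := by
      calc (Real.exp w / (nm (α i) : ℝ)) ^ (-(1 / 2) : ℝ) ≤ (Real.exp (w / 2)) ^ (-(1 / 2) : ℝ) :=
            Real.rpow_le_rpow_of_nonpos (Real.exp_pos _) hq (by norm_num)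
        _ = Real.exp (-(w / 4)) := by rw [← Real.exp_mul]; congr 1; ring
    rw [← mul_sub, abs_mul]
    calc |e i| * |∑ z ∈ (disc (Real.exp (w + 1))).filter (fun z => α i ∣ z), r z -
          Real.pi / (nm (α i) : ℝ) * J| ≤ 1 * (CU * B / (nm (α i) : ℝ) *
            (Real.exp w / (nm (α i) : ℝ)) ^ (-(1 / 2) : ℝ)) :=
          mul_le_mul h3 h6 (abs_nonneg _) (by norm_num)
      _ ≤ CU * B / (nm (α i) : ℝ) * Real.exp (-(w / 4)) := by
          rw [one_mul]
          exact mul_le_mul_of_nonneg_left h7 (by positivity)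
      _ ≤ CU * B / δ * Real.exp (-(w / 4)) := by
          refine mul_le_mul_of_nonneg_right ?_ (Real.exp_pos _).le
          exact div_le_div_of_nonneg_left (by positivity) hδ0 hle1
      _ = CU * B * Real.exp (-(w / 4)) / δ := by ring
  calc |∑ i, (e i * ∑ z ∈ (disc (Real.exp (w + 1))).filter (fun z => α i ∣ z), r z -
        e i * (Real.pi / (nm (α i) : ℝ) * J))| ≤
      ∑ i : Fin n, CU * B * Real.exp (-(w / 4)) / δ :=
        (Finset.abs_sum_le_sum_abs _ _).trans (Finset.sum_le_sum fun i _ => hterm i)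
    _ = (n : ℝ) * (CU * B * Real.exp (-(w / 4)) / δ) := by
        rw [Finset.sum_const, Finset.card_univ, Fintype.card_fin, nsmul_eq_mul]
    _ ≤ (3 : ℝ) ^ δ.primeFactors.card * (CU * B * Real.exp (-(w / 4)) / δ) := by
        refine mul_le_mul_of_nonneg_right ?_ (by positivity)
        exact_mod_cast hn
    _ = _ := by ring

/-- the sum of the remainders -/
lemma rem_sum {CT w : ℝ} (hCT : 0 < CT)
    (hT : ∀ δ : ℕ, Squarefree δ → (3 : ℝ) ^ δ.primeFactors.card ≤ CT * (δ : ℝ) ^ (1 / 8 : ℝ))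
    (hw : 0 ≤ w) {x : ℝ} (hx : 1 ≤ x) (hxw : x ≤ Real.exp (w / 4)) (P : ℕ → Prop)
    [DecidablePred P] (hP : ∀ δ, P δ → Squarefree δ) :
    ∑ δ ∈ (Icc 1 ⌊x⌋₊).filter P, (3 : ℝ) ^ δ.primeFactors.card / δ ≤
      CT * Real.exp (w / 32) * (1 + w) := by
  have hfl : (⌊x⌋₊ : ℝ) ≤ Real.exp (w / 4) := (Nat.floor_le (by linarith)).trans hxw
  have h1 : ∀ δ ∈ (Icc 1 ⌊x⌋₊).filter P, (3 : ℝ) ^ δ.primeFactors.card / δ ≤
      CT * Real.exp (w / 32) * (1 / (δ : ℝ)) := by
    intro δ hδ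
    rw [mem_filter, mem_Icc] at hδ
    have h2 : (1 : ℝ) ≤ δ := by exact_mod_cast hδ.1.1
    have h3 : (δ : ℝ) ≤ Real.exp (w / 4) := by
      have : (δ : ℝ) ≤ (⌊x⌋₊ : ℝ) := by exact_mod_cast hδ.1.2
      linarith
    have h4 : (δ : ℝ) ^ (1 / 8 : ℝ) ≤ Real.exp (w / 32) := by
      calc (δ : ℝ) ^ (1 / 8 : ℝ) ≤ (Real.exp (w / 4)) ^ (1 / 8 : ℝ) :=
            Real.rpow_le_rpow (by linarith) h3 (by norm_num)
        _ = Real.exp (w / 32) := by rw [← Real.exp_mul]; congr 1; ring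
    have h5 := (hT δ (hP δ hδ.2)).trans (mul_le_mul_of_nonneg_left h4 hCT.le)
    rw [mul_one_div]
    exact div_le_div_of_nonneg_right h5 (by linarith)
  calc ∑ δ ∈ (Icc 1 ⌊x⌋₊).filter P, (3 : ℝ) ^ δ.primeFactors.card / δ ≤
      ∑ δ ∈ (Icc 1 ⌊x⌋₊).filter P, CT * Real.exp (w / 32) * (1 / (δ : ℝ)) :=
        Finset.sum_le_sum h1
    _ ≤ ∑ δ ∈ Icc 1 ⌊x⌋₊, CT * Real.exp (w / 32) * (1 / (δ : ℝ)) :=
        Finset.sum_le_sum_of_subset_of_nonneg (filter_subset _ _) fun _ _ _ => by positivity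
    _ = CT * Real.exp (w / 32) * ∑ δ ∈ Icc 1 ⌊x⌋₊, (1 / (δ : ℝ)) := by rw [Finset.mul_sum]
    _ ≤ CT * Real.exp (w / 32) * (1 + w) := by
        refine mul_le_mul_of_nonneg_left ?_ (by positivity)
        refine (harm _).trans ?_
        have h6 : 1 ≤ ⌊x⌋₊ := Nat.le_floor (by simpa using hx)
        have h7 : (0 : ℝ) < (⌊x⌋₊ : ℝ) := by exact_mod_cast h6
        have h8 : Real.log (⌊x⌋₊ : ℝ) ≤ w / 4 := by
          rw [Real.log_le_iff_le_exp h7]
          exact hfl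
        linarith

open scoped Classical in
/-- the case of a nonnegative kernel -/
lemma nonneg_case {CF : ℝ} (hCF : 0 < CF)
    (hF : ∀ (b : ℕ) (z : ℝ), 2 ≤ z →
      ∀ (S : Finset ℕ) (v : ℕ → ℕ) (om : ℕ → ℝ) (X : ℝ) (g : ℕ → ℝ), 0 ≤ X → (∀ i ∈ S, 0 ≤ om i) →
      (∀ p : ℕ, p.Prime → 0 ≤ g p ∧ g p ≤ 2 / (p : ℝ) ∧ g p ≤ 2 / 3) →
      |(∑ i ∈ S, om i * rInd z (v i)) - X * ∏ p ∈ PB z, (1 - g p)|
        ≤ CF * Real.exp (-(b : ℝ)) * X * (∏ p ∈ PB z, (1 - g p))
          + CF * (1 + Real.log z) *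
            ∑ δ ∈ (Icc 1 ⌊z ^ (8 * b + 16)⌋₊).filter
              (fun δ => Squarefree δ ∧ ∀ p : ℕ, p.Prime → p ∣ δ → (p : ℝ) < z),
              |(∑ i ∈ S.filter (fun i => δ ∣ v i), om i) - X * ∏ p ∈ δ.primeFactors, g p|)
    {CU : ℝ} (hCU : 0 < CU) (hUWN : ∀ (B : ℝ) (g : ℝ → ℝ), Ker B g → ∀ (α : Gi) (w : ℝ), α ≠ 0 →
      (nm α : ℝ) ≤ Real.exp w →
      |∑ z ∈ (disc (Real.exp (w + 1))).filter (fun z => α ∣ z), g (Real.log (nm z) - w) / (nm z : ℝ)
        - Real.pi / (nm α : ℝ) * ∫ x, g x| ≤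
        CU * B / (nm α : ℝ) * (Real.exp w / (nm α : ℝ)) ^ (-(1 / 2) : ℝ))
    (hDIV : SpecDIV) (hG : ∀ p : ℕ, p.Prime → 0 ≤ gG p ∧ gG p ≤ 2 / (p : ℝ) ∧ gG p ≤ 2 / 3)
    {CT : ℝ} (hCT : 0 < CT)
    (hT : ∀ δ : ℕ, Squarefree δ → (3 : ℝ) ^ δ.primeFactors.card ≤ CT * (δ : ℝ) ^ (1 / 8 : ℝ))
    {b : ℕ} {t w : ℝ} (ht : 2 ≤ t) (hw : 1 ≤ w) (htw : t ^ (16 * b + 32) ≤ Real.exp (w / 2))
    {B : ℝ} {g : ℝ → ℝ} (hg : Ker B g) (hg0 : ∀ x, 0 ≤ g x) (hJ2 : ∫ x, g x ≤ 2 * B)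
    (hWG : 0 ≤ WG t) :
    |∑ z ∈ disc (Real.exp (w + 1)), rInd t (nm z) * (g (Real.log (nm z) - w) / (nm z : ℝ)) -
      WG t * (Real.pi * ∫ x, g x)| ≤ B * (8 * CF * Real.exp (-(b : ℝ)) * WG t +
        CF * CU * CT * 512 * Real.exp (-(w / 8))) := by
  have hB : 0 ≤ B := hg.1
  set J : ℝ := ∫ x, g x with hJ
  have hJ0 : 0 ≤ J := integral_nonneg hg0
  set E := disc (Real.exp (w + 1)) with hE
  set N := ⌊Real.exp (w + 1)⌋₊ with hN
  set r : Gi → ℝ := fun z => g (Real.log (nm z) - w) / (nm z : ℝ) with hr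
  have hr0 : ∀ z, 0 ≤ r z := fun z => div_nonneg (hg0 _) (Nat.cast_nonneg _)
  set om : ℕ → ℝ := fun n => ∑ z ∈ E.filter (fun z => nm z = n), r z with hom
  have hom0 : ∀ n, 0 ≤ om n := fun n => Finset.sum_nonneg fun z _ => hr0 z
  have hmaps : ∀ z ∈ E, nm z ∈ Icc 1 N := by
    intro z hz
    rw [hE, mem_disc] at hz
    rw [mem_Icc]
    exact ⟨nm_pos hz.1, Nat.le_floor hz.2⟩
  have hgr := group E N hmaps r
  have hx1 : (1 : ℝ) ≤ t ^ (8 * b + 16) := one_le_pow₀ (by linarith)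
  have hsq : (t ^ (8 * b + 16)) ^ 2 ≤ Real.exp (w / 2) := by
    rw [← pow_mul, show (8 * b + 16) * 2 = 16 * b + 32 by ring]
    exact htw
  have hxw : t ^ (8 * b + 16) ≤ Real.exp (w / 4) := by
    have h1 : Real.exp (w / 2) = (Real.exp (w / 4)) ^ 2 := by
      rw [← Real.exp_nat_mul]; congr 1; push_cast; ring
    rw [h1] at hsq
    exact (pow_le_pow_iff_left₀ (by linarith) (Real.exp_pos _).le (by norm_num)).1 hsq
  have hlog : Real.log t ≤ w := by
    have h1 : t ≤ Real.exp (w / 4) := by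
      refine le_trans ?_ hxw
      exact le_self_pow₀ (by linarith) (by omega)
    have h2 : Real.log t ≤ w / 4 := by
      rw [Real.log_le_iff_le_exp (by linarith)]
      exact h1
    linarith
  have hlog0 : 0 ≤ Real.log t := Real.log_nonneg (by linarith)
  have h := hF b t ht (Icc 1 N) (fun n => n) om (Real.pi * J) gG
    (mul_nonneg Real.pi_pos.le hJ0) (fun i _ => hom0 i) hG
  have e1 : ∑ n ∈ Icc 1 N, om n * rInd t n = ∑ z ∈ E, rInd t (nm z) * r z := by
    rw [hgr (fun n => rInd t n)]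
    exact sum_congr rfl fun z _ => mul_comm _ _
  have e2 : ∏ p ∈ PB t, (1 - gG p) = WG t := rfl
  rw [e1, e2] at h
  set D := (Icc 1 ⌊t ^ (8 * b + 16)⌋₊).filter
    (fun δ => Squarefree δ ∧ ∀ p : ℕ, p.Prime → p ∣ δ → (p : ℝ) < t) with hD
  have hrem : ∀ δ ∈ D, |∑ i ∈ (Icc 1 N).filter (fun i => δ ∣ i), om i -
      Real.pi * J * ∏ p ∈ δ.primeFactors, gG p| ≤
      CU * B * Real.exp (-(w / 4)) * ((3 : ℝ) ^ δ.primeFactors.card / δ) := by
    intro δ hδ
    rw [hD, mem_filter, mem_Icc] at hδ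
    have h1 : (δ : ℝ) ≤ t ^ (8 * b + 16) :=
      (Nat.cast_le.2 hδ.1.2).trans (Nat.floor_le (by linarith))
    have h2 : (δ : ℝ) ^ 2 ≤ Real.exp (w / 2) :=
      (pow_le_pow_left₀ (Nat.cast_nonneg _) h1 2).trans hsq
    have h3 := rem hCU hB (fun α h0 h1 => hUWN B g hg α w h0 h1) hDIV (by linarith) hδ.2.1 h2
    have h4 : ∑ i ∈ (Icc 1 N).filter (fun i => δ ∣ i), om i =
        ∑ z ∈ E.filter (fun z => δ ∣ nm z), r z := by
      have h5 := hgr (fun n => if δ ∣ n then (1 : ℝ) else 0)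
      rw [Finset.sum_filter, Finset.sum_filter]
      calc ∑ i ∈ Icc 1 N, (if δ ∣ i then om i else 0) =
          ∑ i ∈ Icc 1 N, om i * (if δ ∣ i then (1 : ℝ) else 0) := by
            refine sum_congr rfl fun i _ => ?_
            split_ifs <;> simp
        _ = ∑ z ∈ E, r z * (if δ ∣ nm z then (1 : ℝ) else 0) := h5
        _ = _ := by
            refine sum_congr rfl fun z _ => ?_
            split_ifs <;> simp
    rw [h4]
    exact h3
  have hS : ∑ δ ∈ D, |∑ i ∈ (Icc 1 N).filter (fun i => δ ∣ i), om i -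
      Real.pi * J * ∏ p ∈ δ.primeFactors, gG p| ≤
      CU * B * Real.exp (-(w / 4)) * (CT * Real.exp (w / 32) * (1 + w)) := by
    refine (Finset.sum_le_sum hrem).trans ?_
    rw [← Finset.mul_sum]
    refine mul_le_mul_of_nonneg_left ?_ (by positivity)
    exact rem_sum hCT hT (by linarith) hx1 hxw _ fun δ hδ => hδ.1
  have hfin : CF * (1 + Real.log t) * (CU * B * Real.exp (-(w / 4)) *
      (CT * Real.exp (w / 32) * (1 + w))) ≤ B * (CF * CU * CT * 512 * Real.exp (-(w / 8))) := by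
    have h1 := poly_exp (c := 3 / 8) (w := w) (by norm_num) (by norm_num) (by linarith)
    have h2 : (64 : ℝ) / (3 / 8) ^ 2 ≤ 512 := by norm_num
    have h3 : (1 + Real.log t) * (1 + w) ≤ 512 * Real.exp (3 / 8 * w / 4) := by
      calc (1 + Real.log t) * (1 + w) ≤ (1 + w) * (1 + w) :=
            mul_le_mul_of_nonneg_right (by linarith) (by linarith)
        _ = (1 + w) ^ 2 := by ring
        _ ≤ _ := h1
        _ ≤ _ := mul_le_mul_of_nonneg_right h2 (Real.exp_pos _).le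
    calc CF * (1 + Real.log t) * (CU * B * Real.exp (-(w / 4)) *
          (CT * Real.exp (w / 32) * (1 + w))) =
        CF * CU * B * CT * (Real.exp (-(w / 4)) * Real.exp (w / 32)) *
          ((1 + Real.log t) * (1 + w)) := by ring
      _ ≤ CF * CU * B * CT * (Real.exp (-(w / 4)) * Real.exp (w / 32)) *
          (512 * Real.exp (3 / 8 * w / 4)) :=
          mul_le_mul_of_nonneg_left h3 (by positivity)
      _ = B * (CF * CU * CT * 512 *
          (Real.exp (-(w / 4)) * Real.exp (w / 32) * Real.exp (3 / 8 * w / 4))) := by ring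
      _ = _ := by
          rw [← Real.exp_add, ← Real.exp_add]
          congr 4
          ring
  have hpi : Real.pi ≤ 4 := Real.pi_le_four
  have hmain : CF * Real.exp (-(b : ℝ)) * (Real.pi * J) * WG t ≤
      B * (8 * CF * Real.exp (-(b : ℝ)) * WG t) := by
    have h1 : Real.pi * J ≤ 8 * B := by
      calc Real.pi * J ≤ 4 * (2 * B) := mul_le_mul hpi hJ2 hJ0 (by norm_num)
        _ = 8 * B := by ring
    calc CF * Real.exp (-(b : ℝ)) * (Real.pi * J) * WG t ≤
        CF * Real.exp (-(b : ℝ)) * (8 * B) * WG t := by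
          refine mul_le_mul_of_nonneg_right (mul_le_mul_of_nonneg_left h1 (by positivity)) hWG
      _ = _ := by ring
  have h5 : 0 ≤ CF * (1 + Real.log t) := by positivity
  have h6 := mul_le_mul_of_nonneg_left hS h5
  rw [mul_comm (WG t)]
  refine h.trans ?_
  rw [mul_add]
  linarith

/-- kernels are integrable -/
lemma integrable_ker {B : ℝ} {g : ℝ → ℝ} (hg : Ker B g) : Integrable g := by
  obtain ⟨h1, h2, -, -⟩ := Pool.Agent.Lib.MP553de0.AA.specKRA B g hg
  exact h1.integrable_of_hasCompactSupport h2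

/-- the integral of a kernel -/
lemma integral_ker_le {B : ℝ} {g : ℝ → ℝ} (hg : Ker B g) : ∫ x, g x ≤ 2 * B := by
  obtain ⟨-, -, h, -⟩ := Pool.Agent.Lib.MP553de0.AA.specKRA B g hg
  have h0 := h 0
  have e : ft g 0 = (((∫ x, g x) : ℝ) : ℂ) := by
    unfold ft
    rw [← integral_complex_ofReal]
    refine integral_congr_ae (Eventually.of_forall fun x => ?_)
    simp [ee]
  rw [e, Complex.norm_real] at h0
  exact (le_abs_self _).trans h0

end FLUM

open FLUM in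
theorem specFLU (hUWN : SpecUWN) (hDIV : SpecDIV) (hWGM : SpecWGM) : SpecFLU := by
  obtain ⟨CF, hCF, hF⟩ := Pool.Agent.Lib.MP391708.QPA.specFL
  obtain ⟨CU, hCU, hU⟩ := hUWN
  obtain ⟨CT, hCT, hT⟩ := three_pow
  obtain ⟨hG, hW, -⟩ := hWGM
  refine ⟨16 * CF + 1024 * CF * CU * CT, by positivity, ?_⟩
  intro b t w ht hw htw B g hg
  obtain ⟨hB, hgB, hg1, hgL⟩ := hg
  have hp : Ker B (fun x => max (g x) 0) := by
    refine ⟨hB, fun x => ?_, fun x hx => by simp [hg1 x hx], fun x y => ?_⟩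
    · rw [abs_of_nonneg (le_max_right _ _)]
      exact max_le ((le_abs_self _).trans (hgB x)) hB
    · exact (abs_max_sub_max_le_abs _ _ _).trans (hgL x y)
  have hm : Ker B (fun x => max (-g x) 0) := by
    refine ⟨hB, fun x => ?_, fun x hx => by simp [hg1 x hx], fun x y => ?_⟩
    · rw [abs_of_nonneg (le_max_right _ _)]
      exact max_le ((neg_le_abs _).trans (hgB x)) hB
    · refine (abs_max_sub_max_le_abs _ _ _).trans ?_
      rw [show -g x - -g y = -(g x - g y) by ring, abs_neg]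
      exact hgL x y
  have hd : ∀ x, g x = max (g x) 0 - max (-g x) 0 := by
    intro x
    rcases le_total 0 (g x) with h | h
    · rw [max_eq_left h, max_eq_right (by linarith)]; ring
    · rw [max_eq_right h, max_eq_left (by linarith)]; ring
  have h1 := nonneg_case hCF hF hCU hU hDIV hG hCT hT (b := b) ht hw htw hp
    (fun x => le_max_right _ _) (integral_ker_le hp) (hW t).1.le
  have h2 := nonneg_case hCF hF hCU hU hDIV hG hCT hT (b := b) ht hw htw hm
    (fun x => le_max_right _ _) (integral_ker_le hm) (hW t).1.le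
  have hint : ∫ x, g x = (∫ x, max (g x) 0) - ∫ x, max (-g x) 0 := by
    rw [← integral_sub (integrable_ker hp) (integrable_ker hm)]
    exact integral_congr_ae (Eventually.of_forall fun x => hd x)
  have hsum : ∑ z ∈ disc (Real.exp (w + 1)),
      rInd t (nm z) * (g (Real.log (nm z) - w) / (nm z : ℝ)) =
      ∑ z ∈ disc (Real.exp (w + 1)),
        rInd t (nm z) * (max (g (Real.log (nm z) - w)) 0 / (nm z : ℝ)) -
      ∑ z ∈ disc (Real.exp (w + 1)),
        rInd t (nm z) * (max (-g (Real.log (nm z) - w)) 0 / (nm z : ℝ)) := by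
    rw [← Finset.sum_sub_distrib]
    refine sum_congr rfl fun z _ => ?_
    rw [← mul_sub, ← sub_div, ← hd]
  rw [hsum, hint]
  set S1 := ∑ z ∈ disc (Real.exp (w + 1)),
        rInd t (nm z) * (max (g (Real.log (nm z) - w)) 0 / (nm z : ℝ))
  set S2 := ∑ z ∈ disc (Real.exp (w + 1)),
        rInd t (nm z) * (max (-g (Real.log (nm z) - w)) 0 / (nm z : ℝ))
  have e : S1 - S2 - WG t * (Real.pi * ((∫ x, max (g x) 0) - ∫ x, max (-g x) 0)) =
      (S1 - WG t * (Real.pi * ∫ x, max (g x) 0)) -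
      (S2 - WG t * (Real.pi * ∫ x, max (-g x) 0)) := by ring
  rw [e]
  refine (abs_sub _ _).trans ((add_le_add h1 h2).trans ?_)
  rw [← mul_add]
  refine mul_le_mul_of_nonneg_left ?_ hB
  have hWG := (hW t).1
  have k1 : 0 ≤ Real.exp (-(b : ℝ)) * WG t := by positivity
  have k2 : 0 ≤ Real.exp (-(w / 8)) := (Real.exp_pos _).le
  have k3 : 0 ≤ CF * CU * CT := by positivity
  have k4 : 0 ≤ CF * CU * CT * (Real.exp (-(b : ℝ)) * WG t) := mul_nonneg k3 k1
  have k5 : 0 ≤ CF * Real.exp (-(w / 8)) := by positivity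
  linarith

end

end Pool.Agent.Lib.MP391708.X.PH
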