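import Pool.Agent.Lib.MP_391708_nt.X.PH.SpecC

/-!
# MP_391708, Theorem X, part PH, module HCH: the class function of a real character (helper9)

No Dirichlet theorem is needed: `h a = χ(z)` if `a` is the class of `N(z)` for some `z` coprime to `2f`, and `0` otherwise.
-/

set_option autoImplicit false

namespace Pool.Agent.Lib.MP391708.X.PH

open Finset Filter Topology MeasureTheory
open Pool.Agent.Lib.MP391708.MR

namespace HCHM

theorem mul_star_self' (z : Gi) : z * star z = ((nm z : ℤ) : Gi) := by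
  apply Zsqrtd.ext
  · rw [Zsqrtd.re_intCast, nm_cast, Zsqrtd.re_mul, Zsqrtd.re_star, Zsqrtd.im_star]
    ring
  · rw [Zsqrtd.im_intCast, Zsqrtd.im_mul, Zsqrtd.re_star, Zsqrtd.im_star]
    ring

/-- `z` coprime to the integer `n`: the norm is coprime to `n` -/
theorem cop_nm {z : Gi} {n : ℕ} (h : IsCoprime z (n : Gi)) : (nm z).Coprime n := by
  have h1 : IsCoprime (star z) (n : Gi) := by
    obtain ⟨a, b, hab⟩ := h
    refine ⟨star a, star b, ?_⟩
    have h2 := congrArg star hab
    rw [star_add, star_mul', star_mul', star_one, star_natCast] at h2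
    exact h2
  have h2 : IsCoprime (z * star z) (n : Gi) := h.mul_left h1
  obtain ⟨a, b, hab⟩ := h2
  rw [mul_star_self'] at hab
  have h3 := congrArg Zsqrtd.re hab
  have h4 : a.re * (nm z : ℤ) + b.re * (n : ℤ) = 1 := by
    simpa using h3
  exact Nat.isCoprime_iff_coprime.1 ⟨a.re, b.re, h4⟩

/-- an element of odd norm is coprime to 2 -/
theorem cop_two {z : Gi} (h : nm z % 2 = 1) : IsCoprime z (2 : Gi) := by
  refine ⟨star z, -(((nm z / 2 : ℕ) : ℤ) : Gi), ?_⟩
  rw [mul_comm (star z), mul_star_self']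
  have h1 : (nm z : ℤ) = 2 * ((nm z / 2 : ℕ) : ℤ) + 1 := by omega
  rw [h1]
  push_cast
  ring

theorem nm_add_nat (x : Gi) (f : ℕ) (hf : f % 2 = 1) (hx : nm x % 2 = 0) :
    nm (x + (f : Gi)) % 2 = 1 := by
  have h1 := nm_cast x
  have h2 := nm_cast (x + (f : Gi))
  have h3 : (x + (f : Gi)).re = x.re + f := by simp
  have h4 : (x + (f : Gi)).im = x.im := by simp
  rw [h3, h4] at h2
  have h5 : (nm (x + (f : Gi)) : ℤ) = nm x + 2 * (x.re * f) + f ^ 2 := by
    rw [h1, h2]
    ring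
  have h6 : ((f : ℤ) ^ 2) % 2 = 1 := by
    have : (f : ℤ) % 2 = 1 := by omega
    rw [pow_two, Int.mul_emod, this]
    rfl
  omega

/-- odd sums of two squares -/
theorem mod_four {z : Gi} (h : nm z % 2 = 1) : nm z % 4 = 1 := by
  have h1 := nm_cast z
  have h2 : ∀ a : ℤ, a ^ 2 % 4 = 0 ∨ a ^ 2 % 4 = 1 := by
    intro a
    rcases Int.even_or_odd' a with ⟨k, rfl | rfl⟩
    · left
      have : (2 * k) ^ 2 = 4 * k ^ 2 := by ring
      omega
    · right
      have : (2 * k + 1) ^ 2 = 4 * (k ^ 2 + k) + 1 := by ring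
      omega
  rcases h2 z.re with h3 | h3 <;> rcases h2 z.im with h4 | h4 <;> omega

/-- there is `x` coprime to `2f` with `χ x = -1` -/
theorem exists_neg {f : ℕ} {χ : Gi → ℂ} (hχ : ChQ f χ)
    (hreal : ∀ z, χ z = 0 ∨ χ z = 1 ∨ χ z = -1) (hNP : NP χ 0) :
    ∃ x, IsCoprime x ((2 * f : ℕ) : Gi) ∧ χ x = -1 := by
  have key : ∀ x, χ x = -1 → nm x % 2 = 1 → ∃ x, IsCoprime x ((2 * f : ℕ) : Gi) ∧ χ x = -1 := by
    intro x hx hn
    refine ⟨x, ?_, hx⟩
    have h1 : IsCoprime x (f : Gi) := (hχ.sup x).1 (by rw [hx]; norm_num)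
    have h2 := (cop_two hn).mul_right h1
    push_cast
    exact h2
  obtain ⟨x, hx0, hx1⟩ : ∃ x, χ x ≠ 0 ∧ χ x ≠ 1 := by
    rcases hNP with h | h
    · exact absurd rfl h
    · exact h
  have hx : χ x = -1 := by
    rcases hreal x with h | h | h
    · exact absurd h hx0
    · exact absurd h hx1
    · exact h
  rcases Nat.mod_two_eq_zero_or_one (nm x) with hn | hn
  · have h1 := cop_nm ((hχ.sup x).1 hx0)
    have hf : f % 2 = 1 := by
      by_contra hf
      have h2 : 2 ∣ nm x := Nat.dvd_of_mod_eq_zero hn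
      have h3 : 2 ∣ f := by omega
      have h4 := Nat.dvd_gcd h2 h3
      rw [h1] at h4
      omega
    refine key (x + (f : Gi)) ?_ (nm_add_nat x f hf hn)
    rw [← hx]
    exact hχ.per _ _ (by simp) (by simp)
  · exact key x hx hn

theorem chi_pow {f : ℕ} {χ : Gi → ℂ} (hχ : ChQ f χ) (x : Gi) (n : ℕ) : χ (x ^ n) = χ x ^ n := by
  induction n with
  | zero => rw [pow_zero, pow_zero, hχ.one]
  | succ n ih => rw [pow_succ, pow_succ, hχ.mul, ih]

theorem nm_pow' (z : Gi) (n : ℕ) : nm (z ^ n) = nm z ^ n := by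
  induction n with
  | zero => rw [pow_zero, pow_zero, nm_one]
  | succ n ih => rw [pow_succ, pow_succ, nm_mul, ih]

end HCHM

open HCHM

open Classical in
theorem specHCH (h1 : SpecNCG) : SpecHCH := by
  intro f χ hf hχ hreal hi hst hNP
  have hncg := h1 f χ hf hχ hreal hi hst
  have hq : 0 < 8 * f := by omega
  -- well defined
  have hwd : ∀ z w : Gi, IsCoprime z ((2 * f : ℕ) : Gi) → IsCoprime w ((2 * f : ℕ) : Gi) →
      nm z % (8 * f) = nm w % (8 * f) → χ z = χ w := by
    intro z w hz hw hzw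
    refine hncg z w hz hw ?_
    have h2 : (nm z : ℤ) ≡ nm w [ZMOD ((8 * f : ℕ) : ℤ)] := by
      exact_mod_cast (Int.natCast_modEq_iff.2 hzw)
    have h3 := h2.symm.dvd
    refine dvd_trans ⟨4, by push_cast; ring⟩ h3
  set h : ℕ → ℝ := fun a => if H : ∃ z, IsCoprime z ((2 * f : ℕ) : Gi) ∧ nm z % (8 * f) = a then
    (χ H.choose).re else 0 with hh
  have hval : ∀ z, IsCoprime z ((2 * f : ℕ) : Gi) → h (nm z % (8 * f)) = (χ z).re := by
    intro z hz
    have H : ∃ w, IsCoprime w ((2 * f : ℕ) : Gi) ∧ nm w % (8 * f) = nm z % (8 * f) := ⟨z, hz, rfl⟩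
    rw [hh]
    simp only
    rw [dif_pos H, hwd _ z H.choose_spec.1 hz H.choose_spec.2]
  have hre : ∀ z, ((χ z).re : ℂ) = χ z := by
    intro z
    rcases hreal z with e | e | e <;> rw [e] <;> simp
  have hle : ∀ z, |(χ z).re| ≤ 1 := by
    intro z
    rcases hreal z with e | e | e <;> rw [e] <;> simp
  refine ⟨h, ?_, ?_, ?_⟩
  · intro a
    rw [hh]
    simp only
    split_ifs with H
    · exact hle _
    · simp
  · intro z hz
    rw [hval z hz, hre]
  · obtain ⟨x, hx, hx1⟩ := exists_neg hχ hreal hNP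
    set a₀ := nm x with ha₀
    have hc2 : a₀.Coprime (2 * f) := cop_nm hx
    have hodd : a₀ % 2 = 1 := by
      by_contra hne
      have h2 : 2 ∣ a₀ := by omega
      have h4 := Nat.dvd_gcd h2 (Dvd.intro f rfl : 2 ∣ 2 * f)
      rw [hc2] at h4
      omega
    have hc8 : a₀.Coprime (8 * f) := by
      have h2 : a₀.Coprime 2 := Nat.Coprime.coprime_mul_right_right hc2
      have h3 : a₀.Coprime f := Nat.Coprime.coprime_mul_left_right hc2
      exact Nat.Coprime.mul_right (Nat.Coprime.pow_right 3 h2) h3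
    have h4 : a₀ % 4 = 1 := mod_four hodd
    -- the sign
    have hneg : ∀ a < 8 * f, h (a₀ * a % (8 * f)) = - h a := by
      intro a ha
      by_cases H : ∃ z, IsCoprime z ((2 * f : ℕ) : Gi) ∧ nm z % (8 * f) = a
      · obtain ⟨z, hz, hza⟩ := H
        have e1 : a₀ * a % (8 * f) = nm (x * z) % (8 * f) := by
          rw [nm_mul, ← hza, Nat.mul_mod_mod]
        rw [e1, hval (x * z) (hx.mul_left hz), ← hza, hval z hz, hχ.mul, hx1]
        simp
      · have H' : ¬ ∃ z, IsCoprime z ((2 * f : ℕ) : Gi) ∧ nm z % (8 * f) = a₀ * a % (8 * f) := by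
          rintro ⟨w, hw, hwa⟩
          apply H
          have htot : 0 < Nat.totient (8 * f) := Nat.totient_pos.2 hq
          have hpow : a₀ ^ Nat.totient (8 * f) ≡ 1 [MOD 8 * f] := Nat.ModEq.pow_totient hc8
          refine ⟨w * x ^ (Nat.totient (8 * f) - 1), hw.mul_left (hx.pow_left), ?_⟩
          rw [nm_mul, nm_pow', ← ha₀]
          have e1 : nm w * a₀ ^ (Nat.totient (8 * f) - 1) ≡
              a₀ * a * a₀ ^ (Nat.totient (8 * f) - 1) [MOD 8 * f] := Nat.ModEq.mul_right _ hwa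
          have e2 : a₀ * a * a₀ ^ (Nat.totient (8 * f) - 1) = a * a₀ ^ Nat.totient (8 * f) := by
            obtain ⟨k, hk⟩ : ∃ k, Nat.totient (8 * f) = k + 1 := ⟨_, (Nat.succ_pred htot.ne').symm⟩
            rw [hk, Nat.add_sub_cancel]
            ring
          rw [e2] at e1
          have e3 : a * a₀ ^ Nat.totient (8 * f) ≡ a * 1 [MOD 8 * f] := Nat.ModEq.mul_left _ hpow
          have e4 := e1.trans e3
          rw [mul_one] at e4
          have e5 : nm w * a₀ ^ (Nat.totient (8 * f) - 1) % (8 * f) = a % (8 * f) := e4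
          rw [e5, Nat.mod_eq_of_lt ha]
        have e6 : h (a₀ * a % (8 * f)) = 0 := by
          rw [hh]
          simp only
          rw [dif_neg H']
        have e7 : h a = 0 := by
          rw [hh]
          simp only
          rw [dif_neg H]
        rw [e6, e7, neg_zero]
    set S := (range (8 * f)).filter (fun a => a.Coprime (8 * f) ∧ a % 4 = 1) with hS
    have hlt : ∀ a ∈ S, a < 8 * f := fun a ha => mem_range.1 (mem_filter.1 ha).1
    have hinj : Set.InjOn (fun a => a₀ * a % (8 * f)) (S : Set ℕ) := by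
      intro a ha b hb hab
      have e1 : a₀ * a ≡ a₀ * b [MOD 8 * f] := hab
      have e2 : a ≡ b [MOD 8 * f] := Nat.ModEq.cancel_left_of_coprime (by
        rw [Nat.gcd_comm]
        exact hc8) e1
      exact Nat.ModEq.eq_of_lt_of_lt e2 (hlt a ha) (hlt b hb)
    have hmaps : S.image (fun a => a₀ * a % (8 * f)) ⊆ S := by
      intro b hb
      obtain ⟨a, ha, rfl⟩ := mem_image.1 hb
      obtain ⟨-, ha2, ha3⟩ := mem_filter.1 ha
      refine mem_filter.2 ⟨mem_range.2 (Nat.mod_lt _ hq), ?_, ?_⟩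
      · have e1 : (a₀ * a).Coprime (8 * f) := Nat.Coprime.mul_left hc8 ha2
        unfold Nat.Coprime at e1 ⊢
        rw [← Nat.gcd_rec, Nat.gcd_comm]
        exact e1
      · have e1 : a₀ * a % (8 * f) % 4 = a₀ * a % 4 := Nat.mod_mod_of_dvd _ ⟨2 * f, by ring⟩
        rw [e1, Nat.mul_mod, h4, ha3]
    have himg : S.image (fun a => a₀ * a % (8 * f)) = S :=
      eq_of_subset_of_card_le hmaps (card_image_of_injOn hinj).ge
    have hsum : ∑ a ∈ S, h a = ∑ a ∈ S, h (a₀ * a % (8 * f)) := by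
      conv_lhs => rw [← himg]
      exact sum_image hinj
    have hsum2 : ∑ a ∈ S, h (a₀ * a % (8 * f)) = - ∑ a ∈ S, h a := by
      rw [← sum_neg_distrib]
      exact sum_congr rfl fun a ha => hneg a (hlt a ha)
    rw [hsum2] at hsum
    linarith

end Pool.Agent.Lib.MP391708.X.PH
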