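import Pool.Agent.Lib.MP_391708_nt.X.PH.SpecB

/-!
# MP_391708, Theorem X, part PH: module IDG (helper89), the identities for `F'/F` and `(F'/F)'`
-/

set_option autoImplicit false

namespace Pool.Agent.Lib.MP391708.X.PH

open Finset Filter Topology MeasureTheory
open Pool.Agent.Lib.MP391708.MR
open Pool.Agent.Lib.MP391708.MR.OS (CM RP pw)
open Pool.Agent.Lib.MP391708.QPA (Rough rInd PB)
open Pool.Agent.Lib.MP054243.AV (ee)
open Pool.Agent.Lib.MP553de0.AA (Ker ft kk kap)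

noncomputable section

namespace IDGM

lemma ee_norm (x : ℝ) : ‖ee x‖ = 1 := by
  unfold ee
  have h : (2 * Real.pi * Complex.I * (x : ℂ)) = ((2 * Real.pi * x : ℝ) : ℂ) * Complex.I := by
    push_cast
    ring
  rw [h, Complex.norm_exp_ofReal_mul_I]

lemma ee_add' (x y : ℝ) : ee (x + y) = ee x * ee y := by
  unfold ee
  rw [← Complex.exp_add]
  congr 1
  push_cast
  ring

/-- regrouping `∑ log N(z) F(z)` -/
lemma regroup (F : Gi → ℂ) (h0 : F 0 = 0) (v : ℂ)
    (h : HasSum (fun p : (RP × ℕ) × Gi => (Real.log (nm (p.1.1 : Gi)) : ℂ) * F (pw p.1 * p.2)) v) :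
    HasSum (fun z : Gi => (Real.log (nm z) : ℂ) * F z) v := by
  classical
  set f : (RP × ℕ) × Gi → ℂ := fun p =>
    if pw p.1 ∣ p.2 then (Real.log (nm (p.1.1 : Gi)) : ℂ) * F p.2 else 0 with hf
  let Φ : (RP × ℕ) × Gi → (RP × ℕ) × Gi := fun p => (p.1, pw p.1 * p.2)
  have hΦ : Function.Injective Φ := by
    rintro ⟨x, z⟩ ⟨x', z'⟩ h
    simp only [Φ, Prod.mk.injEq] at h
    obtain ⟨rfl, h⟩ := h
    rw [Prod.mk.injEq]
    exact ⟨rfl, mul_left_cancel₀ (OS.pw_ne_zero x) h⟩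
  have h1 : HasSum f v := by
    rw [← hΦ.hasSum_iff]
    · have e1 : f ∘ Φ = fun p : (RP × ℕ) × Gi =>
          (Real.log (nm (p.1.1 : Gi)) : ℂ) * F (pw p.1 * p.2) := by
        funext p
        simp only [Function.comp, f, Φ]
        rw [if_pos (dvd_mul_right _ _)]
      rw [e1]
      exact h
    · rintro ⟨x, z⟩ h
      simp only [f]
      rw [if_neg]
      rintro ⟨w, hw⟩
      exact h ⟨(x, w), by simp only [Φ, hw]⟩
  have h2 : HasSum (fun p : Gi × (RP × ℕ) => f (p.2, p.1)) v := by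
    have := (Equiv.prodComm Gi (RP × ℕ)).hasSum_iff (f := f) (a := v)
    exact this.2 h1
  refine h2.prod_fiberwise (fun z => ?_)
  simp only [f]
  by_cases hz : z = 0
  · rw [hz, h0, mul_zero]
    simp only [mul_zero, ite_self]
    exact hasSum_zero
  · have h3 := (OS.hasSum_log hz).mapL Complex.ofRealCLM
    have h4 := h3.mul_right (F z)
    have e2 : (fun x : RP × ℕ => if pw x ∣ z then (Real.log (nm (x.1 : Gi)) : ℂ) * F z
        else 0) = fun x : RP × ℕ => (Complex.ofRealCLM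
          (if pw x ∣ z then Real.log (nm (x.1 : Gi)) else 0)) * F z := by
      funext x
      split_ifs
      · rfl
      · simp
    rw [e2]
    exact h4

/-- the terms -/
def Q (G : Gi → ℂ) (lam u : ℝ) (j : ℕ) (z : Gi) : ℂ :=
  ac G lam j z * ee (-(u * Real.log (nm z)))

/-- the terms of the series over prime powers -/
def P (G : Gi → ℂ) (lam u : ℝ) (j : ℕ) (x : RP × ℕ) : ℂ :=
  ap G lam j x * ee (-(u * Real.log (nm (pw x))))

/-- the multiplicative function -/
def ta (G : Gi → ℂ) (lam u : ℝ) (z : Gi) : ℂ :=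
  G z * (((nm z : ℝ) ^ (-(1 + lam)) : ℝ) : ℂ) * ee (-(u * Real.log (nm z)))

lemma Q_eq (G : Gi → ℂ) (lam u : ℝ) (j : ℕ) (z : Gi) :
    Q G lam u j z = 1 / 4 * ta G lam u z * ((Real.log (nm z) : ℝ) : ℂ) ^ j := by
  unfold Q ac ta
  rw [Complex.ofReal_mul, Complex.ofReal_mul, Complex.ofReal_pow]
  push_cast
  ring

lemma P_eq (G : Gi → ℂ) (lam u : ℝ) (j : ℕ) (x : RP × ℕ) :
    P G lam u j x = ((Real.log (nm (x.1 : Gi)) : ℝ) : ℂ) * ta G lam u (pw x) *
      ((Real.log (nm (pw x)) : ℝ) : ℂ) ^ j := by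
  unfold P ap ta
  rw [Complex.ofReal_mul, Complex.ofReal_mul, Complex.ofReal_pow]
  ring

variable {G : Gi → ℂ} (hG : CM G) (lam u : ℝ) (hl : 0 < lam)

include hl in
lemma ta_zero : ta G lam u 0 = 0 := by
  unfold ta
  rw [nm_zero, Nat.cast_zero, Real.zero_rpow (by linarith), Complex.ofReal_zero, mul_zero,
    zero_mul]

include hG hl in
lemma ta_mul (x y : Gi) : ta G lam u (x * y) = ta G lam u x * ta G lam u y := by
  by_cases hx : x = 0
  · rw [hx, zero_mul, ta_zero lam u hl, zero_mul]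
  by_cases hy : y = 0
  · rw [hy, mul_zero, ta_zero lam u hl, mul_zero]
  have h1 := nm_posR hx
  have h2 := nm_posR hy
  unfold ta
  have h3 : -(u * Real.log (nm (x * y))) = -(u * Real.log (nm x)) + -(u * Real.log (nm y)) := by
    rw [nm_mul, Nat.cast_mul, Real.log_mul h1.ne' h2.ne']
    ring
  rw [h3, ee_add', hG.mul, nm_mul, Nat.cast_mul, Real.mul_rpow h1.le h2.le, Complex.ofReal_mul]
  ring

lemma log_mul' {x y : Gi} (hx : x ≠ 0) (hy : y ≠ 0) :
    ((Real.log (nm (x * y)) : ℝ) : ℂ) = (Real.log (nm x) : ℝ) + (Real.log (nm y) : ℝ) := by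
  rw [nm_mul, Nat.cast_mul, Real.log_mul (nm_posR hx).ne' (nm_posR hy).ne', Complex.ofReal_add]

lemma sum_norm {ι : Type} (c : ι → ℂ) (l : ι → ℝ) (h : Summable fun i => ‖c i‖) :
    Summable fun i => ‖c i * ee (l i)‖ := by
  refine h.congr fun i => ?_
  rw [norm_mul, ee_norm, mul_one]

end IDGM

open IDGM in
theorem specIDG (hSER : SpecSER) : SpecIDG := by
  intro G hG lam u hl
  obtain ⟨h1, h2, -⟩ := hSER G hG lam hl
  have sQ : ∀ j : ℕ, j ≤ 2 → Summable fun z => ‖Q G lam u j z‖ := fun j hj =>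
    sum_norm _ _ (h1 j hj).1
  have sP : ∀ j : ℕ, j ≤ 1 → Summable fun x => ‖P G lam u j x‖ := fun j hj =>
    sum_norm _ _ (h2 j hj)
  have eQ : ∀ j, DJ G lam j u = ∑' z, Q G lam u j z := fun j => rfl
  have eP : ∀ j, PJ G lam j u = ∑' x, P G lam u j x := fun j => rfl
  have hprod : ∀ i j : ℕ, i ≤ 1 → j ≤ 2 → HasSum (fun p : (RP × ℕ) × Gi =>
      P G lam u i p.1 * Q G lam u j p.2) (PJ G lam i u * DJ G lam j u) := by
    intro i j hi hj
    have h3 := summable_mul_of_summable_norm (sP i hi) (sQ j hj)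
    have h4 := tsum_mul_tsum_of_summable_norm (sP i hi) (sQ j hj)
    rw [eP, eQ, h4]
    exact h3.hasSum
  have hz0 : ∀ j, Q G lam u j 0 = 0 := by
    intro j
    rw [Q_eq, ta_zero lam u hl, mul_zero, zero_mul]
  have hstep : ∀ j z, ((Real.log (nm z) : ℝ) : ℂ) * Q G lam u j z = Q G lam u (j + 1) z := by
    intro j z
    rw [Q_eq, Q_eq, pow_succ]
    ring
  constructor
  · have h5 : HasSum (fun p : (RP × ℕ) × Gi => (Real.log (nm (p.1.1 : Gi)) : ℂ) *
        Q G lam u 0 (pw p.1 * p.2)) (PJ G lam 0 u * DJ G lam 0 u) := by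
      have e1 : (fun p : (RP × ℕ) × Gi => (Real.log (nm (p.1.1 : Gi)) : ℂ) *
          Q G lam u 0 (pw p.1 * p.2)) = fun p => P G lam u 0 p.1 * Q G lam u 0 p.2 := by
        funext p
        rw [Q_eq, Q_eq, P_eq, ta_mul hG lam u hl, pow_zero, pow_zero, pow_zero]
        ring
      rw [e1]
      exact hprod 0 0 (by norm_num) (by norm_num)
    have h6 := regroup _ (hz0 0) _ h5
    have h7 : (fun z : Gi => (Real.log (nm z) : ℂ) * Q G lam u 0 z) = fun z => Q G lam u 1 z := by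
      funext z
      exact hstep 0 z
    rw [h7] at h6
    rw [eQ 1]
    exact h6.tsum_eq.symm
  · have h5 : HasSum (fun p : (RP × ℕ) × Gi => (Real.log (nm (p.1.1 : Gi)) : ℂ) *
        Q G lam u 1 (pw p.1 * p.2)) (PJ G lam 1 u * DJ G lam 0 u + PJ G lam 0 u * DJ G lam 1 u) := by
      have e1 : (fun p : (RP × ℕ) × Gi => (Real.log (nm (p.1.1 : Gi)) : ℂ) *
          Q G lam u 1 (pw p.1 * p.2)) = fun p => P G lam u 1 p.1 * Q G lam u 0 p.2 +
            P G lam u 0 p.1 * Q G lam u 1 p.2 := by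
        funext p
        by_cases hp : p.2 = 0
        · rw [hp, mul_zero, hz0, hz0, mul_zero, mul_zero, mul_zero, add_zero]
        · rw [Q_eq, Q_eq, Q_eq, P_eq, P_eq, ta_mul hG lam u hl, log_mul' (OS.pw_ne_zero p.1) hp,
            pow_zero, pow_zero, pow_one, pow_one, pow_one]
          ring
      rw [e1]
      exact (hprod 1 0 le_rfl (by norm_num)).add (hprod 0 1 (by norm_num) (by norm_num))
    have h6 := regroup _ (hz0 1) _ h5
    have h7 : (fun z : Gi => (Real.log (nm z) : ℂ) * Q G lam u 1 z) = fun z => Q G lam u 2 z := by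
      funext z
      exact hstep 1 z
    rw [h7] at h6
    rw [eQ 2]
    exact h6.tsum_eq.symm

end

end Pool.Agent.Lib.MP391708.X.PH
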