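import Pool.Agent.Lib.MP_391708_nt.X.PH.SpecB
import Pool.Agent.Lib.MP_553de0_nt.AA.KRB

/-!
# MP_391708, Theorem X, part PH, module INV (helper16): Fourier inversion for the kernel `kap ρ`
-/

set_option autoImplicit false

namespace Pool.Agent.Lib.MP391708.X.PH

open Finset Filter Topology MeasureTheory FourierTransform
open Pool.Agent.Lib.MP054243.AV (ee)
open Pool.Agent.Lib.MP553de0.AA (Ker ft kk kap specKRB)

namespace INVM

theorem ee_eq (x : ℝ) : ee x = Complex.exp (((2 * Real.pi * x : ℝ) : ℂ) * Complex.I) := by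
  unfold ee; congr 1; push_cast; ring

theorem norm_ee (x : ℝ) : ‖ee x‖ = 1 := by
  rw [ee_eq, Complex.norm_exp_ofReal_mul_I]

theorem ee_add (x y : ℝ) : ee (x + y) = ee x * ee y := by
  rw [ee_eq, ee_eq, ee_eq, ← Complex.exp_add]; congr 1; push_cast; ring

theorem continuous_ee : Continuous ee := by
  unfold ee; fun_prop

theorem ker_continuous {B : ℝ} {g : ℝ → ℝ} (h : Ker B g) : Continuous g := by
  obtain ⟨hB, -, -, hL⟩ := h
  have : LipschitzWith ⟨B, hB⟩ g := LipschitzWith.of_dist_le_mul (fun x y => by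
    rw [Real.dist_eq, Real.dist_eq]; exact hL x y)
  exact this.continuous

theorem ker_compact {B : ℝ} {g : ℝ → ℝ} (h : Ker B g) : HasCompactSupport g := by
  apply HasCompactSupport.intro (isCompact_Icc (a := (-1 : ℝ)) (b := 1))
  intro x hx
  apply h.2.2.1
  by_contra hc
  push Not at hc
  exact hx ⟨(abs_lt.1 hc).1.le, (abs_lt.1 hc).2.le⟩

theorem ker_integrable {B : ℝ} {g : ℝ → ℝ} (h : Ker B g) :
    Integrable (fun x => ((g x : ℝ) : ℂ)) :=
  ((ker_continuous h).integrable_of_hasCompactSupport (ker_compact h)).ofReal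

theorem ft_eq (g : ℝ → ℝ) (ξ : ℝ) : 𝓕 (fun x => ((g x : ℝ) : ℂ)) ξ = ft g ξ := by
  rw [Real.fourier_eq']
  unfold ft
  congr 1
  ext v
  rw [smul_eq_mul, mul_comm, ee_eq]
  congr 3
  simp

theorem ft_cont {B : ℝ} {g : ℝ → ℝ} (h : Ker B g) : Continuous (ft g) := by
  have h1 : Continuous (𝓕 (fun x => ((g x : ℝ) : ℂ))) :=
    VectorFourier.fourierIntegral_continuous Real.continuous_fourierChar
      (L := innerₗ ℝ) continuous_inner (ker_integrable h)
  have h2 : 𝓕 (fun x => ((g x : ℝ) : ℂ)) = ft g := funext fun u => ft_eq g u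
  rwa [h2] at h1

theorem inv_eq {B : ℝ} {g : ℝ → ℝ} (h : Ker B g) (hf : Integrable (ft g)) (x : ℝ) :
    ((g x : ℝ) : ℂ) = ∫ u : ℝ, ft g u * ee (u * x) := by
  have h1 : Continuous (fun x => ((g x : ℝ) : ℂ)) := Complex.continuous_ofReal.comp (ker_continuous h)
  have h2 : 𝓕 (fun x => ((g x : ℝ) : ℂ)) = ft g := funext fun u => ft_eq g u
  have h3 := h1.fourierInv_fourier_eq (ker_integrable h) (by rw [h2]; exact hf)
  have h4 := congrFun h3 x
  rw [h2, Real.fourierInv_eq'] at h4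
  rw [← h4]
  congr 1
  ext v
  rw [smul_eq_mul, mul_comm, ee_eq]
  congr 3
  simp [mul_comm]

theorem phi_int {ρ : ℝ} (hρ : 0 < ρ) (h16 : ρ ≤ 1 / 16) :
    Continuous (ft (kk ρ)) ∧ Integrable (fun u => ft (kk ρ) u ^ 2) := by
  obtain ⟨k1, -, -, -, -, -, -, -, -, -, k2, k3, -, -⟩ := specKRB ρ hρ h16
  have hc := ft_cont k1
  refine ⟨hc, ?_⟩
  have hb : ∀ ξ : ℝ, ‖ft (kk ρ) ξ ^ 2‖ ≤ (ρ + 1 / ρ) ^ 2 * (1 + ξ ^ 2)⁻¹ := by
    intro ξ
    have h1 : ‖ft (kk ρ) ξ‖ * (1 + ξ ^ 2) ≤ ρ + 1 / ρ := by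
      have h2 : ‖ft (kk ρ) ξ‖ * ξ ^ 2 ≤ 1 / ρ := by
        by_cases h0 : ξ = 0
        · rw [h0]
          have : (0:ℝ) ≤ 1 / ρ := by positivity
          simpa using this
        · have h3 := mul_le_mul_of_nonneg_right (k3 ξ h0) (sq_nonneg ξ)
          refine h3.trans (le_of_eq ?_)
          field_simp
      have h4 := k2 ξ
      nlinarith
    have h5 : 0 < 1 + ξ ^ 2 := by positivity
    have h6 : ‖ft (kk ρ) ξ‖ ≤ (ρ + 1 / ρ) * (1 + ξ ^ 2)⁻¹ := by
      rw [← div_eq_mul_inv, le_div_iff₀ h5]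
      exact h1
    have h7 : (1 + ξ ^ 2)⁻¹ ≤ 1 := inv_le_one_of_one_le₀ (by nlinarith [sq_nonneg ξ])
    have h8 : 0 ≤ (1 + ξ ^ 2)⁻¹ := (inv_pos.2 h5).le
    rw [norm_pow]
    calc ‖ft (kk ρ) ξ‖ ^ 2 ≤ ((ρ + 1 / ρ) * (1 + ξ ^ 2)⁻¹) ^ 2 :=
          pow_le_pow_left₀ (norm_nonneg _) h6 2
      _ = (ρ + 1 / ρ) ^ 2 * ((1 + ξ ^ 2)⁻¹ * (1 + ξ ^ 2)⁻¹) := by ring
      _ ≤ (ρ + 1 / ρ) ^ 2 * (1 * (1 + ξ ^ 2)⁻¹) := by gcongr
      _ = _ := by rw [one_mul]
  exact (integrable_inv_one_add_sq.const_mul _).mono' (hc.pow 2).aestronglyMeasurable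
    (Eventually.of_forall hb)

end INVM

open INVM

theorem specINV : SpecINV := by
  intro ρ hρ h16 ι _ c l hs w
  obtain ⟨hc, hi⟩ := phi_int hρ h16
  obtain ⟨-, k1, -, -, -, keven, -, -, -, -, -, -, -, kft⟩ := specKRB ρ hρ h16
  have hft : ft (kap ρ) = fun u => ft (kk ρ) u ^ 2 := funext kft
  have hS : Continuous (fun u : ℝ => ∑' i, c i * ee (-(u * l i))) := by
    refine continuous_tsum (fun i => ?_) hs (fun i u => ?_)
    · have := continuous_ee
      fun_prop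
    · rw [norm_mul, norm_ee, mul_one]
  have hSb : ∀ u : ℝ, ‖∑' i, c i * ee (-(u * l i))‖ ≤ ∑' i, ‖c i‖ := by
    intro u
    refine tsum_of_norm_bounded hs.hasSum (fun i => ?_)
    rw [norm_mul, norm_ee, mul_one]
  have hI : Integrable (fun u : ℝ => ‖∑' i, c i * ee (-(u * l i))‖ * ‖ft (kk ρ) u‖ ^ 2) := by
    have h1 : Integrable (fun u : ℝ => ‖ft (kk ρ) u‖ ^ 2) := by
      have := hi.norm
      simpa only [norm_pow] using this
    refine h1.bdd_mul (c := ∑' i, ‖c i‖) hS.norm.aestronglyMeasurable ?_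
    exact Eventually.of_forall (fun u => by rw [norm_norm]; exact hSb u)
  refine ⟨hI, ?_⟩
  have hk : ∀ i, ((kap ρ (l i - w) : ℝ) : ℂ) =
      ∫ u : ℝ, ft (kk ρ) u ^ 2 * (ee (-(u * l i)) * ee (u * w)) := by
    intro i
    have h1 : kap ρ (l i - w) = kap ρ (w - l i) := by
      rw [← keven (w - l i), neg_sub]
    rw [h1, inv_eq k1 (by rw [hft]; exact hi) (w - l i), hft]
    congr 1
    ext u
    rw [← ee_add]
    congr 2
    ring
  have hint : ∀ i, Integrable (fun u : ℝ =>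
      c i * (ft (kk ρ) u ^ 2 * (ee (-(u * l i)) * ee (u * w)))) := by
    intro i
    refine Integrable.const_mul ?_ _
    refine hi.mul_bdd (c := 1) ?_ ?_
    · have := continuous_ee
      exact (by fun_prop : Continuous fun u : ℝ => ee (-(u * l i)) * ee (u * w)).aestronglyMeasurable
    · exact Eventually.of_forall (fun u => by rw [norm_mul, norm_ee, norm_ee, mul_one])
  have hnorm : ∀ i, ∫ u : ℝ, ‖c i * (ft (kk ρ) u ^ 2 * (ee (-(u * l i)) * ee (u * w)))‖ =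
      ‖c i‖ * ∫ u : ℝ, ‖ft (kk ρ) u ^ 2‖ := by
    intro i
    rw [← integral_const_mul]
    congr 1
    ext u
    rw [norm_mul, norm_mul, norm_mul, norm_ee, norm_ee, mul_one, mul_one]
  have hsum : ∑' i, c i * ((kap ρ (l i - w) : ℝ) : ℂ) =
      ∫ u : ℝ, (∑' i, c i * ee (-(u * l i))) * (ft (kk ρ) u ^ 2 * ee (u * w)) := by
    have h1 : ∀ i, c i * ((kap ρ (l i - w) : ℝ) : ℂ) =
        ∫ u : ℝ, c i * (ft (kk ρ) u ^ 2 * (ee (-(u * l i)) * ee (u * w))) := by
      intro i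
      rw [hk i, integral_const_mul]
    simp only [h1]
    rw [integral_tsum_of_summable_integral_norm hint]
    · congr 1
      ext u
      rw [← tsum_mul_right]
      congr 1
      ext i
      ring
    · simp only [hnorm]
      exact hs.mul_right _
  rw [hsum]
  refine (norm_integral_le_integral_norm _).trans (le_of_eq ?_)
  congr 1
  ext u
  rw [norm_mul, norm_mul, norm_ee, mul_one, norm_pow]

end Pool.Agent.Lib.MP391708.X.PH
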