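import Pool.Agent.Lib.MP_391708_nt.X.PH.SpecC

set_option autoImplicit false

namespace Pool.Agent.Lib.MP391708.X.PH

open Finset Filter Topology MeasureTheory
open Pool.Agent.Lib.MP391708.MR

namespace NCGM

/-- the element `1 + i` -/
def lam : Gi := ⟨1, 1⟩

theorem nmZ_mul (x y : Gi) : (nm (x * y) : ℤ) = nm x * nm y := by
  rw [nm_mul]; push_cast; rfl

theorem nmZ_add (x y : Gi) : (nm (x + y) : ℤ) =
    nm x + nm y + 2 * (x.re * y.re + x.im * y.im) := by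
  rw [nm_cast, nm_cast, nm_cast]
  simp only [Zsqrtd.re_add, Zsqrtd.im_add]
  ring

theorem nmZ_intmul (a : ℤ) (x : Gi) : (nm (x * (a : Gi)) : ℤ) = nm x * a ^ 2 := by
  rw [nmZ_mul, nm_cast (a : Gi)]
  simp

theorem nm_star (x : Gi) : nm (star x) = nm x := by
  have h : ((nm (star x) : ℕ) : ℤ) = nm x := by
    rw [nm_cast, nm_cast]
    simp
  exact_mod_cast h

theorem mul_star_self' (x : Gi) : x * star x = ((nm x : ℤ) : Gi) := by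
  rw [nm_cast]
  apply Zsqrtd.ext
  · rw [Zsqrtd.re_intCast, Zsqrtd.re_mul, Zsqrtd.re_star, Zsqrtd.im_star]
    ring
  · rw [Zsqrtd.im_intCast, Zsqrtd.im_mul, Zsqrtd.re_star, Zsqrtd.im_star]
    ring

/-- coprime to a rational integer: in terms of the norm -/
theorem coprime_of_nm {x : Gi} {n : ℕ} (h : Nat.Coprime (nm x) n) : IsCoprime x (n : Gi) := by
  have h1 : IsCoprime ((nm x : ℕ) : ℤ) (n : ℤ) := Nat.isCoprime_iff_coprime.2 h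
  obtain ⟨a, b, hab⟩ := h1
  refine ⟨star x * (a : Gi), (b : Gi), ?_⟩
  have h2 : ((a * ((nm x : ℕ) : ℤ) + b * (n : ℤ) : ℤ) : Gi) = 1 := by
    rw [hab]; simp
  rw [← h2]
  push_cast
  have h3 := mul_star_self' x
  push_cast at h3
  rw [← h3]
  ring

theorem nm_of_coprime {x : Gi} {n : ℕ} (h : IsCoprime x (n : Gi)) : Nat.Coprime (nm x) n := by
  obtain ⟨a, b, hab⟩ := h
  rw [← Nat.isCoprime_iff_coprime]
  have h1 : a * x = 1 - b * (n : Gi) := by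
    rw [← hab]; ring
  have h2 : ((nm (a * x) : ℕ) : ℤ) = 1 + (n : ℤ) * (-(2 * b.re) + n * (b.re ^ 2 + b.im ^ 2)) := by
    rw [h1, nm_cast]
    simp
    ring
  rw [nmZ_mul] at h2
  refine ⟨(nm a : ℤ), -(-(2 * b.re) + n * (b.re ^ 2 + b.im ^ 2)), ?_⟩
  rw [h2]
  ring

/-- an even element is divisible by `1 + i` -/
theorem lam_dvd {s : Gi} (h : (2 : ℤ) ∣ nm s) : ∃ s', s = lam * s' := by
  rw [nm_cast] at h
  have h1 : (2 : ℤ) ∣ s.re + s.im := by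
    have h2 : (2 : ℤ) ∣ (s.re + s.im) ^ 2 := by
      have h3 : (s.re + s.im) ^ 2 = (s.re ^ 2 + s.im ^ 2) + 2 * (s.re * s.im) := by ring
      rw [h3]
      exact dvd_add h (dvd_mul_right _ _)
    exact Int.prime_two.dvd_of_dvd_pow h2
  obtain ⟨k, hk⟩ := h1
  refine ⟨⟨k, k - s.re⟩, ?_⟩
  ext
  · simp [lam]
  · simp [lam]
    linarith

theorem nm_lam : nm lam = 2 := by
  decide

theorem split {s : Gi} (h : ¬ (8 : ℤ) ∣ nm s) :
    ∃ (j : ℕ) (s' : Gi), j ≤ 2 ∧ s = lam ^ j * s' ∧ ¬ (2 : ℤ) ∣ nm s' := by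
  by_cases h0 : (2 : ℤ) ∣ nm s
  · obtain ⟨s1, h1⟩ := lam_dvd h0
    have e1 : (nm s : ℤ) = 2 * nm s1 := by rw [h1, nmZ_mul, nm_lam]; rfl
    by_cases h2 : (2 : ℤ) ∣ nm s1
    · obtain ⟨s2, h3⟩ := lam_dvd h2
      have e2 : (nm s1 : ℤ) = 2 * nm s2 := by rw [h3, nmZ_mul, nm_lam]; rfl
      refine ⟨2, s2, le_rfl, by rw [h1, h3]; ring, ?_⟩
      rintro ⟨k, hk⟩
      apply h
      exact ⟨k, by rw [e1, e2, hk]; ring⟩
    · exact ⟨1, s1, by norm_num, by rw [h1, pow_one], h2⟩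
  · exact ⟨0, s, by norm_num, by rw [pow_zero, one_mul], h0⟩

theorem lam_ne : lam ≠ 0 := by decide

theorem lam_sq : (⟨0, -1⟩ : Gi) * lam ^ 2 = 2 := by decide

theorem star_lam : star lam = (⟨0, -1⟩ : Gi) * lam := by decide

theorem prime_or (f : ℕ) (z w : Gi) (hz : Nat.Coprime (nm z) (2 * f))
    (hd : ((2 * f : ℕ) : ℤ) ∣ (nm z : ℤ) - (nm w : ℤ)) (p : ℕ) (hp : p.Prime) (hpf : p ∣ f)
    (hp2 : p ≠ 2) (h1 : (p : ℤ) ∣ nm (z + w)) (h2 : (p : ℤ) ∣ nm ((⟨0, 1⟩ : Gi) * (z - w))) :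
    False := by
  have hs : (nm (z + w) : ℤ) + nm ((⟨0, 1⟩ : Gi) * (z - w)) = 2 * (nm z + nm w) := by
    rw [nm_cast, nm_cast, nm_cast, nm_cast]
    simp
    ring
  have h3 : (p : ℤ) ∣ 2 * (nm z + nm w) := by
    rw [← hs]
    exact dvd_add h1 h2
  have h4 : (p : ℤ) ∣ (nm z : ℤ) - nm w := by
    refine dvd_trans ?_ hd
    exact_mod_cast hpf.mul_left 2
  have h5 : (p : ℤ) ∣ 4 * nm z := by
    have h6 : 4 * (nm z : ℤ) = 2 * (nm z + nm w) + 2 * ((nm z : ℤ) - nm w) := by ring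
    rw [h6]
    exact dvd_add h3 (h4.mul_left 2)
  have h7 : p ∣ 4 * nm z := by exact_mod_cast h5
  rcases (Nat.Prime.dvd_mul hp).1 h7 with h8 | h8
  · have h9 : p ∣ 2 ^ 2 := h8
    exact hp2 ((Nat.prime_dvd_prime_iff_eq hp Nat.prime_two).1 (hp.dvd_of_dvd_pow h9))
  · have h9 : p ∣ Nat.gcd (nm z) (2 * f) := Nat.dvd_gcd h8 (hpf.mul_left 2)
    rw [hz] at h9
    exact hp.one_lt.ne' (Nat.dvd_one.1 h9)

theorem odd_mod (f : ℕ) (z : Gi) (hz : Nat.Coprime (nm z) (2 * f)) : (nm z : ℤ) % 4 = 1 := by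
  have h1 : ¬ (2 : ℤ) ∣ nm z := by
    intro h
    have h2 : 2 ∣ nm z := by exact_mod_cast h
    have h3 : 2 ∣ Nat.gcd (nm z) (2 * f) := Nat.dvd_gcd h2 (dvd_mul_right 2 f)
    rw [hz] at h3
    omega
  rw [nm_cast] at h1 ⊢
  rcases Int.even_or_odd' z.re with ⟨a, ha | ha⟩ <;> rcases Int.even_or_odd' z.im with ⟨b, hb | hb⟩
  · exfalso
    apply h1
    rw [ha, hb]
    exact ⟨2 * a ^ 2 + 2 * b ^ 2, by ring⟩
  · rw [ha, hb]
    have : (2 * a) ^ 2 + (2 * b + 1) ^ 2 = 1 + 4 * (a ^ 2 + b ^ 2 + b) := by ring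
    rw [this]
    omega
  · rw [ha, hb]
    have : (2 * a + 1) ^ 2 + (2 * b) ^ 2 = 1 + 4 * (a ^ 2 + b ^ 2 + a) := by ring
    rw [this]
    omega
  · exfalso
    apply h1
    rw [ha, hb]
    exact ⟨2 * a ^ 2 + 2 * a + 2 * b ^ 2 + 2 * b + 1, by ring⟩

theorem two_or (f : ℕ) (z w : Gi) (hz : Nat.Coprime (nm z) (2 * f))
    (hw : Nat.Coprime (nm w) (2 * f)) (h1 : (8 : ℤ) ∣ nm (z + w))
    (h2 : (8 : ℤ) ∣ nm ((⟨0, 1⟩ : Gi) * (z - w))) : False := by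
  have hs : (nm (z + w) : ℤ) + nm ((⟨0, 1⟩ : Gi) * (z - w)) = 2 * (nm z + nm w) := by
    rw [nm_cast, nm_cast, nm_cast, nm_cast]
    simp
    ring
  have h3 := odd_mod f z hz
  have h4 := odd_mod f w hw
  omega

/-- the numbers `a`, `b` -/
theorem exists_ab (f : ℕ) (hf : 0 < f) (U V : ℤ)
    (h : ∀ p : ℕ, p.Prime → p ∣ f → p ≠ 2 → (p : ℤ) ∣ U → (p : ℤ) ∣ V → False)
    (h2 : (8 : ℤ) ∣ U → (8 : ℤ) ∣ V → False) : ∃ a b : ℤ,
    (∀ p : ℕ, p.Prime → p ∣ f → p ≠ 2 → ((p : ℤ) ∣ b ∧ ¬ (p : ℤ) ∣ a ∧ ¬ (p : ℤ) ∣ U) ∨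
      ((p : ℤ) ∣ a ∧ ¬ (p : ℤ) ∣ b ∧ ¬ (p : ℤ) ∣ V)) ∧
    (((4 : ℤ) ∣ b ∧ ¬ (2 : ℤ) ∣ a ∧ ¬ (8 : ℤ) ∣ U) ∨
      ((4 : ℤ) ∣ a ∧ ¬ (2 : ℤ) ∣ b ∧ ¬ (8 : ℤ) ∣ V)) := by
  classical
  let S : Finset ℕ := f.primeFactors.erase 2
  let A : ℕ := ∏ p ∈ S.filter (fun p : ℕ => ¬ ((p : ℕ) : ℤ) ∣ U), p
  let B : ℕ := ∏ p ∈ S.filter (fun p : ℕ => ((p : ℕ) : ℤ) ∣ U), p
  have hS : ∀ p ∈ S, p.Prime ∧ p ≠ 2 := by
    intro p hp
    rw [Finset.mem_erase, Nat.mem_primeFactors] at hp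
    exact ⟨hp.2.1, hp.1⟩
  have hdA : ∀ p : ℕ, p.Prime → p ∣ A → ¬ (p : ℤ) ∣ U ∧ p ≠ 2 := by
    intro p hp hpA
    obtain ⟨q, hq, hpq⟩ := (Prime.dvd_finsetProd_iff hp.prime _).1 hpA
    rw [Finset.mem_filter] at hq
    have h3 := (Nat.prime_dvd_prime_iff_eq hp (hS q hq.1).1).1 hpq
    rw [h3]
    exact ⟨hq.2, (hS q hq.1).2⟩
  have hdB : ∀ p : ℕ, p.Prime → p ∣ B → (p : ℤ) ∣ U ∧ p ≠ 2 := by
    intro p hp hpA
    obtain ⟨q, hq, hpq⟩ := (Prime.dvd_finsetProd_iff hp.prime _).1 hpA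
    rw [Finset.mem_filter] at hq
    have h3 := (Nat.prime_dvd_prime_iff_eq hp (hS q hq.1).1).1 hpq
    rw [h3]
    exact ⟨hq.2, (hS q hq.1).2⟩
  have h4 : ∀ p : ℕ, p.Prime → p ≠ 2 → ∀ n : ℕ, p ∣ 4 * n → p ∣ n := by
    intro p hp hp2 n hn
    rcases (Nat.Prime.dvd_mul hp).1 hn with h5 | h5
    · have h9 : p ∣ 2 ^ 2 := h5
      exact absurd ((Nat.prime_dvd_prime_iff_eq hp Nat.prime_two).1 (hp.dvd_of_dvd_pow h9)) hp2
    · exact h5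
  have hmem : ∀ p : ℕ, p.Prime → p ∣ f → p ≠ 2 → p ∈ S := by
    intro p hp hpf hp2
    rw [Finset.mem_erase, Nat.mem_primeFactors]
    exact ⟨hp2, hp, hpf, hf.ne'⟩
  have key : ∀ p : ℕ, p.Prime → p ∣ f → p ≠ 2 →
      (p ∣ A ∧ ¬ p ∣ B ∧ ¬ (p : ℤ) ∣ U) ∨ (p ∣ B ∧ ¬ p ∣ A ∧ ¬ (p : ℤ) ∣ V) := by
    intro p hp hpf hp2
    by_cases hU : (p : ℤ) ∣ U
    · right
      exact ⟨Finset.dvd_prod_of_mem (fun p => p)
        (Finset.mem_filter.2 ⟨hmem p hp hpf hp2, hU⟩), fun h5 => (hdA p hp h5).1 hU,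
        fun h5 => h p hp hpf hp2 hU h5⟩
    · left
      exact ⟨Finset.dvd_prod_of_mem (fun p => p)
        (Finset.mem_filter.2 ⟨hmem p hp hpf hp2, hU⟩), fun h5 => hU (hdB p hp h5).1, hU⟩
  by_cases h8 : (8 : ℤ) ∣ U
  · refine ⟨((4 * B : ℕ) : ℤ), (A : ℤ), ?_, ?_⟩
    · intro p hp hpf hp2
      rcases key p hp hpf hp2 with ⟨k1, k2, k3⟩ | ⟨k1, k2, k3⟩
      · left
        refine ⟨by exact_mod_cast k1, ?_, k3⟩
        intro h5
        exact k2 (h4 p hp hp2 B (by exact_mod_cast h5))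
      · right
        refine ⟨by exact_mod_cast k1.mul_left 4, ?_, k3⟩
        intro h5
        exact k2 (by exact_mod_cast h5)
    · right
      refine ⟨by exact_mod_cast (dvd_mul_right 4 B), ?_, fun h5 => h2 h8 h5⟩
      intro h5
      exact (hdA 2 Nat.prime_two (by exact_mod_cast h5)).2 rfl
  · refine ⟨(B : ℤ), ((4 * A : ℕ) : ℤ), ?_, ?_⟩
    · intro p hp hpf hp2
      rcases key p hp hpf hp2 with ⟨k1, k2, k3⟩ | ⟨k1, k2, k3⟩
      · left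
        refine ⟨by exact_mod_cast k1.mul_left 4, ?_, k3⟩
        intro h5
        exact k2 (by exact_mod_cast h5)
      · right
        refine ⟨by exact_mod_cast k1, ?_, k3⟩
        intro h5
        exact k2 (h4 p hp hp2 A (by exact_mod_cast h5))
    · left
      refine ⟨by exact_mod_cast (dvd_mul_right 4 A), ?_, h8⟩
      intro h5
      exact (hdB 2 Nat.prime_two (by exact_mod_cast h5)).2 rfl

theorem pdvd_add {p : ℤ} (hp : Prime p) {U V a b T : ℤ} (hb : p ∣ b) (ha : ¬ p ∣ a)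
    (hU : ¬ p ∣ U) : ¬ p ∣ U * a ^ 2 + V * b ^ 2 + 2 * (a * b * T) := by
  intro h
  obtain ⟨c, rfl⟩ := hb
  have h1 : p ∣ U * a ^ 2 := by
    have h2 : U * a ^ 2 = (U * a ^ 2 + V * (p * c) ^ 2 + 2 * (a * (p * c) * T)) -
        p * (V * p * c ^ 2 + 2 * (a * c * T)) := by ring
    rw [h2]
    exact dvd_sub h (dvd_mul_right _ _)
  rcases hp.dvd_or_dvd h1 with h2 | h2
  · exact hU h2
  · exact ha (hp.dvd_of_dvd_pow h2)

theorem edvd_add {U V a b T : ℤ} (hb : 4 ∣ b) (ha : ¬ (2 : ℤ) ∣ a)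
    (hU : ¬ 8 ∣ U) : ¬ 8 ∣ U * a ^ 2 + V * b ^ 2 + 2 * (a * b * T) := by
  intro h
  obtain ⟨c, rfl⟩ := hb
  have h1 : 8 ∣ U * a ^ 2 := by
    have h2 : U * a ^ 2 = (U * a ^ 2 + V * (4 * c) ^ 2 + 2 * (a * (4 * c) * T)) -
        8 * (V * 2 * c ^ 2 + (a * c * T)) := by ring
    rw [h2]
    exact dvd_sub h (dvd_mul_right _ _)
  have h3 : IsCoprime (8 : ℤ) (a ^ 2) := by
    have h4 : IsCoprime (2 : ℤ) a := (Int.prime_two.coprime_iff_not_dvd).2 ha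
    have h5 : (8 : ℤ) = 2 ^ 3 := by norm_num
    rw [h5]
    exact h4.pow
  exact hU (h3.dvd_of_dvd_mul_right h1)

theorem nm_comb (u v : Gi) (a b : ℤ) : (nm (u * (a : Gi) + v * (b : Gi)) : ℤ) =
    nm u * a ^ 2 + nm v * b ^ 2 + 2 * (a * b * (u.re * v.re + u.im * v.im)) := by
  rw [nmZ_add, nmZ_intmul, nmZ_intmul]
  simp
  ring

theorem nm_comb' (u v : Gi) (a b : ℤ) : (nm (u * (a : Gi) + v * (b : Gi)) : ℤ) =
    nm v * b ^ 2 + nm u * a ^ 2 + 2 * (b * a * (u.re * v.re + u.im * v.im)) := by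
  rw [nm_comb]
  ring

theorem s_eq (z w : Gi) (a b : ℤ) : (z + w) * (a : Gi) + ((⟨0, 1⟩ : Gi) * (z - w)) * (b : Gi) =
    z * (⟨a, b⟩ : Gi) + w * star (⟨a, b⟩ : Gi) := by
  apply Zsqrtd.ext
  · simp
    ring
  · simp
    ring

theorem two_pow (j : ℕ) (hj : j ≤ 2) : (2 : Gi) = lam ^ j * ((⟨0, -1⟩ : Gi) * lam ^ (2 - j)) := by
  have h : lam ^ j * lam ^ (2 - j) = lam ^ 2 := by
    rw [← pow_add]
    congr 1
    omega
  calc (2 : Gi) = (⟨0, -1⟩ : Gi) * lam ^ 2 := lam_sq.symm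
    _ = (⟨0, -1⟩ : Gi) * (lam ^ j * lam ^ (2 - j)) := by rw [h]
    _ = _ := by ring

theorem core_dvd (f : ℕ) (z w x s s' : Gi) (j : ℕ) (hj : j ≤ 2)
    (hs : s = z * x + w * star x) (hs' : s = lam ^ j * s')
    (hd : ((2 * f : ℕ) : ℤ) ∣ (nm z : ℤ) - (nm w : ℤ)) :
    (f : Gi) ∣ s' * star (z * x) - (⟨0, -1⟩ : Gi) ^ j * star s' * (w * star x) := by
  obtain ⟨k, hk⟩ := hd
  have h1 : s * star (z * x) - star s * (w * star x) =
      ((nm x : ℤ) : Gi) * (((nm z : ℤ) : Gi) - ((nm w : ℤ) : Gi)) := by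
    rw [← mul_star_self', ← mul_star_self', ← mul_star_self', hs]
    rw [star_add, star_mul', star_mul', star_star]
    ring
  have h2 : star s = (⟨0, -1⟩ : Gi) ^ j * lam ^ j * star s' := by
    rw [hs', star_mul', star_pow, star_lam, mul_pow]
  have h3 : ((nm z : ℤ) : Gi) - ((nm w : ℤ) : Gi) = 2 * ((f : Gi) * (k : Gi)) := by
    rw [← Int.cast_sub, hk]
    push_cast
    ring
  rw [h2, h3] at h1
  have h4 : lam ^ j * (s' * star (z * x) - (⟨0, -1⟩ : Gi) ^ j * star s' * (w * star x)) =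
      lam ^ j * ((f : Gi) * (((nm x : ℤ) : Gi) * ((⟨0, -1⟩ : Gi) * lam ^ (2 - j)) * (k : Gi))) := by
    calc lam ^ j * (s' * star (z * x) - (⟨0, -1⟩ : Gi) ^ j * star s' * (w * star x))
        = (lam ^ j * s') * star (z * x) -
          (⟨0, -1⟩ : Gi) ^ j * lam ^ j * star s' * (w * star x) := by ring
      _ = s * star (z * x) - (⟨0, -1⟩ : Gi) ^ j * lam ^ j * star s' * (w * star x) := by rw [← hs']
      _ = ((nm x : ℤ) : Gi) * (2 * ((f : Gi) * (k : Gi))) := h1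
      _ = ((nm x : ℤ) : Gi) * ((lam ^ j * ((⟨0, -1⟩ : Gi) * lam ^ (2 - j))) *
          ((f : Gi) * (k : Gi))) := by rw [← two_pow j hj]
      _ = _ := by ring
  have h5 := mul_left_cancel₀ (pow_ne_zero j lam_ne) h4
  rw [h5]
  exact dvd_mul_right _ _

end NCGM

theorem specNCG : SpecNCG := by
  intro f χ hf hχ h01 hi hst z w hz hw hd
  have hz' : Nat.Coprime (nm z) (2 * f) := NCGM.nm_of_coprime hz
  have hw' : Nat.Coprime (nm w) (2 * f) := NCGM.nm_of_coprime hw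
  obtain ⟨a, b, hab, hab2⟩ := NCGM.exists_ab f hf (nm (z + w)) (nm ((⟨0, 1⟩ : Gi) * (z - w)))
    (fun p hp hpf hp2 h1 h2 => NCGM.prime_or f z w hz' hd p hp hpf hp2 h1 h2)
    (fun h1 h2 => NCGM.two_or f z w hz' hw' h1 h2)
  obtain ⟨s, hsdef⟩ : ∃ s : Gi, s = (z + w) * (a : Gi) + ((⟨0, 1⟩ : Gi) * (z - w)) * (b : Gi) :=
    ⟨_, rfl⟩
  have hs8 : ¬ (8 : ℤ) ∣ nm s := by
    rcases hab2 with ⟨h1, h2, h3⟩ | ⟨h1, h2, h3⟩
    · rw [hsdef, NCGM.nm_comb]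
      exact NCGM.edvd_add h1 h2 h3
    · rw [hsdef, NCGM.nm_comb']
      exact NCGM.edvd_add h1 h2 h3
  have hsp : ∀ p : ℕ, p.Prime → p ∣ f → p ≠ 2 → ¬ (p : ℤ) ∣ nm s := by
    intro p hp hpf hp2
    rcases hab p hp hpf hp2 with ⟨h1, h2, h3⟩ | ⟨h1, h2, h3⟩
    · rw [hsdef, NCGM.nm_comb]
      exact NCGM.pdvd_add (Nat.prime_iff_prime_int.1 hp) h1 h2 h3
    · rw [hsdef, NCGM.nm_comb']
      exact NCGM.pdvd_add (Nat.prime_iff_prime_int.1 hp) h1 h2 h3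
  obtain ⟨x, hx⟩ : ∃ x : Gi, x = ⟨a, b⟩ := ⟨_, rfl⟩
  have hs1 : s = z * x + w * star x := by
    rw [hsdef, NCGM.s_eq, hx]
  have hnx : (nm x : ℤ) = a ^ 2 + b ^ 2 := by
    rw [nm_cast, hx]
  have hxc : Nat.Coprime (nm x) f := by
    apply Nat.coprime_of_dvd
    intro p hp hp1 hpf
    have hp1' : (p : ℤ) ∣ a ^ 2 + b ^ 2 := by
      rw [← hnx]
      exact_mod_cast hp1
    have hpi := Nat.prime_iff_prime_int.1 hp
    have e1 : (p : ℤ) ∣ b → (p : ℤ) ∣ a := by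
      intro h1
      have h2 : (p : ℤ) ∣ a ^ 2 := by
        have h3 := dvd_sub hp1' (dvd_pow h1 (two_ne_zero))
        rwa [add_sub_cancel_right] at h3
      exact hpi.dvd_of_dvd_pow h2
    have e2 : (p : ℤ) ∣ a → (p : ℤ) ∣ b := by
      intro h1
      have h2 : (p : ℤ) ∣ b ^ 2 := by
        have h3 := dvd_sub hp1' (dvd_pow h1 (two_ne_zero))
        rwa [add_sub_cancel_left] at h3
      exact hpi.dvd_of_dvd_pow h2
    by_cases hp2 : p = 2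
    · subst hp2
      rcases hab2 with ⟨h1, h2, h3⟩ | ⟨h1, h2, h3⟩
      · exact h2 (e1 (dvd_trans (by norm_num) h1))
      · exact h2 (e2 (dvd_trans (by norm_num) h1))
    · rcases hab p hp hpf hp2 with ⟨h1, h2, h3⟩ | ⟨h1, h2, h3⟩
      · exact h2 (e1 h1)
      · exact h2 (e2 h1)
  obtain ⟨j, s', hj, hs', hs2⟩ := NCGM.split hs8
  have hsc : Nat.Coprime (nm s') f := by
    apply Nat.coprime_of_dvd
    intro p hp hp1 hpf
    by_cases hp2 : p = 2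
    · subst hp2
      exact hs2 (by exact_mod_cast hp1)
    · apply hsp p hp hpf hp2
      rw [hs', NCGM.nmZ_mul]
      exact Dvd.dvd.mul_left (by exact_mod_cast hp1) _
  have hxχ : χ x ≠ 0 := (hχ.sup x).2 (NCGM.coprime_of_nm hxc)
  have hsχ : χ s' ≠ 0 := (hχ.sup s').2 (NCGM.coprime_of_nm hsc)
  have hcong := NCGM.core_dvd f z w x s s' j hj hs1 hs' hd
  have hper : χ (s' * star (z * x)) = χ ((⟨0, -1⟩ : Gi) ^ j * star s' * (w * star x)) := by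
    have h1 : ((f : ℤ) : Gi) ∣ s' * star (z * x) - (⟨0, -1⟩ : Gi) ^ j * star s' * (w * star x) := by
      simpa using hcong
    rw [Zsqrtd.intCast_dvd] at h1
    rw [Zsqrtd.re_sub, Zsqrtd.im_sub] at h1
    exact hχ.per _ _ h1.1 h1.2
  have hmi : χ (⟨0, -1⟩ : Gi) = 1 := by
    have h1 : (⟨0, -1⟩ : Gi) = ⟨0, 1⟩ * (⟨0, 1⟩ * ⟨0, 1⟩) := by decide
    rw [h1, hχ.mul, hχ.mul, hi]
    norm_num
  have hpow : ∀ n : ℕ, χ ((⟨0, -1⟩ : Gi) ^ n) = 1 := by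
    intro n
    induction n with
    | zero => rw [pow_zero]; exact hχ.one
    | succ n ih => rw [pow_succ, hχ.mul, ih, hmi, one_mul]
  rw [hχ.mul, hst, hχ.mul, hχ.mul, hχ.mul, hχ.mul, hst, hst, hpow, one_mul] at hper
  have h2 := mul_left_cancel₀ hsχ hper
  exact mul_right_cancel₀ hxχ h2

end Pool.Agent.Lib.MP391708.X.PH

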