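import Pool.Agent.Lib.MP_391708_nt.X.PH.SpecA

/-!
# MP_391708, Theorem X, part PH, module OSG (helper16): the hypothesis `Osc` holds
-/

set_option autoImplicit false

namespace Pool.Agent.Lib.MP391708.X.PH

open Finset Filter Topology MeasureTheory
open Pool.Agent.Lib.MP391708.MR
open Pool.Agent.Lib.MP391708.QPA (Rough rInd PB)
open Pool.Agent.Lib.MP553de0.AA (Ker ft kk kap)

namespace OSGM

theorem ev_pow (r A a : ℝ) (hr : 0 < r) (ha : 0 < a) :
    ∀ᶠ L : ℝ in atTop, r * L ^ A ≤ Real.exp (a * L) := by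
  have h := (isLittleO_rpow_exp_pos_mul_atTop A ha).bound (show (0:ℝ) < 1 / r by positivity)
  filter_upwards [h, eventually_ge_atTop 0] with L hL h0
  rw [Real.norm_of_nonneg (Real.rpow_nonneg h0 _), Real.norm_of_nonneg (Real.exp_pos _).le] at hL
  calc r * L ^ A ≤ r * (1 / r * Real.exp (a * L)) := mul_le_mul_of_nonneg_left hL hr.le
    _ = Real.exp (a * L) := by field_simp

end OSGM

open OSGM

theorem specOSG (hWGM : SpecWGM) (hROG : SpecROG) : SpecOSG := by
  obtain ⟨-, -, C1, hC1, hW⟩ := hWGM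
  obtain ⟨C0, hC0, hR⟩ := hROG
  refine ⟨C0 * C1 + 1, by linarith [mul_pos hC0 hC1], ?_⟩
  intro A δ b hA hδ hδ1
  have hb : (0:ℝ) ≤ b := Nat.cast_nonneg b
  obtain ⟨K, hK⟩ : ∃ K : ℝ, K = 32 * b + 64 := ⟨_, rfl⟩
  have hK64 : 64 ≤ K := by rw [hK]; linarith
  have hKpos : 0 < K := by linarith
  have hKδ : 0 < K * δ := mul_pos hKpos hδ
  obtain ⟨c, w0, hc, hw0, hR'⟩ := hR (max 1 (A / (K * δ))) (le_max_left _ _)
  have hcK : 0 < c * (K * δ) := mul_pos hc hKδ
  have e1 := ev_pow 1 A (c * (K * δ)) one_pos hcK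
  have e2 := ev_pow 2 1 (c * (K * δ)) two_pos hcK
  have e3 := ev_pow (δ * Real.exp b) 1 (c * (K * δ)) (mul_pos hδ (Real.exp_pos _)) hcK
  have e4 : ∀ᶠ L : ℝ in atTop, max (1 / δ) (w0 / δ) ≤ L := eventually_ge_atTop _
  obtain ⟨L0, hL0⟩ := Filter.eventually_atTop.1 (e1.and (e2.and (e3.and e4)))
  refine ⟨L0, fun L hL f χ m hf hfL hχ hnp hm B g hg v u hv hu => ?_⟩
  obtain ⟨h1, h2, h3, h4⟩ := hL0 L hL
  rw [← hK] at hv
  rw [one_mul] at h1
  rw [Real.rpow_one] at h2 h3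
  have h5 : 1 ≤ δ * L := by
    have := (div_le_iff₀ hδ).1 ((le_max_left _ _).trans h4)
    linarith
  have h6 : w0 ≤ δ * L := by
    have := (div_le_iff₀ hδ).1 ((le_max_right _ _).trans h4)
    linarith
  have hLpos : 0 < L := by
    by_contra h
    have : δ * L ≤ 0 := mul_nonpos_of_nonneg_of_nonpos hδ.le (not_lt.1 h)
    linarith
  have hv0 : δ * L ≤ v := by
    have : δ * L ≤ K * (δ * L) := by
      have := mul_le_mul_of_nonneg_right (show (1:ℝ) ≤ K by linarith) (show 0 ≤ δ * L by linarith)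
      linarith
    linarith
  have hvpos : 0 < v := by linarith
  have hcv : c * (K * δ) * L ≤ c * v := by
    have : c * (K * δ) * L = c * (K * (δ * L)) := by ring
    rw [this]
    exact mul_le_mul_of_nonneg_left hv hc.le
  have hexp : Real.exp (c * (K * δ) * L) ≤ Real.exp (c * v) := Real.exp_le_exp.2 hcv
  have ht : 2 ≤ Real.exp (δ * L) := by
    have := Real.add_one_le_exp (δ * L)
    linarith
  have hpow : Real.exp (δ * L) ^ (16 * b + 32) ≤ Real.exp (v / 2) := by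
    rw [← Real.exp_nat_mul]
    refine Real.exp_le_exp.2 ?_
    push_cast
    have : (16 * (b:ℝ) + 32) * (δ * L) = K * (δ * L) / 2 := by rw [hK]; ring
    rw [this]
    linarith
  have hmv : |(m : ℝ)| ≤ Real.exp (max 1 (A / (K * δ)) * v) := by
    refine hm.trans (Real.exp_le_exp.2 ?_)
    calc A * L = A / (K * δ) * (K * (δ * L)) := by field_simp
      _ ≤ A / (K * δ) * v := mul_le_mul_of_nonneg_left hv (by positivity)
      _ ≤ max 1 (A / (K * δ)) * v := mul_le_mul_of_nonneg_right (le_max_right _ _) hvpos.le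
  have key := hR' b (Real.exp (δ * L)) v ht (h6.trans hv0) hpow f χ m hf
    ((hfL.trans h1).trans hexp) hχ hnp hmv B g hg u ((hu.trans h2).trans hexp)
  refine key.trans ?_
  have hW1 : WG (Real.exp (δ * L)) ≤ C1 / (δ * L) := by
    have := hW (Real.exp (δ * L)) ht
    rwa [Real.log_exp] at this
  have hE : Real.exp (-(c * v)) ≤ Real.exp (-(b:ℝ)) / (δ * L) := by
    rw [le_div_iff₀ (by linarith)]
    have h7 : δ * L * Real.exp b ≤ Real.exp (c * v) := by
      have : δ * L * Real.exp b = δ * Real.exp b * L := by ring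
      rw [this]
      exact h3.trans hexp
    rw [Real.exp_neg, Real.exp_neg, inv_mul_le_iff₀ (Real.exp_pos _), ← div_eq_mul_inv,
      le_div_iff₀ (Real.exp_pos _)]
    exact h7
  have hB := hg.1
  have h8 : C0 * Real.exp (-(b:ℝ)) * WG (Real.exp (δ * L)) ≤
      C0 * Real.exp (-(b:ℝ)) * (C1 / (δ * L)) :=
    mul_le_mul_of_nonneg_left hW1 (by positivity)
  calc B * (C0 * Real.exp (-(b:ℝ)) * WG (Real.exp (δ * L)) + Real.exp (-(c * v)))
      ≤ B * (C0 * Real.exp (-(b:ℝ)) * (C1 / (δ * L)) + Real.exp (-(b:ℝ)) / (δ * L)) :=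
        mul_le_mul_of_nonneg_left (add_le_add h8 hE) hB
    _ = (C0 * C1 + 1) * Real.exp (-(b:ℝ)) * B / (δ * L) := by ring

end Pool.Agent.Lib.MP391708.X.PH
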