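import Pool.Agent.Lib.MP_391708_nt.X.PH.SpecC

/-!
# MP_391708, Theorem X, part PH: module PHX (helper11)
-/

set_option autoImplicit false

namespace Pool.Agent.Lib.MP391708.X.PH

open Finset Filter Topology MeasureTheory
open Pool.Agent.Lib.MP391708.MR

namespace PHXM

theorem chQ {f : ℕ} {χ : Gi → ℂ} (h : Pool.Agent.Lib.MP391708.X.ChiG (f : Gi) χ) : ChQ f χ where
  one := h.one
  mul := h.mul
  per x y h1 h2 := by
    obtain ⟨a, ha⟩ := h1
    obtain ⟨b, hb⟩ := h2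
    have e : x = y + (f : Gi) * ⟨a, b⟩ := by
      apply Zsqrtd.ext
      · simp [Zsqrtd.re_mul, ← ha]
      · simp [Zsqrtd.im_mul, ← hb]
    rw [e]
    exact h.period y ⟨a, b⟩
  sup := h.supp

theorem dir_I : dir (⟨0, 1⟩ : Gi) = Complex.I := by
  unfold dir
  simp [GaussianInt.toComplex_def]

theorem xi_I (k : ℤ) : xi k (⟨0, 1⟩ : Gi) = Complex.I ^ k := by
  unfold xi
  rw [dir_I]

end PHXM

theorem specPHX (hPHF : SpecPHF) : SpecPHX := by
  intro ε A δ₀ hε hA hδ hδ1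
  obtain ⟨N₀, hN⟩ := hPHF ε A δ₀ hε hA hδ hδ1
  refine ⟨N₀, fun N h0 f χ k hf hfA hχ hk hnp hu y y' h1 h2 h3 => ?_⟩
  refine hN N h0 f χ k hf hfA (PHXM.chQ hχ) ?_ hk hnp y y' h1 h2 h3
  unfold UI
  unfold Pool.Agent.Lib.MP391708.X.hk at hu
  rw [PHXM.xi_I] at hu
  exact hu

end Pool.Agent.Lib.MP391708.X.PH
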