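import Pool.Agent.Lib.MP_391708_nt.X.PH.SpecB
import Pool.Agent.Lib.MP_553de0_nt.AA.PLN

/-!
# MP_391708, Theorem X, part PH: module PLI (Plancherel for windows of a summable family; helper82)
-/

set_option autoImplicit false

namespace Pool.Agent.Lib.MP391708.X.PH

open Finset Filter Topology MeasureTheory FourierTransform
open Pool.Agent.Lib.MP054243.AV (ee)
open Pool.Agent.Lib.MP553de0.AA (Ker ft)

namespace PLIM

open Pool.Agent.Lib.MP553de0.AA.PLNM (ee_eq norm_ee ee_add continuous_ee ker_continuous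
  ker_integrable norm_ft_neg ft_zero)

variable {B : ℝ} {g : ℝ → ℝ} {ι : Type} {c : ι → ℂ} {l : ι → ℝ}

theorem term_bound (h : Ker B g) (v : ℝ) (i : ι) :
    ‖c i * ((g (l i - v) : ℝ) : ℂ)‖ ≤ ‖c i‖ * B := by
  rw [norm_mul, Complex.norm_real, Real.norm_eq_abs]
  exact mul_le_mul_of_nonneg_left (h.2.1 _) (norm_nonneg _)

theorem cont_W (h : Ker B g) (hs : Summable fun i => ‖c i‖) :
    Continuous (fun v : ℝ => ∑' i, c i * ((g (l i - v) : ℝ) : ℂ)) := by
  apply continuous_tsum (u := fun i => ‖c i‖ * B)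
  · intro i
    have := ker_continuous h
    fun_prop
  · exact hs.mul_right B
  · intro i v; exact term_bound h v i

theorem cont_D (hs : Summable fun i => ‖c i‖) :
    Continuous (fun u : ℝ => ∑' i, c i * ee (-(u * l i))) := by
  apply continuous_tsum (u := fun i => ‖c i‖)
  · intro i
    have := continuous_ee
    fun_prop
  · exact hs
  · intro i v
    rw [norm_mul, norm_ee, mul_one]

theorem term_int (h : Ker B g) (i : ι) :
    Integrable fun v => c i * ((g (l i - v) : ℝ) : ℂ) := by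
  apply Integrable.const_mul
  apply Integrable.ofReal
  exact (ker_integrable h).comp_sub_left (l i)

theorem term_norm_int (i : ι) :
    ∫ v, ‖c i * ((g (l i - v) : ℝ) : ℂ)‖ = ‖c i‖ * ∫ x, |g x| := by
  simp only [norm_mul, Complex.norm_real, Real.norm_eq_abs]
  rw [integral_const_mul]
  congr 1
  exact integral_sub_left_eq_self (fun x => |g x|) volume (l i)

theorem summ_norm_int (hs : Summable fun i => ‖c i‖) :
    Summable fun i => ∫ v, ‖c i * ((g (l i - v) : ℝ) : ℂ)‖ := by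
  simp only [term_norm_int]
  exact hs.mul_right _

theorem int_W [Countable ι] (h : Ker B g) (hs : Summable fun i => ‖c i‖) :
    Integrable (fun v : ℝ => ∑' i, c i * ((g (l i - v) : ℝ) : ℂ)) := by
  refine ⟨(cont_W h hs).aestronglyMeasurable, ?_⟩
  rw [HasFiniteIntegral]
  have h1 : ∀ v : ℝ, ‖∑' i, c i * ((g (l i - v) : ℝ) : ℂ)‖ₑ ≤
      ∑' i, ‖c i * ((g (l i - v) : ℝ) : ℂ)‖ₑ := fun v => enorm_tsum_le_tsum_enorm
  refine (lintegral_mono h1).trans_lt ?_
  rw [lintegral_tsum (fun i => (term_int h i).1.enorm)]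
  have h2 : ∀ i, ∫⁻ v, ‖c i * ((g (l i - v) : ℝ) : ℂ)‖ₑ =
      ENNReal.ofReal (∫ v, ‖c i * ((g (l i - v) : ℝ) : ℂ)‖) := by
    intro i
    rw [ofReal_integral_norm_eq_lintegral_enorm (term_int h i)]
  simp only [h2]
  rw [← ENNReal.ofReal_tsum_of_nonneg (fun i => integral_nonneg (fun v => norm_nonneg _))
    (summ_norm_int hs)]
  exact ENNReal.ofReal_lt_top

/-- the Fourier transform of a window -/
theorem fourier_W [Countable ι] (h : Ker B g) (hs : Summable fun i => ‖c i‖) (u : ℝ) :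
    𝓕 (fun v : ℝ => ∑' i, c i * ((g (l i - v) : ℝ) : ℂ)) u =
      (∑' i, c i * ee (-(u * l i))) * ft g (-u) := by
  rw [Real.fourier_eq']
  have h0 : ∀ v : ℝ, Complex.exp (((-2 * Real.pi * (inner ℝ v u) : ℝ) : ℂ) * Complex.I) •
      (∑' i, c i * ((g (l i - v) : ℝ) : ℂ)) =
      ∑' i, ee (-(v * u)) * (c i * ((g (l i - v) : ℝ) : ℂ)) := by
    intro v
    rw [tsum_mul_left, smul_eq_mul]
    congr 1
    rw [ee_eq]
    congr 3
    simp [mul_comm]
  simp only [h0]
  have hI : ∀ i, Integrable fun v => ee (-(v * u)) * (c i * ((g (l i - v) : ℝ) : ℂ)) := by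
    intro i
    refine (term_int h i).bdd_mul (c := 1) ?_ ?_
    · have := continuous_ee
      exact (by fun_prop : Continuous fun v => ee (-(v * u))).aestronglyMeasurable
    · exact Eventually.of_forall (fun v => by rw [norm_ee])
  rw [← integral_tsum_of_summable_integral_norm hI]
  · rw [← tsum_mul_right]
    congr 1; ext i
    have h3 : ∀ v : ℝ, ee (-(v * u)) * (c i * ((g (l i - v) : ℝ) : ℂ)) =
        (c i * ee (-(u * l i))) * (((g (l i - v) : ℝ) : ℂ) * ee (-(-u * (l i - v)))) := by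
      intro v
      have : ee (-(v * u)) = ee (-(u * l i)) * ee (-(-u * (l i - v))) := by
        rw [← ee_add]; congr 1; ring
      rw [this]; ring
    simp only [h3]
    rw [integral_const_mul]
    congr 1
    unfold ft
    exact integral_sub_left_eq_self (fun x => ((g x : ℝ) : ℂ) * ee (-(-u * x))) volume (l i)
  · have h4 : ∀ i, ∫ v, ‖ee (-(v * u)) * (c i * ((g (l i - v) : ℝ) : ℂ))‖ =
        ∫ v, ‖c i * ((g (l i - v) : ℝ) : ℂ)‖ := by
      intro i
      congr 1; ext v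
      rw [norm_mul, norm_ee, one_mul]
    simp only [h4]
    exact summ_norm_int hs

end PLIM

open PLIM in
open Pool.Agent.Lib.MP553de0.AA.PLNM (norm_ft_neg ft_zero) in
theorem specPLI : SpecPLI := by
  intro B g h ι _ c l hs
  have hcW := cont_W (l := l) h hs
  have hiW := int_W (l := l) h hs
  have hcD := cont_D (l := l) hs
  -- bounded
  obtain ⟨M, hM0, hM⟩ : ∃ M : ℝ, 0 ≤ M ∧ ∀ v : ℝ, ‖∑' i, c i * ((g (l i - v) : ℝ) : ℂ)‖ ≤ M := by
    refine ⟨∑' i, ‖c i‖ * B, ?_, ?_⟩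
    · exact tsum_nonneg (fun i => mul_nonneg (norm_nonneg _) h.1)
    · intro v
      exact tsum_of_norm_bounded (hs.mul_right B).hasSum (fun i => term_bound h v i)
  have hi2 : Integrable (fun v : ℝ => ‖∑' i, c i * ((g (l i - v) : ℝ) : ℂ)‖ ^ 2) := by
    refine Integrable.mono' (hiW.norm.const_mul M) ((hcW.norm.pow 2).aestronglyMeasurable) ?_
    refine Eventually.of_forall (fun v => ?_)
    rw [Real.norm_eq_abs, abs_of_nonneg (by positivity), sq]
    exact mul_le_mul_of_nonneg_right (hM v) (norm_nonneg _)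
  have hm2 : MemLp (fun v : ℝ => ∑' i, c i * ((g (l i - v) : ℝ) : ℂ)) 2 := by
    rw [memLp_two_iff_integrable_sq_norm hcW.aestronglyMeasurable]
    exact hi2
  have hPL := Pool.Agent.Lib.MP_424d38_an.LIN.lintegral_fourier_sq hiW hm2
  have hF : ∀ u : ℝ, ‖𝓕 (fun v : ℝ => ∑' i, c i * ((g (l i - v) : ℝ) : ℂ)) u‖ =
      ‖∑' i, c i * ee (-(u * l i))‖ * ‖ft g u‖ := by
    intro u
    rw [fourier_W h hs, norm_mul, norm_ft_neg]
  have e1 : ∫⁻ v : ℝ, ‖∑' i, c i * ((g (l i - v) : ℝ) : ℂ)‖ₑ ^ 2 =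
      ENNReal.ofReal (∫ v : ℝ, ‖∑' i, c i * ((g (l i - v) : ℝ) : ℂ)‖ ^ 2) := by
    rw [ofReal_integral_eq_lintegral_ofReal hi2 (Eventually.of_forall (fun v => by positivity))]
    congr 1; ext v
    rw [← ofReal_norm, ENNReal.ofReal_pow (norm_nonneg _)]
  have hcF : Continuous (𝓕 (fun v : ℝ => ∑' i, c i * ((g (l i - v) : ℝ) : ℂ))) :=
    Pool.Agent.Lib.MP_424d38_an.LIN.continuous_fourier hiW
  have hfun : (fun u : ℝ => ‖∑' i, c i * ee (-(u * l i))‖ ^ 2 * ‖ft g u‖ ^ 2) =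
      fun u => ‖𝓕 (fun v : ℝ => ∑' i, c i * ((g (l i - v) : ℝ) : ℂ)) u‖ ^ 2 := by
    ext u; rw [hF u]; ring
  have e2 : ∀ u : ℝ, ‖𝓕 (fun v : ℝ => ∑' i, c i * ((g (l i - v) : ℝ) : ℂ)) u‖ₑ ^ 2 =
      ENNReal.ofReal (‖𝓕 (fun v : ℝ => ∑' i, c i * ((g (l i - v) : ℝ) : ℂ)) u‖ ^ 2) := by
    intro u
    rw [← ofReal_norm, ENNReal.ofReal_pow (norm_nonneg _)]
  have hi3 : Integrable
      (fun u : ℝ => ‖𝓕 (fun v : ℝ => ∑' i, c i * ((g (l i - v) : ℝ) : ℂ)) u‖ ^ 2) := by
    refine ⟨(hcF.norm.pow 2).aestronglyMeasurable, ?_⟩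
    rw [hasFiniteIntegral_iff_ofReal (Eventually.of_forall (fun v => by positivity))]
    simp only [e2] at hPL
    rw [hPL, e1]
    exact ENNReal.ofReal_lt_top
  refine ⟨hcD, hiW, hi2, ?_, ?_, ?_⟩
  · rw [hfun]; exact hi3
  · rw [hfun]
    simp only [e2] at hPL
    rw [← ofReal_integral_eq_lintegral_ofReal hi3 (Eventually.of_forall (fun v => by positivity)),
      e1] at hPL
    have := (ENNReal.ofReal_eq_ofReal_iff (integral_nonneg (fun v => by positivity))
      (integral_nonneg (fun v => by positivity))).1 hPL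
    exact this.symm
  · have h5 := fourier_W (l := l) h hs 0
    rw [neg_zero, ft_zero] at h5
    have h6 : (∑' i, c i * ee (-(0 * l i))) = ∑' i, c i := by
      congr 1; ext i
      simp [ee]
    rw [h6] at h5
    rw [← h5, Real.fourier_eq']
    congr 1; ext v
    simp

end Pool.Agent.Lib.MP391708.X.PH
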