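import Pool.Agent.Lib.MP_391708_nt.X.PH.SpecA

/-!
# MP_391708, Theorem X, part PH, module PSU (helper45): partial sums
-/

set_option autoImplicit false

namespace Pool.Agent.Lib.MP391708.X.PH

open Finset Filter Topology
open Pool.Agent.Lib.MP391708.MR

namespace PSUM

theorem nm_nat (f : ℕ) : nm ((f : ℕ) : Gi) = f ^ 2 := by
  unfold nm
  have h1 : (((f : ℕ) : Gi)).re = (f : ℤ) := Zsqrtd.re_natCast f
  have h2 : (((f : ℕ) : Gi)).im = 0 := Zsqrtd.im_natCast f
  rw [h1, h2]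
  have h3 : ((f : ℤ) ^ 2 + 0 ^ 2) = ((f ^ 2 : ℕ) : ℤ) := by
    push_cast
    ring
  rw [h3, Int.natAbs_natCast]

theorem chiG {f : ℕ} {χ : Gi → ℂ} (hf : 0 < f) (h : ChQ f χ) :
    Pool.Agent.Lib.MP391708.X.ChiG ((f : ℕ) : Gi) χ where
  ne := by
    intro h0
    have h1 : nm ((f : ℕ) : Gi) = 0 := by rw [h0]; rfl
    rw [nm_nat] at h1
    have h2 : f = 0 := by
      rcases Nat.eq_zero_or_pos f with h3 | h3
      · exact h3
      · have : 0 < f ^ 2 := by positivity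
        omega
    omega
  one := h.one
  mul := h.mul
  period := by
    intro x y
    have h1 : (((f : ℕ) : Gi)).re = (f : ℤ) := Zsqrtd.re_natCast f
    have h2 : (((f : ℕ) : Gi)).im = 0 := Zsqrtd.im_natCast f
    refine h.per _ _ ?_ ?_
    · refine ⟨y.re, ?_⟩
      have e : (x + ((f : ℕ) : Gi) * y).re = x.re + (f : ℤ) * y.re := by
        rw [Zsqrtd.re_add, Zsqrtd.re_mul, h1, h2]
        ring
      rw [e]
      ring
    · refine ⟨y.im, ?_⟩
      have e : (x + ((f : ℕ) : Gi) * y).im = x.im + (f : ℤ) * y.im := by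
        rw [Zsqrtd.im_add, Zsqrtd.im_mul, h1, h2]
        ring
      rw [e]
      ring
  supp := h.sup

end PSUM

theorem specPSU (h : Pool.Agent.Lib.MP391708.X.SpecANC) : SpecPSU := by
  intro A hA
  obtain ⟨c', hc', hc1, hev⟩ := h A 1 hA le_rfl
  obtain ⟨x₁, hx₁⟩ := eventually_atTop.1 hev
  refine ⟨min (1 / 8) (c' / 2), max x₁ 1, lt_min (by norm_num) (by linarith), min_le_left _ _,
    le_max_right _ _, ?_⟩
  intro x hx f χ m hf hfx hch hnp hm
  have hx1 : 1 ≤ x := (le_max_right _ _).trans hx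
  have hx0 : 0 < x := by linarith
  have hcc : min (1 / 8 : ℝ) (c' / 2) ≤ c' / 2 := min_le_right _ _
  have h1 : (nm ((f : ℕ) : Gi) : ℝ) ≤ x ^ c' := by
    rw [PSUM.nm_nat]
    push_cast
    have h2 : (f : ℝ) ≤ x ^ (c' / 2) := hfx.trans (Real.rpow_le_rpow_of_exponent_le hx1 hcc)
    have h3 : (0 : ℝ) ≤ f := Nat.cast_nonneg f
    calc (f : ℝ) ^ 2 ≤ (x ^ (c' / 2)) ^ 2 := pow_le_pow_left₀ h3 h2 2
      _ = x ^ c' := by
        rw [← Real.rpow_natCast, ← Real.rpow_mul hx0.le]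
        congr 1
        push_cast
        ring
  have h4 := hx₁ x ((le_max_left _ _).trans hx) ((f : ℕ) : Gi) χ m (PSUM.chiG hf hch) h1 hm hnp x
    hx0.le le_rfl
  refine h4.trans ?_
  refine Real.rpow_le_rpow_of_exponent_le hx1 ?_
  linarith

end Pool.Agent.Lib.MP391708.X.PH
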