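import Pool.Agent.Lib.MP_391708_nt.X.PH.SpecC
import Pool.Agent.Lib.MP_553de0_nt.AA.KRB

/-!
# MP_391708, Theorem X, part PH: module PWG (windows of primes) (helper15)
-/

set_option autoImplicit false

namespace Pool.Agent.Lib.MP391708.X.PH

open Finset Filter Topology MeasureTheory
open Pool.Agent.Lib.MP391708.MR
open Pool.Agent.Lib.MP391708.MR.OS (CM RP pw)
open Pool.Agent.Lib.MP391708.QPA (Rough rInd PB)
open Pool.Agent.Lib.MP054243.AV (ee)
open Pool.Agent.Lib.MP553de0.AA (Ker ft kk kap)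

namespace PWGM

/-! ### rough numbers -/

lemma rough_mul {t : ℝ} {a b : ℕ} : Rough t (a * b) ↔ Rough t a ∧ Rough t b := by
  constructor
  · intro h
    exact ⟨fun p hp hpa => h p hp (hpa.mul_right b), fun p hp hpb => h p hp (hpb.mul_left a)⟩
  · rintro ⟨h1, h2⟩ p hp hpab
    rcases (hp.dvd_mul).1 hpab with h | h
    · exact h1 p hp h
    · exact h2 p hp h

lemma rInd_mul (t : ℝ) (a b : ℕ) : rInd t (a * b) = rInd t a * rInd t b := by
  unfold rInd
  by_cases h1 : Rough t a <;> by_cases h2 : Rough t b <;> simp [rough_mul, h1, h2]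

lemma rInd_one (t : ℝ) : rInd t 1 = 1 := by
  unfold rInd
  rw [if_pos]
  intro p hp h
  exact absurd (Nat.dvd_one.1 h) hp.one_lt.ne'

lemma rInd_sq (t : ℝ) (a : ℕ) : rInd t a * rInd t a = rInd t a := by
  unfold rInd
  split_ifs <;> simp

lemma rInd_cases (t : ℝ) (a : ℕ) : (rInd t a = 0 ∧ ¬ Rough t a) ∨ (rInd t a = 1 ∧ Rough t a) := by
  unfold rInd
  split_ifs with h
  · exact Or.inr ⟨rfl, h⟩
  · exact Or.inl ⟨rfl, h⟩

lemma rough_zero {t : ℝ} (ht : 2 < t) : ¬ Rough t 0 := fun h => by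
  have := h 2 Nat.prime_two (dvd_zero 2)
  norm_num at this
  linarith

lemma rInd_prime {z : ℝ} {p : ℕ} (hp : p.Prime) (h : z ≤ p) : rInd z p = 1 := by
  unfold rInd
  rw [if_pos]
  intro q hq hqp
  rw [(Nat.prime_dvd_prime_iff_eq hq hp).1 hqp]
  exact h

/-! ### the function -/

lemma xi_sq (m : ℤ) (z : Gi) : xi m z ^ 2 = xi (2 * m) z := by
  unfold xi
  rw [mul_comm, zpow_mul]
  norm_cast

lemma xi_zero (z : Gi) : xi 0 z = 1 := by
  unfold xi
  exact zpow_zero _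

lemma nm_star (z : Gi) : nm (star z) = nm z := by
  unfold nm
  simp

lemma norm_xi_le (m : ℤ) (z : Gi) : ‖xi m z‖ ≤ 1 := by
  by_cases h : z = 0
  · subst h
    by_cases hm : m = 0
    · rw [hm, xi_zero, norm_one]
    · have : dir (0 : Gi) = 0 := by
        unfold dir
        simp
      unfold xi
      rw [this, zero_zpow _ hm, norm_zero]
      exact zero_le_one
  · exact (norm_xi m h).le

lemma RG_cases {t : ℝ} (ht : 2 < t) {χ : Gi → ℂ} (m : ℤ) (h1 : ∀ z, χ z = 0 ∨ ‖χ z‖ = 1) (z : Gi) :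
    RG t χ m z = 0 ∨ ‖RG t χ m z‖ = 1 := by
  unfold RG ps
  rcases rInd_cases t (nm z) with ⟨h, -⟩ | ⟨h, hr⟩
  · left
    rw [h]
    simp
  · rcases h1 z with h2 | h2
    · left
      rw [h2]
      simp
    · right
      have hz : z ≠ 0 := by
        rintro rfl
        rw [nm_zero] at hr
        exact rough_zero ht hr
      rw [h, norm_mul, norm_mul, h2, norm_xi m hz]
      simp

lemma rcm {t : ℝ} (ht : 2 < t) {f : ℕ} {χ : Gi → ℂ} {m : ℤ} (h1 : ∀ z, χ z = 0 ∨ ‖χ z‖ = 1)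
    (hχ : ChQ f χ) (hU : UI χ m) : RCM (RG t χ m) t := by
  refine ⟨⟨?_, ?_, ?_, ?_⟩, RG_cases ht m h1, ?_⟩
  · unfold RG ps
    rw [nm_one, rInd_one, hχ.one, xi_one]
    simp
  · unfold RG ps
    rw [nm_I, rInd_one, xi_I]
    unfold UI at hU
    rw [hU]
    simp
  · intro x y
    unfold RG ps
    rw [nm_mul, rInd_mul, hχ.mul, xi_mul]
    push_cast
    ring
  · intro z
    rcases RG_cases ht m h1 z with h | h
    · rw [h, norm_zero]
      exact zero_le_one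
    · exact h.le
  · intro z hz
    by_contra h
    apply hz
    unfold RG
    rcases rInd_cases t (nm z) with ⟨h2, -⟩ | ⟨-, h2⟩
    · rw [h2]
      simp
    · exact absurd h2 h

lemma RG_sq (t : ℝ) (χ : Gi → ℂ) (m : ℤ) :
    (fun z => RG t χ m z ^ 2) = RG t (fun z => χ z ^ 2) (2 * m) := by
  funext z
  unfold RG ps
  rw [← xi_sq, mul_pow, mul_pow, ← Complex.ofReal_pow, pow_two (rInd t (nm z)), rInd_sq]

lemma RG_star (t : ℝ) (χ : Gi → ℂ) :
    (fun z => RG t χ 0 z * RG t χ 0 (star z)) = RG t (fun z => χ z * χ (star z)) 0 := by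
  funext z
  unfold RG ps
  rw [xi_zero, xi_zero, nm_star, mul_one, mul_one, mul_one]
  have h : ((rInd t (nm z) : ℝ) : ℂ) * ((rInd t (nm z) : ℝ) : ℂ) = ((rInd t (nm z) : ℝ) : ℂ) := by
    rw [← Complex.ofReal_mul, rInd_sq]
  calc ((rInd t (nm z) : ℝ) : ℂ) * χ z * (((rInd t (nm z) : ℝ) : ℂ) * χ (star z)) =
      (((rInd t (nm z) : ℝ) : ℂ) * ((rInd t (nm z) : ℝ) : ℂ)) * (χ z * χ (star z)) := by ring
    _ = _ := by rw [h]

lemma osc_le {G : Gi → ℂ} {δ K s L U U' : ℝ} (hU : U ≤ U') (h : Osc G δ K s L U') : Osc G δ K s L U :=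
  fun B g hg v u hv hu => h B g hg v u hv (hu.trans hU)

/-! ### finitely many prime powers -/

lemma fin_pw (Y : ℝ) : {x : RP × ℕ | (nm (pw x) : ℝ) ≤ Y}.Finite := by
  let φ : RP × ℕ → Gi × ℕ := fun x => ((x.1 : Gi), x.2)
  have hφ : Function.Injective φ := by
    rintro ⟨a, i⟩ ⟨b, j⟩ h
    have h1 : (a : Gi) = b := congrArg Prod.fst h
    have h2 : i = j := congrArg Prod.snd h
    rw [Prod.mk.injEq]
    exact ⟨Subtype.ext h1, h2⟩
  refine Set.Finite.subset (Set.Finite.preimage hφ.injOn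
    (Finset.finite_toSet (disc Y ×ˢ range (⌊Y⌋₊ + 1)))) ?_
  intro x hx
  have hx' : (nm (pw x) : ℝ) ≤ Y := hx
  have h2 := OS.two_le_nm x.1
  have h3 : nm (pw x) = nm (x.1 : Gi) ^ (x.2 + 1) := by
    unfold OS.pw
    exact OS.nm_pow _ _
  have h4 : nm (x.1 : Gi) ≤ nm (pw x) := by
    rw [h3]
    exact Nat.le_self_pow (Nat.succ_ne_zero _) _
  have h5 : x.2 ≤ nm (pw x) := by
    rw [h3]
    calc x.2 ≤ x.2 + 1 := Nat.le_succ _
      _ ≤ 2 ^ (x.2 + 1) := Nat.lt_two_pow_self.le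
      _ ≤ _ := Nat.pow_le_pow_left h2 _
  have h6 : ((x.1 : Gi) ∈ disc Y) ∧ x.2 ∈ range (⌊Y⌋₊ + 1) := by
    refine ⟨mem_disc.2 ⟨x.1.2.1.ne_zero, le_trans (by exact_mod_cast h4) hx'⟩, ?_⟩
    rw [mem_range, Nat.lt_succ_iff]
    refine Nat.le_floor (le_trans (by exact_mod_cast h5) hx')
  show ((x.1 : Gi), x.2) ∈ ((disc Y ×ˢ range (⌊Y⌋₊ + 1) : Finset (Gi × ℕ)) : Set (Gi × ℕ))
  rw [Finset.mem_coe, mem_product]
  exact h6

lemma pw_pos (x : RP × ℕ) : (0 : ℝ) < nm (pw x) := nm_posR (OS.pw_ne_zero x)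

lemma fin_win (L : ℝ) : {x : RP × ℕ | |Real.log (nm (pw x)) - L| < 1}.Finite := by
  refine (fin_pw (Real.exp (L + 1))).subset fun x hx => ?_
  have h1 : |Real.log (nm (pw x)) - L| < 1 := hx
  have h2 := (abs_lt.1 h1).2
  show (nm (pw x) : ℝ) ≤ Real.exp (L + 1)
  rw [← Real.exp_log (pw_pos x)]
  exact Real.exp_le_exp.2 (by linarith)

/-! ### numerical lemmas -/

/-- `|e^(1-t) t - 1| ≤ 5|1-t|` -/
lemma expt {t r : ℝ} (h : |1 - t| ≤ r) (hr : r ≤ 1) : |Real.exp (1 - t) * t - 1| ≤ 5 * r := by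
  have h1 : |Real.exp (1 - t) - 1| ≤ 2 * |1 - t| := Real.abs_exp_sub_one_le (h.trans hr)
  have h2 : Real.exp (1 - t) ≤ 3 := by
    have := (abs_le.1 h1).2
    linarith
  have h3 : Real.exp (1 - t) * t - 1 = (Real.exp (1 - t) - 1) - Real.exp (1 - t) * (1 - t) := by ring
  rw [h3]
  refine (abs_sub _ _).trans ?_
  rw [abs_mul, abs_of_pos (Real.exp_pos _)]
  have h4 : Real.exp (1 - t) * |1 - t| ≤ 3 * |1 - t| := mul_le_mul_of_nonneg_right h2 (abs_nonneg _)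
  linarith

/-- the choice of `b` -/
lemma choose_b {C g : ℝ} (hg : 0 < g) : ∃ b : ℕ,
    (32 * (b : ℝ) + 64) ^ 19 * (C * Real.exp (-((b : ℝ) / 3))) ≤ g := by
  have h1 : Tendsto (fun y : ℝ => y ^ 19 * Real.exp (-y)) atTop (𝓝 0) :=
    Real.tendsto_pow_mul_exp_neg_atTop_nhds_zero 19
  have h2 : Tendsto (fun b : ℕ => ((b : ℝ) + 2) / 3) atTop atTop :=
    (tendsto_atTop_add_const_right _ _ tendsto_natCast_atTop_atTop).atTop_div_const (by norm_num)
  have h3 := (h1.comp h2).const_mul (96 ^ 19 * C * Real.exp (2 / 3))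
  rw [mul_zero] at h3
  obtain ⟨b, hb⟩ := (h3.eventually_le_const hg).exists
  refine ⟨b, le_of_eq_of_le ?_ hb⟩
  simp only [Function.comp]
  have h6 : Real.exp (-((b : ℝ) / 3)) = Real.exp (2 / 3) * Real.exp (-(((b : ℝ) + 2) / 3)) := by
    rw [← Real.exp_add]; congr 1; ring
  rw [h6]
  ring

lemma tail {L : ℝ} (hL : 2 ≤ L) : (L + 1) * Real.exp (-(L / 2)) ≤ 36 / L := by
  have hL0 : 0 < L := by linarith
  have h4 := Real.pow_div_factorial_le_exp (L / 2) (by linarith) 2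
  have h5 : (L / 2) ^ 2 / (Nat.factorial 2 : ℝ) = L ^ 2 / 8 := by norm_num [Nat.factorial]; ring
  rw [h5] at h4
  rw [le_div_iff₀ hL0, Real.exp_neg, mul_assoc, mul_comm _ L, ← mul_assoc, ← div_eq_mul_inv,
    div_le_iff₀ (Real.exp_pos _)]
  nlinarith

lemma exp2 (A : ℝ) {L : ℝ} (a3 : 2 ≤ L) : 2 * Real.exp (A * L) ≤ Real.exp ((A + 1) * L) := by
  have h5 : (A + 1) * L = L + A * L := by ring
  rw [h5, Real.exp_add]
  have h6 : 2 ≤ Real.exp L := by
    have := Real.add_one_le_exp L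
    linarith
  exact mul_le_mul_of_nonneg_right h6 (Real.exp_pos _).le

/-! ### the window and the sum over primes -/

section

variable {ρ L : ℝ} {G : Gi → ℂ}

/-- weight of a prime power -/
noncomputable def wt (x : RP × ℕ) : ℝ := Real.log (nm (x.1 : Gi)) / (nm (pw x) : ℝ)

lemma wt_nonneg (x : RP × ℕ) : 0 ≤ wt x := div_nonneg (OS.log_nm_nonneg _) (Nat.cast_nonneg _)

lemma ap_eq (hL : 0 < L) (x : RP × ℕ) :
    ((Real.exp 1 / L : ℝ) : ℂ) * (ap G (1 / L) 1 x * ((kap ρ (Real.log (nm (pw x)) - L) : ℝ) : ℂ)) =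
      G (pw x) * ((wt x * kap ρ (Real.log (nm (pw x)) - L) *
        (Real.exp (1 - Real.log (nm (pw x)) / L) * (Real.log (nm (pw x)) / L)) : ℝ) : ℂ) := by
  have h0 := pw_pos x
  have hpow : (nm (pw x) : ℝ) ^ (-(1 + 1 / L)) =
      1 / (nm (pw x) : ℝ) * Real.exp (-(Real.log (nm (pw x)) / L)) := by
    rw [Real.rpow_def_of_pos h0]
    have : Real.log (nm (pw x)) * -(1 + 1 / L) =
        -Real.log (nm (pw x)) + -(Real.log (nm (pw x)) / L) := by ring
    rw [this, Real.exp_add, Real.exp_neg, Real.exp_log h0, one_div]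
  have key : Real.exp 1 / L * (Real.log (nm (x.1 : Gi)) * (nm (pw x) : ℝ) ^ (-(1 + 1 / L)) *
      Real.log (nm (pw x)) ^ 1 * kap ρ (Real.log (nm (pw x)) - L)) =
      wt x * kap ρ (Real.log (nm (pw x)) - L) *
        (Real.exp (1 - Real.log (nm (pw x)) / L) * (Real.log (nm (pw x)) / L)) := by
    rw [hpow, pow_one, sub_eq_add_neg 1, Real.exp_add]
    unfold wt
    field_simp
  unfold ap
  rw [← key]
  push_cast
  ring

lemma GP_eq {Y : ℝ} {π : Gi} : π ∈ GP 0 Y ↔ 0 < π.re ∧ 0 < π.im ∧ (nm π).Prime ∧ nm π % 4 = 1 ∧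
    (nm π : ℝ) ≤ Y := by
  unfold GP
  rw [mem_filter, mem_disc]
  constructor
  · rintro ⟨⟨-, h1⟩, h2, h3, h4, h5, -⟩
    exact ⟨h2, h3, h4, h5, h1⟩
  · rintro ⟨h2, h3, h4, h5, h1⟩
    refine ⟨⟨?_, h1⟩, h2, h3, h4, h5, ?_⟩
    · rintro rfl
      exact lt_irrefl _ h2
    · exact_mod_cast h4.pos

/-- the primes in the window -/
lemma sum_primes (hk : Ker 1 (kap ρ)) (F : Finset (RP × ℕ))
    (hF : ∀ x, x ∈ F ↔ |Real.log (nm (pw x)) - L| < 1) (g : Gi → ℂ)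
    (hg : ∀ x ∈ F, x.2 = 0 → (nm (x.1 : Gi)).Prime → g (x.1 : Gi) = G (pw x)) :
    ∑ π ∈ GP 0 (Real.exp (L + 1)), g π *
      ((Real.log (nm π) / (nm π : ℝ) * kap ρ (Real.log (nm π) - L) : ℝ) : ℂ) =
    ∑ x ∈ F.filter (fun x => x.2 = 0 ∧ (nm (x.1 : Gi)).Prime ∧ nm (x.1 : Gi) % 4 = 1),
      G (pw x) * ((wt x * kap ρ (Real.log (nm (pw x)) - L) : ℝ) : ℂ) := by
  have hpw0 : ∀ x : RP × ℕ, x.2 = 0 → pw x = (x.1 : Gi) := by
    intro x h
    unfold OS.pw
    rw [h, zero_add, pow_one]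
  have h1 : ∑ π ∈ GP 0 (Real.exp (L + 1)), g π *
      ((Real.log (nm π) / (nm π : ℝ) * kap ρ (Real.log (nm π) - L) : ℝ) : ℂ) =
      ∑ π ∈ (GP 0 (Real.exp (L + 1))).filter (fun π => |Real.log (nm π) - L| < 1), g π *
      ((Real.log (nm π) / (nm π : ℝ) * kap ρ (Real.log (nm π) - L) : ℝ) : ℂ) := by
    symm
    refine Finset.sum_subset (filter_subset _ _) fun π hπ hn => ?_
    have h2 : 1 ≤ |Real.log (nm π) - L| := by
      by_contra h
      exact hn (mem_filter.2 ⟨hπ, not_le.1 h⟩)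
    rw [hk.2.2.1 _ h2]
    simp
  rw [h1]
  symm
  refine Finset.sum_bij (fun x _ => (x.1 : Gi)) ?_ ?_ ?_ ?_
  · intro x hx
    obtain ⟨hxF, hx0, hxp, hx4⟩ := mem_filter.1 hx
    have h2 := (hF x).1 hxF
    rw [hpw0 x hx0] at h2
    have hpos : (0 : ℝ) < nm (x.1 : Gi) := nm_posR x.1.2.1.ne_zero
    refine mem_filter.2 ⟨GP_eq.2 ⟨x.1.2.2.1, ?_, hxp, hx4, ?_⟩, h2⟩
    · refine lt_of_le_of_ne x.1.2.2.2 fun h0 => ?_
      have h3 : nm (x.1 : Gi) = (x.1 : Gi).re.natAbs * (x.1 : Gi).re.natAbs := by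
        unfold nm
        rw [← h0, ← Int.natAbs_mul, pow_two, pow_two]
        simp
      rw [h3, Nat.prime_mul_iff] at hxp
      rcases hxp with ⟨h4, h5⟩ | ⟨h4, h5⟩ <;> exact h4.ne_one h5
    · rw [← Real.exp_log hpos]
      exact Real.exp_le_exp.2 (by linarith [(abs_lt.1 h2).2])
  · intro x hx y hy h
    obtain ⟨-, hx0, -⟩ := mem_filter.1 hx
    obtain ⟨-, hy0, -⟩ := mem_filter.1 hy
    exact Prod.ext (Subtype.ext h) (hx0.trans hy0.symm)
  · intro π hπ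
    obtain ⟨hG, hw⟩ := mem_filter.1 hπ
    obtain ⟨h2, h3, h4, h5, h6⟩ := GP_eq.1 hG
    refine ⟨(⟨π, prime_of_nm_prime h4, h2, h3.le⟩, 0), mem_filter.2 ⟨(hF _).2 ?_, rfl, h4, h5⟩, rfl⟩
    rw [hpw0 _ rfl]
    exact hw
  · intro x hx
    obtain ⟨hxF, hx0, hxp, -⟩ := mem_filter.1 hx
    rw [hg x hxF hx0 hxp]
    unfold wt
    rw [hpw0 x hx0]

/-- comparison -/
lemma compare {CT : ℝ} (hT1 : ∀ (v : ℝ) (S : Finset (RP × ℕ)), (∀ x ∈ S, |Real.log (nm (pw x)) - v| ≤ 1) →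
      ∑ x ∈ S, Real.log (nm (x.1 : Gi)) / (nm (pw x) : ℝ) ≤ CT)
    (hT2 : ∀ (v : ℝ) (S : Finset (RP × ℕ)), 0 ≤ v → (∀ x ∈ S, |Real.log (nm (pw x)) - v| ≤ 1 ∧
      ¬ (x.2 = 0 ∧ (nm (x.1 : Gi)).Prime ∧ nm (x.1 : Gi) % 4 = 1)) →
    ∑ x ∈ S, Real.log (nm (x.1 : Gi)) / (nm (pw x) : ℝ) ≤ CT * (v + 1) * Real.exp (-(v / 2)))
    (hk : Ker 1 (kap ρ)) (hL : 2 ≤ L) (hG : ∀ z, ‖G z‖ ≤ 1) (g : Gi → ℂ)
    (hg : ∀ x : RP × ℕ, |Real.log (nm (pw x)) - L| < 1 → x.2 = 0 → (nm (x.1 : Gi)).Prime →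
      g (x.1 : Gi) = G (pw x)) :
    ‖((Real.exp 1 / L : ℝ) : ℂ) * (∑' x : RP × ℕ, ap G (1 / L) 1 x *
        ((kap ρ (Real.log (nm (pw x)) - L) : ℝ) : ℂ)) -
      ∑ π ∈ GP 0 (Real.exp (L + 1)), g π *
        ((Real.log (nm π) / (nm π : ℝ) * kap ρ (Real.log (nm π) - L) : ℝ) : ℂ)‖ ≤
      5 / L * CT + CT * (L + 1) * Real.exp (-(L / 2)) := by
  classical
  have hL0 : 0 < L := by linarith
  set F : Finset (RP × ℕ) := (fin_win L).toFinset with hFd
  have hF : ∀ x, x ∈ F ↔ |Real.log (nm (pw x)) - L| < 1 := by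
    intro x
    rw [hFd, Set.Finite.mem_toFinset]
    rfl
  have e1 : (∑' x : RP × ℕ, ap G (1 / L) 1 x * ((kap ρ (Real.log (nm (pw x)) - L) : ℝ) : ℂ)) =
      ∑ x ∈ F, ap G (1 / L) 1 x * ((kap ρ (Real.log (nm (pw x)) - L) : ℝ) : ℂ) := by
    refine tsum_eq_sum fun x hx => ?_
    have h1 : 1 ≤ |Real.log (nm (pw x)) - L| := by
      by_contra h
      exact hx ((hF x).2 (not_le.1 h))
    rw [hk.2.2.1 _ h1]
    simp
  have e2 := sum_primes (G := G) hk F hF g (fun x hx => hg x ((hF x).1 hx))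
  set P : RP × ℕ → Prop := fun x => x.2 = 0 ∧ (nm (x.1 : Gi)).Prime ∧ nm (x.1 : Gi) % 4 = 1 with hP
  have e3 : ((Real.exp 1 / L : ℝ) : ℂ) * (∑ x ∈ F, ap G (1 / L) 1 x *
      ((kap ρ (Real.log (nm (pw x)) - L) : ℝ) : ℂ)) -
      ∑ x ∈ F.filter P, G (pw x) * ((wt x * kap ρ (Real.log (nm (pw x)) - L) : ℝ) : ℂ) =
      (∑ x ∈ F, G (pw x) * ((wt x * kap ρ (Real.log (nm (pw x)) - L) *
        (Real.exp (1 - Real.log (nm (pw x)) / L) * (Real.log (nm (pw x)) / L) - 1) : ℝ) : ℂ)) +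
      ∑ x ∈ F.filter (fun x => ¬ P x), G (pw x) *
        ((wt x * kap ρ (Real.log (nm (pw x)) - L) : ℝ) : ℂ) := by
    have h1 := Finset.sum_filter_add_sum_filter_not F P
      (fun x => G (pw x) * ((wt x * kap ρ (Real.log (nm (pw x)) - L) : ℝ) : ℂ))
    have h2 : ((Real.exp 1 / L : ℝ) : ℂ) * (∑ x ∈ F, ap G (1 / L) 1 x *
      ((kap ρ (Real.log (nm (pw x)) - L) : ℝ) : ℂ)) =
      (∑ x ∈ F, G (pw x) * ((wt x * kap ρ (Real.log (nm (pw x)) - L) *
        (Real.exp (1 - Real.log (nm (pw x)) / L) * (Real.log (nm (pw x)) / L) - 1) : ℝ) : ℂ)) +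
        ∑ x ∈ F, G (pw x) * ((wt x * kap ρ (Real.log (nm (pw x)) - L) : ℝ) : ℂ) := by
      rw [Finset.mul_sum, ← Finset.sum_add_distrib]
      refine Finset.sum_congr rfl fun x _ => ?_
      rw [ap_eq hL0]
      push_cast
      ring
    rw [h2, ← h1]
    ring
  rw [e1, e2, e3]
  refine (norm_add_le _ _).trans (add_le_add ?_ ?_)
  · refine (norm_sum_le _ _).trans ?_
    have h3 : ∀ x ∈ F, ‖G (pw x) * ((wt x * kap ρ (Real.log (nm (pw x)) - L) *
        (Real.exp (1 - Real.log (nm (pw x)) / L) * (Real.log (nm (pw x)) / L) - 1) : ℝ) : ℂ)‖ ≤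
        5 / L * wt x := by
      intro x hx
      have hw := (hF x).1 hx
      have ht : |1 - Real.log (nm (pw x)) / L| ≤ 1 / L := by
        have : 1 - Real.log (nm (pw x)) / L = -((Real.log (nm (pw x)) - L) / L) := by
          field_simp
          ring
        rw [this, abs_neg, abs_div, abs_of_pos hL0]
        exact div_le_div_of_nonneg_right hw.le hL0.le
      have hE := expt ht (by rw [div_le_one hL0]; linarith)
      rw [norm_mul, Complex.norm_real, Real.norm_eq_abs, abs_mul, abs_mul,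
        abs_of_nonneg (wt_nonneg x)]
      calc ‖G (pw x)‖ * (wt x * |kap ρ (Real.log (nm (pw x)) - L)| *
          |Real.exp (1 - Real.log (nm (pw x)) / L) * (Real.log (nm (pw x)) / L) - 1|) ≤
          1 * (wt x * 1 * (5 * (1 / L))) := by
            refine mul_le_mul (hG _) ?_ (by have := wt_nonneg x; positivity) zero_le_one
            exact mul_le_mul (mul_le_mul_of_nonneg_left (hk.2.1 _) (wt_nonneg x)) hE (abs_nonneg _)
              (by have := wt_nonneg x; positivity)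
        _ = _ := by ring
    refine (Finset.sum_le_sum h3).trans ?_
    rw [← Finset.mul_sum]
    exact mul_le_mul_of_nonneg_left (hT1 L F fun x hx => ((hF x).1 hx).le) (by positivity)
  · refine (norm_sum_le _ _).trans ?_
    have h3 : ∀ x ∈ F.filter (fun x => ¬ P x),
        ‖G (pw x) * ((wt x * kap ρ (Real.log (nm (pw x)) - L) : ℝ) : ℂ)‖ ≤ wt x := by
      intro x _
      rw [norm_mul, Complex.norm_real, Real.norm_eq_abs, abs_mul, abs_of_nonneg (wt_nonneg x)]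
      calc ‖G (pw x)‖ * (wt x * |kap ρ (Real.log (nm (pw x)) - L)|) ≤ 1 * (wt x * 1) := by
            refine mul_le_mul (hG _) ?_ (by have := wt_nonneg x; positivity) zero_le_one
            exact mul_le_mul_of_nonneg_left (hk.2.1 _) (wt_nonneg x)
        _ = _ := by ring
    refine (Finset.sum_le_sum h3).trans ?_
    exact hT2 L _ hL0.le fun x hx => by
      obtain ⟨hx1, hx2⟩ := mem_filter.1 hx
      exact ⟨((hF x).1 hx1).le, hx2⟩

end

/-- the last step -/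
lemma last {L σ C CC W P : ℝ} (hσ : 0 < σ) (hL : 2 ≤ L) (h5 : (6 * C + 82 * CC) / σ ≤ L)
    (hCC : 0 ≤ CC) (hW0 : 0 ≤ W) (hW : W ≤ σ / 8 * L + C)
    (hP : P ≤ Real.exp 1 / L * W + (5 / L * CC + CC * (L + 1) * Real.exp (-(L / 2)))) : P ≤ σ := by
  have hL0 : 0 < L := by linarith
  have he3 : Real.exp 1 ≤ 3 := by have := Real.exp_one_lt_d9; linarith
  have b1 : Real.exp 1 / L * W ≤ 3 / L * (σ / 8 * L + C) :=
    mul_le_mul (div_le_div_of_nonneg_right he3 hL0.le) hW hW0 (by positivity)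
  have b2 : CC * (L + 1) * Real.exp (-(L / 2)) ≤ CC * (36 / L) := by
    rw [mul_assoc]
    exact mul_le_mul_of_nonneg_left (tail hL) hCC
  rw [div_le_iff₀ hσ] at h5
  have b3 : P ≤ 3 / L * (σ / 8 * L + C) + (5 / L * CC + CC * (36 / L)) := by linarith
  have b4 : 3 / L * (σ / 8 * L + C) + (5 / L * CC + CC * (36 / L)) =
      3 * σ / 8 + (3 * C + 41 * CC) / L := by
    field_simp
    ring
  have b5 : (3 * C + 41 * CC) / L ≤ σ / 2 := by
    rw [div_le_iff₀ hL0]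
    linarith
  linarith

end PWGM

open PWGM in
/-- **PWG** -/
theorem specPWG (hCHB : SpecCHB) (hOSG : SpecOSG) (hTPP : SpecTPP) (hAWG : SpecAWG) : SpecPWG := by
  intro ρ hρ hρ1 σ A hσ hA
  obtain ⟨-, hkap, -⟩ := Pool.Agent.Lib.MP553de0.AA.specKRB ρ hρ hρ1
  obtain ⟨C1, hC1, hO⟩ := hOSG
  obtain ⟨CT, hCT, hT1, hT2, -⟩ := hTPP
  obtain ⟨C2, c, hC2, hc, hc1, hW⟩ := hAWG ρ hρ hρ1
  -- the choice of the parameters
  set g : ℝ := min c (min (1 / 2) (σ / (16 * C2))) with hg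
  have hC20 : 0 < C2 := by linarith
  have hg0 : 0 < g := lt_min hc (lt_min (by norm_num) (by positivity))
  have hgc : g ≤ c := min_le_left _ _
  have hg12 : g ≤ 1 / 2 := (min_le_right _ _).trans (min_le_left _ _)
  have hgσ : 16 * C2 * g ≤ σ := by
    have : g ≤ σ / (16 * C2) := (min_le_right _ _).trans (min_le_right _ _)
    rw [le_div_iff₀ (by positivity)] at this
    linarith
  obtain ⟨b, hb⟩ := choose_b (C := C1) hg0
  set δ : ℝ := C1 * Real.exp (-((b : ℝ) / 3)) with hδ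
  set K : ℝ := 32 * (b : ℝ) + 64 with hK
  have hδ0 : 0 < δ := by
    have := Real.exp_pos (-((b : ℝ) / 3))
    rw [hδ]
    positivity
  have hK1 : 1 ≤ K := by rw [hK]; linarith [(Nat.cast_nonneg b : (0 : ℝ) ≤ b)]
  have hK0 : 0 < K := by linarith
  have hδg : δ ≤ g := by
    have h1 : 1 ≤ K ^ 19 := one_le_pow₀ hK1
    nlinarith
  have hK10 : K ^ 10 * δ ≤ g := by
    have h1 : K ^ 10 ≤ K ^ 19 := pow_le_pow_right₀ hK1 (by norm_num)
    exact (mul_le_mul_of_nonneg_right h1 hδ0.le).trans hb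
  have hKδ : K * δ ≤ 1 / 2 := by
    have h1 : K ≤ K ^ 19 := le_self_pow₀ hK1 (by norm_num)
    exact ((mul_le_mul_of_nonneg_right h1 hδ0.le).trans hb).trans hg12
  set s : ℝ := C1 * Real.exp (-(b : ℝ)) with hs
  have hexpb : 0 < Real.exp (-(b : ℝ)) := Real.exp_pos _
  have hs0 : 0 ≤ s := by rw [hs]; positivity
  have hsδ : s ≤ δ ^ 3 := by
    have h1 : δ ^ 3 = C1 ^ 3 * Real.exp (-(b : ℝ)) := by
      rw [hδ, mul_pow, ← Real.exp_nat_mul]
      congr 2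
      push_cast
      ring
    have h2 : C1 ≤ C1 ^ 3 := le_self_pow₀ hC1 (by norm_num)
    rw [h1, hs]
    exact mul_le_mul_of_nonneg_right h2 hexpb.le
  have hδc : δ ≤ c * K ^ (-10 : ℝ) := by
    have h1 : K ^ (-10 : ℝ) = (K ^ 10)⁻¹ := by
      rw [Real.rpow_neg hK0.le, Real.rpow_ofNat]
    rw [h1, ← div_eq_mul_inv, le_div_iff₀ (by positivity), mul_comm]
    exact hK10.trans hgc
  have hs2 : s / δ ≤ g := by
    have h1 : s / δ ≤ δ ^ 2 := by
      rw [div_le_iff₀ hδ0]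
      calc s ≤ δ ^ 3 := hsδ
        _ = δ ^ 2 * δ := by ring
    have h2 : δ ^ 2 ≤ δ := by nlinarith
    linarith
  have hmain : C2 * (K ^ (19 : ℝ) * δ + s / δ) ≤ σ / 8 := by
    rw [Real.rpow_ofNat]
    have h1 : C2 * (K ^ 19 * δ + s / δ) ≤ C2 * (2 * g) :=
      mul_le_mul_of_nonneg_left (by linarith) hC20.le
    linarith
  obtain ⟨L1, hL1⟩ := hO (A + 1) δ b (by linarith) hδ0 (by linarith)
  refine ⟨max (max L1 (4 / δ)) (max 2 ((6 * C2 + 82 * CT) / σ)), ?_⟩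
  intro L hL f χ m hf hfL hχ hU hm hgood
  have a1 : L1 ≤ L := (le_max_left _ _).trans ((le_max_left _ _).trans hL)
  have a2 : 4 / δ ≤ L := (le_max_right _ _).trans ((le_max_left _ _).trans hL)
  have a3 : 2 ≤ L := (le_max_left _ _).trans ((le_max_right _ _).trans hL)
  have a4 : (6 * C2 + 82 * CT) / σ ≤ L := (le_max_right _ _).trans ((le_max_right _ _).trans hL)
  have hL0 : 0 < L := by linarith
  have hδL : 4 ≤ δ * L := by
    rw [div_le_iff₀ hδ0] at a2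
    linarith
  have ht : 2 < Real.exp (δ * L) := by
    have := Real.add_one_le_exp (δ * L)
    linarith
  obtain ⟨c1, c2, c3, c4, -⟩ := hCHB f χ hf hχ
  have hfL' : (f : ℝ) ≤ L ^ (A + 1) :=
    hfL.trans (Real.rpow_le_rpow_of_exponent_le (by linarith) (by linarith))
  have hx2 := exp2 A a3
  have hx1 := Real.exp_pos (A * L)
  have hm1 : |(m : ℝ)| ≤ Real.exp ((A + 1) * L) := by linarith
  have hm2 : |((2 * m : ℤ) : ℝ)| ≤ Real.exp ((A + 1) * L) := by
    push_cast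
    rw [abs_mul, abs_two]
    linarith
  have hR := rcm ht c1 hχ hU
  have o1 : Osc (RG (Real.exp (δ * L)) χ m) δ K s L (2 * L) :=
    hL1 L a1 f χ m hf hfL' hχ hgood.1 hm1
  have hsecond : (Osc (fun z => RG (Real.exp (δ * L)) χ m z ^ 2) δ K s L (2 * L) ∨
      ((∀ z, RG (Real.exp (δ * L)) χ m z = 0 ∨ RG (Real.exp (δ * L)) χ m z = 1 ∨
          RG (Real.exp (δ * L)) χ m z = -1) ∧
        (∀ z, RG (Real.exp (δ * L)) χ m (star z) = 0 ↔ RG (Real.exp (δ * L)) χ m z = 0) ∧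
        Osc (fun z => RG (Real.exp (δ * L)) χ m z * RG (Real.exp (δ * L)) χ m (star z))
          δ K s L L)) := by
    rcases hgood.2 with h | ⟨h0, h1, h2⟩
    · left
      rw [RG_sq]
      exact hL1 L a1 f _ (2 * m) hf hfL' c2 h hm2
    · right
      subst h0
      refine ⟨?_, ?_, ?_⟩
      · intro z
        unfold RG ps
        rw [xi_zero, mul_one]
        rcases rInd_cases (Real.exp (δ * L)) (nm z) with ⟨h3, -⟩ | ⟨h3, -⟩
        · left
          rw [h3]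
          simp
        · rw [h3, Complex.ofReal_one, one_mul]
          exact h1 z
      · intro z
        unfold RG ps
        rw [xi_zero, xi_zero, mul_one, mul_one, nm_star, mul_eq_zero, mul_eq_zero]
        have h3 : χ (star z) = 0 ↔ χ z = 0 := by
          have h4 := (c3.sup z).trans (hχ.sup z).symm
          exact not_iff_not.1 h4
        rw [h3]
      · rw [RG_star]
        refine osc_le (by linarith) (hL1 L a1 f _ 0 hf hfL' (c4 _ c3) h2 ?_)
        simp only [Int.cast_zero, abs_zero]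
        exact (Real.exp_pos _).le
  have hW1 := hW (RG (Real.exp (δ * L)) χ m) δ L K s hδ0 hδc hδL hK1 hKδ hs0 hsδ hR
    (osc_le (by linarith) o1) hsecond
  have hW2 : ‖∑' x : RP × ℕ, ap (RG (Real.exp (δ * L)) χ m) (1 / L) 1 x *
      ((kap ρ (Real.log (nm (pw x)) - L) : ℝ) : ℂ)‖ ≤ σ / 8 * L + C2 := by
    refine hW1.trans ?_
    have := mul_le_mul_of_nonneg_right hmain hL0.le
    linarith
  have hcmp := compare (G := RG (Real.exp (δ * L)) χ m) hT1 hT2 hkap a3 hR.1.le (ps χ m) (by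
    intro x hx hx0 hxp
    have e : pw x = (x.1 : Gi) := by
      unfold OS.pw
      rw [hx0, zero_add, pow_one]
    rw [e] at hx ⊢
    unfold RG
    have hpos : (0 : ℝ) < nm (x.1 : Gi) := nm_posR x.1.2.1.ne_zero
    have h1 : Real.exp (δ * L) ≤ nm (x.1 : Gi) := by
      rw [← Real.exp_log hpos]
      refine Real.exp_le_exp.2 ?_
      have h2 := (abs_lt.1 hx).1
      nlinarith
    rw [rInd_prime hxp h1, Complex.ofReal_one, one_mul])
  refine last hσ a3 a4 (by linarith) (norm_nonneg _) hW2 ?_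
  set Wd := ∑' x : RP × ℕ, ap (RG (Real.exp (δ * L)) χ m) (1 / L) 1 x *
      ((kap ρ (Real.log (nm (pw x)) - L) : ℝ) : ℂ) with hWd
  set Pd := ∑ π ∈ GP 0 (Real.exp (L + 1)), ps χ m π *
      ((Real.log (nm π) / (nm π : ℝ) * kap ρ (Real.log (nm π) - L) : ℝ) : ℂ) with hPd
  have h1 : Pd = ((Real.exp 1 / L : ℝ) : ℂ) * Wd - (((Real.exp 1 / L : ℝ) : ℂ) * Wd - Pd) := by ring
  rw [h1]
  refine (norm_sub_le _ _).trans ?_
  rw [norm_mul, Complex.norm_real, Real.norm_of_nonneg (by positivity)]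
  linarith

end Pool.Agent.Lib.MP391708.X.PH
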