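import Pool.Agent.Lib.MP_391708_nt.X.PH.SpecA
import Pool.Agent.Lib.MP_391708_nt.QPA.FL

/-!
# MP_391708, Theorem X, part PH, module ROG: windows of `ψ` on rough elements
-/

set_option autoImplicit false

namespace Pool.Agent.Lib.MP391708.X.PH

open Finset Filter Topology MeasureTheory
open Pool.Agent.Lib.MP391708.MR
open Pool.Agent.Lib.MP391708.QPA (Rough rInd PB)
open Pool.Agent.Lib.MP054243.AV (ee)
open Pool.Agent.Lib.MP553de0.AA (Ker)

namespace ROGM

/-! ## the sum of `k^ω(δ)/δ` -/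

/-- `k^ω(n)` -/
noncomputable def fw (k : ℝ) : ArithmeticFunction ℝ :=
  ⟨fun n => if n = 0 then 0 else k ^ n.primeFactors.card, by simp⟩

lemma fw_apply (k : ℝ) {n : ℕ} (h : n ≠ 0) : fw k n = k ^ n.primeFactors.card := by
  simp [fw, h]

lemma fw_mult (k : ℝ) : (fw k).IsMultiplicative := by
  refine ⟨by simp [fw], ?_⟩
  intro m n hmn
  rcases Nat.eq_zero_or_pos m with rfl | hm
  · simp [fw]
  rcases Nat.eq_zero_or_pos n with rfl | hn
  · simp [fw]
  rw [fw_apply k (Nat.mul_ne_zero hm.ne' hn.ne'), fw_apply k hm.ne', fw_apply k hn.ne',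
    Nat.Coprime.primeFactors_mul hmn, Finset.card_union_of_disjoint (Nat.Coprime.disjoint_primeFactors hmn),
    pow_add]

lemma pow_succ_eq (k : ℝ) {n : ℕ} (h : Squarefree n) :
    (k + 1) ^ n.primeFactors.card = ∑ d ∈ n.divisors, k ^ d.primeFactors.card := by
  have h1 := (fw_mult k).prodPrimeFactors_one_add_of_squarefree h
  have h2 : ∏ p ∈ n.primeFactors, (1 + fw k p) = (k + 1) ^ n.primeFactors.card := by
    rw [← Finset.prod_const]
    refine Finset.prod_congr rfl (fun p hp => ?_)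
    have hpp := Nat.prime_of_mem_primeFactors hp
    rw [fw_apply k hpp.ne_zero, hpp.primeFactors, Finset.card_singleton, pow_one, add_comm]
  rw [← h2, h1]
  refine Finset.sum_congr rfl (fun d hd => ?_)
  exact fw_apply k (Nat.pos_of_mem_divisors hd).ne'

lemma inner_sum {M d : ℕ} (hd : 0 < d) :
    ∑ δ ∈ (Icc 1 M).filter (fun δ => d ∣ δ), 1 / (δ : ℝ) ≤
      1 / (d : ℝ) * ∑ n ∈ Icc 1 M, 1 / (n : ℝ) := by
  rw [Finset.mul_sum]
  have h1 : ∑ n ∈ Icc 1 M, 1 / (d : ℝ) * (1 / (n : ℝ))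
      = ∑ x ∈ (Icc 1 M).image (fun n => d * n), 1 / (x : ℝ) := by
    rw [Finset.sum_image]
    · refine Finset.sum_congr rfl (fun n _ => ?_)
      push_cast
      rw [one_div_mul_one_div]
    · intro a _ b _ hab
      exact Nat.eq_of_mul_eq_mul_left hd hab
  rw [h1]
  refine Finset.sum_le_sum_of_subset_of_nonneg ?_ (fun _ _ _ => by positivity)
  intro x hx
  rw [Finset.mem_filter, Finset.mem_Icc] at hx
  obtain ⟨⟨hx1, hx2⟩, e, rfl⟩ := hx
  rw [Finset.mem_image]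
  refine ⟨e, ?_, rfl⟩
  rw [Finset.mem_Icc]
  refine ⟨?_, ?_⟩
  · rcases Nat.eq_zero_or_pos e with rfl | he
    · simp at hx1
    · exact he
  · exact (Nat.le_mul_of_pos_left e hd).trans hx2

/-- `∑_{δ ≤ M, squarefree} k^ω(δ)/δ ≤ (∑_{n ≤ M} 1/n)^k` -/
lemma sum_pow_omega (M : ℕ) (k : ℕ) :
    ∑ δ ∈ (Icc 1 M).filter Squarefree, (k : ℝ) ^ δ.primeFactors.card / (δ : ℝ) ≤
      (∑ n ∈ Icc 1 M, 1 / (n : ℝ)) ^ k := by
  induction k with
  | zero =>
    rw [pow_zero]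
    have h1 : ∀ δ ∈ (Icc 1 M).filter Squarefree, ((0 : ℕ) : ℝ) ^ δ.primeFactors.card / (δ : ℝ)
        ≤ if δ = 1 then 1 else 0 := by
      intro δ hδ
      rw [Finset.mem_filter, Finset.mem_Icc] at hδ
      by_cases h : δ = 1
      · subst h; simp
      · rw [if_neg h]
        have h2 : δ.primeFactors.card ≠ 0 := by
          intro h3
          rw [Finset.card_eq_zero, Nat.primeFactors_eq_empty] at h3
          rcases h3 with h3 | h3
          · omega
          · exact h h3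
        rw [Nat.cast_zero, zero_pow h2, zero_div]
    refine (Finset.sum_le_sum h1).trans ?_
    rw [Finset.sum_ite_eq']
    split_ifs <;> norm_num
  | succ k ih =>
    have h0 : ∀ δ ∈ (Icc 1 M).filter Squarefree,
        ((k + 1 : ℕ) : ℝ) ^ δ.primeFactors.card / (δ : ℝ)
        = ∑ d ∈ (Icc 1 M).filter Squarefree,
          if d ∣ δ then (k : ℝ) ^ d.primeFactors.card * (1 / (δ : ℝ)) else 0 := by
      intro δ hδ
      rw [Finset.mem_filter, Finset.mem_Icc] at hδ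
      obtain ⟨⟨h1, h2⟩, h3⟩ := hδ
      rw [Nat.cast_succ, pow_succ_eq _ h3, Finset.sum_div, ← Finset.sum_filter]
      refine (Finset.sum_congr ?_ (fun d _ => ?_))
      · ext d
        rw [Nat.mem_divisors, Finset.mem_filter, Finset.mem_filter, Finset.mem_Icc]
        constructor
        · rintro ⟨h4, h5⟩
          exact ⟨⟨⟨Nat.pos_of_dvd_of_pos h4 (by omega), (Nat.le_of_dvd (by omega) h4).trans h2⟩,
            h3.squarefree_of_dvd h4⟩, h4⟩
        · rintro ⟨_, h4⟩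
          exact ⟨h4, by omega⟩
      · rw [div_eq_mul_one_div]
    rw [Finset.sum_congr rfl h0, Finset.sum_comm]
    calc ∑ d ∈ (Icc 1 M).filter Squarefree, ∑ δ ∈ (Icc 1 M).filter Squarefree,
          (if d ∣ δ then (k : ℝ) ^ d.primeFactors.card * (1 / (δ : ℝ)) else 0)
        ≤ ∑ d ∈ (Icc 1 M).filter Squarefree,
          (k : ℝ) ^ d.primeFactors.card / (d : ℝ) * ∑ n ∈ Icc 1 M, 1 / (n : ℝ) := by
          refine Finset.sum_le_sum (fun d hd => ?_)
          rw [Finset.mem_filter, Finset.mem_Icc] at hd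
          rw [← Finset.sum_filter, ← Finset.mul_sum]
          have h4 : ∑ δ ∈ ((Icc 1 M).filter Squarefree).filter (fun δ => d ∣ δ), 1 / (δ : ℝ)
              ≤ ∑ δ ∈ (Icc 1 M).filter (fun δ => d ∣ δ), 1 / (δ : ℝ) := by
            refine Finset.sum_le_sum_of_subset_of_nonneg ?_ (fun _ _ _ => by positivity)
            intro x hx
            rw [Finset.mem_filter, Finset.mem_filter] at hx
            rw [Finset.mem_filter]
            exact ⟨hx.1.1, hx.2⟩
          calc (k : ℝ) ^ d.primeFactors.card *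
                ∑ δ ∈ ((Icc 1 M).filter Squarefree).filter (fun δ => d ∣ δ), 1 / (δ : ℝ)
              ≤ (k : ℝ) ^ d.primeFactors.card * (1 / (d : ℝ) * ∑ n ∈ Icc 1 M, 1 / (n : ℝ)) :=
                mul_le_mul_of_nonneg_left (h4.trans (inner_sum (by omega))) (by positivity)
            _ = (k : ℝ) ^ d.primeFactors.card / (d : ℝ) * ∑ n ∈ Icc 1 M, 1 / (n : ℝ) := by ring
      _ = (∑ d ∈ (Icc 1 M).filter Squarefree, (k : ℝ) ^ d.primeFactors.card / (d : ℝ)) *
            ∑ n ∈ Icc 1 M, 1 / (n : ℝ) := by rw [Finset.sum_mul]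
      _ ≤ (∑ n ∈ Icc 1 M, 1 / (n : ℝ)) ^ k * ∑ n ∈ Icc 1 M, 1 / (n : ℝ) :=
          mul_le_mul_of_nonneg_right ih (Finset.sum_nonneg (fun _ _ => by positivity))
      _ = (∑ n ∈ Icc 1 M, 1 / (n : ℝ)) ^ (k + 1) := (pow_succ _ _).symm

lemma harm {Z : ℝ} (hZ : 1 ≤ Z) : ∑ n ∈ Icc 1 ⌊Z⌋₊, 1 / (n : ℝ) ≤ 1 + Real.log Z := by
  have h1 := harmonic_le_one_add_log ⌊Z⌋₊
  have h2 : ((harmonic ⌊Z⌋₊ : ℚ) : ℝ) = ∑ n ∈ Icc 1 ⌊Z⌋₊, 1 / (n : ℝ) := by
    rw [harmonic_eq_sum_Icc]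
    push_cast
    simp
  rw [← h2]
  have h3 : (0 : ℝ) < ⌊Z⌋₊ := by
    have : 1 ≤ ⌊Z⌋₊ := (Nat.one_le_floor_iff _).2 hZ
    exact_mod_cast this
  have h4 : Real.log (⌊Z⌋₊ : ℝ) ≤ Real.log Z :=
    Real.log_le_log h3 (Nat.floor_le (by linarith))
  linarith

/-! ## the fundamental lemma over an arbitrary index set -/

open scoped Classical in
lemma FLi : ∃ C : ℝ, 0 < C ∧ ∀ (b : ℕ) (z : ℝ), 2 ≤ z →
    ∀ (D : Finset Gi) (v : Gi → ℕ) (om : Gi → ℝ) (X : ℝ) (g : ℕ → ℝ), 0 ≤ X → (∀ i ∈ D, 0 ≤ om i) →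
    (∀ p : ℕ, p.Prime → 0 ≤ g p ∧ g p ≤ 2 / (p : ℝ) ∧ g p ≤ 2 / 3) →
    |(∑ i ∈ D, om i * rInd z (v i)) - X * ∏ p ∈ PB z, (1 - g p)|
      ≤ C * Real.exp (-(b : ℝ)) * X * (∏ p ∈ PB z, (1 - g p))
        + C * (1 + Real.log z) *
          ∑ δ ∈ (Icc 1 ⌊z ^ (8 * b + 16)⌋₊).filter
            (fun δ => Squarefree δ ∧ ∀ p : ℕ, p.Prime → p ∣ δ → (p : ℝ) < z),
            |(∑ i ∈ D.filter (fun i => δ ∣ v i), om i) - X * ∏ p ∈ δ.primeFactors, g p| := by
  obtain ⟨C, hC, h⟩ := Pool.Agent.Lib.MP391708.QPA.specFL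
  refine ⟨C, hC, ?_⟩
  intro b z hz D v om X g hX hom hg
  classical
  set φ : Gi → ℕ := fun y => if hy : y ∈ D then (D.equivFin ⟨y, hy⟩ : ℕ) else 0 with hφ
  have hinj : Set.InjOn φ (D : Set Gi) := by
    intro a ha c hc hac
    rw [Finset.mem_coe] at ha hc
    simp only [hφ, dif_pos ha, dif_pos hc] at hac
    have h1 := D.equivFin.injective (Fin.ext hac)
    exact congrArg Subtype.val h1
  set ψ : ℕ → Gi := Function.invFunOn φ (D : Set Gi) with hψ
  have hleft : ∀ y ∈ D, ψ (φ y) = y := fun y hy => hinj.leftInvOn_invFunOn (Finset.mem_coe.2 hy)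
  have hsum : ∀ F : Gi → ℝ, ∑ i ∈ D.image φ, F (ψ i) = ∑ i ∈ D, F i := by
    intro F
    rw [Finset.sum_image hinj]
    exact Finset.sum_congr rfl (fun y hy => by rw [hleft y hy])
  have h1 := h b z hz (D.image φ) (fun i => v (ψ i)) (fun i => om (ψ i)) X g hX
    (fun i hi => by
      obtain ⟨y, hy, rfl⟩ := Finset.mem_image.1 hi
      simp only [hleft y hy]
      exact hom y hy) hg
  rw [hsum (fun y => om y * rInd z (v y))] at h1
  refine h1.trans (le_of_eq ?_)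
  congr 2
  refine Finset.sum_congr ?_ (fun δ _ => ?_)
  · ext δ
    simp only [Finset.mem_filter]
  · rw [Finset.sum_filter, hsum (fun y => if δ ∣ v y then om y else 0), ← Finset.sum_filter]

open scoped Classical in
/-- the fundamental lemma with a complex phase -/
lemma FLc : ∃ C : ℝ, 0 < C ∧ ∀ (b : ℕ) (t : ℝ), 2 ≤ t →
    ∀ (D : Finset Gi) (v : Gi → ℕ) (om : Gi → ℝ) (ph : Gi → ℂ) (X : ℝ) (g : ℕ → ℝ) (E1 E2 : ℕ → ℝ),
    0 ≤ X → (∀ i ∈ D, 0 ≤ om i) → (∀ i ∈ D, ‖ph i‖ ≤ 1) →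
    (∀ p : ℕ, p.Prime → 0 ≤ g p ∧ g p ≤ 2 / (p : ℝ) ∧ g p ≤ 2 / 3) →
    (∀ δ ∈ (Icc 1 ⌊t ^ (8 * b + 16)⌋₊).filter Squarefree,
      |(∑ i ∈ D.filter (fun i => δ ∣ v i), om i) - X * ∏ p ∈ δ.primeFactors, g p| ≤ E1 δ ∧
      ‖∑ i ∈ D.filter (fun i => δ ∣ v i), ((om i : ℝ) : ℂ) * ph i‖ ≤ E2 δ) →
    ‖∑ i ∈ D, ((rInd t (v i) : ℝ) : ℂ) * (((om i : ℝ) : ℂ) * ph i)‖
      ≤ 4 * (C * Real.exp (-(b : ℝ)) * X * (∏ p ∈ PB t, (1 - g p)))
        + 4 * (C * (1 + Real.log t) *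
          ∑ δ ∈ (Icc 1 ⌊t ^ (8 * b + 16)⌋₊).filter Squarefree, (E1 δ + E2 δ)) := by
  obtain ⟨C, hC, h⟩ := FLi
  refine ⟨C, hC, ?_⟩
  intro b t ht D v om ph X g E1 E2 hX hom hph hg hE
  set R : ℝ := C * Real.exp (-(b : ℝ)) * X * (∏ p ∈ PB t, (1 - g p)) with hR
  set W : ℝ := ∏ p ∈ PB t, (1 - g p) with hW
  have hlog : 0 ≤ Real.log t := Real.log_nonneg (by linarith)
  have hCl : 0 ≤ C * (1 + Real.log t) := by positivity
  have hE1 : ∀ δ ∈ (Icc 1 ⌊t ^ (8 * b + 16)⌋₊).filter Squarefree, 0 ≤ E1 δ :=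
    fun δ hδ => (abs_nonneg _).trans (hE δ hδ).1
  have hE2 : ∀ δ ∈ (Icc 1 ⌊t ^ (8 * b + 16)⌋₊).filter Squarefree, 0 ≤ E2 δ :=
    fun δ hδ => (norm_nonneg _).trans (hE δ hδ).2
  have hsub : (Icc 1 ⌊t ^ (8 * b + 16)⌋₊).filter
      (fun δ => Squarefree δ ∧ ∀ p : ℕ, p.Prime → p ∣ δ → (p : ℝ) < t) ⊆
      (Icc 1 ⌊t ^ (8 * b + 16)⌋₊).filter Squarefree := by
    intro δ hδ
    rw [Finset.mem_filter] at hδ ⊢
    exact ⟨hδ.1, hδ.2.1⟩
  set T : ℝ := ∑ δ ∈ (Icc 1 ⌊t ^ (8 * b + 16)⌋₊).filter Squarefree, (E1 δ + E2 δ) with hT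
  -- the key estimate for a weight `om (1 + a)` with `a = 0`, `Re`, `Im`
  have key : ∀ a : Gi → ℝ, (∀ i ∈ D, |a i| ≤ 1) →
      (∀ δ ∈ (Icc 1 ⌊t ^ (8 * b + 16)⌋₊).filter Squarefree,
        |∑ i ∈ D.filter (fun i => δ ∣ v i), om i * a i| ≤ E2 δ) →
      |(∑ i ∈ D, om i * (1 + a i) * rInd t (v i)) - X * W| ≤ R + C * (1 + Real.log t) * T := by
    intro a ha haE
    have h1 := h b t ht D v (fun i => om i * (1 + a i)) X g hX
      (fun i hi => mul_nonneg (hom i hi) (by linarith [(abs_le.1 (ha i hi)).1])) hg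
    refine h1.trans ?_
    refine add_le_add le_rfl (mul_le_mul_of_nonneg_left ?_ hCl)
    refine (Finset.sum_le_sum_of_subset_of_nonneg hsub (fun _ _ _ => abs_nonneg _)).trans ?_
    refine Finset.sum_le_sum (fun δ hδ => ?_)
    have h2 : (∑ i ∈ D.filter (fun i => δ ∣ v i), om i * (1 + a i)) - X * ∏ p ∈ δ.primeFactors, g p
        = ((∑ i ∈ D.filter (fun i => δ ∣ v i), om i) - X * ∏ p ∈ δ.primeFactors, g p) +
          ∑ i ∈ D.filter (fun i => δ ∣ v i), om i * a i := by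
      have h3 : ∑ i ∈ D.filter (fun i => δ ∣ v i), om i * (1 + a i)
          = (∑ i ∈ D.filter (fun i => δ ∣ v i), om i) +
            ∑ i ∈ D.filter (fun i => δ ∣ v i), om i * a i := by
        rw [← Finset.sum_add_distrib]
        exact Finset.sum_congr rfl (fun i _ => by ring)
      rw [h3]; ring
    rw [h2]
    exact (abs_add_le _ _).trans (add_le_add (hE δ hδ).1 (haE δ hδ))
  have k0 := key (fun _ => 0) (fun _ _ => by simp) (fun δ hδ => by simpa using hE2 δ hδ)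
  have kre := key (fun i => (ph i).re) (fun i hi => (Complex.abs_re_le_norm _).trans (hph i hi))
    (fun δ hδ => by
      have h3 : ∑ i ∈ D.filter (fun i => δ ∣ v i), om i * (ph i).re
          = (∑ i ∈ D.filter (fun i => δ ∣ v i), ((om i : ℝ) : ℂ) * ph i).re := by
        rw [Complex.re_sum]
        exact Finset.sum_congr rfl (fun i _ => by rw [Complex.re_ofReal_mul])
      rw [h3]
      exact (Complex.abs_re_le_norm _).trans (hE δ hδ).2)
  have kim := key (fun i => (ph i).im) (fun i hi => (Complex.abs_im_le_norm _).trans (hph i hi))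
    (fun δ hδ => by
      have h3 : ∑ i ∈ D.filter (fun i => δ ∣ v i), om i * (ph i).im
          = (∑ i ∈ D.filter (fun i => δ ∣ v i), ((om i : ℝ) : ℂ) * ph i).im := by
        rw [Complex.im_sum]
        exact Finset.sum_congr rfl (fun i _ => by rw [Complex.im_ofReal_mul])
      rw [h3]
      exact (Complex.abs_im_le_norm _).trans (hE δ hδ).2)
  have hre : (∑ i ∈ D, ((rInd t (v i) : ℝ) : ℂ) * (((om i : ℝ) : ℂ) * ph i)).re
      = (∑ i ∈ D, om i * (1 + (ph i).re) * rInd t (v i)) -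
        ∑ i ∈ D, om i * (1 + 0) * rInd t (v i) := by
    rw [Complex.re_sum, ← Finset.sum_sub_distrib]
    exact Finset.sum_congr rfl (fun i _ => by
      rw [Complex.re_ofReal_mul, Complex.re_ofReal_mul]; ring)
  have him : (∑ i ∈ D, ((rInd t (v i) : ℝ) : ℂ) * (((om i : ℝ) : ℂ) * ph i)).im
      = (∑ i ∈ D, om i * (1 + (ph i).im) * rInd t (v i)) -
        ∑ i ∈ D, om i * (1 + 0) * rInd t (v i) := by
    rw [Complex.im_sum, ← Finset.sum_sub_distrib]
    exact Finset.sum_congr rfl (fun i _ => by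
      rw [Complex.im_ofReal_mul, Complex.im_ofReal_mul]; ring)
  refine (Complex.norm_le_abs_re_add_abs_im _).trans ?_
  rw [hre, him]
  have q1 := abs_le.1 k0
  have q2 := abs_le.1 kre
  have q3 := abs_le.1 kim
  have q4 : |(∑ i ∈ D, om i * (1 + (ph i).re) * rInd t (v i)) -
        ∑ i ∈ D, om i * (1 + 0) * rInd t (v i)| ≤ 2 * (R + C * (1 + Real.log t) * T) := by
    rw [abs_le]; constructor <;> linarith [q1.1, q1.2, q2.1, q2.2]
  have q5 : |(∑ i ∈ D, om i * (1 + (ph i).im) * rInd t (v i)) -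
        ∑ i ∈ D, om i * (1 + 0) * rInd t (v i)| ≤ 2 * (R + C * (1 + Real.log t) * T) := by
    rw [abs_le]; constructor <;> linarith [q1.1, q1.2, q3.1, q3.2]
  linarith

/-! ## facts about characters and kernels -/

lemma chi_norm {f : ℕ} {χ : Gi → ℂ} (hf : 0 < f) (h : ChQ f χ) (z : Gi) : ‖χ z‖ ≤ 1 := by
  have h1 : Chi χ := by
    refine ⟨h.one, h.mul, (f : Gi), ?_, ?_, h.sup⟩
    · exact_mod_cast hf.ne'
    · intro x y
      refine h.per _ _ ?_ ?_
      · refine ⟨y.re, ?_⟩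
        simp
      · refine ⟨y.im, ?_⟩
        simp
  exact Chi.norm_le_one h1 z

lemma ps_norm {f : ℕ} {χ : Gi → ℂ} (hf : 0 < f) (h : ChQ f χ) (m : ℤ) {z : Gi} (hz : z ≠ 0) :
    ‖ps χ m z‖ ≤ 1 := by
  unfold ps
  rw [norm_mul, norm_xi m hz, mul_one]
  exact chi_norm hf h z

lemma ps_mul {f : ℕ} {χ : Gi → ℂ} (h : ChQ f χ) (m : ℤ) (x y : Gi) :
    ps χ m (x * y) = ps χ m x * ps χ m y := by
  unfold ps
  rw [h.mul, xi_mul]
  ring

lemma norm_ee (x : ℝ) : ‖ee x‖ = 1 := by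
  unfold Pool.Agent.Lib.MP054243.AV.ee
  rw [Complex.norm_exp]
  have : (2 * (Real.pi : ℂ) * Complex.I * (x : ℂ)).re = 0 := by
    simp [Complex.mul_re, Complex.mul_im]
  rw [this, Real.exp_zero]

lemma ker_pos {B : ℝ} {g : ℝ → ℝ} (h : Ker B g) : Ker B (fun x => max (g x) 0) := by
  obtain ⟨h1, h2, h3, h4⟩ := h
  refine ⟨h1, fun x => ?_, fun x hx => ?_, fun x y => ?_⟩
  · rw [abs_of_nonneg (le_max_right _ _)]
    exact max_le ((le_abs_self _).trans (h2 x)) h1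
  · simp [h3 x hx]
  · exact (abs_max_sub_max_le_abs _ _ _).trans (h4 x y)

lemma ker_neg {B : ℝ} {g : ℝ → ℝ} (h : Ker B g) : Ker B (fun x => -g x) := by
  obtain ⟨h1, h2, h3, h4⟩ := h
  refine ⟨h1, fun x => ?_, fun x hx => ?_, fun x y => ?_⟩
  · rw [abs_neg]; exact h2 x
  · simp [h3 x hx]
  · have := h4 y x
    rw [abs_sub_comm y x] at this
    have h5 : -g x - -g y = g y - g x := by ring
    rw [h5]; exact this

lemma int_bd {B : ℝ} {g : ℝ → ℝ} (h : Ker B g) (hg : ∀ x, 0 ≤ g x) :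
    0 ≤ ∫ x, g x ∧ ∫ x, g x ≤ 2 * B := by
  obtain ⟨h1, h2, h3, _⟩ := h
  refine ⟨integral_nonneg hg, ?_⟩
  have h4 : ∫ x, g x ≤ ∫ x, (Set.Icc (-1 : ℝ) 1).indicator (fun _ => B) x := by
    refine integral_mono_of_nonneg (Eventually.of_forall hg) ?_ (Eventually.of_forall (fun x => ?_))
    · refine (integrable_indicator_iff measurableSet_Icc).2 ?_
      exact integrableOn_const (by simp)
    · by_cases hx : x ∈ Set.Icc (-1 : ℝ) 1
      · simp only [Set.indicator_of_mem hx]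
        exact (le_abs_self _).trans (h2 x)
      · simp only [Set.indicator_of_notMem hx]
        have : 1 ≤ |x| := by
          by_contra hc
          push Not at hc
          exact hx ⟨(abs_lt.1 hc).1.le, (abs_lt.1 hc).2.le⟩
        rw [h3 x this]
  refine h4.trans (le_of_eq ?_)
  rw [integral_indicator measurableSet_Icc, setIntegral_const]
  have h5 : volume.real (Set.Icc (-1 : ℝ) 1) = 2 := by
    rw [Real.volume_real_Icc]; norm_num
  rw [h5, smul_eq_mul]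

lemma VV_sub (G : Gi → ℂ) (g₁ g₂ : ℝ → ℝ) (u v : ℝ) :
    VV G (fun x => g₁ x - g₂ x) u v = VV G g₁ u v - VV G g₂ u v := by
  unfold VV
  rw [← Finset.sum_sub_distrib]
  refine Finset.sum_congr rfl (fun z _ => ?_)
  push_cast
  ring

/-! ## the divisor sums -/

open scoped Classical in
lemma div_sum {E : Type*} [AddCommGroup E] [Module ℝ E] {δ n : ℕ} {α : Fin n → Gi} {e : Fin n → ℝ}
    (h : ∀ z : Gi, ∑ i, (if α i ∣ z then e i else 0) = if δ ∣ nm z then 1 else 0) (D : Finset Gi)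
    (F : Gi → E) :
    ∑ z ∈ D.filter (fun z => δ ∣ nm z), F z = ∑ i, e i • ∑ z ∈ D.filter (fun z => α i ∣ z), F z := by
  have h1 : ∀ z ∈ D, (if δ ∣ nm z then F z else 0) = ∑ i, if α i ∣ z then e i • F z else 0 := by
    intro z _
    have h2 : (if δ ∣ nm z then F z else 0) = (if δ ∣ nm z then (1 : ℝ) else 0) • F z := by
      split_ifs <;> simp
    rw [h2, ← h z, Finset.sum_smul]
    refine Finset.sum_congr rfl (fun i _ => ?_)
    split_ifs <;> simp
  rw [Finset.sum_filter, Finset.sum_congr rfl h1, Finset.sum_comm]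
  refine Finset.sum_congr rfl (fun i _ => ?_)
  rw [Finset.smul_sum, Finset.sum_filter]

/-- the data of DIV for one `δ` with `δ² ≤ e^(w/2)` -/
lemma alpha_facts {δ : ℕ} {w : ℝ} {α : Gi} (hδ : 0 < δ) (hδw : (δ : ℝ) ^ 2 ≤ Real.exp (w / 2))
    (h0 : α ≠ 0) (h1 : δ ∣ nm α) (h2 : nm α ∣ δ ^ 2) :
    (δ : ℝ) ≤ nm α ∧ (nm α : ℝ) ≤ Real.exp (w / 2) ∧ w / 2 ≤ w - Real.log (nm α) := by
  have h3 : δ ≤ nm α := Nat.le_of_dvd (nm_pos h0) h1
  have h4 : nm α ≤ δ ^ 2 := Nat.le_of_dvd (by positivity) h2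
  have h5 : (nm α : ℝ) ≤ (δ : ℝ) ^ 2 := by exact_mod_cast h4
  have h6 : (nm α : ℝ) ≤ Real.exp (w / 2) := h5.trans hδw
  refine ⟨by exact_mod_cast h3, h6, ?_⟩
  have h7 : Real.log (nm α) ≤ w / 2 := by
    rw [← Real.log_exp (w / 2)]
    exact Real.log_le_log (nm_posR h0) h6
  linarith

open scoped Classical in
/-- the remainder without the phase -/
lemma rem1 {C B w : ℝ} {g : ℝ → ℝ} {δ : ℕ} (hDIV : SpecDIV) (hC : 0 < C) (hB : 0 ≤ B)
    (hU : ∀ α : Gi, α ≠ 0 → (nm α : ℝ) ≤ Real.exp w →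
      |∑ z ∈ (disc (Real.exp (w + 1))).filter (fun z => α ∣ z), g (Real.log (nm z) - w) / (nm z : ℝ)
        - Real.pi / (nm α : ℝ) * ∫ x, g x| ≤
        C * B / (nm α : ℝ) * (Real.exp w / (nm α : ℝ)) ^ (-(1 / 2) : ℝ))
    (hw : 0 ≤ w) (hδ : 0 < δ) (hsq : Squarefree δ) (hδw : (δ : ℝ) ^ 2 ≤ Real.exp (w / 2)) :
    |(∑ z ∈ (disc (Real.exp (w + 1))).filter (fun z => δ ∣ nm z), g (Real.log (nm z) - w) / (nm z : ℝ))
      - (Real.pi * ∫ x, g x) * ∏ p ∈ δ.primeFactors, gG p| ≤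
      3 ^ δ.primeFactors.card / (δ : ℝ) * (C * B * Real.exp (-(w / 4))) := by
  obtain ⟨n, α, e, hn, hα, hsum, hden⟩ := hDIV δ hsq
  have hδ0 : (0 : ℝ) < δ := by exact_mod_cast hδ
  rw [div_sum hsum, ← hden]
  have h1 : (∑ i, e i • ∑ z ∈ (disc (Real.exp (w + 1))).filter (fun z => α i ∣ z),
        g (Real.log (nm z) - w) / (nm z : ℝ)) - (Real.pi * ∫ x, g x) * ∑ i, e i / (nm (α i) : ℝ)
      = ∑ i, e i * ((∑ z ∈ (disc (Real.exp (w + 1))).filter (fun z => α i ∣ z),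
        g (Real.log (nm z) - w) / (nm z : ℝ)) - Real.pi / (nm (α i) : ℝ) * ∫ x, g x) := by
    rw [Finset.mul_sum, ← Finset.sum_sub_distrib]
    refine Finset.sum_congr rfl (fun i _ => ?_)
    rw [smul_eq_mul]
    ring
  rw [h1]
  refine (Finset.abs_sum_le_sum_abs _ _).trans ?_
  have h2 : ∀ i ∈ (Finset.univ : Finset (Fin n)),
      |e i * ((∑ z ∈ (disc (Real.exp (w + 1))).filter (fun z => α i ∣ z),
        g (Real.log (nm z) - w) / (nm z : ℝ)) - Real.pi / (nm (α i) : ℝ) * ∫ x, g x)| ≤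
      1 / (δ : ℝ) * (C * B * Real.exp (-(w / 4))) := by
    intro i _
    obtain ⟨a0, a1, a2, a3⟩ := hα i
    obtain ⟨f1, f2, f3⟩ := alpha_facts hδ hδw a0 a1 a2
    have hn0 : (0 : ℝ) < nm (α i) := nm_posR a0
    have h3 := hU (α i) a0 (f2.trans (Real.exp_le_exp.2 (by linarith)))
    rw [abs_mul]
    have h4 : (Real.exp w / (nm (α i) : ℝ)) ^ (-(1 / 2) : ℝ) ≤ Real.exp (-(w / 4)) := by
      have h5 : Real.exp (w / 2) ≤ Real.exp w / (nm (α i) : ℝ) := by
        rw [le_div_iff₀ hn0]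
        calc Real.exp (w / 2) * (nm (α i) : ℝ) ≤ Real.exp (w / 2) * Real.exp (w / 2) :=
              mul_le_mul_of_nonneg_left f2 (Real.exp_pos _).le
          _ = Real.exp w := by rw [← Real.exp_add]; congr 1; ring
      calc (Real.exp w / (nm (α i) : ℝ)) ^ (-(1 / 2) : ℝ) ≤ (Real.exp (w / 2)) ^ (-(1 / 2) : ℝ) :=
            Real.rpow_le_rpow_of_nonpos (Real.exp_pos _) h5 (by norm_num)
        _ = Real.exp (-(w / 4)) := by
            rw [← Real.exp_mul]; congr 1; ring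
    have h5 : C * B / (nm (α i) : ℝ) * (Real.exp w / (nm (α i) : ℝ)) ^ (-(1 / 2) : ℝ) ≤
        1 / (δ : ℝ) * (C * B * Real.exp (-(w / 4))) := by
      have h6 : C * B / (nm (α i) : ℝ) ≤ C * B / (δ : ℝ) :=
        div_le_div_of_nonneg_left (by positivity) hδ0 f1
      calc C * B / (nm (α i) : ℝ) * (Real.exp w / (nm (α i) : ℝ)) ^ (-(1 / 2) : ℝ)
          ≤ C * B / (δ : ℝ) * Real.exp (-(w / 4)) :=
            mul_le_mul h6 h4 (by positivity) (by positivity)
        _ = 1 / (δ : ℝ) * (C * B * Real.exp (-(w / 4))) := by ring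
    calc |e i| * |(∑ z ∈ (disc (Real.exp (w + 1))).filter (fun z => α i ∣ z),
          g (Real.log (nm z) - w) / (nm z : ℝ)) - Real.pi / (nm (α i) : ℝ) * ∫ x, g x|
        ≤ 1 * (1 / (δ : ℝ) * (C * B * Real.exp (-(w / 4)))) :=
          mul_le_mul a3 (h3.trans h5) (abs_nonneg _) (by norm_num)
      _ = 1 / (δ : ℝ) * (C * B * Real.exp (-(w / 4))) := one_mul _
  refine (Finset.sum_le_sum h2).trans ?_
  rw [Finset.sum_const, Finset.card_univ, Fintype.card_fin, nsmul_eq_mul]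
  have h7 : (n : ℝ) ≤ 3 ^ δ.primeFactors.card := by exact_mod_cast hn
  calc (n : ℝ) * (1 / (δ : ℝ) * (C * B * Real.exp (-(w / 4))))
      ≤ 3 ^ δ.primeFactors.card * (1 / (δ : ℝ) * (C * B * Real.exp (-(w / 4)))) :=
        mul_le_mul_of_nonneg_right h7 (by positivity)
    _ = _ := by ring

open scoped Classical in
/-- the remainder with the phase -/
lemma rem2 {V w u : ℝ} {g : ℝ → ℝ} {G : Gi → ℂ} {δ : ℕ} (hDIV : SpecDIV) (hTWN : SpecTWN)
    (hG : ∀ x y, G (x * y) = G x * G y) (hG1 : ∀ x, x ≠ 0 → ‖G x‖ ≤ 1)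
    (hV : ∀ w', w / 2 ≤ w' → ‖VV G g u w'‖ ≤ V) (hδ : 0 < δ) (hsq : Squarefree δ)
    (hδw : (δ : ℝ) ^ 2 ≤ Real.exp (w / 2)) :
    ‖∑ z ∈ (disc (Real.exp (w + 1))).filter (fun z => δ ∣ nm z),
      ((g (Real.log (nm z) - w) / (nm z : ℝ) : ℝ) : ℂ) * (G z * ee (-(u * Real.log (nm z))))‖ ≤
      3 ^ δ.primeFactors.card / (δ : ℝ) * V := by
  obtain ⟨n, α, e, hn, hα, hsum, _⟩ := hDIV δ hsq
  have hδ0 : (0 : ℝ) < δ := by exact_mod_cast hδ
  have hV0 : 0 ≤ V := (norm_nonneg _).trans (hV (w / 2) le_rfl)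
  rw [div_sum hsum]
  refine (norm_sum_le _ _).trans ?_
  have h2 : ∀ i ∈ (Finset.univ : Finset (Fin n)),
      ‖e i • ∑ z ∈ (disc (Real.exp (w + 1))).filter (fun z => α i ∣ z),
        ((g (Real.log (nm z) - w) / (nm z : ℝ) : ℝ) : ℂ) * (G z * ee (-(u * Real.log (nm z))))‖ ≤
      1 / (δ : ℝ) * V := by
    intro i _
    obtain ⟨a0, a1, a2, a3⟩ := hα i
    obtain ⟨f1, f2, f3⟩ := alpha_facts hδ hδw a0 a1 a2
    have hn0 : (0 : ℝ) < nm (α i) := nm_posR a0
    have h3 : ∑ z ∈ (disc (Real.exp (w + 1))).filter (fun z => α i ∣ z),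
        ((g (Real.log (nm z) - w) / (nm z : ℝ) : ℝ) : ℂ) * (G z * ee (-(u * Real.log (nm z))))
        = G (α i) * ((1 / (nm (α i) : ℝ) : ℝ) : ℂ) * ee (-(u * Real.log (nm (α i)))) *
          VV G g u (w - Real.log (nm (α i))) := by
      rw [← hTWN G hG g u w (α i) a0]
      refine Finset.sum_congr rfl (fun z _ => ?_)
      ring
    rw [h3, norm_smul, Real.norm_eq_abs, norm_mul, norm_mul, norm_mul, norm_ee, Complex.norm_real,
      Real.norm_eq_abs, abs_of_nonneg (by positivity : (0 : ℝ) ≤ 1 / (nm (α i) : ℝ)), mul_one]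
    have h4 := hV _ f3
    have h5 : 1 / (nm (α i) : ℝ) ≤ 1 / (δ : ℝ) := one_div_le_one_div_of_le hδ0 f1
    calc |e i| * (‖G (α i)‖ * (1 / (nm (α i) : ℝ)) * ‖VV G g u (w - Real.log (nm (α i)))‖)
        ≤ 1 * (1 * (1 / (δ : ℝ)) * V) := by
          refine mul_le_mul a3 ?_ (by positivity) (by norm_num)
          refine mul_le_mul ?_ h4 (norm_nonneg _) (by positivity)
          exact mul_le_mul (hG1 _ a0) h5 (by positivity) (by norm_num)
      _ = 1 / (δ : ℝ) * V := by ring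
  refine (Finset.sum_le_sum h2).trans ?_
  rw [Finset.sum_const, Finset.card_univ, Fintype.card_fin, nsmul_eq_mul]
  have h7 : (n : ℝ) ≤ 3 ^ δ.primeFactors.card := by exact_mod_cast hn
  calc (n : ℝ) * (1 / (δ : ℝ) * V) ≤ 3 ^ δ.primeFactors.card * (1 / (δ : ℝ) * V) :=
        mul_le_mul_of_nonneg_right h7 (by positivity)
    _ = _ := by ring

/-- growth -/
lemma growth (K c : ℝ) (hK : 0 < K) (hc : 0 < c) :
    ∃ w₁ : ℝ, ∀ w : ℝ, w₁ ≤ w → K * (1 + w) ^ 4 ≤ Real.exp (c * w) := by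
  have h1 := (isLittleO_pow_exp_pos_mul_atTop (k := 4) hc).def
    (show (0 : ℝ) < 1 / (16 * K) by positivity)
  obtain ⟨w₂, hw₂⟩ := eventually_atTop.1 h1
  refine ⟨max w₂ 1, fun w hw => ?_⟩
  have h2 := hw₂ w ((le_max_left _ _).trans hw)
  have h3 : 1 ≤ w := (le_max_right _ _).trans hw
  rw [Real.norm_eq_abs, Real.norm_eq_abs, abs_of_nonneg (by positivity),
    abs_of_pos (Real.exp_pos _)] at h2
  have h4 : (1 + w) ^ 4 ≤ 16 * w ^ 4 := by
    have h5 : (1 + w) ^ 4 ≤ (2 * w) ^ 4 := pow_le_pow_left₀ (by linarith) (by linarith) 4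
    calc (1 + w) ^ 4 ≤ (2 * w) ^ 4 := h5
      _ = 16 * w ^ 4 := by ring
  calc K * (1 + w) ^ 4 ≤ K * (16 * w ^ 4) := mul_le_mul_of_nonneg_left h4 hK.le
    _ ≤ K * (16 * (1 / (16 * K) * Real.exp (c * w))) := by
        refine mul_le_mul_of_nonneg_left ?_ hK.le
        linarith
    _ = Real.exp (c * w) := by field_simp

end ROGM

open ROGM in
theorem specROG (hWIN : SpecWIN) (hUWN : SpecUWN) (hTWN : SpecTWN) (hDIV : SpecDIV)
    (hWGM : SpecWGM) : SpecROG := by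
  classical
  obtain ⟨CF, hCF, hFL⟩ := FLc
  obtain ⟨CU, hCU, hU⟩ := hUWN
  obtain ⟨hdens, hWG, _⟩ := hWGM
  refine ⟨2 * (4 * CF * (Real.pi * 2)), by positivity, ?_⟩
  intro A hA
  obtain ⟨c', w₀', hc', hc'8, hw₀', hW⟩ := hWIN (2 * A) (by linarith)
  obtain ⟨w₁, hw₁⟩ := growth (8 * CF * (CU + 2)) (2 * (c' / 8)) (by positivity) (by positivity)
  refine ⟨c' / 8, max (max w₁ (2 * w₀')) 1, by positivity, le_max_right _ _, ?_⟩
  intro b t w ht hw htw f χ m hf hfw hχ hnp hm B g hg u hu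
  have hww1 : w₁ ≤ w := ((le_max_left _ _).trans (le_max_left _ _)).trans hw
  have hww0 : 2 * w₀' ≤ w := ((le_max_right _ _).trans (le_max_left _ _)).trans hw
  have hw1 : 1 ≤ w := (le_max_right _ _).trans hw
  have hB : 0 ≤ B := hg.1
  -- size of the sieve level
  set Z : ℝ := t ^ (8 * b + 16) with hZ
  have hZ1 : 1 ≤ Z := one_le_pow₀ (by linarith)
  have htZ : t ≤ Z := by
    calc t = t ^ 1 := (pow_one t).symm
      _ ≤ t ^ (8 * b + 16) := pow_le_pow_right₀ (by linarith) (by omega)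
  have hZw : Z ^ 2 ≤ Real.exp (w / 2) := by
    have : Z ^ 2 = t ^ (16 * b + 32) := by rw [hZ, ← pow_mul]; congr 1; ring
    rw [this]; exact htw
  have hlogZ : Real.log Z ≤ w := by
    have h1 : Real.log (Z ^ 2) ≤ w / 2 := by
      rw [← Real.log_exp (w / 2)]
      exact Real.log_le_log (by positivity) hZw
    rw [Real.log_pow] at h1
    push_cast at h1
    linarith
  have hlogt : Real.log t ≤ w := (Real.log_le_log (by linarith) htZ).trans hlogZ
  have hlogt0 : 0 ≤ Real.log t := Real.log_nonneg (by linarith)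
  have hS : ∑ δ ∈ (Icc 1 ⌊Z⌋₊).filter Squarefree, 3 ^ δ.primeFactors.card / (δ : ℝ) ≤ (1 + w) ^ 3 := by
    have h1 := sum_pow_omega ⌊Z⌋₊ 3
    push_cast at h1
    refine h1.trans (pow_le_pow_left₀ (Finset.sum_nonneg (fun _ _ => by positivity)) ?_ 3)
    exact (harm hZ1).trans (by linarith)
  -- the estimate for nonnegative kernels
  have main : ∀ g₀ : ℝ → ℝ, Ker B g₀ → (∀ x, 0 ≤ g₀ x) →
      ‖VV (RG t χ m) g₀ u w‖ ≤ B * (4 * CF * (Real.pi * 2) * Real.exp (-(b : ℝ)) * WG t) +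
        B * (4 * CF * (CU + 2) * (1 + w) ^ 4 * Real.exp (-(3 * (c' / 8) * w))) := by
    intro g₀ hg₀ hpos
    obtain ⟨hi0, hi1⟩ := int_bd hg₀ hpos
    set V : ℝ := B * (1 + |u|) * Real.exp (-(c' * (w / 2))) with hV
    have hVV : ∀ w', w / 2 ≤ w' → ‖VV (ps χ m) g₀ u w'‖ ≤ V := by
      intro w' hw'
      have h1 := hW w' (by linarith) f χ m hf (hfw.trans (Real.exp_le_exp.2 (by nlinarith))) hχ hnp
        (hm.trans (Real.exp_le_exp.2 (by nlinarith))) B g₀ hg₀ u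
      refine h1.trans ?_
      refine mul_le_mul_of_nonneg_left (Real.exp_le_exp.2 ?_) (by positivity)
      nlinarith
    have hV2 : V ≤ 2 * B * Real.exp (-(3 * (c' / 8) * w)) := by
      have h1 : 1 + |u| ≤ 2 * Real.exp (c' / 8 * w) := by
        have h2 : 1 ≤ Real.exp (c' / 8 * w) := Real.one_le_exp (by positivity)
        linarith
      calc V ≤ B * (2 * Real.exp (c' / 8 * w)) * Real.exp (-(c' * (w / 2))) := by
            rw [hV]
            refine mul_le_mul_of_nonneg_right ?_ (Real.exp_pos _).le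
            exact mul_le_mul_of_nonneg_left h1 hB
        _ = 2 * B * (Real.exp (c' / 8 * w) * Real.exp (-(c' * (w / 2)))) := by ring
        _ = 2 * B * Real.exp (-(3 * (c' / 8) * w)) := by
            rw [← Real.exp_add]; congr 2; ring
    have hE : ∀ δ ∈ (Icc 1 ⌊Z⌋₊).filter Squarefree,
        |(∑ z ∈ (disc (Real.exp (w + 1))).filter (fun z => δ ∣ nm z),
            g₀ (Real.log (nm z) - w) / (nm z : ℝ)) - (Real.pi * ∫ x, g₀ x) *
              ∏ p ∈ δ.primeFactors, gG p| ≤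
          3 ^ δ.primeFactors.card / (δ : ℝ) * (CU * B * Real.exp (-(w / 4))) ∧
        ‖∑ z ∈ (disc (Real.exp (w + 1))).filter (fun z => δ ∣ nm z),
            ((g₀ (Real.log (nm z) - w) / (nm z : ℝ) : ℝ) : ℂ) *
              (ps χ m z * ee (-(u * Real.log (nm z))))‖ ≤
          3 ^ δ.primeFactors.card / (δ : ℝ) * V := by
      intro δ hδ
      rw [Finset.mem_filter, Finset.mem_Icc] at hδ
      obtain ⟨⟨h1, h2⟩, h3⟩ := hδ
      have h4 : (δ : ℝ) ≤ Z := (Nat.le_floor_iff (by linarith)).1 h2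
      have h5 : (δ : ℝ) ^ 2 ≤ Real.exp (w / 2) :=
        (pow_le_pow_left₀ (Nat.cast_nonneg _) h4 2).trans hZw
      exact ⟨rem1 hDIV hCU hB (fun α ha hb => hU B g₀ hg₀ α w ha hb) (by linarith) (by omega) h3 h5,
        rem2 hDIV hTWN (ps_mul hχ m) (fun x hx => ps_norm hf hχ m hx) hVV (by omega) h3 h5⟩
    have h1 := hFL b t ht (disc (Real.exp (w + 1))) nm
      (fun z => g₀ (Real.log (nm z) - w) / (nm z : ℝ))
      (fun z => ps χ m z * ee (-(u * Real.log (nm z)))) (Real.pi * ∫ x, g₀ x) gG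
      (fun δ => 3 ^ δ.primeFactors.card / (δ : ℝ) * (CU * B * Real.exp (-(w / 4))))
      (fun δ => 3 ^ δ.primeFactors.card / (δ : ℝ) * V)
      (mul_nonneg Real.pi_pos.le hi0)
      (fun z _ => div_nonneg (hpos _) (Nat.cast_nonneg _))
      (fun z hz => by
        have hz0 : z ≠ 0 := (mem_disc.1 hz).1
        rw [norm_mul, norm_ee, mul_one]
        exact ps_norm hf hχ m hz0)
      hdens hE
    have h2 : VV (RG t χ m) g₀ u w = ∑ i ∈ disc (Real.exp (w + 1)), ((rInd t (nm i) : ℝ) : ℂ) *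
        (((g₀ (Real.log (nm i) - w) / (nm i : ℝ) : ℝ) : ℂ) *
          (ps χ m i * ee (-(u * Real.log (nm i))))) := by
      unfold VV RG
      refine Finset.sum_congr rfl (fun z _ => ?_)
      ring
    rw [h2]
    refine h1.trans (add_le_add ?_ ?_)
    · have h3 : (∏ p ∈ PB t, (1 - gG p)) = WG t := rfl
      rw [h3]
      have h4 : Real.pi * ∫ x, g₀ x ≤ Real.pi * (2 * B) := mul_le_mul_of_nonneg_left hi1 Real.pi_pos.le
      have h5 := (hWG t).1
      calc 4 * (CF * Real.exp (-(b : ℝ)) * (Real.pi * ∫ x, g₀ x) * WG t)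
          ≤ 4 * (CF * Real.exp (-(b : ℝ)) * (Real.pi * (2 * B)) * WG t) := by
            refine mul_le_mul_of_nonneg_left ?_ (by norm_num)
            refine mul_le_mul_of_nonneg_right ?_ h5.le
            exact mul_le_mul_of_nonneg_left h4 (by positivity)
        _ = B * (4 * CF * (Real.pi * 2) * Real.exp (-(b : ℝ)) * WG t) := by ring
    · have h3 : ∑ δ ∈ (Icc 1 ⌊Z⌋₊).filter Squarefree,
          (3 ^ δ.primeFactors.card / (δ : ℝ) * (CU * B * Real.exp (-(w / 4))) +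
            3 ^ δ.primeFactors.card / (δ : ℝ) * V)
          = (∑ δ ∈ (Icc 1 ⌊Z⌋₊).filter Squarefree, 3 ^ δ.primeFactors.card / (δ : ℝ)) *
            (CU * B * Real.exp (-(w / 4)) + V) := by
        rw [Finset.sum_mul]
        exact Finset.sum_congr rfl (fun _ _ => by ring)
      rw [h3]
      have h4 : CU * B * Real.exp (-(w / 4)) + V ≤
          (CU + 2) * B * Real.exp (-(3 * (c' / 8) * w)) := by
        have h5 : Real.exp (-(w / 4)) ≤ Real.exp (-(3 * (c' / 8) * w)) :=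
          Real.exp_le_exp.2 (by nlinarith)
        have h6 : CU * B * Real.exp (-(w / 4)) ≤ CU * B * Real.exp (-(3 * (c' / 8) * w)) :=
          mul_le_mul_of_nonneg_left h5 (by positivity)
        calc CU * B * Real.exp (-(w / 4)) + V ≤ CU * B * Real.exp (-(3 * (c' / 8) * w)) +
              2 * B * Real.exp (-(3 * (c' / 8) * w)) := add_le_add h6 hV2
          _ = _ := by ring
      have h0 : 0 ≤ CU * B * Real.exp (-(w / 4)) + V := by positivity
      calc 4 * (CF * (1 + Real.log t) *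
            ((∑ δ ∈ (Icc 1 ⌊Z⌋₊).filter Squarefree, 3 ^ δ.primeFactors.card / (δ : ℝ)) *
              (CU * B * Real.exp (-(w / 4)) + V)))
          ≤ 4 * (CF * (1 + w) * ((1 + w) ^ 3 *
              ((CU + 2) * B * Real.exp (-(3 * (c' / 8) * w))))) := by
            refine mul_le_mul_of_nonneg_left ?_ (by norm_num)
            refine mul_le_mul ?_ ?_ ?_ (by positivity)
            · exact mul_le_mul_of_nonneg_left (by linarith) hCF.le
            · exact mul_le_mul hS h4 h0 (by positivity)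
            · exact mul_nonneg (Finset.sum_nonneg (fun _ _ => by positivity)) h0
        _ = B * (4 * CF * (CU + 2) * (1 + w) ^ 4 * Real.exp (-(3 * (c' / 8) * w))) := by ring
  -- positive and negative parts
  have hgp := main (fun x => max (g x) 0) (ker_pos hg) (fun x => le_max_right _ _)
  have hgn := main (fun x => max (-g x) 0) (ker_pos (ker_neg hg)) (fun x => le_max_right _ _)
  have hgg : g = fun x => max (g x) 0 - max (-g x) 0 := by
    funext x
    rcases le_total 0 (g x) with h | h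
    · rw [max_eq_left h, max_eq_right (by linarith)]; ring
    · rw [max_eq_right h, max_eq_left (by linarith)]; ring
  rw [hgg, VV_sub]
  refine (norm_sub_le _ _).trans ((add_le_add hgp hgn).trans ?_)
  have hfin : 8 * CF * (CU + 2) * (1 + w) ^ 4 * Real.exp (-(3 * (c' / 8) * w)) ≤
      Real.exp (-(c' / 8 * w)) := by
    have h1 := hw₁ w hww1
    calc 8 * CF * (CU + 2) * (1 + w) ^ 4 * Real.exp (-(3 * (c' / 8) * w))
        ≤ Real.exp (2 * (c' / 8) * w) * Real.exp (-(3 * (c' / 8) * w)) :=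
          mul_le_mul_of_nonneg_right h1 (Real.exp_pos _).le
      _ = Real.exp (-(c' / 8 * w)) := by rw [← Real.exp_add]; congr 1; ring
  have hfinB := mul_le_mul_of_nonneg_left hfin hB
  linarith

end Pool.Agent.Lib.MP391708.X.PH
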