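import Pool.Agent.Lib.MP_391708_nt.X.PH.SpecC
import Pool.Agent.Lib.MP_391708_nt.MR.PG
import Pool.Agent.Lib.SW.Main

/-!
# MP_391708, Theorem X, part PH, module RSW: real characters invariant under conjugation

Real characters `χ` with `χ ∘ star = χ`: `χ(π)` depends only on `N(π)` modulo `8f`; Siegel-Walfisz.
-/

set_option autoImplicit false

namespace Pool.Agent.Lib.MP391708.X.PH

open Finset Filter Topology MeasureTheory
open Pool.Agent.Lib.MP391708.MR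

namespace RSWM

theorem mul_star_self' (z : Gi) : z * star z = ((nm z : ℤ) : Gi) := by
  apply Zsqrtd.ext
  · rw [Zsqrtd.re_intCast, nm_cast, Zsqrtd.re_mul, Zsqrtd.re_star, Zsqrtd.im_star]
    ring
  · rw [Zsqrtd.im_intCast, Zsqrtd.im_mul, Zsqrtd.re_star, Zsqrtd.im_star]
    ring

/-- `z` coprime to the integer `n`: the norm is coprime to `n` -/
theorem cop_nm {z : Gi} {n : ℕ} (h : IsCoprime z (n : Gi)) : (nm z).Coprime n := by
  have h1 : IsCoprime (star z) (n : Gi) := by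
    obtain ⟨a, b, hab⟩ := h
    refine ⟨star a, star b, ?_⟩
    have h2 := congrArg star hab
    rw [star_add, star_mul', star_mul', star_one, star_natCast] at h2
    exact h2
  have h2 : IsCoprime (z * star z) (n : Gi) := h.mul_left h1
  obtain ⟨a, b, hab⟩ := h2
  rw [mul_star_self'] at hab
  have h3 := congrArg Zsqrtd.re hab
  have h4 : a.re * (nm z : ℤ) + b.re * (n : ℤ) = 1 := by
    simpa using h3
  exact Nat.isCoprime_iff_coprime.1 ⟨a.re, b.re, h4⟩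

/-- the converse -/
theorem nm_cop {z : Gi} {n : ℕ} (h : (nm z).Coprime n) : IsCoprime z (n : Gi) := by
  obtain ⟨a, b, hab⟩ := Nat.isCoprime_iff_coprime.2 h
  refine ⟨(a : Gi) * star z, (b : Gi), ?_⟩
  have h1 : (a : Gi) * star z * z = (a : Gi) * ((nm z : ℤ) : Gi) := by
    rw [mul_assoc, mul_comm (star z), mul_star_self']
  rw [h1]
  have h2 : ((a * (nm z : ℤ) + b * (n : ℤ) : ℤ) : Gi) = ((1 : ℤ) : Gi) := by rw [hab]
  push_cast at h2
  push_cast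
  exact h2

/-- primes in a class in `(a, b]` -/
theorem card_split (a b q r : ℕ) (hab : a ≤ b) :
    (((Ioc a b).filter (fun p => p.Prime ∧ p ≡ r [MOD q])).card : ℝ) =
      (((Icc 1 b).filter (fun p => p.Prime ∧ p ≡ r [MOD q])).card : ℝ) -
      (((Icc 1 a).filter (fun p => p.Prime ∧ p ≡ r [MOD q])).card : ℝ) := by
  have h1 : (Icc 1 b).filter (fun p => p.Prime ∧ p ≡ r [MOD q]) =
      (Icc 1 a).filter (fun p => p.Prime ∧ p ≡ r [MOD q]) ∪
      (Ioc a b).filter (fun p => p.Prime ∧ p ≡ r [MOD q]) := by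
    rw [← filter_union]
    congr 1
    ext x
    simp only [mem_union, mem_Icc, mem_Ioc]
    omega
  have h2 : Disjoint ((Icc 1 a).filter (fun p => p.Prime ∧ p ≡ r [MOD q]))
      ((Ioc a b).filter (fun p => p.Prime ∧ p ≡ r [MOD q])) := by
    apply disjoint_filter_filter
    rw [disjoint_left]
    intro x hx hx'
    rw [mem_Icc] at hx
    rw [mem_Ioc] at hx'
    omega
  rw [h1, card_union_of_disjoint h2]
  push_cast
  ring

/-- the classes -/
theorem sum_classes (f : ℕ) (hf : 0 < f) (h : ℕ → ℝ) (a b : ℕ) :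
    ∑ p ∈ PG.Pm a b, (if p.Coprime f then h (p % (8 * f)) else 0) =
      ∑ r ∈ (range (8 * f)).filter (fun r => r.Coprime (8 * f) ∧ r % 4 = 1),
        h r * (((Ioc a b).filter (fun p => p.Prime ∧ p ≡ r [MOD 8 * f])).card : ℝ) := by
  have hq : 0 < 8 * f := by omega
  rw [← sum_filter]
  have hmaps : ∀ p ∈ (PG.Pm a b).filter (fun p => p.Coprime f),
      p % (8 * f) ∈ (range (8 * f)).filter (fun r => r.Coprime (8 * f) ∧ r % 4 = 1) := by
    intro p hp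
    obtain ⟨hp1, hp2⟩ := mem_filter.1 hp
    obtain ⟨-, -, hp3⟩ := mem_filter.1 hp1
    have h2 : p.Coprime 2 := by
      rw [Nat.coprime_two_right, Nat.odd_iff]
      omega
    have h8 : p.Coprime (8 * f) := Nat.Coprime.mul_right (Nat.Coprime.pow_right 3 h2) hp2
    refine mem_filter.2 ⟨mem_range.2 (Nat.mod_lt _ hq), ?_, ?_⟩
    · rw [Nat.Coprime, ← Nat.gcd_rec, Nat.gcd_comm]
      exact h8
    · rw [Nat.mod_mod_of_dvd p ⟨2 * f, by ring⟩]
      exact hp3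
  rw [← sum_fiberwise_of_maps_to hmaps]
  refine sum_congr rfl fun r hr => ?_
  obtain ⟨hr1, hr2, hr3⟩ := mem_filter.1 hr
  rw [mem_range] at hr1
  have e1 : ((PG.Pm a b).filter (fun p => p.Coprime f)).filter (fun p => p % (8 * f) = r) =
      (Ioc a b).filter (fun p => p.Prime ∧ p ≡ r [MOD 8 * f]) := by
    ext p
    rw [mem_filter, mem_filter, PG.Pm, mem_filter, mem_filter]
    constructor
    · rintro ⟨⟨⟨h1, h2, h3⟩, h4⟩, h5⟩
      refine ⟨h1, h2, ?_⟩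
      rw [Nat.ModEq, h5, Nat.mod_eq_of_lt hr1]
    · rintro ⟨h1, h2, h3⟩
      rw [Nat.ModEq, Nat.mod_eq_of_lt hr1] at h3
      refine ⟨⟨⟨h1, h2, ?_⟩, ?_⟩, h3⟩
      · rw [← hr3, ← h3, Nat.mod_mod_of_dvd p ⟨2 * f, by ring⟩]
      · have h8 : p.Coprime (8 * f) := by
          rw [Nat.Coprime, Nat.gcd_comm, Nat.gcd_rec, h3]
          exact hr2
        exact Nat.Coprime.coprime_mul_left_right h8
  rw [← e1, sum_congr rfl (g := fun _ => h r) (fun p hp => by rw [(mem_filter.1 hp).2]),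
    sum_const, nsmul_eq_mul, mul_comm]

/-- the sum over `GP` in terms of the classes -/
theorem gp_eq {f : ℕ} {χ : Gi → ℂ} (hχ : ChQ f χ) (h : ℕ → ℝ)
    (hv : ∀ z : Gi, IsCoprime z ((2 * f : ℕ) : Gi) → χ z = ((h (nm z % (8 * f)) : ℝ) : ℂ))
    {y y' : ℝ} (hy : 0 ≤ y) :
    ∑ π ∈ GP y y', ps χ 0 π =
      (((2 : ℝ) * ∑ p ∈ PG.Pm ⌊y⌋₊ ⌊y'⌋₊, (if p.Coprime f then h (p % (8 * f)) else 0) : ℝ) : ℂ) := by
  have h1 : ∀ π ∈ GP y y', ps χ 0 π =
      (fun p : ℕ => (((if p.Coprime f then h (p % (8 * f)) else 0) : ℝ) : ℂ)) (nm π) := by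
    intro π hπ
    rw [GP, mem_filter] at hπ
    obtain ⟨-, -, -, hp, hp4, -⟩ := hπ
    have e0 : ps χ 0 π = χ π := by
      rw [ps, xi, zpow_zero, mul_one]
    rw [e0]
    simp only
    split_ifs with hc
    · have h2 : (nm π).Coprime 2 := by
        rw [Nat.coprime_two_right, Nat.odd_iff]
        omega
      exact hv π (nm_cop (Nat.Coprime.mul_right h2 hc))
    · have h3 : χ π = 0 := by
        by_contra hne
        exact hc (cop_nm ((hχ.sup π).1 hne))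
      rw [h3]
      simp
  have h2 := PG.gp_sum (Q := y') hy
    (fun p : ℕ => (((if p.Coprime f then h (p % (8 * f)) else 0 : ℝ)) : ℂ))
  rw [sum_congr rfl h1, h2, ← smul_sum, nsmul_eq_mul, ← Complex.ofReal_sum]
  push_cast
  rfl

end RSWM

open RSWM

theorem specRSW (hHCH : SpecHCH) : SpecRSW := by
  intro ε A δ₀ hε hA hδ hδ1
  set A' : ℕ := ⌈A⌉₊ + 1 with hA'
  set B : ℕ := ⌈A⌉₊ + 2 with hB
  obtain ⟨x₀, hx₀⟩ := Pool.Agent.Lib.SW.siegelWalfisz_ap A' B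
  have hdA : 0 < δ₀ ^ A' := pow_pos hδ _
  have hdB : 0 < δ₀ ^ B := pow_pos hδ _
  set K : ℝ := 1 + 8 / δ₀ ^ A' + 32 / (ε * δ₀ ^ B) + |x₀| / δ₀ with hK
  have k1 : 0 < 8 / δ₀ ^ A' := by positivity
  have k2 : 0 < 32 / (ε * δ₀ ^ B) := by positivity
  have k3 : 0 ≤ |x₀| / δ₀ := by positivity
  refine ⟨Real.exp K, ?_⟩
  intro N hN f χ hf hfA hχ hreal hi hst hNP y y' hy hyy hyN
  obtain ⟨h, hh1, hh2, hh3⟩ := hHCH f χ hf hχ hreal hi hst hNP
  have hN0 : 0 < N := lt_of_lt_of_le (Real.exp_pos _) hN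
  have hℓK : K ≤ Real.log N := (Real.le_log_iff_exp_le hN0).2 hN
  set ℓ := Real.log N with hℓ
  have hℓ1 : 1 ≤ ℓ := by linarith only [hℓK, hK, k1, k2, k3]
  have hℓ0 : 0 < ℓ := by linarith only [hℓ1]
  have hNd : N ^ δ₀ = Real.exp (ℓ * δ₀) := by
    rw [Real.rpow_def_of_pos hN0]
  have hypos : 0 < y := lt_of_lt_of_le (by rw [hNd]; exact Real.exp_pos _) hy
  have hy'pos : 0 < y' := lt_of_lt_of_le hypos hyy
  have hlogy : δ₀ * ℓ ≤ Real.log y := by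
    rw [Real.le_log_iff_exp_le hypos, mul_comm]
    rw [hNd] at hy
    exact hy
  have hlogy' : Real.log y ≤ Real.log y' := Real.log_le_log hypos hyy
  have hlogN : Real.log y' ≤ ℓ := Real.log_le_log hy'pos hyN
  have hdl : 0 < δ₀ * ℓ := mul_pos hδ hℓ0
  have hly0 : 0 < Real.log y := lt_of_lt_of_le hdl hlogy
  have hly'0 : 0 < Real.log y' := lt_of_lt_of_le hly0 hlogy'
  have hyx : x₀ ≤ y := by
    have e1 : ℓ * δ₀ + 1 ≤ Real.exp (ℓ * δ₀) := Real.add_one_le_exp _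
    have e2 : |x₀| ≤ ℓ * δ₀ := by
      have e3 : |x₀| / δ₀ ≤ ℓ := by linarith only [hℓK, hK, k1, k2, k3]
      rwa [div_le_iff₀ hδ] at e3
    rw [hNd] at hy
    linarith only [e1, e2, hy, le_abs_self x₀]
  have hy'x : x₀ ≤ y' := hyx.trans hyy
  -- the exponents
  have hceil : A ≤ (⌈A⌉₊ : ℝ) := Nat.le_ceil A
  have hpA : 8 * ℓ ^ A ≤ (δ₀ * ℓ) ^ A' := by
    have e1 : 8 / δ₀ ^ A' ≤ ℓ := by linarith only [hℓK, hK, k1, k2, k3]
    rw [div_le_iff₀ hdA] at e1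
    have e2 : ℓ ^ A ≤ ℓ ^ ⌈A⌉₊ := by
      rw [← Real.rpow_natCast]
      exact Real.rpow_le_rpow_of_exponent_le hℓ1 hceil
    have e3 : (δ₀ * ℓ) ^ A' = ℓ * δ₀ ^ A' * ℓ ^ ⌈A⌉₊ := by
      rw [mul_pow, hA', pow_succ ℓ]
      ring
    rw [e3]
    exact mul_le_mul e1 e2 (Real.rpow_nonneg hℓ0.le _) (by positivity)
  have hq1 : ((8 * f : ℕ) : ℝ) ≤ Real.log y ^ A' := by
    have e1 : (δ₀ * ℓ) ^ A' ≤ Real.log y ^ A' := pow_le_pow_left₀ hdl.le hlogy _
    push_cast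
    linarith only [e1, hpA, hfA]
  have hq2 : ((8 * f : ℕ) : ℝ) ≤ Real.log y' ^ A' :=
    hq1.trans (pow_le_pow_left₀ hly0.le hlogy' _)
  -- the count
  have hq : 0 < 8 * f := by omega
  have hfl : ⌊y⌋₊ ≤ ⌊y'⌋₊ := Nat.floor_le_floor hyy
  set S := (range (8 * f)).filter (fun a => a.Coprime (8 * f) ∧ a % 4 = 1) with hS
  set M : ℝ := ((((Icc 1 ⌊y'⌋₊).filter Nat.Prime).card : ℝ) -
    (((Icc 1 ⌊y⌋₊).filter Nat.Prime).card : ℝ)) / ((8 * f).totient : ℝ) with hM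
  set E : ℝ := 2 * y' / Real.log y ^ B with hE
  have hpB : 0 < Real.log y ^ B := pow_pos hly0 _
  have hcls : ∀ r ∈ S, |(((Ioc ⌊y⌋₊ ⌊y'⌋₊).filter (fun p => p.Prime ∧ p ≡ r [MOD 8 * f])).card : ℝ) - M| ≤ E := by
    intro r hr
    obtain ⟨-, hr2, -⟩ := mem_filter.1 hr
    have a1 := (hx₀ y hyx (8 * f) r hq hq1 hr2).2.2
    have a2 := (hx₀ y' hy'x (8 * f) r hq hq2 hr2).2.2
    rw [card_split _ _ _ _ hfl]
    have b1 : y / Real.log y ^ B ≤ y' / Real.log y ^ B := by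
      gcongr
    have b2 : y' / Real.log y' ^ B ≤ y' / Real.log y ^ B := by
      apply div_le_div_of_nonneg_left hy'pos.le hpB
      exact pow_le_pow_left₀ hly0.le hlogy' _
    have b3 : E = y' / Real.log y ^ B + y' / Real.log y ^ B := by
      rw [hE]
      ring
    rw [abs_le] at a1 a2 ⊢
    rw [b3, hM, sub_div]
    constructor
    · linarith only [a1.1, a1.2, a2.1, a2.2, b1, b2]
    · linarith only [a1.1, a1.2, a2.1, a2.2, b1, b2]
  have hEpos : 0 ≤ E := by positivity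
  have hsum : |∑ r ∈ S, h r * (((Ioc ⌊y⌋₊ ⌊y'⌋₊).filter (fun p => p.Prime ∧ p ≡ r [MOD 8 * f])).card : ℝ)| ≤
      8 * f * E := by
    have e1 : ∑ r ∈ S, h r * (((Ioc ⌊y⌋₊ ⌊y'⌋₊).filter (fun p => p.Prime ∧ p ≡ r [MOD 8 * f])).card : ℝ) =
        ∑ r ∈ S, h r * ((((Ioc ⌊y⌋₊ ⌊y'⌋₊).filter (fun p => p.Prime ∧ p ≡ r [MOD 8 * f])).card : ℝ) - M) := by
      have e2 : ∑ r ∈ S, h r * M = 0 := by
        rw [← sum_mul, hh3, zero_mul]
      rw [← sub_zero (∑ r ∈ S, h r * (((Ioc ⌊y⌋₊ ⌊y'⌋₊).filter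
        (fun p => p.Prime ∧ p ≡ r [MOD 8 * f])).card : ℝ)), ← e2, ← sum_sub_distrib]
      refine sum_congr rfl fun r _ => ?_
      ring
    rw [e1]
    refine (abs_sum_le_sum_abs _ _).trans ?_
    have e3 : ∑ r ∈ S, |h r * ((((Ioc ⌊y⌋₊ ⌊y'⌋₊).filter (fun p => p.Prime ∧ p ≡ r [MOD 8 * f])).card : ℝ) - M)| ≤
        ∑ _r ∈ S, E := by
      refine sum_le_sum fun r hr => ?_
      rw [abs_mul]
      calc _ ≤ 1 * E := mul_le_mul (hh1 r) (hcls r hr) (abs_nonneg _) zero_le_one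
        _ = E := one_mul _
    refine e3.trans ?_
    rw [sum_const, nsmul_eq_mul]
    have e4 : (S.card : ℝ) ≤ 8 * f := by
      have : S.card ≤ 8 * f := (card_filter_le _ _).trans (by rw [card_range])
      exact_mod_cast this
    exact mul_le_mul_of_nonneg_right e4 hEpos
  rw [gp_eq hχ h hh2 hypos.le, sum_classes f hf h, Complex.norm_real, Real.norm_eq_abs, abs_mul,
    abs_of_pos (by norm_num : (0 : ℝ) < 2)]
  have hfin : 32 * (f : ℝ) * Real.log y' ≤ ε * Real.log y ^ B := by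
    have e1 : 32 / (ε * δ₀ ^ B) ≤ ℓ := by linarith only [hℓK, hK, k1, k2, k3]
    rw [div_le_iff₀ (by positivity)] at e1
    have e2 : ℓ ^ A ≤ ℓ ^ ⌈A⌉₊ := by
      rw [← Real.rpow_natCast]
      exact Real.rpow_le_rpow_of_exponent_le hℓ1 hceil
    have e3 : (δ₀ * ℓ) ^ B ≤ Real.log y ^ B := pow_le_pow_left₀ hdl.le hlogy _
    have e4 : (δ₀ * ℓ) ^ B = δ₀ ^ B * ℓ * (ℓ ^ ⌈A⌉₊ * ℓ) := by
      rw [mul_pow, hB, pow_add ℓ]
      ring
    calc 32 * (f : ℝ) * Real.log y' ≤ 32 * ℓ ^ ⌈A⌉₊ * ℓ := by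
          have : (f : ℝ) ≤ ℓ ^ ⌈A⌉₊ := hfA.trans e2
          gcongr
      _ = 32 * (ℓ ^ ⌈A⌉₊ * ℓ) := by ring
      _ ≤ (ℓ * (ε * δ₀ ^ B)) * (ℓ ^ ⌈A⌉₊ * ℓ) := by
          apply mul_le_mul_of_nonneg_right e1
          positivity
      _ = ε * (δ₀ * ℓ) ^ B := by
          rw [e4]
          ring
      _ ≤ ε * Real.log y ^ B := mul_le_mul_of_nonneg_left e3 hε.le
  calc 2 * |∑ r ∈ S, h r * (((Ioc ⌊y⌋₊ ⌊y'⌋₊).filter (fun p => p.Prime ∧ p ≡ r [MOD 8 * f])).card : ℝ)|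
      ≤ 2 * (8 * f * E) := by
        apply mul_le_mul_of_nonneg_left hsum
        norm_num
    _ = 32 * f * y' / Real.log y ^ B := by
        rw [hE]
        ring
    _ ≤ ε * y' / Real.log y' := by
        rw [div_le_div_iff₀ hpB hly'0]
        calc 32 * (f : ℝ) * y' * Real.log y' = y' * (32 * (f : ℝ) * Real.log y') := by ring
          _ ≤ y' * (ε * Real.log y ^ B) := mul_le_mul_of_nonneg_left hfin hy'pos.le
          _ = ε * y' * Real.log y ^ B := by ring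

end Pool.Agent.Lib.MP391708.X.PH
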