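import Pool.Agent.Lib.MP_391708_nt.X.PH.SpecB
import Pool.Agent.Lib.MP_391708_nt.MR.OSDir

/-!
# MP_391708, Theorem X, part PH, module SER: summability, link with the Dirichlet series
-/

set_option autoImplicit false

namespace Pool.Agent.Lib.MP391708.X.PH

open Finset Filter Topology MeasureTheory
open Pool.Agent.Lib.MP391708.MR
open Pool.Agent.Lib.MP391708.MR.OS (CM RP pw)
open Pool.Agent.Lib.MP054243.AV (ee)

noncomputable section

namespace SERM

/-- the point -/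
def ss (lam u : ℝ) : ℂ := 1 + (lam : ℂ) + 2 * Real.pi * Complex.I * (u : ℂ)

lemma ss_re (lam u : ℝ) : (ss lam u).re = 1 + lam := by
  simp [ss]

lemma ss_ne {lam : ℝ} (h : 0 < lam) (u : ℝ) : ss lam u ≠ 0 := by
  intro h0
  have := ss_re lam u
  rw [h0, Complex.zero_re] at this
  linarith

lemma cpow_eq {n : ℕ} (hn : 0 < n) (lam u : ℝ) :
    ((n : ℕ) : ℂ) ^ (-(ss lam u)) =
      (((n : ℝ) ^ (-(1 + lam)) : ℝ) : ℂ) * ee (-(u * Real.log n)) := by
  have hn' : ((n : ℕ) : ℂ) ≠ 0 := by exact_mod_cast hn.ne'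
  rw [Complex.cpow_def_of_ne_zero hn', ← Complex.natCast_log,
    Real.rpow_def_of_pos (by exact_mod_cast hn), Complex.ofReal_exp, ee, ← Complex.exp_add]
  congr 1
  unfold ss
  push_cast
  ring

lemma T_eq (G : Gi → ℂ) {lam : ℝ} (hl : 0 < lam) (u : ℝ) (z : Gi) :
    OS.T G (ss lam u) z =
      G z * (((nm z : ℝ) ^ (-(1 + lam)) : ℝ) : ℂ) * ee (-(u * Real.log (nm z))) := by
  by_cases hz : z = 0
  · subst hz
    rw [OS.T_zero (ss_ne hl u), nm_zero, Nat.cast_zero, Real.zero_rpow (by linarith)]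
    simp
  · unfold OS.T
    rw [cpow_eq (nm_pos hz)]
    ring

lemma ac_eq (G : Gi → ℂ) {lam : ℝ} (hl : 0 < lam) (j : ℕ) (u : ℝ) (z : Gi) :
    ac G lam j z * ee (-(u * Real.log (nm z))) =
      1 / 4 * ((Real.log (nm z) : ℂ) ^ j * OS.T G (ss lam u) z) := by
  rw [T_eq G hl]
  unfold ac
  push_cast
  ring

lemma ap_eq (G : Gi → ℂ) {lam : ℝ} (hl : 0 < lam) (u : ℝ) (x : RP × ℕ) :
    ap G lam 0 x * ee (-(u * Real.log (nm (pw x)))) =
      (Real.log (nm (x.1 : Gi)) : ℂ) * OS.T G (ss lam u) (pw x) := by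
  rw [T_eq G hl]
  unfold ap
  rw [pow_zero, mul_one]
  push_cast
  ring

lemma log_pow_le {lam : ℝ} (hl : 0 < lam) {j : ℕ} (hj : j ≤ 2) (n : ℕ) :
    Real.log n ^ j * (n : ℝ) ^ (-(1 + lam)) ≤
      (4 / lam) ^ j * (n : ℝ) ^ (-(1 + lam / 2)) := by
  rcases Nat.eq_zero_or_pos n with h0 | h0
  · rw [h0, Nat.cast_zero, Real.zero_rpow (by linarith), Real.zero_rpow (by linarith)]
    simp
  · have hpos : (0 : ℝ) < n := by exact_mod_cast h0
    have h1n : (1 : ℝ) ≤ n := by exact_mod_cast h0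
    have h1 := Real.log_le_rpow_div hpos.le (show (0 : ℝ) < lam / 4 by linarith)
    have h2 : (n : ℝ) ^ (lam / 4) / (lam / 4) = 4 / lam * (n : ℝ) ^ (lam / 4) := by
      field_simp
    rw [h2] at h1
    have h3 : (1 : ℝ) ≤ (n : ℝ) ^ (lam / 4) := Real.one_le_rpow h1n (by linarith)
    have h4 : Real.log n ^ j ≤ (4 / lam) ^ j * (n : ℝ) ^ (lam / 2) := by
      calc Real.log n ^ j ≤ (4 / lam * (n : ℝ) ^ (lam / 4)) ^ j :=
            pow_le_pow_left₀ (Real.log_nonneg h1n) h1 j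
        _ = (4 / lam) ^ j * ((n : ℝ) ^ (lam / 4)) ^ j := mul_pow _ _ _
        _ ≤ (4 / lam) ^ j * ((n : ℝ) ^ (lam / 4)) ^ 2 := by
            apply mul_le_mul_of_nonneg_left _ (by positivity)
            exact pow_le_pow_right₀ h3 hj
        _ = (4 / lam) ^ j * (n : ℝ) ^ (lam / 2) := by
            have e : ((n : ℝ) ^ (lam / 4)) ^ 2 = (n : ℝ) ^ (lam / 2) := by
              rw [pow_two, ← Real.rpow_add hpos]
              congr 1
              ring
            rw [e]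
    calc Real.log n ^ j * (n : ℝ) ^ (-(1 + lam))
        ≤ (4 / lam) ^ j * (n : ℝ) ^ (lam / 2) * (n : ℝ) ^ (-(1 + lam)) :=
          mul_le_mul_of_nonneg_right h4 (by positivity)
      _ = (4 / lam) ^ j * (n : ℝ) ^ (-(1 + lam / 2)) := by
          rw [mul_assoc, ← Real.rpow_add hpos]
          congr 2
          ring

lemma norm_ac_le {G : Gi → ℂ} (hG : CM G) {lam : ℝ} (hl : 0 < lam) {j : ℕ} (hj : j ≤ 2) (z : Gi) :
    ‖ac G lam j z‖ ≤ (4 / lam) ^ j * (nm z : ℝ) ^ (-(1 + lam / 2)) := by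
  have hlog := OS.log_nm_nonneg z
  unfold ac
  rw [norm_mul, Complex.norm_real, Real.norm_eq_abs, abs_of_nonneg (by positivity)]
  have h1 := log_pow_le hl hj (nm z)
  have h2 : 0 ≤ Real.log (nm z) ^ j * (nm z : ℝ) ^ (-(1 + lam)) := by positivity
  calc ‖G z‖ * (1 / 4 * (nm z : ℝ) ^ (-(1 + lam)) * Real.log (nm z) ^ j)
      ≤ 1 * (1 / 4 * (nm z : ℝ) ^ (-(1 + lam)) * Real.log (nm z) ^ j) :=
        mul_le_mul_of_nonneg_right (hG.le z) (by positivity)
    _ ≤ Real.log (nm z) ^ j * (nm z : ℝ) ^ (-(1 + lam)) := by linarith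
    _ ≤ _ := h1

lemma summable_ac {G : Gi → ℂ} (hG : CM G) {lam : ℝ} (hl : 0 < lam) {j : ℕ} (hj : j ≤ 2) :
    Summable (fun z => ‖ac G lam j z‖) :=
  Summable.of_nonneg_of_le (fun _ => norm_nonneg _) (norm_ac_le hG hl hj)
    ((OS.summable_nm (by linarith)).mul_left _)

lemma norm_an_le (G : Gi → ℂ) (lam : ℝ) (j : ℕ) (z : Gi) : ‖an G lam j z‖ ≤ ‖ac G lam j z‖ := by
  unfold an
  split_ifs
  · exact le_rfl
  · rw [norm_zero]; exact norm_nonneg _

lemma summable_an {G : Gi → ℂ} (hG : CM G) {lam : ℝ} (hl : 0 < lam) {j : ℕ} (hj : j ≤ 2) :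
    Summable (fun z => ‖an G lam j z‖) :=
  Summable.of_nonneg_of_le (fun _ => norm_nonneg _) (norm_an_le G lam j) (summable_ac hG hl hj)

lemma norm_ap_le {G : Gi → ℂ} (hG : CM G) {lam : ℝ} (hl : 0 < lam) {j : ℕ} (hj : j ≤ 1)
    (x : RP × ℕ) :
    ‖ap G lam j x‖ ≤ (4 / lam) ^ j *
      ‖(Real.log (nm (x.1 : Gi)) : ℂ) * OS.T (fun _ => 1) (ss (lam / 2) 0) (pw x)‖ := by
  have hlog := OS.log_nm_nonneg (pw x)
  have hlog1 := OS.log_nm_nonneg (x.1 : Gi)
  have e1 : ‖(Real.log (nm (x.1 : Gi)) : ℂ) * OS.T (fun _ => 1) (ss (lam / 2) 0) (pw x)‖ =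
      Real.log (nm (x.1 : Gi)) * (nm (pw x) : ℝ) ^ (-(1 + lam / 2)) := by
    unfold OS.T
    rw [one_mul, norm_mul, OS.norm_nm_cpow (by rw [ss_re]; linarith), ss_re, Complex.norm_real,
      Real.norm_eq_abs, abs_of_nonneg hlog1]
  rw [e1]
  unfold ap
  rw [norm_mul, Complex.norm_real, Real.norm_eq_abs, abs_of_nonneg (by positivity)]
  have h1 := log_pow_le hl (show j ≤ 2 by omega) (nm (pw x))
  calc ‖G (pw x)‖ * (Real.log (nm (x.1 : Gi)) * (nm (pw x) : ℝ) ^ (-(1 + lam)) *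
        Real.log (nm (pw x)) ^ j)
      ≤ 1 * (Real.log (nm (x.1 : Gi)) * (nm (pw x) : ℝ) ^ (-(1 + lam)) *
        Real.log (nm (pw x)) ^ j) :=
        mul_le_mul_of_nonneg_right (hG.le _) (by positivity)
    _ = Real.log (nm (x.1 : Gi)) * (Real.log (nm (pw x)) ^ j * (nm (pw x) : ℝ) ^ (-(1 + lam))) := by
        ring
    _ ≤ Real.log (nm (x.1 : Gi)) * ((4 / lam) ^ j * (nm (pw x) : ℝ) ^ (-(1 + lam / 2))) :=
        mul_le_mul_of_nonneg_left h1 hlog1
    _ = _ := by ring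

lemma summable_ap {G : Gi → ℂ} (hG : CM G) {lam : ℝ} (hl : 0 < lam) {j : ℕ} (hj : j ≤ 1) :
    Summable (fun x => ‖ap G lam j x‖) :=
  Summable.of_nonneg_of_le (fun _ => norm_nonneg _) (norm_ap_le hG hl hj)
    ((OS.summable_norm_La OS.CM_one (by rw [ss_re]; linarith)).mul_left _)

lemma norm_ee (x : ℝ) : ‖ee x‖ = 1 := by
  unfold ee
  have : (2 * Real.pi * Complex.I * (x : ℂ)) = ((2 * Real.pi * x : ℝ) : ℂ) * Complex.I := by
    push_cast; ring
  rw [this, Complex.norm_exp_ofReal_mul_I]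

lemma summable_ac_ee {G : Gi → ℂ} (hG : CM G) {lam : ℝ} (hl : 0 < lam) {j : ℕ} (hj : j ≤ 2)
    (u : ℝ) : Summable (fun z => ac G lam j z * ee (-(u * Real.log (nm z)))) := by
  apply Summable.of_norm
  refine (summable_ac hG hl hj).congr (fun z => ?_)
  rw [norm_mul, norm_ee, mul_one]

lemma summable_an_ee {G : Gi → ℂ} (hG : CM G) {lam : ℝ} (hl : 0 < lam) {j : ℕ} (hj : j ≤ 2)
    (u : ℝ) : Summable (fun z => an G lam j z * ee (-(u * Real.log (nm z)))) := by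
  apply Summable.of_norm
  refine (summable_an hG hl hj).congr (fun z => ?_)
  rw [norm_mul, norm_ee, mul_one]

lemma ee_zero : ee 0 = 1 := by
  unfold ee
  simp

/-- the difference of the two series -/
lemma term_eq {G : Gi → ℂ} {lam : ℝ} (hl : 0 < lam) (j : ℕ) (u : ℝ) (z : Gi) :
    ac G lam j z * ee (-(u * Real.log (nm z))) =
      (if nm z = 1 then 1 / 4 * G z * (0 : ℂ) ^ j else 0) +
        an G lam j z * ee (-(u * Real.log (nm z))) := by
  unfold an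
  rcases Nat.lt_or_ge (nm z) 2 with h | h
  · rw [if_neg (show ¬ 2 ≤ nm z by omega), zero_mul, add_zero]
    by_cases h1 : nm z = 1
    · rw [if_pos h1]
      unfold ac
      rw [h1]
      simp only [Nat.cast_one, Real.log_one, mul_zero, neg_zero, ee_zero, Real.one_rpow, mul_one]
      push_cast
      ring
    · have h0 : nm z = 0 := by omega
      rw [if_neg h1]
      unfold ac
      rw [h0, Nat.cast_zero, Real.zero_rpow (by linarith)]
      simp
  · rw [if_pos h, if_neg (show ¬ nm z = 1 by omega), zero_add]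

lemma G_unit {G : Gi → ℂ} (hG : CM G) {z : Gi} (hz : nm z = 1) : G z = 1 := by
  have h1 : G (-1) = 1 := by
    have : (-1 : Gi) = ⟨0, 1⟩ * ⟨0, 1⟩ := by
      apply Zsqrtd.ext <;> simp
    rw [this, hG.mul, hG.I, one_mul]
  have h2 : G ⟨0, -1⟩ = 1 := by
    have : (⟨0, -1⟩ : Gi) = (-1) * ⟨0, 1⟩ := by
      apply Zsqrtd.ext <;> simp
    rw [this, hG.mul, hG.I, h1, one_mul]
  rcases unit_cases hz with rfl | rfl | rfl | rfl
  · exact hG.one
  · exact h1
  · exact hG.I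
  · exact h2

lemma hasSum_units {G : Gi → ℂ} (hG : CM G) (j : ℕ) :
    HasSum (fun z : Gi => if nm z = 1 then 1 / 4 * G z * (0 : ℂ) ^ j else 0) ((0 : ℂ) ^ j) := by
  classical
  set S : Finset Gi := {1, -1, ⟨0, 1⟩, ⟨0, -1⟩} with hS
  have h1 : ∀ z ∉ S, (if nm z = 1 then 1 / 4 * G z * (0 : ℂ) ^ j else 0) = 0 := by
    intro z hz
    rw [if_neg]
    intro h
    apply hz
    rw [hS]
    simp only [Finset.mem_insert, Finset.mem_singleton]
    exact unit_cases h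
  have h2 : HasSum (fun z : Gi => if nm z = 1 then 1 / 4 * G z * (0 : ℂ) ^ j else 0)
      (∑ z ∈ S, (if nm z = 1 then 1 / 4 * G z * (0 : ℂ) ^ j else 0)) :=
    hasSum_sum_of_ne_finset_zero h1
  have h3 : ∑ z ∈ S, (if nm z = 1 then 1 / 4 * G z * (0 : ℂ) ^ j else 0) = (0 : ℂ) ^ j := by
    have h4 : ∀ z ∈ S, (if nm z = 1 then 1 / 4 * G z * (0 : ℂ) ^ j else 0) =
        1 / 4 * (0 : ℂ) ^ j := by
      intro z hz
      rw [hS] at hz
      simp only [Finset.mem_insert, Finset.mem_singleton] at hz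
      have hn : nm z = 1 := OS.nm_unit_eq hz
      rw [if_pos hn, G_unit hG hn, mul_one]
    rw [Finset.sum_congr rfl h4, Finset.sum_const]
    have h5 : S.card = 4 := by
      rw [hS]; decide
    rw [h5, nsmul_eq_mul]
    push_cast
    ring
  rw [h3] at h2
  exact h2

lemma DJ_eq {G : Gi → ℂ} (hG : CM G) {lam : ℝ} (hl : 0 < lam) {j : ℕ} (hj : j ≤ 2) (u : ℝ) :
    DJ G lam j u = (0 : ℂ) ^ j + DN G lam j u := by
  have h1 := (hasSum_units hG j).add (summable_an_ee hG hl hj u).hasSum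
  have h2 : (fun z => ac G lam j z * ee (-(u * Real.log (nm z)))) = fun z =>
      (if nm z = 1 then 1 / 4 * G z * (0 : ℂ) ^ j else 0) +
        an G lam j z * ee (-(u * Real.log (nm z))) := funext (fun z => term_eq hl j u z)
  unfold DJ DN
  rw [h2]
  exact h1.tsum_eq

lemma DJ_zero (G : Gi → ℂ) {lam : ℝ} (hl : 0 < lam) (u : ℝ) :
    DJ G lam 0 u = 1 / 4 * OS.LL G (ss lam u) := by
  unfold DJ OS.LL
  rw [← tsum_mul_left]
  apply tsum_congr
  intro z
  rw [ac_eq G hl, pow_zero, one_mul]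

lemma DJ_one {G : Gi → ℂ} (hG : CM G) {lam : ℝ} (hl : 0 < lam) (u : ℝ) :
    DJ G lam 1 u = 1 / 4 * (OS.La G (ss lam u) * OS.LL G (ss lam u)) := by
  rw [← (OS.hasSum_log_T hG (s := ss lam u) (by rw [ss_re]; linarith)).tsum_eq]
  unfold DJ
  rw [← tsum_mul_left]
  apply tsum_congr
  intro z
  rw [ac_eq G hl, pow_one]

lemma PJ_zero (G : Gi → ℂ) {lam : ℝ} (hl : 0 < lam) (u : ℝ) :
    PJ G lam 0 u = OS.La G (ss lam u) := by
  unfold PJ OS.La
  apply tsum_congr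
  intro x
  exact ap_eq G hl u x

lemma hasDeriv_ss (lam u : ℝ) : HasDerivAt (fun r : ℝ => ss r u) 1 lam := by
  have h1 : HasDerivAt (fun r : ℝ => (r : ℂ)) 1 lam := (hasDerivAt_id lam).ofReal_comp
  have h2 := (h1.const_add 1).add_const (2 * Real.pi * Complex.I * (u : ℂ))
  exact h2

lemma hasDeriv_DJ {G : Gi → ℂ} (hG : CM G) {lam : ℝ} (hl : 0 < lam) (u : ℝ) :
    HasDerivAt (fun r : ℝ => DJ G r 0 u) (-DJ G lam 1 u) lam := by
  have h1 : HasDerivAt (fun r : ℝ => OS.LL G (ss r u))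
      ((1 : ℂ) • (-(OS.La G (ss lam u) * OS.LL G (ss lam u)))) lam :=
    HasDerivAt.scomp lam (OS.hasDerivAt_LL hG (by rw [ss_re]; linarith)) (hasDeriv_ss lam u)
  have h2 := h1.const_mul (1 / 4 : ℂ)
  have e : -DJ G lam 1 u = 1 / 4 * ((1 : ℂ) • (-(OS.La G (ss lam u) * OS.LL G (ss lam u)))) := by
    rw [DJ_one hG hl, one_smul]
    ring
  rw [e]
  refine h2.congr_of_eventuallyEq ?_
  filter_upwards [eventually_gt_nhds hl] with r hr
  exact DJ_zero G hr u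

end SERM

open SERM in
theorem specSER : SpecSER := by
  intro G hG lam hl
  refine ⟨fun j hj => ⟨summable_ac hG hl hj, summable_an hG hl hj⟩,
    fun j hj => summable_ap hG hl hj, fun u => ⟨?_, ?_, ?_, DJ_zero G hl u, PJ_zero G hl u,
      hasDeriv_DJ hG hl u⟩⟩
  · rw [DJ_eq hG hl (by norm_num) u, pow_zero]
  · rw [DJ_eq hG hl (by norm_num) u]; simp
  · rw [DJ_eq hG hl (by norm_num) u]; simp

end

end Pool.Agent.Lib.MP391708.X.PH
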