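import Pool.Agent.Lib.MP_391708_nt.X.PH.SpecB
import Pool.Agent.Lib.MP_391708_nt.MR.OSLow

/-!
# MP_391708, Theorem X, part PH: module T2G (helper30)
-/

set_option autoImplicit false

namespace Pool.Agent.Lib.MP391708.X.PH

open Finset Filter Topology MeasureTheory
open Pool.Agent.Lib.MP391708.MR
open Pool.Agent.Lib.MP391708.MR.OS

namespace T2GM

/-! ### The general inequality -/

theorem hasDerivAt_pow {G : Gi → ℂ} (hG : CM G) (y : ℝ) (a : ℕ) {σ : ℝ} (hs : 1 < σ) :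
    HasDerivAt (fun σ : ℝ => (‖LL G (σ + y * Complex.I)‖ ^ 2) ^ a)
      (-2 * (a * (La G (σ + y * Complex.I)).re) * (‖LL G (σ + y * Complex.I)‖ ^ 2) ^ a) σ := by
  have h := (hasDerivAt_norm_sq hG y hs).pow a
  refine h.congr_deriv ?_
  rcases a with _ | a
  · simp
  · rw [Nat.add_sub_cancel, pow_succ]
    ring

theorem gen {G1 G2 G3 : Gi → ℂ} (h1 : CM G1) (h2 : CM G2) (h3 : CM G3) (y1 y2 y3 : ℝ)
    (a b c : ℕ) (hpos : ∀ x : ℝ, 1 < x → 0 ≤ a * (La G1 (x + y1 * Complex.I)).re +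
      b * (La G2 (x + y2 * Complex.I)).re + c * (La G3 (x + y3 * Complex.I)).re)
    {σ : ℝ} (hs : 1 < σ) :
    4 ^ (a + b + c) ≤ ‖LL G1 (σ + y1 * Complex.I)‖ ^ a * ‖LL G2 (σ + y2 * Complex.I)‖ ^ b *
      ‖LL G3 (σ + y3 * Complex.I)‖ ^ c := by
  set h : ℝ → ℝ := fun σ => (‖LL G1 (σ + y1 * Complex.I)‖ ^ 2) ^ a *
    (‖LL G2 (σ + y2 * Complex.I)‖ ^ 2) ^ b * (‖LL G3 (σ + y3 * Complex.I)‖ ^ 2) ^ c with hh
  have hd : ∀ x : ℝ, 1 < x → HasDerivAt h
      (-2 * (a * (La G1 (x + y1 * Complex.I)).re +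
      b * (La G2 (x + y2 * Complex.I)).re + c * (La G3 (x + y3 * Complex.I)).re) * h x) x := by
    intro x hx
    have h4 := ((hasDerivAt_pow h1 y1 a hx).mul (hasDerivAt_pow h2 y2 b hx)).mul
      (hasDerivAt_pow h3 y3 c hx)
    refine h4.congr_deriv ?_
    simp only [hh, Pi.mul_apply]
    ring
  have hanti : AntitoneOn h (Set.Ioi 1) := by
    apply antitoneOn_of_deriv_nonpos (convex_Ioi 1)
    · exact fun x hx => (hd x hx).continuousAt.continuousWithinAt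
    · rw [interior_Ioi]
      exact fun x hx => (hd x hx).differentiableAt.differentiableWithinAt
    · rw [interior_Ioi]
      intro x hx
      rw [(hd x hx).deriv]
      have h5 : 0 ≤ h x := by
        simp only [hh]
        positivity
      have h6 := hpos x hx
      nlinarith [mul_nonneg h6 h5]
  have hlim : Tendsto h atTop (𝓝 (((4 : ℝ) ^ 2) ^ a * ((4 : ℝ) ^ 2) ^ b * ((4 : ℝ) ^ 2) ^ c)) := by
    have e : ‖(4 : ℂ)‖ = 4 := by simp
    have t1 := ((tendsto_LL h1 y1).norm.pow 2).pow a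
    have t2 := ((tendsto_LL h2 y2).norm.pow 2).pow b
    have t3 := ((tendsto_LL h3 y3).norm.pow 2).pow c
    rw [e] at t1 t2 t3
    exact (t1.mul t2).mul t3
  have h4 : ((4 : ℝ) ^ 2) ^ a * ((4 : ℝ) ^ 2) ^ b * ((4 : ℝ) ^ 2) ^ c ≤ h σ := by
    apply le_of_tendsto hlim
    filter_upwards [eventually_ge_atTop σ] with x hx
    exact hanti hs (lt_of_lt_of_le hs hx) hx
  have e1 : ((4 : ℝ) ^ 2) ^ a * ((4 : ℝ) ^ 2) ^ b * ((4 : ℝ) ^ 2) ^ c =
      ((4 : ℝ) ^ (a + b + c)) ^ 2 := by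
    rw [← pow_add, ← pow_add, ← pow_mul, ← pow_mul, mul_comm 2]
  have e2 : h σ = (‖LL G1 (σ + y1 * Complex.I)‖ ^ a * ‖LL G2 (σ + y2 * Complex.I)‖ ^ b *
      ‖LL G3 (σ + y3 * Complex.I)‖ ^ c) ^ 2 := by
    simp only [hh]
    ring
  rw [e1, e2] at h4
  exact (pow_le_pow_iff_left₀ (by positivity) (by positivity) (by norm_num)).1 h4

/-! ### The real part of `La` -/

/-- the weight of the prime power `x` -/
noncomputable def wt (σ : ℝ) (x : RP × ℕ) : ℝ :=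
  Real.log (nm (x.1 : Gi)) * (nm (pw x) : ℝ) ^ (-σ)

theorem wt_nonneg (σ : ℝ) (x : RP × ℕ) : 0 ≤ wt σ x :=
  mul_nonneg (log_nm_nonneg _) (by positivity)

/-- the phase -/
noncomputable def ph (y : ℝ) (x : RP × ℕ) : ℂ := ((nm (pw x) : ℕ) : ℂ) ^ (-(y * Complex.I))

theorem nm_pw_pos (x : RP × ℕ) : 0 < nm (pw x) := nm_pos (pw_ne_zero x)

theorem norm_ph (y : ℝ) (x : RP × ℕ) : ‖ph y x‖ = 1 := by
  unfold ph
  have h := nm_pw_pos x
  rw [Complex.norm_natCast_cpow_of_pos h]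
  simp

theorem term_eq (H : Gi → ℂ) (σ y : ℝ) (x : RP × ℕ) :
    (Real.log (nm (x.1 : Gi)) : ℂ) * T H (σ + y * Complex.I) (pw x) =
      (wt σ x : ℂ) * (H (pw x) * ph y x) := by
  have h : ((nm (pw x) : ℕ) : ℂ) ≠ 0 := by
    exact_mod_cast (nm_pw_pos x).ne'
  unfold T wt ph
  rw [neg_add, Complex.cpow_add _ _ h]
  push_cast
  rw [Complex.ofReal_cpow (by positivity)]
  push_cast
  ring

theorem re_La {H : Gi → ℂ} (hH : CM H) (σ y : ℝ) (hs : 1 < σ) :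
    HasSum (fun x : RP × ℕ => wt σ x * (H (pw x) * ph y x).re) (La H (σ + y * Complex.I)).re := by
  have hs2 : 1 < ((σ : ℂ) + y * Complex.I).re := by simpa using hs
  have h1 := (summable_norm_La hH hs2).of_norm.hasSum
  have h2 := Complex.hasSum_re h1
  refine h2.congr_fun ?_
  intro x
  rw [term_eq, Complex.re_ofReal_mul]

/-! ### The involution of the primes -/

theorem swap_eq (z : Gi) : (⟨z.im, z.re⟩ : Gi) = ⟨0, 1⟩ * star z := by
  ext <;> simp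

theorem prime_star {z : Gi} (h : Prime z) : Prime (star z) :=
  (MulEquiv.prime_iff (starMulAut : MulAut Gi)).2 h

theorem isUnit_I : IsUnit (⟨0, 1⟩ : Gi) := isUnit_iff_nm.2 (nm_unit_eq (by tauto))

theorem prime_swap {z : Gi} (h : Prime z) : Prime (⟨z.im, z.re⟩ : Gi) := by
  rw [swap_eq]
  exact (Associated.prime_iff (associated_unit_mul_right (star z) _ isUnit_I)).1 (prime_star h)

/-- the representative of the conjugate prime -/
noncomputable def cj (p : RP) : RP :=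
  if h : (p : Gi).im = 0 then p else
    ⟨⟨(p : Gi).im, (p : Gi).re⟩, prime_swap p.2.1, lt_of_le_of_ne p.2.2.2 (Ne.symm h),
      p.2.2.1.le⟩

theorem cj_of (p : RP) (h : (p : Gi).im = 0) : cj p = p := dif_pos h

theorem cj_of' (p : RP) (h : (p : Gi).im ≠ 0) :
    (cj p : Gi) = ⟨(p : Gi).im, (p : Gi).re⟩ := by
  unfold cj
  rw [dif_neg h]

theorem cj_cj (p : RP) : cj (cj p) = p := by
  by_cases h : (p : Gi).im = 0
  · rw [cj_of p h, cj_of p h]
  · have h1 : (cj p : Gi).im ≠ 0 := by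
      rw [cj_of' p h]
      exact p.2.2.1.ne'
    apply Subtype.ext
    rw [cj_of' _ h1, cj_of' p h]

/-- the conjugate prime is a unit times the conjugate -/
theorem cj_eq (p : RP) : ∃ u : Gi, nm u = 1 ∧ (cj p : Gi) = u * star (p : Gi) := by
  by_cases h : (p : Gi).im = 0
  · refine ⟨1, nm_unit_eq (by tauto), ?_⟩
    rw [cj_of p h, one_mul]
    ext
    · simp
    · simp [h]
  · exact ⟨⟨0, 1⟩, nm_unit_eq (by tauto), by rw [cj_of' p h, swap_eq]⟩

/-- the involution of the prime powers -/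
noncomputable def cjx : RP × ℕ ≃ RP × ℕ where
  toFun x := (cj x.1, x.2)
  invFun x := (cj x.1, x.2)
  left_inv x := Prod.ext (cj_cj x.1) rfl
  right_inv x := Prod.ext (cj_cj x.1) rfl

theorem pw_cjx (x : RP × ℕ) : ∃ u : Gi, nm u = 1 ∧ pw (cjx x) = u * star (pw x) := by
  obtain ⟨u, hu, h⟩ := cj_eq x.1
  refine ⟨u ^ (x.2 + 1), ?_, ?_⟩
  · rw [nm_pow, hu, one_pow]
  · show (cj x.1 : Gi) ^ (x.2 + 1) = u ^ (x.2 + 1) * star ((x.1 : Gi) ^ (x.2 + 1))
    rw [h, mul_pow, star_pow]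

theorem nm_star (z : Gi) : nm (star z) = nm z := by
  simp [nm]

theorem nm_cj (p : RP) : nm (cj p : Gi) = nm (p : Gi) := by
  obtain ⟨u, hu, h⟩ := cj_eq p
  rw [h, nm_mul, hu, one_mul, nm_star]

theorem nm_pw_cjx (x : RP × ℕ) : nm (pw (cjx x)) = nm (pw x) := by
  obtain ⟨u, hu, h⟩ := pw_cjx x
  rw [h, nm_mul, hu, one_mul, nm_star]

theorem wt_cjx (σ : ℝ) (x : RP × ℕ) : wt σ (cjx x) = wt σ x := by
  unfold wt
  rw [nm_pw_cjx]
  have : nm ((cjx x).1 : Gi) = nm (x.1 : Gi) := nm_cj x.1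
  rw [this]

theorem ph_cjx (y : ℝ) (x : RP × ℕ) : ph y (cjx x) = ph y x := by
  unfold ph
  rw [nm_pw_cjx]

/-! ### Completely multiplicative functions -/

theorem cm_sq {G : Gi → ℂ} (hG : CM G) : CM (fun z => ((‖G z‖ : ℝ) : ℂ) ^ 2) where
  one := by simp [hG.one]
  I := by simp [hG.I]
  mul x y := by
    simp only [hG.mul, norm_mul, Complex.ofReal_mul]
    ring
  le z := by
    rw [norm_pow, Complex.norm_real, norm_norm]
    exact pow_le_one₀ (norm_nonneg _) (hG.le z)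

theorem cm_star {G : Gi → ℂ} (hG : CM G) : CM (fun z => G z * G (star z)) where
  one := by simp [hG.one]
  I := by
    have h : G (star (⟨0, 1⟩ : Gi)) = 1 := by
      apply G_unit hG
      rw [nm_star]
      exact nm_unit_eq (by tauto)
    simp only [hG.I, h, one_mul]
  mul x y := by
    have h : star (x * y) = star x * star y := by rw [star_mul, mul_comm]
    simp only [h, hG.mul]
    ring
  le z := by
    rw [norm_mul]
    exact mul_le_one₀ (hG.le z) (norm_nonneg _) (hG.le _)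

theorem G_pw_cjx {G : Gi → ℂ} (hG : CM G) (x : RP × ℕ) : G (pw (cjx x)) = G (star (pw x)) := by
  obtain ⟨u, hu, h⟩ := pw_cjx x
  rw [h, hG.mul, G_unit hG hu, one_mul]

theorem G_star_pw_cjx {G : Gi → ℂ} (hG : CM G) (x : RP × ℕ) :
    G (star (pw (cjx x))) = G (pw x) := by
  obtain ⟨u, hu, h⟩ := pw_cjx x
  rw [h, star_mul, star_star, hG.mul, G_unit hG (z := star u) (by rw [nm_star, hu]), mul_one]

/-! ### The inequality -/

theorem real_ineq (a b c : ℝ) (ha : a = 0 ∨ a = 1 ∨ a = -1) (hb : b = 0 ∨ b = 1 ∨ b = -1)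
    (hab : b = 0 ↔ a = 0) (hc : |c| ≤ 1) :
    0 ≤ (3 * a ^ 2 + 4 * (a * c) + 2 * (a * b)) + (3 * b ^ 2 + 4 * (b * c) + 2 * (b * a)) := by
  have h := abs_le.1 hc
  rcases ha with rfl | rfl | rfl
  · have hb0 : b = 0 := hab.2 rfl
    rw [hb0]
    norm_num
  · rcases hb with rfl | rfl | rfl
    · norm_num at hab
    · nlinarith [h.1]
    · nlinarith [h.1]
  · rcases hb with rfl | rfl | rfl
    · norm_num at hab
    · nlinarith [h.1]
    · nlinarith [h.2]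

theorem cx {G : Gi → ℂ} (hr : ∀ z, G z = 0 ∨ G z = 1 ∨ G z = -1) (z : Gi) :
    ∃ a : ℝ, (a = 0 ∨ a = 1 ∨ a = -1) ∧ G z = (a : ℂ) := by
  rcases hr z with h | h | h
  · exact ⟨0, by tauto, by rw [h]; norm_num⟩
  · exact ⟨1, by tauto, by rw [h]; norm_num⟩
  · exact ⟨-1, by tauto, by rw [h]; norm_num⟩

theorem pos {G : Gi → ℂ} (hG : CM G) (hr : ∀ z, G z = 0 ∨ G z = 1 ∨ G z = -1)
    (hs : ∀ z, G (star z) = 0 ↔ G z = 0) (y x : ℝ) (hx : 1 < x) :
    0 ≤ ((3 : ℕ) : ℝ) * (La (fun z => ((‖G z‖ : ℝ) : ℂ) ^ 2) (x + (0 : ℝ) * Complex.I)).re +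
      ((4 : ℕ) : ℝ) * (La G (x + y * Complex.I)).re +
      ((2 : ℕ) : ℝ) * (La (fun z => G z * G (star z)) (x + (0 : ℝ) * Complex.I)).re := by
  have s1 := (re_La (cm_sq hG) x 0 hx).mul_left (((3 : ℕ) : ℝ))
  have s2 := (re_La hG x y hx).mul_left (((4 : ℕ) : ℝ))
  have s3 := (re_La (cm_star hG) x 0 hx).mul_left (((2 : ℕ) : ℝ))
  have s := (s1.add s2).add s3
  set F : RP × ℕ → ℝ := fun p =>
    ((3 : ℕ) : ℝ) * (wt x p * ((((‖G (pw p)‖ : ℝ) : ℂ) ^ 2) * ph 0 p).re) +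
      ((4 : ℕ) : ℝ) * (wt x p * (G (pw p) * ph y p).re) +
      ((2 : ℕ) : ℝ) * (wt x p * (G (pw p) * G (star (pw p)) * ph 0 p).re) with hF
  have t : HasSum (fun p => F (cjx p)) _ := (cjx.hasSum_iff (f := F)).2 s
  have hsum := s.add t
  have key : ∀ p, 0 ≤ F p + F (cjx p) := by
    intro p
    have hph0 : ∀ q, ph 0 q = 1 := by
      intro q
      unfold ph
      simp
    obtain ⟨a, ha, ea⟩ := cx hr (pw p)
    obtain ⟨b, hb, eb⟩ := cx hr (star (pw p))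
    have hab : b = 0 ↔ a = 0 := by
      have h1 := hs (pw p)
      rw [ea, eb] at h1
      exact_mod_cast h1
    have hc : |(ph y p).re| ≤ 1 := (Complex.abs_re_le_norm _).trans (norm_ph y p).le
    have h1 := real_ineq a b (ph y p).re ha hb hab hc
    have h2 := mul_nonneg (wt_nonneg x p) h1
    simp only [hF, wt_cjx, ph_cjx, hph0, G_pw_cjx hG, G_star_pw_cjx hG, ea, eb, mul_one,
      Complex.norm_real, Complex.re_ofReal_mul, Real.norm_eq_abs, ← Complex.ofReal_pow, sq_abs,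
      Complex.ofReal_re]
    push_cast
    refine h2.trans (le_of_eq ?_)
    ring
  have h0 := hsum.nonneg key
  linarith

end T2GM

open T2GM in
/-- **T2G** -/
theorem specT2G (hSER : SpecSER) : SpecT2G := by
  intro G hG hr hs lam u hl
  have h := gen (cm_sq hG) hG (cm_star hG) 0 (2 * Real.pi * u) 0 3 4 2
    (fun x hx => pos hG hr hs (2 * Real.pi * u) x hx) (σ := 1 + lam) (by linarith)
  obtain ⟨-, -, -, e1, -⟩ := (hSER _ (cm_sq hG) lam hl).2.2 0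
  obtain ⟨-, -, -, e2, -⟩ := (hSER _ hG lam hl).2.2 u
  obtain ⟨-, -, -, e3, -⟩ := (hSER _ (cm_star hG) lam hl).2.2 0
  have c0 : (1 + (lam : ℂ) + 2 * Real.pi * Complex.I * ((0 : ℝ) : ℂ)) =
      (((1 + lam : ℝ) : ℂ) + ((0 : ℝ) : ℂ) * Complex.I) := by
    push_cast
    ring
  have cu : (1 + (lam : ℂ) + 2 * Real.pi * Complex.I * (u : ℂ)) =
      (((1 + lam : ℝ) : ℂ) + ((2 * Real.pi * u : ℝ) : ℂ) * Complex.I) := by
    push_cast
    ring
  rw [e1, e2, e3, c0, cu, norm_mul, norm_mul, norm_mul]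
  have hn : ‖(1 / 4 : ℂ)‖ = 1 / 4 := by simp
  rw [hn]
  set A := ‖LL (fun z => ((‖G z‖ : ℝ) : ℂ) ^ 2) (((1 + lam : ℝ) : ℂ) + ((0 : ℝ) : ℂ) * Complex.I)‖
  set B := ‖LL G (((1 + lam : ℝ) : ℂ) + ((2 * Real.pi * u : ℝ) : ℂ) * Complex.I)‖
  set D := ‖LL (fun z => G z * G (star z)) (((1 + lam : ℝ) : ℂ) + ((0 : ℝ) : ℂ) * Complex.I)‖
  have e : (1 / 4 * A) ^ 3 * (1 / 4 * B) ^ 4 * (1 / 4 * D) ^ 2 =
      (A ^ 3 * B ^ 4 * D ^ 2) / 4 ^ (3 + 4 + 2) := by
    ring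
  rw [e, le_div_iff₀ (by positivity), one_mul]
  exact h

end Pool.Agent.Lib.MP391708.X.PH
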