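import Pool.Agent.Lib.MP_391708_nt.X.PH.SpecB
import Pool.Agent.Lib.MP_391708_nt.MR.OSPrime
import Mathlib.NumberTheory.Chebyshev

/-!
# MP_391708, Theorem X, part PH: module TPP (Chebyshev's bound for the Gaussian prime powers)
-/

set_option autoImplicit false

namespace Pool.Agent.Lib.MP391708.X.PH

open Finset Filter Topology MeasureTheory
open Pool.Agent.Lib.MP391708.MR
open Pool.Agent.Lib.MP391708.MR.OS (CM RP pw)
open Pool.Agent.Lib.MP054243.AV (ee)

noncomputable section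

namespace TPPM

/-- the type of a prime: inert, below, above, on the diagonal -/
def ty (x : RP) : Fin 4 :=
  if (x : Gi).im = 0 then 0 else if (x : Gi).im < (x : Gi).re then 1
  else if (x : Gi).re < (x : Gi).im then 2 else 3

lemma hnm (a : ℕ) : nm (⟨(a : ℤ), 0⟩ : Gi) = a ^ 2 := by
  unfold nm
  simp

lemma norm_ee (y : ℝ) : ‖ee y‖ = 1 := by
  have h : ee y = Complex.exp (((2 * Real.pi * y : ℝ) : ℂ) * Complex.I) := by
    unfold ee
    congr 1
    push_cast
    ring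
  rw [h, Complex.norm_exp_ofReal_mul_I]

lemma nat_prime_of {p : ℕ} (h : Prime (⟨(p : ℤ), 0⟩ : Gi)) : p.Prime := by
  rw [Nat.prime_iff, ← irreducible_iff_prime]
  refine ⟨?_, ?_⟩
  · intro hu
    rw [Nat.isUnit_iff] at hu
    apply h.not_isUnit
    rw [isUnit_iff_nm, hnm, hu, one_pow]
  · intro a b hab
    have e : (⟨(p : ℤ), 0⟩ : Gi) = ⟨(a : ℤ), 0⟩ * ⟨(b : ℤ), 0⟩ := by
      ext
      · simp [hab]
      · simp
    rcases h.irreducible.isUnit_or_isUnit e with h1 | h1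
    · left
      rw [isUnit_iff_nm, hnm] at h1
      rw [Nat.isUnit_iff]
      exact (pow_eq_one_iff.1 h1).resolve_right (by norm_num)
    · right
      rw [isUnit_iff_nm, hnm] at h1
      rw [Nat.isUnit_iff]
      exact (pow_eq_one_iff.1 h1).resolve_right (by norm_num)

lemma cases_RP (x : RP) : ((x : Gi).im = 0 ∧ ∃ p : ℕ, p.Prime ∧ (x : Gi) = ⟨(p : ℤ), 0⟩ ∧
      nm (x : Gi) = p ^ 2) ∨
    (0 < (x : Gi).im ∧ (nm (x : Gi)).Prime ∧ (nm (x : Gi) % 4 = 1 ∨ nm (x : Gi) = 2)) := by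
  obtain ⟨z, hz, h1, h2⟩ := x
  simp only
  rcases h2.eq_or_lt with h | h
  · left
    have e : z = ⟨((z.re.toNat : ℕ) : ℤ), 0⟩ := by
      ext
      · simp [h1.le]
      · exact h.symm
    refine ⟨h.symm, z.re.toNat, nat_prime_of (by rw [← e]; exact hz), e, ?_⟩
    conv_lhs => rw [e]
    exact hnm _
  · right
    exact ⟨h, OS.FQ_nm ⟨z, hz, h1, h⟩⟩

lemma nm_pw (x : RP × ℕ) : nm (pw x) = nm (x.1 : Gi) ^ (x.2 + 1) := OS.nm_pow _ _

lemma eq_of_nm_eq {x y : RP} (hx : 0 < (x : Gi).im) (hy : 0 < (y : Gi).im)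
    (h : nm (x : Gi) = nm (y : Gi)) (ht : ty x = ty y) : x = y := by
  obtain ⟨z, hz, h1, h2⟩ := x
  obtain ⟨w, hw, h3, h4⟩ := y
  simp only [ty] at hx hy h ht
  apply Subtype.ext
  show z = w
  have hss : ∀ a : Gi, a * star a = ((nm a : ℕ) : Gi) := by
    intro a
    have h := nm_cast a
    ext
    · rw [Zsqrtd.re_natCast, h]; simp; ring
    · rw [Zsqrtd.im_natCast]; simp; ring
  have hd : z ∣ w * star w := by
    rw [hss w, ← h, ← hss z]
    exact dvd_mul_right _ _
  have hnw : 0 < nm w := nm_pos hw.ne_zero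
  rcases hz.dvd_or_dvd hd with ⟨u, hu⟩ | ⟨u, hu⟩
  · have h5 : nm u = 1 := by
      have := congrArg nm hu
      rw [nm_mul, h] at this
      exact Nat.eq_of_mul_eq_mul_left hnw (by rw [← this, mul_one])
    exact (OS.rep_unique ⟨h1, h2⟩ ⟨h3, h4⟩ h5 hu).symm
  · have hsn : nm (star w) = nm w := by
      unfold nm; simp
    have h5 : nm u = 1 := by
      have := congrArg nm hu
      rw [nm_mul, h, hsn] at this
      exact Nat.eq_of_mul_eq_mul_left hnw (by rw [← this, mul_one])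
    have hre := congrArg Zsqrtd.re hu
    have him := congrArg Zsqrtd.im hu
    rcases unit_cases h5 with rfl | rfl | rfl | rfl
    · simp at hre him
      omega
    · simp at hre him
      omega
    · simp at hre him
      omega
    · simp at hre him
      rw [if_neg hx.ne', if_neg hy.ne'] at ht
      ext
      · split_ifs at ht <;> omega
      · split_ifs at ht <;> omega

lemma ty_inj {x y : RP × ℕ} (h1 : nm (pw x) = nm (pw y)) (h2 : ty x.1 = ty y.1) : x = y := by
  obtain ⟨x, k⟩ := x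
  obtain ⟨y, l⟩ := y
  rw [nm_pw, nm_pw] at h1
  simp only at h1 h2
  rcases cases_RP x with ⟨hx0, p, hp, hxp, hnx⟩ | ⟨hx0, hxp, -⟩ <;>
    rcases cases_RP y with ⟨hy0, q, hq, hyq, hny⟩ | ⟨hy0, hyp, -⟩
  · rw [hnx, hny, ← pow_mul, ← pow_mul, show 2 * (k + 1) = (2 * k + 1) + 1 by ring,
      show 2 * (l + 1) = (2 * l + 1) + 1 by ring] at h1
    obtain ⟨e1, e2⟩ := Nat.Prime.pow_inj hp hq h1
    have e3 : x = y := Subtype.ext (by rw [hxp, hyq, e1])
    rw [Prod.mk.injEq]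
    exact ⟨e3, by omega⟩
  · exfalso
    unfold ty at h2
    rw [if_pos hx0, if_neg hy0.ne'] at h2
    split_ifs at h2 <;> revert h2 <;> decide
  · exfalso
    unfold ty at h2
    rw [if_pos hy0, if_neg hx0.ne'] at h2
    split_ifs at h2 <;> revert h2 <;> decide
  · obtain ⟨e1, e2⟩ := Nat.Prime.pow_inj hxp hyp h1
    rw [Prod.mk.injEq]
    exact ⟨eq_of_nm_eq hx0 hy0 e1 h2, e2⟩

lemma log_le (x : RP × ℕ) :
    Real.log (nm (x.1 : Gi)) ≤ 2 * ArithmeticFunction.vonMangoldt (nm (pw x)) := by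
  rw [nm_pw]
  rcases cases_RP x.1 with ⟨-, p, hp, -, hn⟩ | ⟨-, hp, -⟩
  · rw [hn, ← pow_mul, ArithmeticFunction.vonMangoldt_apply_pow (by omega),
      ArithmeticFunction.vonMangoldt_apply_prime hp]
    push_cast
    rw [Real.log_pow]
    norm_num
  · rw [ArithmeticFunction.vonMangoldt_apply_pow (by omega),
      ArithmeticFunction.vonMangoldt_apply_prime hp]
    have : 0 ≤ Real.log (nm (x.1 : Gi)) := OS.log_nm_nonneg _
    linarith

lemma transfer (S : Finset (RP × ℕ)) (A : Finset ℕ) (f : ℕ → ℝ) (hf : ∀ n, 0 ≤ f n)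
    (hS : ∀ x ∈ S, nm (pw x) ∈ A) : ∑ x ∈ S, f (nm (pw x)) ≤ 4 * ∑ n ∈ A, f n := by
  classical
  have h1 : ∑ x ∈ S, f (nm (pw x)) =
      ∑ τ : Fin 4, ∑ x ∈ S.filter (fun x => ty x.1 = τ), f (nm (pw x)) :=
    (Finset.sum_fiberwise S (fun x => ty x.1) (fun x => f (nm (pw x)))).symm
  rw [h1]
  have h2 : ∀ τ : Fin 4, ∑ x ∈ S.filter (fun x => ty x.1 = τ), f (nm (pw x)) ≤ ∑ n ∈ A, f n := by
    intro τ
    rw [← Finset.sum_image (f := f) (g := fun x => nm (pw x))
      (s := S.filter (fun x => ty x.1 = τ))]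
    · apply Finset.sum_le_sum_of_subset_of_nonneg
      · intro n hn
        rw [Finset.mem_image] at hn
        obtain ⟨x, hx, rfl⟩ := hn
        exact hS x (Finset.mem_filter.1 hx).1
      · intro n _ _
        exact hf n
    · intro x hx y hy hxy
      have hx' := (Finset.mem_filter.1 (Finset.mem_coe.1 hx)).2
      have hy' := (Finset.mem_filter.1 (Finset.mem_coe.1 hy)).2
      exact ty_inj hxy (by rw [hx', hy'])
  calc ∑ τ : Fin 4, ∑ x ∈ S.filter (fun x => ty x.1 = τ), f (nm (pw x))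
      ≤ ∑ _τ : Fin 4, ∑ n ∈ A, f n := Finset.sum_le_sum fun τ _ => h2 τ
    _ = 4 * ∑ n ∈ A, f n := by
        rw [Finset.sum_const, Finset.card_univ, Fintype.card_fin, nsmul_eq_mul]
        norm_num

/-- the constant -/
def C1 : ℝ := 8 * ((Real.log 4 + 4) * Real.exp 2)

lemma C1_ge : 200 ≤ C1 := by
  unfold C1
  have h1 : 0 ≤ Real.log 4 := Real.log_nonneg (by norm_num)
  have h2 : (7 : ℝ) ≤ Real.exp 2 := by
    have := Real.exp_one_gt_d9
    rw [show (2 : ℝ) = 1 + 1 by norm_num, Real.exp_add]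
    nlinarith
  nlinarith

lemma mem_win {v : ℝ} {x : RP × ℕ} (h : |Real.log (nm (pw x)) - v| ≤ 1) :
    nm (pw x) ∈ Ioc 0 ⌊Real.exp (v + 1)⌋₊ ∧ (1 : ℝ) / (nm (pw x) : ℝ) ≤ Real.exp (1 - v) := by
  have h0 : 0 < nm (pw x) := nm_pos (OS.pw_ne_zero x)
  have h0' : (0 : ℝ) < nm (pw x) := by exact_mod_cast h0
  rw [abs_le] at h
  constructor
  · rw [Finset.mem_Ioc]
    refine ⟨h0, Nat.le_floor ?_⟩
    rw [← Real.exp_log h0']
    exact Real.exp_le_exp.2 (by linarith)
  · rw [one_div, ← Real.exp_log h0', ← Real.exp_neg]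
    exact Real.exp_le_exp.2 (by linarith)

lemma claim1 (v : ℝ) (S : Finset (RP × ℕ)) (hS : ∀ x ∈ S, |Real.log (nm (pw x)) - v| ≤ 1) :
    ∑ x ∈ S, Real.log (nm (x.1 : Gi)) / (nm (pw x) : ℝ) ≤ C1 := by
  have h1 : ∑ x ∈ S, Real.log (nm (x.1 : Gi)) / (nm (pw x) : ℝ) ≤
      ∑ x ∈ S, 2 * Real.exp (1 - v) * ArithmeticFunction.vonMangoldt (nm (pw x)) := by
    apply Finset.sum_le_sum
    intro x hx
    have h2 := (mem_win (hS x hx)).2
    have h3 := log_le x
    have h4 : 0 ≤ Real.log (nm (x.1 : Gi)) := OS.log_nm_nonneg _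
    calc Real.log (nm (x.1 : Gi)) / (nm (pw x) : ℝ) =
          Real.log (nm (x.1 : Gi)) * (1 / (nm (pw x) : ℝ)) := by ring
      _ ≤ (2 * ArithmeticFunction.vonMangoldt (nm (pw x))) * Real.exp (1 - v) :=
          mul_le_mul h3 h2 (by positivity) (by
            have : 0 ≤ ArithmeticFunction.vonMangoldt (nm (pw x)) :=
              ArithmeticFunction.vonMangoldt_nonneg
            positivity)
      _ = _ := by ring
  rw [← Finset.mul_sum] at h1
  have h2 := transfer S (Ioc 0 ⌊Real.exp (v + 1)⌋₊) (fun n => ArithmeticFunction.vonMangoldt n)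
    (fun n => ArithmeticFunction.vonMangoldt_nonneg) (fun x hx => (mem_win (hS x hx)).1)
  have h3 : ∑ n ∈ Ioc 0 ⌊Real.exp (v + 1)⌋₊, ArithmeticFunction.vonMangoldt n ≤
      (Real.log 4 + 4) * Real.exp (v + 1) :=
    Chebyshev.psi_le_const_mul_self (Real.exp_pos _).le
  have h4 : Real.exp (1 - v) * Real.exp (v + 1) = Real.exp 2 := by
    rw [← Real.exp_add]; congr 1; ring
  have h5 : 0 < Real.exp (1 - v) := Real.exp_pos _
  calc ∑ x ∈ S, Real.log (nm (x.1 : Gi)) / (nm (pw x) : ℝ)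
      ≤ 2 * Real.exp (1 - v) * ∑ x ∈ S, ArithmeticFunction.vonMangoldt (nm (pw x)) := h1
    _ ≤ 2 * Real.exp (1 - v) * (4 * ((Real.log 4 + 4) * Real.exp (v + 1))) := by
        apply mul_le_mul_of_nonneg_left _ (by positivity)
        linarith
    _ = 8 * ((Real.log 4 + 4) * (Real.exp (1 - v) * Real.exp (v + 1))) := by ring
    _ = C1 := by rw [h4]; rfl

lemma not_prime {x : RP × ℕ}
    (h : ¬ (x.2 = 0 ∧ (nm (x.1 : Gi)).Prime ∧ nm (x.1 : Gi) % 4 = 1)) :
    ¬ (nm (pw x)).Prime ∨ nm (pw x) = 2 := by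
  rw [nm_pw]
  rcases cases_RP x.1 with ⟨-, p, hp, -, hn⟩ | ⟨-, hp, hq⟩
  · left
    rw [hn, ← pow_mul]
    intro h1
    have := h1.eq_one_of_pow
    omega
  · rcases Nat.eq_zero_or_pos x.2 with h0 | h0
    · right
      rw [h0, zero_add, pow_one]
      rcases hq with hq | hq
      · exact absurd ⟨h0, hp, hq⟩ h
      · exact hq
    · left
      intro h1
      have := h1.eq_one_of_pow
      omega

lemma claim2 (v : ℝ) (S : Finset (RP × ℕ)) (hv : 0 ≤ v)
    (hS : ∀ x ∈ S, |Real.log (nm (pw x)) - v| ≤ 1 ∧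
      ¬ (x.2 = 0 ∧ (nm (x.1 : Gi)).Prime ∧ nm (x.1 : Gi) % 4 = 1)) :
    ∑ x ∈ S, Real.log (nm (x.1 : Gi)) / (nm (pw x) : ℝ) ≤
      200 * (v + 1) * Real.exp (-(v / 2)) := by
  set f : ℕ → ℝ := fun n => (if ¬ n.Prime then ArithmeticFunction.vonMangoldt n else 0) +
    (if n = 2 then Real.log 2 else 0) with hf
  have hlog2 : 0 < Real.log 2 := Real.log_pos (by norm_num)
  have hlog2' : Real.log 2 < 1 := by
    have := Real.log_two_lt_d9; linarith
  have hf0 : ∀ n, 0 ≤ f n := by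
    intro n
    simp only [hf]
    apply add_nonneg
    · by_cases h : n.Prime
      · rw [if_neg (not_not.2 h)]
      · rw [if_pos h]
        exact ArithmeticFunction.vonMangoldt_nonneg
    · split_ifs
      · exact hlog2.le
      · exact le_rfl
  have hΛ : ∀ x ∈ S, ArithmeticFunction.vonMangoldt (nm (pw x)) ≤ f (nm (pw x)) := by
    intro x hx
    simp only [hf]
    rcases not_prime (hS x hx).2 with h | h
    · rw [if_pos h]
      split_ifs
      · linarith
      · linarith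
    · rw [h, if_neg (by simp [Nat.prime_two]), if_pos rfl,
        ArithmeticFunction.vonMangoldt_apply_prime Nat.prime_two]
      simp
  have h1 : ∑ x ∈ S, Real.log (nm (x.1 : Gi)) / (nm (pw x) : ℝ) ≤
      ∑ x ∈ S, 2 * Real.exp (1 - v) * f (nm (pw x)) := by
    apply Finset.sum_le_sum
    intro x hx
    have h2 := (mem_win (hS x hx).1).2
    have h3 := log_le x
    have h3' := hΛ x hx
    have h4 : 0 ≤ Real.log (nm (x.1 : Gi)) := OS.log_nm_nonneg _
    have h5 := hf0 (nm (pw x))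
    calc Real.log (nm (x.1 : Gi)) / (nm (pw x) : ℝ) =
          Real.log (nm (x.1 : Gi)) * (1 / (nm (pw x) : ℝ)) := by ring
      _ ≤ (2 * f (nm (pw x))) * Real.exp (1 - v) :=
          mul_le_mul (by linarith) h2 (by positivity) (by positivity)
      _ = _ := by ring
  rw [← Finset.mul_sum] at h1
  have h2 := transfer S (Ioc 0 ⌊Real.exp (v + 1)⌋₊) f hf0
    (fun x hx => (mem_win (hS x hx).1).1)
  have hy : (1 : ℝ) ≤ Real.exp (v + 1) := Real.one_le_exp (by linarith)
  have h3 : ∑ n ∈ Ioc 0 ⌊Real.exp (v + 1)⌋₊, f n ≤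
      2 * Real.exp ((v + 1) / 2) * (v + 1) + 1 := by
    simp only [hf]
    rw [Finset.sum_add_distrib, ← Finset.sum_filter, ← Chebyshev.psi_sub_theta_eq_sum_not_prime]
    have h4 := Chebyshev.psi_sub_theta_le hy
    rw [Real.log_exp, show Real.sqrt (Real.exp (v + 1)) = Real.exp ((v + 1) / 2) from
      (Real.exp_half (v + 1)).symm] at h4
    have h5 : ∑ n ∈ Ioc 0 ⌊Real.exp (v + 1)⌋₊, (if n = 2 then Real.log 2 else 0) ≤ 1 := by
      rw [Finset.sum_ite_eq']
      split_ifs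
      · exact hlog2'.le
      · norm_num
    linarith
  have e1 : Real.exp (1 - v) * Real.exp ((v + 1) / 2) =
      Real.exp (3 / 2) * Real.exp (-(v / 2)) := by
    rw [← Real.exp_add, ← Real.exp_add]; congr 1; ring
  have e2 : Real.exp (1 - v) ≤ Real.exp (3 / 2) * Real.exp (-(v / 2)) * (v + 1) := by
    have h6 : Real.exp (1 - v) ≤ Real.exp (3 / 2) * Real.exp (-(v / 2)) := by
      rw [← Real.exp_add]
      exact Real.exp_le_exp.2 (by linarith)
    have h7 : 0 < Real.exp (3 / 2) * Real.exp (-(v / 2)) := by positivity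
    nlinarith
  have e3 : Real.exp (3 / 2) ≤ 8 := by
    have h8 : Real.exp (3 / 2) ≤ Real.exp 2 := Real.exp_le_exp.2 (by norm_num)
    have h9 : Real.exp 2 ≤ 8 := by
      have := Real.exp_one_lt_d9
      have h10 := Real.exp_pos 1
      rw [show (2 : ℝ) = 1 + 1 by norm_num, Real.exp_add]
      nlinarith
    linarith
  have h5 : 0 < Real.exp (1 - v) := Real.exp_pos _
  have h6 : 0 < Real.exp (-(v / 2)) := Real.exp_pos _
  calc ∑ x ∈ S, Real.log (nm (x.1 : Gi)) / (nm (pw x) : ℝ)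
      ≤ 2 * Real.exp (1 - v) * ∑ x ∈ S, f (nm (pw x)) := h1
    _ ≤ 2 * Real.exp (1 - v) * (4 * (2 * Real.exp ((v + 1) / 2) * (v + 1) + 1)) := by
        apply mul_le_mul_of_nonneg_left _ (by positivity)
        linarith
    _ = 16 * (Real.exp (1 - v) * Real.exp ((v + 1) / 2)) * (v + 1) + 8 * Real.exp (1 - v) := by
        ring
    _ ≤ 16 * (Real.exp (3 / 2) * Real.exp (-(v / 2))) * (v + 1) +
        8 * (Real.exp (3 / 2) * Real.exp (-(v / 2)) * (v + 1)) := by
        rw [e1]; linarith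
    _ = 24 * Real.exp (3 / 2) * ((v + 1) * Real.exp (-(v / 2))) := by ring
    _ ≤ 200 * ((v + 1) * Real.exp (-(v / 2))) := by
        apply mul_le_mul_of_nonneg_right _ (by positivity)
        linarith
    _ = _ := by ring

lemma claim3 {G : Gi → ℂ} (hG : CM G) {lam : ℝ} (h0 : 0 < lam) (h1 : lam ≤ 1)
    (F : Finset (RP × ℕ)) :
    ∑ x ∈ F, ‖ap G lam 1 x‖ ≤ 4 * C1 * (1 / lam) ^ 2 := by
  classical
  set w : RP × ℕ → ℕ := fun x => ⌊Real.log (nm (pw x))⌋₊ with hw
  have hwin : ∀ x, (w x : ℝ) ≤ Real.log (nm (pw x)) ∧ Real.log (nm (pw x)) < w x + 1 := by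
    intro x
    exact ⟨Nat.floor_le (OS.log_nm_nonneg _), Nat.lt_floor_add_one _⟩
  have h2 : ∑ x ∈ F, ‖ap G lam 1 x‖ =
      ∑ v ∈ F.image w, ∑ x ∈ F.filter (fun x => w x = v), ‖ap G lam 1 x‖ :=
    (Finset.sum_fiberwise_of_maps_to (fun x hx => Finset.mem_image_of_mem w hx) _).symm
  rw [h2]
  set r : ℝ := Real.exp (-lam) with hr
  have hr0 : 0 < r := Real.exp_pos _
  have hr1 : r ≤ 1 - lam / 2 := by
    have h3 := Real.add_one_le_exp lam
    have h4 : r * Real.exp lam = 1 := by rw [hr, ← Real.exp_add]; simp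
    have h5 : r * (lam + 1) ≤ 1 := by nlinarith
    nlinarith
  have hr2 : r < 1 := by linarith
  have hC1 := C1_ge
  have h3 : ∀ v ∈ F.image w, ∑ x ∈ F.filter (fun x => w x = v), ‖ap G lam 1 x‖ ≤
      C1 * (((v + 1).choose 1 : ℕ) * r ^ v) := by
    intro v _
    have h4 : ∀ x ∈ F.filter (fun x => w x = v), ‖ap G lam 1 x‖ ≤
        ((v + 1 : ℝ) * r ^ v) * (Real.log (nm (x.1 : Gi)) / (nm (pw x) : ℝ)) := by
      intro x hx
      have hx' := (Finset.mem_filter.1 hx).2
      obtain ⟨h5, h6⟩ := hwin x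
      rw [hx'] at h5 h6
      have hn : (0 : ℝ) < nm (pw x) := nm_posR (OS.pw_ne_zero x)
      have hl : 0 ≤ Real.log (nm (x.1 : Gi)) := OS.log_nm_nonneg _
      have hl' : 0 ≤ Real.log (nm (pw x)) := OS.log_nm_nonneg _
      unfold ap
      rw [norm_mul, Complex.norm_real, Real.norm_eq_abs, abs_of_nonneg (by positivity), pow_one]
      have h7 : (nm (pw x) : ℝ) ^ (-(1 + lam)) = 1 / (nm (pw x) : ℝ) *
          Real.exp (-(lam * Real.log (nm (pw x)))) := by
        rw [neg_add, Real.rpow_add hn, Real.rpow_neg_one, one_div, Real.rpow_def_of_pos hn]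
        congr 2
        ring
      have h8 : Real.exp (-(lam * Real.log (nm (pw x)))) ≤ r ^ v := by
        rw [hr, ← Real.exp_nat_mul]
        apply Real.exp_le_exp.2
        nlinarith
      calc ‖G (pw x)‖ * (Real.log (nm (x.1 : Gi)) * (nm (pw x) : ℝ) ^ (-(1 + lam)) *
            Real.log (nm (pw x)))
          ≤ 1 * (Real.log (nm (x.1 : Gi)) * (nm (pw x) : ℝ) ^ (-(1 + lam)) *
            Real.log (nm (pw x))) :=
            mul_le_mul_of_nonneg_right (hG.le _) (by positivity)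
        _ = (Real.log (nm (x.1 : Gi)) / (nm (pw x) : ℝ)) *
            (Real.exp (-(lam * Real.log (nm (pw x)))) * Real.log (nm (pw x))) := by
            rw [h7]; ring
        _ ≤ (Real.log (nm (x.1 : Gi)) / (nm (pw x) : ℝ)) * (r ^ v * (v + 1)) := by
            apply mul_le_mul_of_nonneg_left _ (by positivity)
            exact mul_le_mul h8 h6.le hl' (by positivity)
        _ = _ := by ring
    have h5 := claim1 v (F.filter (fun x => w x = v)) (by
      intro x hx
      have hx' := (Finset.mem_filter.1 hx).2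
      obtain ⟨h5, h6⟩ := hwin x
      rw [hx'] at h5 h6
      rw [abs_le]
      constructor <;> linarith)
    calc ∑ x ∈ F.filter (fun x => w x = v), ‖ap G lam 1 x‖
        ≤ ∑ x ∈ F.filter (fun x => w x = v),
          ((v + 1 : ℝ) * r ^ v) * (Real.log (nm (x.1 : Gi)) / (nm (pw x) : ℝ)) :=
          Finset.sum_le_sum h4
      _ = ((v + 1 : ℝ) * r ^ v) * ∑ x ∈ F.filter (fun x => w x = v),
          (Real.log (nm (x.1 : Gi)) / (nm (pw x) : ℝ)) := by rw [Finset.mul_sum]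
      _ ≤ ((v + 1 : ℝ) * r ^ v) * C1 := mul_le_mul_of_nonneg_left h5 (by positivity)
      _ = C1 * (((v + 1).choose 1 : ℕ) * r ^ v) := by
          rw [Nat.choose_one_right]; push_cast; ring
  have hs := hasSum_choose_mul_geometric_of_norm_lt_one 1 (r := r)
    (by rw [Real.norm_eq_abs, abs_of_pos hr0]; exact hr2)
  have h4 : ∑ v ∈ F.image w, (((v + 1).choose 1 : ℕ) * r ^ v : ℝ) ≤ 1 / (1 - r) ^ (1 + 1) :=
    sum_le_hasSum _ (fun v _ => by positivity) hs
  have h5 : 1 / (1 - r) ^ (1 + 1) ≤ 4 * (1 / lam) ^ 2 := by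
    have h6 : 0 < lam / 2 := by linarith
    have h7 : (lam / 2) ^ 2 ≤ (1 - r) ^ (1 + 1) := by
      apply pow_le_pow_left₀ h6.le; linarith
    calc 1 / (1 - r) ^ (1 + 1) ≤ 1 / (lam / 2) ^ 2 := one_div_le_one_div_of_le (by positivity) h7
      _ = 4 * (1 / lam) ^ 2 := by field_simp; norm_num
  calc ∑ v ∈ F.image w, ∑ x ∈ F.filter (fun x => w x = v), ‖ap G lam 1 x‖
      ≤ ∑ v ∈ F.image w, C1 * (((v + 1).choose 1 : ℕ) * r ^ v) := Finset.sum_le_sum h3
    _ = C1 * ∑ v ∈ F.image w, (((v + 1).choose 1 : ℕ) * r ^ v : ℝ) := by rw [Finset.mul_sum]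
    _ ≤ C1 * (4 * (1 / lam) ^ 2) :=
        mul_le_mul_of_nonneg_left (h4.trans h5) (by linarith)
    _ = _ := by ring

end TPPM

open TPPM in
/-- module TPP -/
theorem specTPP (hSER : SpecSER) : SpecTPP := by
  have hC1 := C1_ge
  refine ⟨4 * C1, by linarith, ?_, ?_, ?_⟩
  · intro v S hS
    have := claim1 v S hS
    linarith
  · intro v S hv hS
    have := claim2 v S hv hS
    refine this.trans ?_
    apply mul_le_mul_of_nonneg_right _ (Real.exp_pos _).le
    apply mul_le_mul_of_nonneg_right _ (by linarith)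
    linarith
  · intro G hG L u hL
    have hL0 : 0 < L := by linarith
    have hlam0 : 0 < 1 / L := by positivity
    have hlam1 : 1 / L ≤ 1 := by
      rw [div_le_one hL0]; exact hL
    have hsum : Summable (fun x => ‖ap G (1 / L) 1 x‖) := (hSER G hG (1 / L) hlam0).2.1 1 le_rfl
    have hn : ∀ x : RP × ℕ, ‖ap G (1 / L) 1 x * ee (-(u * Real.log (nm (pw x))))‖ =
        ‖ap G (1 / L) 1 x‖ := by
      intro x
      rw [norm_mul, norm_ee, mul_one]
    unfold PJ
    have h1 : ‖∑' x : RP × ℕ, ap G (1 / L) 1 x * ee (-(u * Real.log (nm (pw x))))‖ ≤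
        ∑' x : RP × ℕ, ‖ap G (1 / L) 1 x * ee (-(u * Real.log (nm (pw x))))‖ := by
      apply norm_tsum_le_tsum_norm
      simp only [hn]
      exact hsum
    refine h1.trans ?_
    simp only [hn]
    have h2 : ∀ F : Finset (RP × ℕ), ∑ x ∈ F, ‖ap G (1 / L) 1 x‖ ≤ 4 * C1 * L ^ 2 := by
      intro F
      have := claim3 hG hlam0 hlam1 F
      rwa [one_div_one_div] at this
    exact Real.tsum_le_of_sum_le (fun _ => norm_nonneg _) h2

end

end Pool.Agent.Lib.MP391708.X.PH
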