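import Pool.Agent.Lib.MP_391708_nt.X.PH.SpecA
import Pool.Agent.Lib.MP_553de0_nt.AA.KRA
import Pool.Agent.Lib.MP_391708_nt.MR.Basic

/-!
# MP_391708, Theorem X, part PH: module TRG, trivial bound for windows of rough elements
-/

set_option autoImplicit false

namespace Pool.Agent.Lib.MP391708.X.PH

open Finset Filter Topology MeasureTheory
open Pool.Agent.Lib.MP391708.MR
open Pool.Agent.Lib.MP391708.MR.OS (CM RP pw)
open Pool.Agent.Lib.MP391708.QPA (Rough rInd PB)
open Pool.Agent.Lib.MP054243.AV (ee)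
open Pool.Agent.Lib.MP553de0.AA (Ker ft kk kap)

noncomputable section

namespace TRGM

/-- the triangle -/
def tg (x : ℝ) : ℝ := max 0 (1 - |x|)

lemma tg_nonneg (x : ℝ) : 0 ≤ tg x := le_max_left _ _

lemma tg_ker : Ker 1 tg := by
  refine ⟨by norm_num, fun x => ?_, fun x hx => ?_, fun x y => ?_⟩
  · rw [abs_of_nonneg (tg_nonneg x)]
    exact max_le (by norm_num) (by have := abs_nonneg x; linarith)
  · exact max_eq_left (by linarith)
  · unfold tg
    rw [one_mul, max_comm 0, max_comm 0]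
    refine (abs_max_sub_max_le_abs _ _ _).trans ?_
    have h1 : (1 - |x|) - (1 - |y|) = -(|x| - |y|) := by ring
    rw [h1, abs_neg]
    exact abs_abs_sub_abs_le x y

/-- partition of unity -/
lemma tg_sum {x : ℝ} (hx : |x| ≤ 1) : 1 ≤ tg (x + 1) + tg x + tg (x - 1) := by
  have h0 := tg_nonneg (x + 1)
  have h1 := tg_nonneg (x - 1)
  have hm : 1 - |x| ≤ tg x := le_max_right _ _
  rcases le_total 0 x with h | h
  · rw [abs_of_nonneg h] at hx hm
    have h2 : 1 - |x - 1| ≤ tg (x - 1) := le_max_right _ _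
    rw [abs_of_nonpos (by linarith)] at h2
    linarith
  · rw [abs_of_nonpos h] at hx hm
    have h2 : 1 - |x + 1| ≤ tg (x + 1) := le_max_right _ _
    rw [abs_of_nonneg (by linarith)] at h2
    linarith

lemma tg_int : ∫ x, tg x ≤ 2 := by
  obtain ⟨-, -, h, -⟩ := Pool.Agent.Lib.MP553de0.AA.specKRA 1 tg tg_ker
  have h0 := h 0
  have e : ft tg 0 = (((∫ x, tg x) : ℝ) : ℂ) := by
    unfold ft
    rw [← integral_complex_ofReal]
    refine integral_congr_ae (Eventually.of_forall fun x => ?_)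
    simp [ee]
  rw [e, Complex.norm_real] at h0
  exact (le_abs_self _).trans (by simpa using h0)

lemma rInd_nonneg (t : ℝ) (n : ℕ) : 0 ≤ rInd t n := by
  unfold rInd
  split_ifs <;> norm_num

lemma rInd_le_one (t : ℝ) (n : ℕ) : rInd t n ≤ 1 := by
  unfold rInd
  split_ifs <;> norm_num

lemma rInd_anti {t t' : ℝ} (h : t' ≤ t) (n : ℕ) : rInd t n ≤ rInd t' n := by
  unfold rInd
  by_cases h1 : Rough t n
  · have h2 : Rough t' n := fun p hp hd => h.trans (h1 p hp hd)
    rw [if_pos h1, if_pos h2]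
  · rw [if_neg h1]
    split_ifs <;> norm_num

/-- one window -/
lemma win {C : ℝ} (hC : 0 < C)
    (hF : ∀ (b : ℕ) (t w : ℝ), 2 ≤ t → 1 ≤ w → t ^ (16 * b + 32) ≤ Real.exp (w / 2) →
      ∀ (B : ℝ) (g : ℝ → ℝ), Ker B g →
      |∑ z ∈ disc (Real.exp (w + 1)), rInd t (nm z) * (g (Real.log (nm z) - w) / (nm z : ℝ)) -
        WG t * (Real.pi * ∫ x, g x)| ≤
          B * (C * Real.exp (-(b : ℝ)) * WG t + C * Real.exp (-(w / 8))))
    {t w : ℝ} (ht : 2 ≤ t) (hw : 1 ≤ w) (htw : t ^ 32 ≤ Real.exp (w / 2)) (hW : 0 < WG t) :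
    ∑ z ∈ disc (Real.exp (w + 1)), rInd t (nm z) * (tg (Real.log (nm z) - w) / (nm z : ℝ)) ≤
      (8 + C) * WG t + C * Real.exp (-(w / 8)) := by
  have h := hF 0 t w ht hw (by simpa using htw) 1 tg tg_ker
  have h1 := (abs_le.1 h).2
  have h2 : Real.pi * ∫ x, tg x ≤ 8 := by
    have hp := Real.pi_le_four
    have hp0 := Real.pi_pos
    have := tg_int
    nlinarith
  have h3 := mul_le_mul_of_nonneg_left h2 hW.le
  simp only [Nat.cast_zero, neg_zero, Real.exp_zero, mul_one, one_mul] at h1
  linarith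

end TRGM

open TRGM in
theorem specTRG (hWGM : SpecWGM) (hFLU : SpecFLU) : SpecTRG := by
  obtain ⟨-, hW01, CW, hCW, hW⟩ := hWGM
  obtain ⟨C, hC, hF⟩ := hFLU
  refine ⟨9 * Real.exp 2 * 101 + 3 * ((8 + C) * (200 * CW) + 8 * C), by positivity, ?_⟩
  intro t v ht
  have hlt : 0 < Real.log t := Real.log_pos (by linarith)
  have ht0 : 0 < t := by linarith
  rcases lt_or_ge (v + 1) (Real.log t) with hv | hv
  · -- no rough elements
    rw [Finset.sum_eq_zero]
    · positivity
    intro z hz
    rw [mem_filter, mem_disc] at hz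
    obtain ⟨⟨-, h1⟩, h2, -⟩ := hz
    have h3 : ¬ Rough t (nm z) := by
      intro h
      have h4 := h (Nat.minFac (nm z)) (Nat.minFac_prime (by omega)) (Nat.minFac_dvd _)
      have h5 : ((Nat.minFac (nm z) : ℕ) : ℝ) ≤ nm z := by
        exact_mod_cast Nat.minFac_le (by omega)
      have h6 : Real.exp (v + 1) < t := by
        rw [← Real.exp_log ht0]
        exact Real.exp_lt_exp.2 hv
      linarith
    unfold rInd
    rw [if_neg h3, zero_div]
  rcases le_total v 100 with h100 | h100
  · -- bounded v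
    have h1 : ∑ z ∈ (disc (Real.exp (v + 1))).filter
        (fun z => 2 ≤ nm z ∧ v - 1 ≤ Real.log (nm z)), rInd t (nm z) / (nm z : ℝ) ≤
        ∑ z ∈ (disc (Real.exp (v + 1))).filter
        (fun z => 2 ≤ nm z ∧ v - 1 ≤ Real.log (nm z)), Real.exp (-(v - 1)) := by
      refine Finset.sum_le_sum fun z hz => ?_
      rw [mem_filter, mem_disc] at hz
      obtain ⟨⟨h0, h1⟩, h2, h3⟩ := hz
      have hn : (0 : ℝ) < nm z := nm_posR h0
      have h4 : Real.exp (v - 1) ≤ nm z := by
        rw [← Real.exp_log hn]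
        exact Real.exp_le_exp.2 h3
      rw [Real.exp_neg]
      calc rInd t (nm z) / (nm z : ℝ) ≤ 1 / (nm z : ℝ) := by
            gcongr
            exact rInd_le_one _ _
        _ ≤ 1 / Real.exp (v - 1) := one_div_le_one_div_of_le (Real.exp_pos _) h4
        _ = _ := one_div _
    refine h1.trans ?_
    rw [Finset.sum_const, nsmul_eq_mul]
    have h2 : ((((disc (Real.exp (v + 1))).filter
        (fun z => 2 ≤ nm z ∧ v - 1 ≤ Real.log (nm z))).card : ℕ) : ℝ) ≤ 9 * Real.exp (v + 1) :=
      (Nat.cast_le.2 (card_filter_le _ _)).trans (card_disc_le (Real.exp_pos _).le)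
    calc _ ≤ 9 * Real.exp (v + 1) * Real.exp (-(v - 1)) :=
          mul_le_mul_of_nonneg_right h2 (Real.exp_pos _).le
      _ = 9 * Real.exp 2 := by
          rw [mul_assoc, ← Real.exp_add]
          congr 2
          ring
      _ ≤ (9 * Real.exp 2 * 101) / Real.log t := by
          rw [le_div_iff₀ hlt]
          have : Real.log t ≤ 101 := by linarith
          have h9 : 0 ≤ 9 * Real.exp 2 := by positivity
          exact mul_le_mul_of_nonneg_left this h9
      _ ≤ _ := by
          gcongr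
          have : 0 ≤ 3 * ((8 + C) * (200 * CW) + 8 * C) := by positivity
          linarith
  -- large v
  set t' := min t (Real.exp (v / 100)) with ht'
  have ht'2 : 2 ≤ t' := by
    refine le_min ht ?_
    have h1 := Real.add_one_le_exp (v / 100)
    linarith
  have ht't : t' ≤ t := min_le_left _ _
  have ht'0 : 0 < t' := by linarith
  have hpow : t' ^ 32 ≤ Real.exp (32 * (v / 100)) := by
    calc t' ^ 32 ≤ (Real.exp (v / 100)) ^ 32 := by
          gcongr
          exact min_le_right _ _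
      _ = Real.exp (32 * (v / 100)) := by
          rw [← Real.exp_nat_mul]
          norm_num
  have hlog : Real.log t / 200 ≤ Real.log t' := by
    rw [ht']
    rcases min_choice t (Real.exp (v / 100)) with h | h
    · rw [h]
      linarith
    · rw [h, Real.log_exp]
      linarith
  have hlt' : 0 < Real.log t' := lt_of_lt_of_le (by positivity) hlog
  have hWt : WG t' ≤ 200 * CW / Real.log t := by
    refine (hW t' ht'2).trans ?_
    rw [div_le_div_iff₀ hlt' hlt]
    nlinarith
  have hw : ∀ w : ℝ, v - 1 ≤ w →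
      ∑ z ∈ disc (Real.exp (w + 1)), rInd t' (nm z) * (tg (Real.log (nm z) - w) / (nm z : ℝ)) ≤
        ((8 + C) * (200 * CW) + 8 * C) / Real.log t := by
    intro w hw
    have h1 := win hC hF ht'2 (by linarith) (hpow.trans (Real.exp_le_exp.2 (by linarith)))
      (hW01 t').1 (w := w)
    refine h1.trans ?_
    have h2 : Real.exp (-(w / 8)) ≤ 8 / Real.log t := by
      have h3 := Real.add_one_le_exp (w / 8)
      rw [Real.exp_neg, inv_le_comm₀ (Real.exp_pos _) (by positivity), inv_div]
      linarith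
    have h4 : (8 + C) * WG t' ≤ (8 + C) * (200 * CW / Real.log t) :=
      mul_le_mul_of_nonneg_left hWt (by positivity)
    have h5 : C * Real.exp (-(w / 8)) ≤ C * (8 / Real.log t) :=
      mul_le_mul_of_nonneg_left h2 hC.le
    calc _ ≤ (8 + C) * (200 * CW / Real.log t) + C * (8 / Real.log t) := add_le_add h4 h5
      _ = _ := by ring
  set D := (disc (Real.exp (v + 1))).filter (fun z => 2 ≤ nm z ∧ v - 1 ≤ Real.log (nm z)) with hD
  have hsub : ∀ w : ℝ, ∑ z ∈ D, rInd t' (nm z) * (tg (Real.log (nm z) - w) / (nm z : ℝ)) ≤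
      ∑ z ∈ disc (Real.exp (w + 1)),
        rInd t' (nm z) * (tg (Real.log (nm z) - w) / (nm z : ℝ)) := by
    intro w
    have hnn : ∀ z : Gi, 0 ≤ rInd t' (nm z) * (tg (Real.log (nm z) - w) / (nm z : ℝ)) :=
      fun z => mul_nonneg (rInd_nonneg _ _) (div_nonneg (tg_nonneg _) (Nat.cast_nonneg _))
    calc ∑ z ∈ D, rInd t' (nm z) * (tg (Real.log (nm z) - w) / (nm z : ℝ)) =
          ∑ z ∈ D.filter (fun z => (nm z : ℝ) ≤ Real.exp (w + 1)),
            rInd t' (nm z) * (tg (Real.log (nm z) - w) / (nm z : ℝ)) := by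
          refine (Finset.sum_filter_of_ne fun z hz hne => ?_).symm
          by_contra hlt2
          push Not at hlt2
          apply hne
          have hz0 : z ≠ 0 := (mem_disc.1 (mem_filter.1 hz).1).1
          have h1 : w + 1 < Real.log (nm z) := by
            rw [← Real.log_exp (w + 1)]
            exact Real.log_lt_log (Real.exp_pos _) hlt2
          have h2 : tg (Real.log (nm z) - w) = 0 := by
            refine tg_ker.2.2.1 _ ?_
            rw [abs_of_nonneg (by linarith)]
            linarith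
          rw [h2]
          simp
      _ ≤ _ := by
          refine Finset.sum_le_sum_of_subset_of_nonneg ?_ fun z _ _ => hnn z
          intro z hz
          rw [mem_filter] at hz
          exact mem_disc.2 ⟨(mem_disc.1 (mem_filter.1 hz.1).1).1, hz.2⟩
  have hpt : ∀ z ∈ D, rInd t (nm z) / (nm z : ℝ) ≤
      rInd t' (nm z) * (tg (Real.log (nm z) - (v - 1)) / (nm z : ℝ)) +
      rInd t' (nm z) * (tg (Real.log (nm z) - v) / (nm z : ℝ)) +
      rInd t' (nm z) * (tg (Real.log (nm z) - (v + 1)) / (nm z : ℝ)) := by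
    intro z hz
    rw [hD, mem_filter, mem_disc] at hz
    obtain ⟨⟨h0, h1⟩, h2, h3⟩ := hz
    have hn : (0 : ℝ) < nm z := nm_posR h0
    have h4 : Real.log (nm z) ≤ v + 1 := by
      rw [← Real.log_exp (v + 1)]
      exact Real.log_le_log hn h1
    have h5 : |Real.log (nm z) - v| ≤ 1 := abs_le.2 ⟨by linarith, by linarith⟩
    have h6 := tg_sum h5
    have e1 : Real.log (nm z) - (v - 1) = Real.log (nm z) - v + 1 := by ring
    have e2 : Real.log (nm z) - (v + 1) = Real.log (nm z) - v - 1 := by ring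
    rw [e1, e2]
    have h7 : rInd t (nm z) / (nm z : ℝ) ≤ rInd t' (nm z) / (nm z : ℝ) :=
      div_le_div_of_nonneg_right (rInd_anti ht't _) hn.le
    have h8 : 0 ≤ rInd t' (nm z) / (nm z : ℝ) := div_nonneg (rInd_nonneg _ _) hn.le
    have h9 := mul_le_mul_of_nonneg_left h6 h8
    calc rInd t (nm z) / (nm z : ℝ) ≤ rInd t' (nm z) / (nm z : ℝ) * 1 := by rw [mul_one]; exact h7
      _ ≤ rInd t' (nm z) / (nm z : ℝ) * (tg (Real.log (nm z) - v + 1) + tg (Real.log (nm z) - v) +
          tg (Real.log (nm z) - v - 1)) := h9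
      _ = _ := by ring
  have s1 := (hsub (v - 1)).trans (hw (v - 1) le_rfl)
  have s2 := (hsub v).trans (hw v (by linarith))
  have s3 := (hsub (v + 1)).trans (hw (v + 1) (by linarith))
  calc ∑ z ∈ D, rInd t (nm z) / (nm z : ℝ) ≤ _ := Finset.sum_le_sum hpt
    _ = ∑ z ∈ D, rInd t' (nm z) * (tg (Real.log (nm z) - (v - 1)) / (nm z : ℝ)) +
        ∑ z ∈ D, rInd t' (nm z) * (tg (Real.log (nm z) - v) / (nm z : ℝ)) +
        ∑ z ∈ D, rInd t' (nm z) * (tg (Real.log (nm z) - (v + 1)) / (nm z : ℝ)) := by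
        rw [Finset.sum_add_distrib, Finset.sum_add_distrib]
    _ ≤ 3 * (((8 + C) * (200 * CW) + 8 * C) / Real.log t) := by linarith
    _ = (3 * ((8 + C) * (200 * CW) + 8 * C)) / Real.log t := by ring
    _ ≤ _ := by
        gcongr
        have : 0 ≤ 9 * Real.exp 2 * 101 := by positivity
        linarith

end

end Pool.Agent.Lib.MP391708.X.PH
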