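import Pool.Agent.Lib.MP_391708_nt.X.PH.SpecA
import Pool.Agent.Lib.MP_391708_nt.MR.Basic

/-!
# MP_391708, Theorem X, part PH: TWN (helper29)
-/

set_option autoImplicit false

namespace Pool.Agent.Lib.MP391708.X.PH

open Finset Filter Topology MeasureTheory
open Pool.Agent.Lib.MP391708.MR
open Pool.Agent.Lib.MP054243.AV (ee)

noncomputable section

namespace TWNM

lemma ee_add (x y : ℝ) : ee (x + y) = ee x * ee y := by
  unfold ee
  rw [← Complex.exp_add]
  congr 1
  push_cast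
  ring

lemma exp_shift {N : ℝ} (hN : 0 < N) (w : ℝ) :
    N * Real.exp (w - Real.log N + 1) = Real.exp (w + 1) := by
  have h : w - Real.log N + 1 = (w + 1) - Real.log N := by ring
  rw [h, Real.exp_sub, Real.exp_log hN]
  field_simp

lemma mem_iff {α : Gi} (hα : α ≠ 0) (w : ℝ) (y : Gi) :
    α * y ∈ disc (Real.exp (w + 1)) ↔ y ∈ disc (Real.exp (w - Real.log (nm α) + 1)) := by
  have hN : (0 : ℝ) < nm α := nm_posR hα
  rw [mem_disc, mem_disc, nm_mul, ← exp_shift hN w]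
  push_cast
  constructor
  · rintro ⟨h1, h2⟩
    exact ⟨right_ne_zero_of_mul h1, le_of_mul_le_mul_left h2 hN⟩
  · rintro ⟨h1, h2⟩
    exact ⟨mul_ne_zero hα h1, mul_le_mul_of_nonneg_left h2 hN.le⟩

open scoped Classical in
/-- Sums over the multiples of `α`. -/
lemma sum_multiples {M : Type} [AddCommMonoid M] {α : Gi} (hα : α ≠ 0) (w : ℝ) (F : Gi → M) :
    ∑ z ∈ (disc (Real.exp (w + 1))).filter (fun z => α ∣ z), F z =
      ∑ y ∈ disc (Real.exp (w - Real.log (nm α) + 1)), F (α * y) := by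
  symm
  refine Finset.sum_bij (fun y _ => α * y) ?_ ?_ ?_ ?_
  · intro y hy
    rw [Finset.mem_filter]
    exact ⟨(mem_iff hα w y).2 hy, dvd_mul_right α y⟩
  · intro a _ b _ h
    exact mul_left_cancel₀ hα h
  · intro z hz
    rw [Finset.mem_filter] at hz
    obtain ⟨hz, y, rfl⟩ := hz
    exact ⟨y, (mem_iff hα w y).1 hz, rfl⟩
  · intro y _
    rfl

end TWNM

open TWNM in
theorem specTWN : SpecTWN := by
  intro G hG g u w α hα
  have hN : (0 : ℝ) < nm α := nm_posR hα
  rw [sum_multiples hα]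
  unfold VV
  rw [Finset.mul_sum]
  refine Finset.sum_congr rfl fun y hy => ?_
  have hy0 : y ≠ 0 := (mem_disc.1 hy).1
  have hY : (0 : ℝ) < nm y := nm_posR hy0
  have h1 : ((nm (α * y) : ℕ) : ℝ) = (nm α : ℝ) * (nm y : ℝ) := by
    rw [nm_mul]
    push_cast
    ring
  have h2 : Real.log (nm α : ℝ) + Real.log (nm y : ℝ) - w =
      Real.log (nm y : ℝ) - (w - Real.log (nm α : ℝ)) := by ring
  have h3 : -(u * (Real.log (nm α : ℝ) + Real.log (nm y : ℝ))) =
      -(u * Real.log (nm α : ℝ)) + -(u * Real.log (nm y : ℝ)) := by ring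
  rw [hG, h1, Real.log_mul hN.ne' hY.ne', h2, h3, ee_add]
  have h4 : g (Real.log (nm y : ℝ) - (w - Real.log (nm α : ℝ))) / ((nm α : ℝ) * (nm y : ℝ)) =
      1 / (nm α : ℝ) * (g (Real.log (nm y : ℝ) - (w - Real.log (nm α : ℝ))) / (nm y : ℝ)) := by
    rw [div_mul_div_comm, one_mul]
  rw [h4]
  push_cast
  ring

end

end Pool.Agent.Lib.MP391708.X.PH
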