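import Pool.Agent.Lib.MP_391708_nt.X.PH.SpecA
import Pool.Agent.Lib.MP_391708_nt.MR.Basic
import Pool.Agent.Lib.MP_391708_nt.MR.Count
import Pool.Agent.Lib.MP_391708_nt.X.PH.TWN

/-!
# MP_391708, Theorem X, part PH: UWN (helper29)
-/

set_option autoImplicit false

namespace Pool.Agent.Lib.MP391708.X.PH

open Finset Filter Topology MeasureTheory
open Pool.Agent.Lib.MP391708.MR
open Pool.Agent.Lib.MP553de0.AA (Ker)

noncomputable section

namespace UWNM

lemma ker_cont {B : ℝ} {g : ℝ → ℝ} (h : Ker B g) : Continuous g := by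
  have h1 : LipschitzWith ⟨B, h.1⟩ g := LipschitzWith.of_dist_le_mul fun x y => by
    rw [Real.dist_eq, Real.dist_eq]
    exact h.2.2.2 x y
  exact h1.continuous

/-- the values of the window -/
def hh (g : ℝ → ℝ) (w : ℝ) (n : ℕ) : ℝ := g (Real.log n - w) / n

lemma hh_zero {B : ℝ} {g : ℝ → ℝ} (h : Ker B g) {w : ℝ} {n : ℕ} (hn : Real.exp (w + 1) ≤ n) :
    hh g w n = 0 := by
  have h1 : w + 1 ≤ Real.log n := by
    rw [Real.le_log_iff_exp_le (lt_of_lt_of_le (Real.exp_pos _) hn)]
    exact hn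
  unfold hh
  rw [h.2.2.1, zero_div]
  rw [abs_of_nonneg (by linarith)]
  linarith

/-- `log (n + 1) - log n` -/
lemma log_step {n : ℕ} (hn : 1 ≤ n) : 0 ≤ Real.log ((n : ℝ) + 1) - Real.log n ∧
    Real.log ((n : ℝ) + 1) - Real.log n ≤ 1 / n ∧
    1 / ((n : ℝ) + 1) ≤ Real.log ((n : ℝ) + 1) - Real.log n := by
  have hn0 : (0 : ℝ) < n := by exact_mod_cast hn
  have h1 : Real.log ((n : ℝ) + 1) - Real.log n = Real.log (((n : ℝ) + 1) / n) := by
    rw [Real.log_div (by positivity) hn0.ne']
  refine ⟨?_, ?_, ?_⟩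
  · rw [h1]
    apply Real.log_nonneg
    rw [le_div_iff₀ hn0]
    linarith
  · rw [h1]
    have h2 := Real.log_le_sub_one_of_pos (show (0 : ℝ) < ((n : ℝ) + 1) / n by positivity)
    have h3 : ((n : ℝ) + 1) / n - 1 = 1 / n := by
      field_simp
      ring
    linarith
  · have h2 := Real.log_le_sub_one_of_pos (show (0 : ℝ) < (n : ℝ) / ((n : ℝ) + 1) by positivity)
    rw [Real.log_div hn0.ne' (by positivity)] at h2
    have h3 : (n : ℝ) / ((n : ℝ) + 1) - 1 = -(1 / ((n : ℝ) + 1)) := by
      field_simp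
      ring
    linarith

/-- values of `g` below `-1` -/
lemma g_low {B : ℝ} {g : ℝ → ℝ} (h : Ker B g) {w : ℝ} {n : ℕ} (hn : 1 ≤ n)
    (hlow : (n : ℝ) + 1 ≤ Real.exp (w - 1)) {x : ℝ} (hx : x ≤ Real.log ((n : ℝ) + 1) - w) :
    g x = 0 := by
  have hn0 : (0 : ℝ) < n := by exact_mod_cast hn
  have h1 : Real.log ((n : ℝ) + 1) ≤ w - 1 := by
    rw [Real.log_le_iff_le_exp (by positivity)]
    exact hlow
  apply h.2.2.1
  rw [abs_of_nonpos (by linarith)]
  linarith

lemma hh_diff {B : ℝ} {g : ℝ → ℝ} (h : Ker B g) (w : ℝ) {n : ℕ} (hn : 1 ≤ n) :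
    |hh g w n - hh g w (n + 1)| ≤ 2 * B / (n : ℝ) ^ 2 ∧
      (hh g w n - hh g w (n + 1) = 0 ∨ Real.exp (w - 1) < 2 * n) := by
  have hn0 : (0 : ℝ) < n := by exact_mod_cast hn
  have hn1 : (1 : ℝ) ≤ n := by exact_mod_cast hn
  obtain ⟨l1, l2, l3⟩ := log_step hn
  constructor
  · have e1 : hh g w n - hh g w (n + 1) =
        (g (Real.log n - w) - g (Real.log ((n : ℝ) + 1) - w)) / n +
        g (Real.log ((n : ℝ) + 1) - w) * (1 / n - 1 / ((n : ℝ) + 1)) := by
      unfold hh
      push_cast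
      field_simp
      ring
    have e2 : |g (Real.log n - w) - g (Real.log ((n : ℝ) + 1) - w)| ≤ B * (1 / n) := by
      refine (h.2.2.2 _ _).trans (mul_le_mul_of_nonneg_left ?_ h.1)
      rw [abs_sub_comm, abs_of_nonneg (by linarith)]
      linarith
    have e3 : (1 : ℝ) / n - 1 / ((n : ℝ) + 1) = 1 / (n * ((n : ℝ) + 1)) := by
      field_simp
      ring
    have e4 : (1 : ℝ) / (n * ((n : ℝ) + 1)) ≤ 1 / (n : ℝ) ^ 2 := by
      apply one_div_le_one_div_of_le (by positivity)
      nlinarith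
    rw [e1]
    calc |(g (Real.log n - w) - g (Real.log ((n : ℝ) + 1) - w)) / n +
        g (Real.log ((n : ℝ) + 1) - w) * (1 / n - 1 / ((n : ℝ) + 1))|
        ≤ |(g (Real.log n - w) - g (Real.log ((n : ℝ) + 1) - w)) / n| +
          |g (Real.log ((n : ℝ) + 1) - w) * (1 / n - 1 / ((n : ℝ) + 1))| := abs_add_le _ _
      _ ≤ B * (1 / n) / n + B * (1 / (n : ℝ) ^ 2) := by
          apply add_le_add
          · rw [abs_div, abs_of_pos hn0]
            exact div_le_div_of_nonneg_right e2 hn0.le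
          · rw [abs_mul, e3, abs_of_nonneg (show (0 : ℝ) ≤ 1 / (n * ((n : ℝ) + 1)) by positivity)]
            exact mul_le_mul (h.2.1 _) e4 (by positivity) h.1
      _ = 2 * B / (n : ℝ) ^ 2 := by
          field_simp
          ring
  · by_cases hlow : (n : ℝ) + 1 ≤ Real.exp (w - 1)
    · left
      unfold hh
      push_cast
      rw [g_low h hn hlow (x := Real.log n - w) (by linarith), g_low h hn hlow le_rfl]
      simp
    · right
      rw [not_le] at hlow
      linarith

/-- the integral over one cell -/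
lemma cell {B : ℝ} {g : ℝ → ℝ} (h : Ker B g) (w : ℝ) {n : ℕ} (hn : 1 ≤ n) :
    |hh g w n - ∫ x in (Real.log n - w)..(Real.log ((n : ℝ) + 1) - w), g x| ≤
        2 * B / (n : ℝ) ^ 2 ∧
      (hh g w n - (∫ x in (Real.log n - w)..(Real.log ((n : ℝ) + 1) - w), g x) = 0 ∨
        Real.exp (w - 1) < 2 * n) := by
  have hn0 : (0 : ℝ) < n := by exact_mod_cast hn
  have hn1 : (1 : ℝ) ≤ n := by exact_mod_cast hn
  obtain ⟨l1, l2, l3⟩ := log_step hn
  have hc := ker_cont h
  constructor
  · set a := Real.log n - w with ha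
    set b := Real.log ((n : ℝ) + 1) - w with hb
    have hba : b - a = Real.log ((n : ℝ) + 1) - Real.log n := by rw [ha, hb]; ring
    have hab : a ≤ b := by linarith
    have e1 : ∫ x in a..b, g x = g a * (b - a) + ∫ x in a..b, (g x - g a) := by
      rw [intervalIntegral.integral_sub (hc.intervalIntegrable a b)
        (intervalIntegrable_const), intervalIntegral.integral_const, smul_eq_mul]
      ring
    have e2 : |∫ x in a..b, (g x - g a)| ≤ B * (1 / n) * |b - a| := by
      rw [← Real.norm_eq_abs]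
      apply intervalIntegral.norm_integral_le_of_norm_le_const
      intro x hx
      rw [Set.uIoc_of_le hab] at hx
      rw [Real.norm_eq_abs]
      refine (h.2.2.2 _ _).trans (mul_le_mul_of_nonneg_left ?_ h.1)
      rw [abs_of_nonneg (by linarith [hx.1])]
      linarith [hx.2]
    have e3 : |b - a| ≤ 1 / n := by
      rw [abs_of_nonneg (by linarith)]
      linarith
    have e4 : |g a * (1 / n - (b - a))| ≤ B * (1 / (n : ℝ) ^ 2) := by
      rw [abs_mul]
      refine mul_le_mul (h.2.1 _) ?_ (abs_nonneg _) h.1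
      have h5 : (1 : ℝ) / n - 1 / ((n : ℝ) + 1) = 1 / (n * ((n : ℝ) + 1)) := by
        field_simp
        ring
      have h6 : (1 : ℝ) / (n * ((n : ℝ) + 1)) ≤ 1 / (n : ℝ) ^ 2 := by
        apply one_div_le_one_div_of_le (by positivity)
        nlinarith
      rw [abs_of_nonneg (by linarith)]
      linarith
    have e5 : hh g w n - ∫ x in a..b, g x =
        g a * (1 / n - (b - a)) - ∫ x in a..b, (g x - g a) := by
      rw [e1]
      unfold hh
      rw [← ha]
      ring
    rw [e5]
    calc |g a * (1 / n - (b - a)) - ∫ x in a..b, (g x - g a)|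
        ≤ |g a * (1 / n - (b - a))| + |∫ x in a..b, (g x - g a)| := abs_sub _ _
      _ ≤ B * (1 / (n : ℝ) ^ 2) + B * (1 / n) * (1 / n) := by
          refine add_le_add e4 (e2.trans ?_)
          exact mul_le_mul_of_nonneg_left e3 (mul_nonneg h.1 (by positivity))
      _ = 2 * B / (n : ℝ) ^ 2 := by
          field_simp
          ring
  · by_cases hlow : (n : ℝ) + 1 ≤ Real.exp (w - 1)
    · left
      have e1 : ∫ x in (Real.log n - w)..(Real.log ((n : ℝ) + 1) - w), g x = 0 := by
        rw [intervalIntegral.integral_congr (g := fun _ => (0 : ℝ))]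
        · simp
        · intro x hx
          rw [Set.uIcc_of_le (by linarith)] at hx
          exact g_low h hn hlow hx.2
      rw [e1]
      unfold hh
      rw [g_low h hn hlow (x := Real.log n - w) (by linarith)]
      simp
    · right
      rw [not_le] at hlow
      linarith

/-- telescoping -/
lemma tel (f : ℕ → ℝ) (M : ℕ) (hf : ∀ m, M ≤ m → f m = 0) (n : ℕ) (hn : 1 ≤ n) :
    f n = ∑ k ∈ Ico 1 M, if n ≤ k then f k - f (k + 1) else 0 := by
  by_cases h : M ≤ n
  · rw [hf n h]
    symm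
    apply Finset.sum_eq_zero
    intro k hk
    rw [Finset.mem_Ico] at hk
    rw [if_neg (by omega)]
  · rw [not_le] at h
    rw [← Finset.sum_filter]
    have e1 : (Ico 1 M).filter (fun k => n ≤ k) = Ico n M := by
      ext k
      rw [Finset.mem_filter, Finset.mem_Ico, Finset.mem_Ico]
      omega
    rw [e1]
    have e2 : ∀ j, ∑ k ∈ Ico n (n + j), (f k - f (k + 1)) = f n - f (n + j) := by
      intro j
      induction j with
      | zero => simp
      | succ j ih =>
        rw [← add_assoc, Finset.sum_Ico_succ_top (by omega), ih]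
        ring
    obtain ⟨j, rfl⟩ := Nat.exists_eq_add_of_lt h
    have e3 := e2 (j + 1)
    rw [← add_assoc] at e3
    rw [e3, hf (n + j + 1) le_rfl, sub_zero]

lemma abel {S : Type} (s : Finset S) (ν : S → ℕ) (hν : ∀ x ∈ s, 1 ≤ ν x) (f : ℕ → ℝ) (M : ℕ)
    (hf : ∀ m, M ≤ m → f m = 0) :
    ∑ x ∈ s, f (ν x) = ∑ k ∈ Ico 1 M, (f k - f (k + 1)) * ((s.filter fun x => ν x ≤ k).card : ℝ) := by
  calc ∑ x ∈ s, f (ν x)
      = ∑ x ∈ s, ∑ k ∈ Ico 1 M, if ν x ≤ k then f k - f (k + 1) else 0 :=
        Finset.sum_congr rfl fun x hx => tel f M hf (ν x) (hν x hx)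
    _ = ∑ k ∈ Ico 1 M, ∑ x ∈ s, if ν x ≤ k then f k - f (k + 1) else 0 := Finset.sum_comm
    _ = _ := by
        refine Finset.sum_congr rfl fun k _ => ?_
        rw [← Finset.sum_filter, Finset.sum_const, nsmul_eq_mul]
        ring

/-- the main estimate -/
lemma window : ∃ C : ℝ, 0 < C ∧ ∀ (B : ℝ) (g : ℝ → ℝ), Ker B g → ∀ w : ℝ, 0 ≤ w →
    |∑ y ∈ disc (Real.exp (w + 1)), g (Real.log (nm y) - w) / (nm y : ℝ) -
      Real.pi * ∫ x, g x| ≤ C * B * Real.exp (-(w / 2)) := by
  obtain ⟨C₀, hC₀, hcount⟩ := specCount 1 one_pos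
  have hS : ∀ Y : ℝ, 0 ≤ Y → |((disc Y).card : ℝ) - Real.pi * Y| ≤ C₀ * (Real.sqrt Y + 1) := by
    intro Y hY
    have h1 := hcount 0 Y hY
    rw [Finset.filter_true_of_mem] at h1
    · simpa using h1
    · intro z _
      exact ⟨by simp, by simp⟩
  refine ⟨216 * C₀ + Real.pi * 218, by positivity, ?_⟩
  intro B g hg w hw
  have hB : 0 ≤ B := hg.1
  set E := Real.exp (w / 2) with hE
  have hE1 : 1 ≤ E := Real.one_le_exp (by positivity)
  have hE0 : 0 < E := by linarith
  have hEE : Real.exp w = E ^ 2 := by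
    rw [hE, ← Real.exp_nat_mul]
    congr 1
    push_cast
    ring
  have hEi : Real.exp (-(w / 2)) = 1 / E := by rw [Real.exp_neg, hE, one_div]
  have he1 : Real.exp 1 < 3 := by
    have := Real.exp_one_lt_d9
    linarith
  have hup : Real.exp (w + 1) ≤ 3 * E ^ 2 := by
    rw [Real.exp_add, hEE]
    nlinarith
  have hlo : E ^ 2 / 3 ≤ Real.exp (w - 1) := by
    rw [Real.exp_sub, hEE]
    exact div_le_div_of_nonneg_left (by positivity) (Real.exp_pos 1) he1.le
  set M := ⌈Real.exp (w + 1)⌉₊ with hM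
  have hM1 : Real.exp (w + 1) ≤ M := Nat.le_ceil _
  have hMpos : 1 ≤ M := by
    have : (0 : ℝ) < M := lt_of_lt_of_le (Real.exp_pos _) hM1
    exact_mod_cast this
  have hk : ∀ k : ℕ, k < M → (k : ℝ) < Real.exp (w + 1) := fun k hk => Nat.lt_ceil.1 hk
  have hz : ∀ m, M ≤ m → hh g w m = 0 := fun m hm =>
    hh_zero hg (hM1.trans (by exact_mod_cast hm))
  have hcardM : ((Ico 1 M).card : ℝ) ≤ 3 * E ^ 2 := by
    rw [Nat.card_Ico]
    have h1 : ((M - 1 : ℕ) : ℝ) < Real.exp (w + 1) := hk (M - 1) (by omega)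
    linarith
  -- the sum over the disc
  have A1 : ∑ y ∈ disc (Real.exp (w + 1)), g (Real.log (nm y) - w) / (nm y : ℝ) =
      ∑ k ∈ Ico 1 M, (hh g w k - hh g w (k + 1)) * ((disc (k : ℝ)).card : ℝ) := by
    have h1 := abel (disc (Real.exp (w + 1))) nm (fun x hx => nm_pos (mem_disc.1 hx).1)
      (hh g w) M hz
    refine h1.trans (Finset.sum_congr rfl fun k hkM => ?_)
    rw [Finset.mem_Ico] at hkM
    congr 3
    ext y
    rw [Finset.mem_filter, mem_disc, mem_disc]
    constructor
    · rintro ⟨⟨h2, _⟩, h3⟩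
      exact ⟨h2, by exact_mod_cast h3⟩
    · rintro ⟨h2, h3⟩
      exact ⟨⟨h2, h3.trans (hk k hkM.2).le⟩, by exact_mod_cast h3⟩
  have A2 : ∑ n ∈ Ico 1 M, hh g w n = ∑ k ∈ Ico 1 M, (hh g w k - hh g w (k + 1)) * (k : ℝ) := by
    have h1 := abel (Ico 1 M) (fun n => n) (fun x hx => (Finset.mem_Ico.1 hx).1) (hh g w) M hz
    refine h1.trans (Finset.sum_congr rfl fun k hkM => ?_)
    rw [Finset.mem_Ico] at hkM
    congr 2
    have h2 : (Ico 1 M).filter (fun x => x ≤ k) = Icc 1 k := by
      ext x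
      rw [Finset.mem_filter, Finset.mem_Ico, Finset.mem_Icc]
      omega
    rw [h2, Nat.card_Icc]
    omega
  have A3 : |∑ y ∈ disc (Real.exp (w + 1)), g (Real.log (nm y) - w) / (nm y : ℝ) -
      Real.pi * ∑ n ∈ Ico 1 M, hh g w n| ≤ 216 * C₀ * B * (1 / E) := by
    rw [A1, A2, Finset.mul_sum, ← Finset.sum_sub_distrib]
    refine (Finset.abs_sum_le_sum_abs _ _).trans ?_
    have h1 : ∀ k ∈ Ico 1 M, |(hh g w k - hh g w (k + 1)) * ((disc (k : ℝ)).card : ℝ) -
        Real.pi * ((hh g w k - hh g w (k + 1)) * (k : ℝ))| ≤ 72 * C₀ * B / E ^ 3 := by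
      intro k hkM
      rw [Finset.mem_Ico] at hkM
      have hk0 : (0 : ℝ) < k := by exact_mod_cast hkM.1
      have hk1 : (1 : ℝ) ≤ k := by exact_mod_cast hkM.1
      obtain ⟨d1, d2⟩ := hh_diff hg w hkM.1
      have e1 : (hh g w k - hh g w (k + 1)) * ((disc (k : ℝ)).card : ℝ) -
          Real.pi * ((hh g w k - hh g w (k + 1)) * (k : ℝ)) =
          (hh g w k - hh g w (k + 1)) * (((disc (k : ℝ)).card : ℝ) - Real.pi * k) := by ring
      rw [e1, abs_mul]
      rcases d2 with d2 | d2
      · rw [d2, abs_zero, zero_mul]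
        positivity
      · have hkE : E ^ 2 / 6 ≤ k := by linarith
        set σ := Real.sqrt (k : ℝ) with hσ
        have hσ0 : 0 ≤ σ := Real.sqrt_nonneg _
        have hσ2 : σ ^ 2 = k := Real.sq_sqrt hk0.le
        have hσ1 : 1 ≤ σ := by nlinarith
        have hσE : E / 3 ≤ σ := by
          by_contra hc
          rw [not_le] at hc
          nlinarith
        have hS' := hS k hk0.le
        calc |hh g w k - hh g w (k + 1)| * |((disc (k : ℝ)).card : ℝ) - Real.pi * k|
            ≤ (2 * B / (k : ℝ) ^ 2) * (C₀ * (σ + 1)) :=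
              mul_le_mul d1 hS' (abs_nonneg _) (by positivity)
          _ ≤ (2 * B / (k : ℝ) ^ 2) * (C₀ * (2 * σ)) := by
              apply mul_le_mul_of_nonneg_left _ (by positivity)
              apply mul_le_mul_of_nonneg_left _ hC₀.le
              linarith
          _ = 4 * C₀ * B / (k * σ) := by
              have hσp : 0 < σ := by linarith
              rw [← hσ2]
              field_simp
              ring
          _ ≤ 4 * C₀ * B / (E ^ 2 / 6 * (E / 3)) := by
              apply div_le_div_of_nonneg_left (by positivity) (by positivity)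
              exact mul_le_mul hkE hσE (by positivity) (by positivity)
          _ = 72 * C₀ * B / E ^ 3 := by
              field_simp
              ring
    refine (Finset.sum_le_sum h1).trans ?_
    rw [Finset.sum_const, nsmul_eq_mul]
    calc ((Ico 1 M).card : ℝ) * (72 * C₀ * B / E ^ 3) ≤ 3 * E ^ 2 * (72 * C₀ * B / E ^ 3) :=
          mul_le_mul_of_nonneg_right hcardM (by positivity)
      _ = 216 * C₀ * B * (1 / E) := by
          field_simp
          ring
  -- the Riemann sum
  have hc := ker_cont hg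
  set ξ : ℕ → ℝ := fun n => Real.log n - w with hξ
  have A4 : ∑ n ∈ Ico 1 M, ∫ x in ξ n..ξ (n + 1), g x = ∫ x in ξ 1..ξ M, g x :=
    intervalIntegral.sum_integral_adjacent_intervals_Ico hMpos
      fun k _ => hc.intervalIntegrable _ _
  have A5 : |∑ n ∈ Ico 1 M, hh g w n - ∫ x in ξ 1..ξ M, g x| ≤ 216 * B * (1 / E) := by
    rw [← A4, ← Finset.sum_sub_distrib]
    refine (Finset.abs_sum_le_sum_abs _ _).trans ?_
    have h1 : ∀ n ∈ Ico 1 M, |hh g w n - ∫ x in ξ n..ξ (n + 1), g x| ≤ 72 * B / E ^ 4 := by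
      intro n hnM
      rw [Finset.mem_Ico] at hnM
      have hn0 : (0 : ℝ) < n := by exact_mod_cast hnM.1
      obtain ⟨d1, d2⟩ := cell hg w hnM.1
      have e1 : ξ (n + 1) = Real.log ((n : ℝ) + 1) - w := by
        rw [hξ]
        push_cast
        rfl
      rw [e1]
      rcases d2 with d2 | d2
      · rw [show ξ n = Real.log n - w from rfl, d2, abs_zero]
        positivity
      · have hnE : E ^ 2 / 6 ≤ n := by linarith
        refine d1.trans ?_
        calc 2 * B / (n : ℝ) ^ 2 ≤ 2 * B / (E ^ 2 / 6) ^ 2 := by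
              apply div_le_div_of_nonneg_left (by positivity) (by positivity)
              exact pow_le_pow_left₀ (by positivity) hnE 2
          _ = 72 * B / E ^ 4 := by
              field_simp
              ring
    refine (Finset.sum_le_sum h1).trans ?_
    rw [Finset.sum_const, nsmul_eq_mul]
    calc ((Ico 1 M).card : ℝ) * (72 * B / E ^ 4) ≤ 3 * E ^ 2 * (72 * B / E ^ 4) :=
          mul_le_mul_of_nonneg_right hcardM (by positivity)
      _ = 216 * B * (1 / E) * (1 / E) := by
          field_simp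
          ring
      _ ≤ 216 * B * (1 / E) * 1 := by
          apply mul_le_mul_of_nonneg_left _ (by positivity)
          rw [div_le_one hE0]
          exact hE1
      _ = 216 * B * (1 / E) := by ring
  -- the integral
  have hξ1 : ξ 1 = -w := by
    rw [hξ]
    simp
  have hξM : 1 ≤ ξ M := by
    show 1 ≤ Real.log M - w
    have : w + 1 ≤ Real.log M := by
      rw [Real.le_log_iff_exp_le (lt_of_lt_of_le (Real.exp_pos _) hM1)]
      exact hM1
    linarith
  have A6 : ∫ x, g x = (∫ x in (-(w + 1))..(-w), g x) + ∫ x in ξ 1..ξ M, g x := by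
    rw [hξ1, intervalIntegral.integral_add_adjacent_intervals (hc.intervalIntegrable _ _)
      (hc.intervalIntegrable _ _)]
    symm
    apply intervalIntegral.integral_eq_integral_of_support_subset
    intro x hx
    by_contra hx2
    apply hx
    apply hg.2.2.1
    rw [Set.mem_Ioc, not_and_or, not_lt, not_le] at hx2
    rcases hx2 with hx2 | hx2
    · rw [abs_of_nonpos (by linarith)]
      linarith
    · rw [abs_of_nonneg (by linarith)]
      linarith
  have A7 : |∫ x in (-(w + 1))..(-w), g x| ≤ 2 * B * (1 / E) := by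
    by_cases hw1 : 1 ≤ w
    · rw [intervalIntegral.integral_congr (g := fun _ => (0 : ℝ))]
      · simp only [intervalIntegral.integral_zero, abs_zero]
        positivity
      · intro x hx
        rw [Set.uIcc_of_le (by linarith)] at hx
        apply hg.2.2.1
        rw [abs_of_nonpos (by linarith [hx.2])]
        linarith [hx.2]
    · rw [not_le] at hw1
      have h1 : |∫ x in (-(w + 1))..(-w), g x| ≤ B * |(-w) - (-(w + 1))| := by
        rw [← Real.norm_eq_abs]
        apply intervalIntegral.norm_integral_le_of_norm_le_const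
        intro x _
        exact hg.2.1 x
      have h2 : |(-w) - (-(w + 1))| = 1 := by
        rw [show (-w) - (-(w + 1)) = 1 by ring, abs_one]
      rw [h2, mul_one] at h1
      have h3 : E ≤ 2 := by
        have h4 : E ≤ Real.exp (1 / 2) := Real.exp_le_exp.2 (by linarith)
        have h5 : Real.exp (1 / 2) ^ 2 = Real.exp 1 := by
          rw [← Real.exp_nat_mul]
          congr 1
          norm_num
        have h6 : 0 < Real.exp (1 / 2) := Real.exp_pos _
        nlinarith
      refine h1.trans ?_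
      rw [mul_one_div, le_div_iff₀ hE0]
      nlinarith
  rw [hEi]
  have hpi := Real.pi_pos
  calc |∑ y ∈ disc (Real.exp (w + 1)), g (Real.log (nm y) - w) / (nm y : ℝ) -
        Real.pi * ∫ x, g x|
      = |(∑ y ∈ disc (Real.exp (w + 1)), g (Real.log (nm y) - w) / (nm y : ℝ) -
          Real.pi * ∑ n ∈ Ico 1 M, hh g w n) +
          (Real.pi * (∑ n ∈ Ico 1 M, hh g w n - ∫ x in ξ 1..ξ M, g x) -
          Real.pi * ∫ x in (-(w + 1))..(-w), g x)| := by
        rw [A6]
        congr 1
        ring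
    _ ≤ 216 * C₀ * B * (1 / E) + (Real.pi * (216 * B * (1 / E)) +
          Real.pi * (2 * B * (1 / E))) := by
        refine (abs_add_le _ _).trans (add_le_add A3 ((abs_sub _ _).trans (add_le_add ?_ ?_)))
        · rw [abs_mul, abs_of_pos hpi]
          exact mul_le_mul_of_nonneg_left A5 hpi.le
        · rw [abs_mul, abs_of_pos hpi]
          exact mul_le_mul_of_nonneg_left A7 hpi.le
    _ = (216 * C₀ + Real.pi * 218) * B * (1 / E) := by ring

end UWNM

open UWNM in
theorem specUWN : SpecUWN := by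
  obtain ⟨C, hC, hwin⟩ := window
  refine ⟨C, hC, ?_⟩
  intro B g hg α w hα hαw
  have hN : (0 : ℝ) < nm α := nm_posR hα
  set w' := w - Real.log (nm α) with hw'
  have hw0 : 0 ≤ w' := by
    have : Real.log (nm α) ≤ w := by
      rw [Real.log_le_iff_le_exp hN]
      exact hαw
    rw [hw']
    linarith
  rw [TWNM.sum_multiples hα]
  have h1 : ∑ y ∈ disc (Real.exp (w' + 1)),
      g (Real.log (nm (α * y)) - w) / ((nm (α * y) : ℕ) : ℝ) =
      1 / (nm α : ℝ) * ∑ y ∈ disc (Real.exp (w' + 1)),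
        g (Real.log (nm y) - w') / (nm y : ℝ) := by
    rw [Finset.mul_sum]
    refine Finset.sum_congr rfl fun y hy => ?_
    have hY : (0 : ℝ) < nm y := nm_posR (mem_disc.1 hy).1
    have h2 : ((nm (α * y) : ℕ) : ℝ) = (nm α : ℝ) * (nm y : ℝ) := by
      rw [nm_mul]
      push_cast
      ring
    rw [h2, Real.log_mul hN.ne' hY.ne', div_mul_div_comm, one_mul]
    congr 2
    rw [hw']
    ring
  rw [h1]
  have h2 : 1 / (nm α : ℝ) * ∑ y ∈ disc (Real.exp (w' + 1)),
        g (Real.log (nm y) - w') / (nm y : ℝ) - Real.pi / (nm α : ℝ) * ∫ x, g x =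
      1 / (nm α : ℝ) * (∑ y ∈ disc (Real.exp (w' + 1)),
        g (Real.log (nm y) - w') / (nm y : ℝ) - Real.pi * ∫ x, g x) := by ring
  have h3 : (Real.exp w / (nm α : ℝ)) ^ (-(1 / 2) : ℝ) = Real.exp (-(w' / 2)) := by
    have h4 : Real.exp w / (nm α : ℝ) = Real.exp w' := by
      rw [hw', Real.exp_sub, Real.exp_log hN]
    rw [h4, ← Real.exp_mul]
    congr 1
    ring
  rw [h2, h3, abs_mul, abs_of_pos (show (0 : ℝ) < 1 / (nm α : ℝ) by positivity)]
  calc 1 / (nm α : ℝ) * |∑ y ∈ disc (Real.exp (w' + 1)),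
        g (Real.log (nm y) - w') / (nm y : ℝ) - Real.pi * ∫ x, g x|
      ≤ 1 / (nm α : ℝ) * (C * B * Real.exp (-(w' / 2))) :=
        mul_le_mul_of_nonneg_left (hwin B g hg w' hw0) (by positivity)
    _ = C * B / (nm α : ℝ) * Real.exp (-(w' / 2)) := by ring

end

end Pool.Agent.Lib.MP391708.X.PH
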