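import Pool.Agent.Lib.MP_391708_nt.X.PH.SpecB
import Pool.Agent.Lib.MP_391708_nt.MR.Basic

/-!
# MP_391708, Theorem X, part PH, module WEX: windows of the series in terms of `VV`
-/

set_option autoImplicit false

namespace Pool.Agent.Lib.MP391708.X.PH

open Finset Filter Topology MeasureTheory
open Pool.Agent.Lib.MP391708.MR
open Pool.Agent.Lib.MP391708.MR.OS (CM RP pw)
open Pool.Agent.Lib.MP391708.QPA (Rough rInd PB)
open Pool.Agent.Lib.MP054243.AV (ee)
open Pool.Agent.Lib.MP553de0.AA (Ker ft kk kap)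

noncomputable section

namespace WEXM

lemma norm_ee (x : ℝ) : ‖ee x‖ = 1 := by
  unfold ee
  rw [Complex.norm_exp]
  simp

/-- the terms of `WN` -/
def tm (g : ℝ → ℝ) (G : Gi → ℂ) (lam : ℝ) (j : ℕ) (u v : ℝ) (z : Gi) : ℂ :=
  an G lam j z * ee (-(u * Real.log (nm z))) * ((g (Real.log (nm z) - v) : ℝ) : ℂ)

/-- the elements which contribute -/
def FF (v : ℝ) : Finset Gi :=
  (disc (Real.exp (v + 1))).filter (fun z => 2 ≤ nm z ∧ v - 1 ≤ Real.log (nm z))

lemma tm_zero {B : ℝ} {g : ℝ → ℝ} (hg : Ker B g) (G : Gi → ℂ) (lam : ℝ) (j : ℕ) (u v : ℝ) (z : Gi)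
    (hz : z ∉ FF v) : tm g G lam j u v z = 0 := by
  unfold tm
  by_cases h2 : 2 ≤ nm z
  · have hz0 : z ≠ 0 := by
      rintro rfl
      simp at h2
    have hpos : (0 : ℝ) < nm z := nm_posR hz0
    have hg0 : g (Real.log (nm z) - v) = 0 := by
      apply hg.2.2.1
      by_cases h3 : (nm z : ℝ) ≤ Real.exp (v + 1)
      · have h4 : ¬ (v - 1 ≤ Real.log (nm z)) := fun h => hz (by
          unfold FF
          rw [mem_filter, mem_disc]
          exact ⟨⟨hz0, h3⟩, h2, h⟩)
        push Not at h4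
        rw [abs_sub_comm]
        exact le_trans (by linarith) (le_abs_self _)
      · push Not at h3
        have h5 : v + 1 < Real.log (nm z) := by
          rw [Real.lt_log_iff_exp_lt hpos]
          exact h3
        exact le_trans (by linarith) (le_abs_self _)
    rw [hg0]
    simp
  · unfold an
    rw [if_neg h2]
    simp

lemma WN_eq {B : ℝ} {g : ℝ → ℝ} (hg : Ker B g) (G : Gi → ℂ) (lam : ℝ) (j : ℕ) (u v : ℝ) :
    WN g G lam j u v = ∑ z ∈ FF v, tm g G lam j u v z := by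
  unfold WN
  exact tsum_eq_sum (fun z hz => tm_zero hg G lam j u v z hz)

lemma norm_G_le {G : Gi → ℂ} {t : ℝ} (hG : RCM G t) (z : Gi) : ‖G z‖ ≤ rInd t (nm z) := by
  unfold rInd
  rcases hG.2.1 z with h | h
  · rw [h, norm_zero]
    split_ifs <;> norm_num
  · have h0 : G z ≠ 0 := by
      intro h1
      rw [h1, norm_zero] at h
      norm_num at h
    rw [if_pos (hG.2.2 z h0), h]

lemma mem_FF {v : ℝ} {z : Gi} (hz : z ∈ FF v) :
    z ≠ 0 ∧ (nm z : ℝ) ≤ Real.exp (v + 1) ∧ 2 ≤ nm z ∧ v - 1 ≤ Real.log (nm z) ∧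
      Real.log (nm z) ≤ v + 1 ∧ 0 ≤ Real.log (nm z) := by
  unfold FF at hz
  rw [mem_filter, mem_disc] at hz
  obtain ⟨⟨h0, h1⟩, h2, h3⟩ := hz
  have hpos : (0 : ℝ) < nm z := nm_posR h0
  refine ⟨h0, h1, h2, h3, ?_, Real.log_nonneg (one_le_nm h0)⟩
  rw [Real.log_le_iff_le_exp hpos]
  exact h1

/-- bound of the terms -/
lemma norm_tm_le {B : ℝ} {g : ℝ → ℝ} (hg : Ker B g) {G : Gi → ℂ} {t : ℝ} (hG : RCM G t) {lam : ℝ}
    (hl0 : 0 < lam) (hl1 : lam ≤ 1) (j : ℕ) (u : ℝ) {v : ℝ} {z : Gi}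
    (hz : z ∈ FF v) :
    ‖tm g G lam j u v z‖ ≤
      rInd t (nm z) / (nm z : ℝ) * (B * (v + 1) ^ j * Real.exp (-(lam * v))) := by
  obtain ⟨h0, h1, h2, h3, h4, h5⟩ := mem_FF hz
  have hpos : (0 : ℝ) < nm z := nm_posR h0
  have hr0 : 0 ≤ rInd t (nm z) := by
    unfold rInd
    split_ifs <;> norm_num
  have e1 : (nm z : ℝ) ^ (-(1 + lam)) = (nm z : ℝ)⁻¹ * Real.exp (-(lam * Real.log (nm z))) := by
    rw [Real.rpow_def_of_pos hpos, show Real.log (nm z) * (-(1 + lam)) =
      -Real.log (nm z) + -(lam * Real.log (nm z)) by ring, Real.exp_add, Real.exp_neg,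
      Real.exp_log hpos]
  have e2 : Real.exp (-(lam * Real.log (nm z))) ≤ 4 * Real.exp (-(lam * v)) := by
    have h6 : Real.exp (-(lam * Real.log (nm z))) ≤ Real.exp (1 + -(lam * v)) := by
      apply Real.exp_le_exp.2
      nlinarith
    rw [Real.exp_add] at h6
    have h7 : Real.exp 1 ≤ 4 := by
      have := Real.exp_one_lt_d9
      linarith
    have h8 := Real.exp_pos (-(lam * v))
    nlinarith
  have e3 : Real.log (nm z) ^ j ≤ (v + 1) ^ j := pow_le_pow_left₀ h5 h4 j
  have hnorm : ‖tm g G lam j u v z‖ = ‖G z‖ * (1 / 4 * (nm z : ℝ) ^ (-(1 + lam)) *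
      Real.log (nm z) ^ j) * |g (Real.log (nm z) - v)| := by
    unfold tm an
    rw [if_pos h2]
    unfold ac
    rw [norm_mul, norm_mul, norm_mul, norm_ee, mul_one, Complex.norm_real, Complex.norm_real,
      Real.norm_eq_abs, Real.norm_eq_abs]
    congr 2
    apply abs_of_nonneg
    positivity
  rw [hnorm, e1]
  have hgB : |g (Real.log (nm z) - v)| ≤ B := hg.2.1 _
  have hB := hg.1
  have hv1 : 0 ≤ v + 1 := h5.trans h4
  calc ‖G z‖ * (1 / 4 * ((nm z : ℝ)⁻¹ * Real.exp (-(lam * Real.log (nm z)))) *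
        Real.log (nm z) ^ j) * |g (Real.log (nm z) - v)|
      ≤ rInd t (nm z) * (1 / 4 * ((nm z : ℝ)⁻¹ * (4 * Real.exp (-(lam * v)))) *
        (v + 1) ^ j) * B := by
        gcongr
        exact norm_G_le hG z
    _ = rInd t (nm z) / (nm z : ℝ) * (B * (v + 1) ^ j * Real.exp (-(lam * v))) := by
        rw [div_eq_mul_inv]
        ring

/-- the terms below `t` vanish -/
lemma tm_zero_of_le {B : ℝ} {g : ℝ → ℝ} (hg : Ker B g) {G : Gi → ℂ} {t : ℝ} (ht : 2 ≤ t)
    (hG : RCM G t) (lam : ℝ) (j : ℕ) (u : ℝ) {v : ℝ} (hv : v ≤ Real.log t - 1) {z : Gi}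
    (hz : z ∈ FF v) : tm g G lam j u v z = 0 := by
  obtain ⟨h0, h1, h2, h3, h4, h5⟩ := mem_FF hz
  have hpos : (0 : ℝ) < nm z := nm_posR h0
  by_cases hGz : G z = 0
  · unfold tm an
    rw [if_pos h2]
    unfold ac
    rw [hGz]
    simp
  · have hR := hG.2.2 z hGz
    have hp := Nat.exists_prime_and_dvd (n := nm z) (by omega)
    obtain ⟨p, hp1, hp2⟩ := hp
    have h6 : t ≤ (p : ℝ) := hR p hp1 hp2
    have h7 : (p : ℝ) ≤ nm z := by exact_mod_cast Nat.le_of_dvd (by omega) hp2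
    have h8 : Real.log t ≤ Real.log (nm z) := Real.log_le_log (by linarith) (h6.trans h7)
    have hg0 : g (Real.log (nm z) - v) = 0 := by
      apply hg.2.2.1
      exact le_trans (by linarith) (le_abs_self _)
    unfold tm
    rw [hg0]
    simp

/-! ### the kernels `x ^ i exp (-lam x) g x` -/

/-- the kernel -/
def gi (g : ℝ → ℝ) (lam : ℝ) (i : ℕ) (x : ℝ) : ℝ := x ^ i * Real.exp (-(lam * x)) * g x

lemma exp_le3 {a : ℝ} (h : a ≤ 1) : Real.exp a ≤ 2.75 := by
  have h1 := Real.exp_le_exp.2 h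
  have h2 := Real.exp_one_lt_d9
  linarith

lemma exp_lip {a b : ℝ} (ha : a ≤ 1) (hb : b ≤ 1) : |Real.exp a - Real.exp b| ≤ 2.75 * |a - b| := by
  rcases le_total a b with h | h
  · have h1 : a - b + 1 ≤ Real.exp (a - b) := Real.add_one_le_exp _
    have h2 : Real.exp a = Real.exp (a - b) * Real.exp b := by rw [← Real.exp_add]; ring_nf
    have h3 := exp_le3 hb
    have h4 := Real.exp_pos b
    rw [abs_of_nonpos (by linarith [Real.exp_le_exp.2 h]), abs_of_nonpos (by linarith)]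
    nlinarith
  · have h1 : b - a + 1 ≤ Real.exp (b - a) := Real.add_one_le_exp _
    have h2 : Real.exp b = Real.exp (b - a) * Real.exp a := by rw [← Real.exp_add]; ring_nf
    have h3 := exp_le3 ha
    have h4 := Real.exp_pos a
    rw [abs_of_nonneg (by linarith [Real.exp_le_exp.2 h]), abs_of_nonneg (by linarith)]
    nlinarith

lemma pow_lip {i : ℕ} (hi : i ≤ 2) {x y : ℝ} (hx : |x| ≤ 1) (hy : |y| ≤ 1) :
    |x ^ i - y ^ i| ≤ 2 * |x - y| := by
  have h0 := abs_nonneg (x - y)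
  interval_cases i
  · simp
  · simp only [pow_one]
    linarith
  · have : x ^ 2 - y ^ 2 = (x + y) * (x - y) := by ring
    rw [this, abs_mul]
    have h1 : |x + y| ≤ 2 := (abs_add_le x y).trans (by linarith)
    nlinarith

lemma gi_lip_in {B : ℝ} {g : ℝ → ℝ} (hg : Ker B g) {lam : ℝ} (hl0 : 0 < lam) (hl1 : lam ≤ 1)
    {i : ℕ} (hi : i ≤ 2) {x y : ℝ} (hx : |x| ≤ 1) (hy : |y| ≤ 1) :
    |gi g lam i x - gi g lam i y| ≤ 12 * B * |x - y| := by
  have hx' := abs_le.1 hx
  have hy' := abs_le.1 hy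
  have hB := hg.1
  have ex : -(lam * x) ≤ 1 := by nlinarith
  have ey : -(lam * y) ≤ 1 := by nlinarith
  have a1 : |Real.exp (-(lam * x))| ≤ 2.75 := by
    rw [abs_of_pos (Real.exp_pos _)]
    exact exp_le3 ex
  have a2 : |x ^ i| ≤ 1 := by
    rw [abs_pow]
    exact pow_le_one₀ (abs_nonneg _) hx
  have a2' : |y ^ i| ≤ 1 := by
    rw [abs_pow]
    exact pow_le_one₀ (abs_nonneg _) hy
  have a3 : |Real.exp (-(lam * x)) - Real.exp (-(lam * y))| ≤ 2.75 * |x - y| := by
    refine (exp_lip ex ey).trans ?_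
    have : -(lam * x) - -(lam * y) = -(lam * (x - y)) := by ring
    rw [this, abs_neg, abs_mul, abs_of_pos hl0]
    have h0 := abs_nonneg (x - y)
    nlinarith
  have a4 := pow_lip hi hx hy
  have a5 : |g y| ≤ B := hg.2.1 y
  have a6 : |g x - g y| ≤ B * |x - y| := hg.2.2.2 x y
  have key : gi g lam i x - gi g lam i y =
      x ^ i * Real.exp (-(lam * x)) * (g x - g y) +
      (x ^ i - y ^ i) * Real.exp (-(lam * x)) * g y +
      y ^ i * (Real.exp (-(lam * x)) - Real.exp (-(lam * y))) * g y := by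
    unfold gi
    ring
  rw [key]
  have h0 := abs_nonneg (x - y)
  have b1 : |x ^ i * Real.exp (-(lam * x)) * (g x - g y)| ≤ 1 * 2.75 * (B * |x - y|) := by
    rw [abs_mul, abs_mul]
    gcongr
  have b2 : |(x ^ i - y ^ i) * Real.exp (-(lam * x)) * g y| ≤ 2 * |x - y| * 2.75 * B := by
    rw [abs_mul, abs_mul]
    gcongr
  have b3 : |y ^ i * (Real.exp (-(lam * x)) - Real.exp (-(lam * y))) * g y| ≤
      1 * (2.75 * |x - y|) * B := by
    rw [abs_mul, abs_mul]
    gcongr
  refine (abs_add_le _ _).trans ((add_le_add (abs_add_le _ _) le_rfl).trans ?_)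
  have hBx : 0 ≤ B * |x - y| := by positivity
  nlinarith

lemma gi_out {B : ℝ} {g : ℝ → ℝ} (hg : Ker B g) (lam : ℝ) (i : ℕ) {x : ℝ} (hx : 1 ≤ |x|) :
    gi g lam i x = 0 := by
  unfold gi
  rw [hg.2.2.1 x hx, mul_zero]

lemma gi_half {B : ℝ} {g : ℝ → ℝ} (hg : Ker B g) {lam : ℝ} (hl0 : 0 < lam) (hl1 : lam ≤ 1)
    {i : ℕ} (hi : i ≤ 2) {x y : ℝ} (hx : |x| ≤ 1) (hy : 1 ≤ |y|) :
    |gi g lam i x| ≤ 12 * B * |x - y| := by
  have hx' := abs_le.1 hx
  have hB := hg.1
  rcases le_abs.1 hy with h | h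
  · have h1 := gi_lip_in hg hl0 hl1 hi hx (y := 1) (by simp)
    rw [gi_out hg lam i (x := 1) (by simp), sub_zero] at h1
    refine h1.trans ?_
    have h2 : |x - 1| ≤ |x - y| := by
      rw [abs_of_nonpos (by linarith), abs_of_nonpos (by linarith)]
      linarith
    gcongr
  · have h1 := gi_lip_in hg hl0 hl1 hi hx (y := -1) (by simp)
    rw [gi_out hg lam i (x := -1) (by simp), sub_zero] at h1
    refine h1.trans ?_
    have h2 : |x - -1| ≤ |x - y| := by
      rw [abs_of_nonneg (by linarith), abs_of_nonneg (by linarith)]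
      linarith
    gcongr

lemma gi_ker {B : ℝ} {g : ℝ → ℝ} (hg : Ker B g) {lam : ℝ} (hl0 : 0 < lam) (hl1 : lam ≤ 1)
    {i : ℕ} (hi : i ≤ 2) : Ker (12 * B) (gi g lam i) := by
  have hB := hg.1
  refine ⟨by linarith, fun x => ?_, fun x hx => gi_out hg lam i hx, fun x y => ?_⟩
  · rcases le_total 1 |x| with h | h
    · rw [gi_out hg lam i h, abs_zero]
      linarith
    · have hx' := abs_le.1 h
      unfold gi
      rw [abs_mul, abs_mul]
      have a1 : |Real.exp (-(lam * x))| ≤ 2.75 := by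
        rw [abs_of_pos (Real.exp_pos _)]
        exact exp_le3 (by nlinarith)
      have a2 : |x ^ i| ≤ 1 := by
        rw [abs_pow]
        exact pow_le_one₀ (abs_nonneg _) h
      have a3 : |g x| ≤ B := hg.2.1 x
      calc |x ^ i| * |Real.exp (-(lam * x))| * |g x| ≤ 1 * 2.75 * B := by gcongr
        _ ≤ 12 * B := by linarith
  · rcases le_total 1 |x| with h | h
    · rcases le_total 1 |y| with h' | h'
      · rw [gi_out hg lam i h, gi_out hg lam i h', sub_zero, abs_zero]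
        positivity
      · rw [gi_out hg lam i h, zero_sub, abs_neg, abs_sub_comm]
        exact gi_half hg hl0 hl1 hi h' h
    · rcases le_total 1 |y| with h' | h'
      · rw [gi_out hg lam i h', sub_zero]
        exact gi_half hg hl0 hl1 hi h h'
      · exact gi_lip_in hg hl0 hl1 hi h h'

/-- the terms in terms of the kernels `gi` -/
lemma tm_eq {B : ℝ} {g : ℝ → ℝ} (hg : Ker B g) (G : Gi → ℂ) (lam : ℝ) (j : ℕ) (u : ℝ) {v : ℝ}
    (hv : 2 ≤ v) {z : Gi} (hz : z ∈ disc (Real.exp (v + 1))) :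
    tm g G lam j u v z = ((1 / 4 * Real.exp (-(lam * v)) : ℝ) : ℂ) *
      ∑ i ∈ range (j + 1), ((v ^ (j - i) * (j.choose i : ℝ) : ℝ) : ℂ) *
        (G z * ((gi g lam i (Real.log (nm z) - v) / (nm z : ℝ) : ℝ) : ℂ) *
          ee (-(u * Real.log (nm z)))) := by
  rw [mem_disc] at hz
  obtain ⟨h0, h1⟩ := hz
  have hpos : (0 : ℝ) < nm z := nm_posR h0
  set x : ℝ := Real.log (nm z) - v with hx
  have hlog : Real.log (nm z) = x + v := by rw [hx]; ring
  have rhs : ((1 / 4 * Real.exp (-(lam * v)) : ℝ) : ℂ) *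
      ∑ i ∈ range (j + 1), ((v ^ (j - i) * (j.choose i : ℝ) : ℝ) : ℂ) *
        (G z * ((gi g lam i x / (nm z : ℝ) : ℝ) : ℂ) * ee (-(u * Real.log (nm z)))) =
      G z * ((1 / 4 * (nm z : ℝ) ^ (-(1 + lam)) * Real.log (nm z) ^ j : ℝ) : ℂ) *
        ee (-(u * Real.log (nm z))) * ((g x : ℝ) : ℂ) := by
    have e1 : (nm z : ℝ) ^ (-(1 + lam)) =
        (nm z : ℝ)⁻¹ * (Real.exp (-(lam * v)) * Real.exp (-(lam * x))) := by
      rw [Real.rpow_def_of_pos hpos, show Real.log (nm z) * (-(1 + lam)) =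
        -Real.log (nm z) + (-(lam * v) + -(lam * x)) by rw [hlog]; ring, Real.exp_add,
        Real.exp_add, Real.exp_neg (Real.log (nm z)), Real.exp_log hpos]
    have e2 : Real.log (nm z) ^ j = ∑ i ∈ range (j + 1), x ^ i * v ^ (j - i) * (j.choose i : ℝ) := by
      rw [hlog, add_pow]
    rw [e1, e2, mul_sum]
    have : ∀ i ∈ range (j + 1), ((1 / 4 * Real.exp (-(lam * v)) : ℝ) : ℂ) *
        (((v ^ (j - i) * (j.choose i : ℝ) : ℝ) : ℂ) *
        (G z * ((gi g lam i x / (nm z : ℝ) : ℝ) : ℂ) * ee (-(u * Real.log (nm z))))) =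
        G z * ((1 / 4 * ((nm z : ℝ)⁻¹ * (Real.exp (-(lam * v)) * Real.exp (-(lam * x)))) *
          (x ^ i * v ^ (j - i) * (j.choose i : ℝ)) : ℝ) : ℂ) *
        ee (-(u * Real.log (nm z))) * ((g x : ℝ) : ℂ) := by
      intro i _
      unfold gi
      rw [div_eq_mul_inv]
      push_cast
      ring
    rw [sum_congr rfl this, ← sum_mul, ← sum_mul, ← mul_sum, ← Complex.ofReal_sum, ← mul_sum]
  rw [rhs]
  unfold tm an
  by_cases h2 : 2 ≤ nm z
  · rw [if_pos h2]
    unfold ac
    rfl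
  · rw [if_neg h2]
    have h3 : nm z = 1 := by
      have := nm_pos h0
      omega
    have h4 : g x = 0 := by
      apply hg.2.2.1
      rw [hx, h3]
      simp only [Nat.cast_one, Real.log_one, zero_sub, abs_neg]
      exact le_trans (by linarith) (le_abs_self _)
    rw [h4]
    simp

end WEXM

open WEXM

theorem specWEX (hTRG : SpecTRG) (_hSER : SpecSER) : SpecWEX := by
  obtain ⟨C₁, hC₁, hT⟩ := hTRG
  refine ⟨C₁ + 3, by linarith, ?_⟩
  intro B g hg G t ht hG lam hl0 hl1 j hj u v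
  have hB := hg.1
  have hlogt : 0 < Real.log t := Real.log_pos (by linarith)
  refine ⟨fun hv => ?_, fun hv => ?_, ?_⟩
  · rw [WN_eq hg]
    exact sum_eq_zero (fun z hz => tm_zero_of_le hg ht hG lam j u hv hz)
  · rw [WN_eq hg]
    set M : ℝ := B * (v + 1) ^ j * Real.exp (-(lam * v)) with hM
    have hM0 : 0 ≤ M := by
      rw [hM]
      have : 0 ≤ v + 1 := by linarith
      positivity
    calc ‖∑ z ∈ FF v, tm g G lam j u v z‖ ≤ ∑ z ∈ FF v, ‖tm g G lam j u v z‖ := norm_sum_le _ _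
      _ ≤ ∑ z ∈ FF v, rInd t (nm z) / (nm z : ℝ) * M :=
          sum_le_sum (fun z hz => norm_tm_le hg hG hl0 hl1 j u hz)
      _ = (∑ z ∈ FF v, rInd t (nm z) / (nm z : ℝ)) * M := by rw [sum_mul]
      _ ≤ (C₁ / Real.log t) * M := by
          apply mul_le_mul_of_nonneg_right _ hM0
          exact hT t v ht
      _ ≤ (C₁ + 3) * B * (v + 1) ^ j * Real.exp (-(lam * v)) / Real.log t := by
          have : (C₁ + 3) * B * (v + 1) ^ j * Real.exp (-(lam * v)) / Real.log t =
              ((C₁ + 3) / Real.log t) * M := by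
            rw [hM]
            ring
          rw [this]
          apply mul_le_mul_of_nonneg_right _ hM0
          gcongr
          linarith
  · intro δ K s L U hδ hL hs hO hKv hv2 huU
    have hδL : 0 < δ * L := mul_pos hδ hL
    have hWN : WN g G lam j u v = ((1 / 4 * Real.exp (-(lam * v)) : ℝ) : ℂ) *
        ∑ i ∈ range (j + 1), ((v ^ (j - i) * (j.choose i : ℝ) : ℝ) : ℂ) *
          VV G (gi g lam i) u v := by
      rw [WN_eq hg]
      have h1 : ∑ z ∈ FF v, tm g G lam j u v z =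
          ∑ z ∈ disc (Real.exp (v + 1)), tm g G lam j u v z := by
        apply sum_subset (filter_subset _ _)
        intro z _ hz
        exact tm_zero hg G lam j u v z hz
      rw [h1, sum_congr rfl (fun z hz => tm_eq hg G lam j u hv2 hz), ← mul_sum, sum_comm]
      congr 1
      apply sum_congr rfl
      intro i _
      rw [← mul_sum]
      rfl
    rw [hWN, norm_mul, Complex.norm_real, Real.norm_eq_abs, abs_of_nonneg (by positivity)]
    have hv0 : 0 ≤ v := by linarith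
    have hsum : ‖∑ i ∈ range (j + 1), ((v ^ (j - i) * (j.choose i : ℝ) : ℝ) : ℂ) *
        VV G (gi g lam i) u v‖ ≤ (v + 1) ^ j * (s * (12 * B) / (δ * L)) := by
      calc ‖∑ i ∈ range (j + 1), ((v ^ (j - i) * (j.choose i : ℝ) : ℝ) : ℂ) *
            VV G (gi g lam i) u v‖
          ≤ ∑ i ∈ range (j + 1), ‖((v ^ (j - i) * (j.choose i : ℝ) : ℝ) : ℂ) *
            VV G (gi g lam i) u v‖ := norm_sum_le _ _
        _ ≤ ∑ i ∈ range (j + 1), (v ^ (j - i) * (j.choose i : ℝ)) *
            (s * (12 * B) / (δ * L)) := by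
            apply sum_le_sum
            intro i hi
            have hi2 : i ≤ 2 := by
              have := mem_range.1 hi
              omega
            rw [norm_mul, Complex.norm_real, Real.norm_eq_abs, abs_of_nonneg (by positivity)]
            apply mul_le_mul_of_nonneg_left _ (by positivity)
            exact hO (12 * B) (gi g lam i) (gi_ker hg hl0 hl1 hi2) v u hKv huU
        _ = (v + 1) ^ j * (s * (12 * B) / (δ * L)) := by
            rw [← sum_mul, add_comm v 1, add_pow]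
            congr 1
            apply sum_congr rfl
            intro i _
            simp
    calc 1 / 4 * Real.exp (-(lam * v)) * ‖∑ i ∈ range (j + 1),
          ((v ^ (j - i) * (j.choose i : ℝ) : ℝ) : ℂ) * VV G (gi g lam i) u v‖
        ≤ 1 / 4 * Real.exp (-(lam * v)) * ((v + 1) ^ j * (s * (12 * B) / (δ * L))) := by
          gcongr
      _ = 3 * (s * B * (v + 1) ^ j * Real.exp (-(lam * v)) / (δ * L)) := by
          ring
      _ ≤ (C₁ + 3) * (s * B * (v + 1) ^ j * Real.exp (-(lam * v)) / (δ * L)) := by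
          apply mul_le_mul_of_nonneg_right (by linarith)
          have : 0 ≤ v + 1 := by linarith
          positivity
      _ = (C₁ + 3) * s * B * (v + 1) ^ j * Real.exp (-(lam * v)) / (δ * L) := by
          ring

end

end Pool.Agent.Lib.MP391708.X.PH
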