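import Pool.Agent.Lib.MP_391708_nt.X.PH.SpecA
import Pool.Agent.Lib.MP_391708_nt.MR.PG

/-!
# MP_391708, Theorem X, part PH, module WGM: Mertens for the density `gG` (helper64)
-/

set_option autoImplicit false

namespace Pool.Agent.Lib.MP391708.X.PH

open Finset Filter Topology
open Pool.Agent.Lib.MP391708.MR
open Pool.Agent.Lib.MP391708.QPA (Rough rInd PB)

namespace WGMM

theorem gG_bd (p : ℕ) (hp : p.Prime) : 0 ≤ gG p ∧ gG p ≤ 2 / (p : ℝ) ∧ gG p ≤ 2 / 3 := by
  have h2 : (2 : ℝ) ≤ p := by exact_mod_cast hp.two_le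
  have hp0 : (0 : ℝ) < p := by linarith
  unfold gG
  split_ifs with a b
  · subst a
    norm_num
  · have h5 : 5 ≤ p := by
      have := hp.two_le
      omega
    have h5' : (5 : ℝ) ≤ p := by exact_mod_cast h5
    have hle : (2 * (p : ℝ) - 1) / (p : ℝ) ^ 2 ≤ 2 / (p : ℝ) := by
      rw [div_le_div_iff₀ (by positivity) hp0]
      nlinarith
    refine ⟨div_nonneg (by linarith) (by positivity), hle, hle.trans ?_⟩
    rw [div_le_div_iff₀ hp0 (by norm_num)]
    linarith
  · have h3 : 3 ≤ p := by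
      have := hp.two_le
      omega
    have h3' : (3 : ℝ) ≤ p := by exact_mod_cast h3
    have hle : 1 / (p : ℝ) ^ 2 ≤ 2 / (p : ℝ) := by
      rw [div_le_div_iff₀ (by positivity) hp0]
      nlinarith
    refine ⟨by positivity, hle, hle.trans ?_⟩
    rw [div_le_div_iff₀ hp0 (by norm_num)]
    linarith

theorem mem_PB' {t : ℝ} {p : ℕ} (h : p ∈ PB t) : p.Prime := by
  unfold PB at h
  rw [mem_filter] at h
  exact h.2

theorem fac (p : ℕ) (hp : p.Prime) : 0 < 1 - gG p ∧ 1 - gG p ≤ 1 := by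
  obtain ⟨h1, _, h3⟩ := gG_bd p hp
  constructor <;> linarith

theorem WG_bd (t : ℝ) : 0 < WG t ∧ WG t ≤ 1 := by
  unfold WG
  constructor
  · exact Finset.prod_pos fun p hp => (fac p (mem_PB' hp)).1
  · exact Finset.prod_le_one (fun p hp => (fac p (mem_PB' hp)).1.le)
      (fun p hp => (fac p (mem_PB' hp)).2)

theorem WG_exp (t : ℝ) (ht : 6 ≤ t) : WG t ≤ Real.exp (-WW 3 (t / 2)) := by
  have h3 : (0 : ℝ) ≤ 3 := by norm_num
  have hsub : PG.Pm ⌊(3 : ℝ)⌋₊ ⌊t / 2⌋₊ ⊆ PB t := by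
    intro p hp
    rw [PG.Pm, mem_filter, mem_Ioc] at hp
    unfold PB
    rw [mem_filter, mem_range]
    refine ⟨?_, hp.2.1⟩
    rw [Nat.lt_ceil]
    have h1 : (p : ℝ) ≤ t / 2 := by
      have h4 : ((⌊t / 2⌋₊ : ℕ) : ℝ) ≤ t / 2 := Nat.floor_le (by linarith)
      have h5 : (p : ℝ) ≤ ((⌊t / 2⌋₊ : ℕ) : ℝ) := by exact_mod_cast hp.1.2
      linarith
    linarith
  have h1 : WG t ≤ ∏ p ∈ PG.Pm ⌊(3 : ℝ)⌋₊ ⌊t / 2⌋₊, (1 - gG p) := by
    unfold WG
    rw [← Finset.prod_sdiff hsub]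
    have ha : ∏ p ∈ PB t \ PG.Pm ⌊(3 : ℝ)⌋₊ ⌊t / 2⌋₊, (1 - gG p) ≤ 1 :=
      Finset.prod_le_one (fun p hp => (fac p (mem_PB' (mem_sdiff.1 hp).1)).1.le)
        (fun p hp => (fac p (mem_PB' (mem_sdiff.1 hp).1)).2)
    have hb : 0 ≤ ∏ p ∈ PG.Pm ⌊(3 : ℝ)⌋₊ ⌊t / 2⌋₊, (1 - gG p) :=
      Finset.prod_nonneg fun p hp => (fac p (mem_PB' (hsub hp))).1.le
    exact mul_le_of_le_one_left hb ha
  refine h1.trans ?_
  have h2 : ∏ p ∈ PG.Pm ⌊(3 : ℝ)⌋₊ ⌊t / 2⌋₊, (1 - gG p) ≤
      ∏ p ∈ PG.Pm ⌊(3 : ℝ)⌋₊ ⌊t / 2⌋₊, Real.exp (-(2 / (p : ℝ))) := by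
    apply Finset.prod_le_prod
    · intro p hp
      exact (fac p (mem_PB' (hsub hp))).1.le
    · intro p hp
      rw [PG.Pm, mem_filter, mem_Ioc] at hp
      have hpp : p.Prime := hp.2.1
      have h4 : p % 4 = 1 := hp.2.2
      have hp2 : p ≠ 2 := by
        rintro rfl
        norm_num at h4
      have hp0 : (0 : ℝ) < p := by exact_mod_cast hpp.pos
      have e : 1 - gG p = (1 - 1 / (p : ℝ)) ^ 2 := by
        unfold gG
        rw [if_neg hp2, if_pos h4]
        field_simp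
        ring
      rw [e]
      have h5 : 1 - 1 / (p : ℝ) ≤ Real.exp (-(1 / (p : ℝ))) := by
        have := Real.add_one_le_exp (-(1 / (p : ℝ)))
        linarith
      have h6 : 0 ≤ 1 - 1 / (p : ℝ) := by
        have : 1 / (p : ℝ) ≤ 1 := by
          rw [div_le_one hp0]
          exact_mod_cast hpp.one_lt.le
        linarith
      calc (1 - 1 / (p : ℝ)) ^ 2 ≤ Real.exp (-(1 / (p : ℝ))) ^ 2 := pow_le_pow_left₀ h6 h5 2
        _ = Real.exp (-(2 / (p : ℝ))) := by
            rw [← Real.exp_nat_mul]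
            congr 1
            push_cast
            ring
  refine h2.trans ?_
  rw [← Real.exp_sum]
  apply Real.exp_le_exp.2
  unfold WW
  rw [PG.gp_sum h3 (fun n : ℕ => 1 / (n : ℝ)), ← Finset.sum_neg_distrib]
  apply Finset.sum_le_sum
  intro p _
  rw [nsmul_eq_mul]
  push_cast
  apply le_of_eq
  ring

theorem third : ∃ C : ℝ, 0 < C ∧ ∀ t : ℝ, 2 ≤ t → WG t ≤ C / Real.log t := by
  obtain ⟨C, hC⟩ := specPG.2.1
  refine ⟨Real.log 6 + 2 * (Real.log 3 * Real.exp C), ?_, ?_⟩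
  · have h1 : 0 < Real.log 6 := Real.log_pos (by norm_num)
    have h2 : 0 < Real.log 3 := Real.log_pos (by norm_num)
    positivity
  intro t ht
  have hlt : 0 < Real.log t := Real.log_pos (by linarith)
  have hl3 : 0 < Real.log 3 := Real.log_pos (by norm_num)
  have hl6 : 0 < Real.log 6 := Real.log_pos (by norm_num)
  rw [le_div_iff₀ hlt]
  rcases lt_or_ge t 6 with h6 | h6
  · have h1 : Real.log t ≤ Real.log 6 := Real.log_le_log (by linarith) h6.le
    have h2 := WG_bd t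
    have h3 : WG t * Real.log t ≤ 1 * Real.log t := mul_le_mul_of_nonneg_right h2.2 hlt.le
    have h4 : 0 < 2 * (Real.log 3 * Real.exp C) := by positivity
    linarith
  · have hQ : (3 : ℝ) ≤ t / 2 := by linarith
    have h1 := hC 3 (t / 2) le_rfl hQ
    rw [abs_le] at h1
    have hl2 : 0 < Real.log (t / 2) := Real.log_pos (by linarith)
    have h2 : Real.log t ≤ 2 * Real.log (t / 2) := by
      have h3 : t ≤ (t / 2) ^ 2 := by nlinarith
      have h4 := Real.log_le_log (by linarith) h3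
      rw [Real.log_pow] at h4
      exact_mod_cast h4
    have h3 : WG t ≤ Real.log 3 * Real.exp C / Real.log (t / 2) := by
      refine (WG_exp t h6).trans ?_
      have h4 : Real.log 3 * Real.exp C / Real.log (t / 2) =
          Real.exp (Real.log (Real.log 3) + C - Real.log (Real.log (t / 2))) := by
        rw [Real.exp_sub, Real.exp_add, Real.exp_log hl3, Real.exp_log hl2]
      rw [h4]
      apply Real.exp_le_exp.2
      linarith [h1.1]
    have h5 : WG t * Real.log t ≤ Real.log 3 * Real.exp C / Real.log (t / 2) *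
        (2 * Real.log (t / 2)) := by
      apply mul_le_mul h3 h2 hlt.le
      positivity
    have h6' : Real.log 3 * Real.exp C / Real.log (t / 2) * (2 * Real.log (t / 2)) =
        2 * (Real.log 3 * Real.exp C) := by
      field_simp
    linarith

end WGMM

theorem specWGM : SpecWGM := ⟨WGMM.gG_bd, WGMM.WG_bd, WGMM.third⟩

end Pool.Agent.Lib.MP391708.X.PH
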