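import Pool.Agent.Lib.MP_391708_nt.X.PH.SpecA
import Pool.Agent.Lib.MP_391708_nt.MR.Basic

/-! # MP_391708, Theorem X, part PH, module WIN: windows of `ψ`. -/

set_option autoImplicit false

namespace Pool.Agent.Lib.MP391708.X.PH

open Finset Filter Topology MeasureTheory
open Pool.Agent.Lib.MP391708.MR
open Pool.Agent.Lib.MP054243.AV (ee)
open Pool.Agent.Lib.MP553de0.AA (Ker)

noncomputable section

namespace WINM

lemma norm_ee (x : ℝ) : ‖ee x‖ = 1 := by
  unfold ee
  rw [Complex.norm_exp]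
  simp

lemma ee_add (x y : ℝ) : ee (x + y) = ee x * ee y := by
  unfold ee
  rw [← Complex.exp_add]
  push_cast
  ring_nf

lemma norm_ee_sub_one (x : ℝ) : ‖ee x - 1‖ ≤ 2 * Real.pi * |x| := by
  unfold ee
  have h : (2 * Real.pi * Complex.I * (x : ℂ)) = ((2 * Real.pi * x : ℝ) : ℂ) * Complex.I := by
    push_cast; ring
  rw [h]
  have h1 := Real.norm_exp_I_mul_ofReal_sub_one_le (x := 2 * Real.pi * x)
  rw [mul_comm] at h1
  refine h1.trans ?_
  rw [Real.norm_eq_abs, abs_mul, abs_of_pos (by positivity : (0 : ℝ) < 2 * Real.pi)]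

lemma norm_ee_sub (x y : ℝ) : ‖ee x - ee y‖ ≤ 2 * Real.pi * |x - y| := by
  have h : ee x - ee y = ee y * (ee (x - y) - 1) := by
    rw [mul_sub, ← ee_add, add_sub_cancel, mul_one]
  rw [h, norm_mul, norm_ee, one_mul]
  exact norm_ee_sub_one _

/-- The weight. -/
def HH (g : ℝ → ℝ) (u w : ℝ) (n : ℕ) : ℂ :=
  ((g (Real.log n - w) / (n : ℝ) : ℝ) : ℂ) * ee (-(u * Real.log n))

lemma HH_zero {B : ℝ} {g : ℝ → ℝ} (hg : Ker B g) (u w : ℝ) (n : ℕ)
    (h : 1 ≤ |Real.log n - w|) : HH g u w n = 0 := by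
  unfold HH
  rw [hg.2.2.1 _ h]
  simp

lemma abel (ψ : Gi → ℂ) (H : ℕ → ℂ) (N : ℕ) (hH : H N = 0) :
    ∑ z ∈ disc (N : ℝ), ψ z * H (nm z) =
      -∑ i ∈ range N, (H (i + 1) - H i) * ∑ z ∈ disc (i : ℝ), ψ z := by
  have h1 : ∀ z ∈ disc (N : ℝ), ψ z * H (nm z) =
      -∑ i ∈ Ico (nm z) N, (H (i + 1) - H i) * ψ z := by
    intro z hz
    have h2 : nm z ≤ N := by exact_mod_cast (mem_disc.1 hz).2
    rw [← Finset.sum_mul, Finset.sum_Ico_sub _ h2, hH]
    ring
  rw [Finset.sum_congr rfl h1, Finset.sum_neg_distrib]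
  congr 1
  simp_rw [Finset.mul_sum]
  refine Finset.sum_comm' ?_
  intro z i
  rw [mem_disc, mem_disc, Finset.mem_Ico, Finset.mem_range]
  constructor
  · rintro ⟨⟨h2, h3⟩, h4, h5⟩
    exact ⟨⟨h2, by exact_mod_cast h4⟩, h5⟩
  · rintro ⟨⟨h2, h3⟩, h4⟩
    refine ⟨⟨h2, h3.trans (by exact_mod_cast h4.le)⟩, by exact_mod_cast h3, h4⟩

lemma window (G : Gi → ℂ) {B : ℝ} {g : ℝ → ℝ} (hg : Ker B g) (u w : ℝ) (N : ℕ)
    (hN : Real.exp (w + 1) ≤ N) : VV G g u w = ∑ z ∈ disc (N : ℝ), G z * HH g u w (nm z) := by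
  unfold VV HH
  rw [Finset.sum_congr rfl fun z _ => mul_assoc (G z) _ _]
  apply Finset.sum_subset
  · intro z hz
    rw [mem_disc] at hz ⊢
    exact ⟨hz.1, hz.2.trans hN⟩
  · intro z hz hz'
    rw [mem_disc] at hz hz'
    have h1 : Real.exp (w + 1) < nm z := by
      by_contra h
      exact hz' ⟨hz.1, not_lt.1 h⟩
    have h2 : w + 1 ≤ Real.log (nm z) := by
      rw [Real.le_log_iff_exp_le (nm_posR hz.1)]
      exact h1.le
    rw [hg.2.2.1 _ (by rw [le_abs]; left; linarith)]
    simp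

lemma log_diff {n : ℕ} (hn : 1 ≤ n) :
    0 ≤ Real.log ((n : ℝ) + 1) - Real.log n ∧ Real.log ((n : ℝ) + 1) - Real.log n ≤ 1 / n := by
  have h0 : (0 : ℝ) < n := by exact_mod_cast hn
  constructor
  · have := Real.log_le_log h0 (by linarith : (n : ℝ) ≤ n + 1)
    linarith
  · rw [← Real.log_div (by positivity) (by positivity)]
    have h1 := Real.log_le_sub_one_of_pos (by positivity : 0 < ((n : ℝ) + 1) / n)
    have h2 : ((n : ℝ) + 1) / n - 1 = 1 / n := by
      field_simp
      ring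
    linarith

lemma HH_diff {B : ℝ} {g : ℝ → ℝ} (hg : Ker B g) (u w : ℝ) {n : ℕ} (hn : 1 ≤ n) :
    ‖HH g u w (n + 1) - HH g u w n‖ ≤ 9 * B * (1 + |u|) / (n : ℝ) ^ 2 := by
  have h0 : (0 : ℝ) < n := by exact_mod_cast hn
  obtain ⟨hB, hg1, -, hg3⟩ := hg
  obtain ⟨hl0, hl1⟩ := log_diff hn
  unfold HH
  push_cast
  obtain ⟨s, hs⟩ : ∃ s, s = Real.log (n : ℝ) := ⟨_, rfl⟩
  obtain ⟨t, ht⟩ : ∃ t, t = Real.log ((n : ℝ) + 1) := ⟨_, rfl⟩
  rw [← hs, ← ht] at hl0 hl1
  rw [← hs, ← ht]
  have key : (g (t - w) : ℂ) / ((n : ℂ) + 1) * ee (-(u * t)) - (g (s - w) : ℂ) / (n : ℂ) * ee (-(u * s))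
      = (((g (t - w) * (1 / ((n : ℝ) + 1) - 1 / n) : ℝ)) : ℂ) * ee (-(u * t)) +
        ((((g (t - w) - g (s - w)) / n : ℝ)) : ℂ) * ee (-(u * t)) +
        (((g (s - w) / n : ℝ)) : ℂ) * (ee (-(u * t)) - ee (-(u * s))) := by
    push_cast
    have h1 : (n : ℂ) ≠ 0 := by exact_mod_cast h0.ne'
    have h2 : (n : ℂ) + 1 ≠ 0 := by exact_mod_cast (by positivity : (0 : ℝ) < (n : ℝ) + 1).ne'
    field_simp
    ring
  rw [key]
  have e1 : ‖(((g (t - w) * (1 / ((n : ℝ) + 1) - 1 / n) : ℝ)) : ℂ) * ee (-(u * t))‖ ≤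
      B / (n : ℝ) ^ 2 := by
    rw [norm_mul, norm_ee, mul_one, Complex.norm_real, Real.norm_eq_abs, abs_mul]
    have h3 : |1 / ((n : ℝ) + 1) - 1 / n| ≤ 1 / (n : ℝ) ^ 2 := by
      rw [abs_sub_comm, abs_of_nonneg]
      · rw [div_sub_div _ _ h0.ne' (by positivity), div_le_div_iff₀ (by positivity) (by positivity)]
        nlinarith
      · have := one_div_le_one_div_of_le h0 (by linarith : (n : ℝ) ≤ n + 1)
        linarith
    calc |g (t - w)| * |1 / ((n : ℝ) + 1) - 1 / n| ≤ B * (1 / (n : ℝ) ^ 2) :=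
          mul_le_mul (hg1 _) h3 (abs_nonneg _) hB
      _ = _ := by ring
  have e2 : ‖((((g (t - w) - g (s - w)) / n : ℝ)) : ℂ) * ee (-(u * t))‖ ≤ B / (n : ℝ) ^ 2 := by
    rw [norm_mul, norm_ee, mul_one, Complex.norm_real, Real.norm_eq_abs, abs_div,
      abs_of_pos h0]
    have h3 : |g (t - w) - g (s - w)| ≤ B * (1 / n) := by
      refine (hg3 _ _).trans (mul_le_mul_of_nonneg_left ?_ hB)
      rw [show t - w - (s - w) = t - s by ring, abs_of_nonneg hl0]
      exact hl1
    calc |g (t - w) - g (s - w)| / n ≤ B * (1 / n) / n := by gcongr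
      _ = _ := by field_simp
  have e3 : ‖(((g (s - w) / n : ℝ)) : ℂ) * (ee (-(u * t)) - ee (-(u * s)))‖ ≤
      7 * B * |u| / (n : ℝ) ^ 2 := by
    rw [norm_mul, Complex.norm_real, Real.norm_eq_abs, abs_div, abs_of_pos h0]
    have h3 : ‖ee (-(u * t)) - ee (-(u * s))‖ ≤ 7 * |u| * (1 / n) := by
      refine (norm_ee_sub _ _).trans ?_
      rw [show -(u * t) - -(u * s) = -(u * (t - s)) by ring, abs_neg, abs_mul, abs_of_nonneg hl0]
      have hpi : 2 * Real.pi ≤ 7 := by linarith [Real.pi_lt_d2]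
      calc 2 * Real.pi * (|u| * (t - s)) ≤ 7 * (|u| * (1 / n)) := by
            apply mul_le_mul hpi (mul_le_mul_of_nonneg_left hl1 (abs_nonneg u)) (by positivity)
              (by norm_num)
        _ = _ := by ring
    calc |g (s - w)| / n * ‖ee (-(u * t)) - ee (-(u * s))‖ ≤ B / n * (7 * |u| * (1 / n)) :=
          mul_le_mul (div_le_div_of_nonneg_right (hg1 _) h0.le) h3 (norm_nonneg _) (by positivity)
      _ = _ := by field_simp
  calc _ ≤ B / (n : ℝ) ^ 2 + B / (n : ℝ) ^ 2 + 7 * B * |u| / (n : ℝ) ^ 2 :=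
        (norm_add_le _ _).trans (add_le_add ((norm_add_le _ _).trans (add_le_add e1 e2)) e3)
    _ = (2 * B + 7 * B * |u|) / (n : ℝ) ^ 2 := by ring
    _ ≤ _ := by
        apply div_le_div_of_nonneg_right _ (by positivity)
        nlinarith [mul_nonneg hB (abs_nonneg u)]

end WINM

open WINM in
theorem specWIN (hPSU : SpecPSU) : SpecWIN := by
  intro A hA
  obtain ⟨c', x₀, hc', hc8, hx₀, H⟩ := hPSU (2 * A) (by linarith)
  refine ⟨c' / 2, max (max 4 (2 * Real.log x₀)) (2 / c' * 12), by positivity, by linarith,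
    le_trans (by norm_num) (le_trans (le_max_left 4 _) (le_max_left _ _)), ?_⟩
  intro w hw f χ m hf hfw hχ hNP hm B g hg u
  have hw4 : 4 ≤ w := (le_max_left 4 _).trans ((le_max_left _ _).trans hw)
  have hwx : 2 * Real.log x₀ ≤ w := (le_max_right 4 _).trans ((le_max_left _ _).trans hw)
  have hwc : 2 / c' * 12 ≤ w := (le_max_right _ _).trans hw
  have hB := hg.1
  obtain ⟨N, hN⟩ : ∃ N : ℕ, N = ⌊Real.exp (w + 1)⌋₊ + 1 := ⟨_, rfl⟩
  have hN1 : Real.exp (w + 1) < N := by
    rw [hN]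
    push_cast
    exact Nat.lt_floor_add_one _
  have hN2 : (N : ℝ) ≤ 2 * Real.exp (w + 1) := by
    have h1 : ((⌊Real.exp (w + 1)⌋₊ : ℕ) : ℝ) ≤ Real.exp (w + 1) :=
      Nat.floor_le (Real.exp_pos _).le
    have h2 : 1 ≤ Real.exp (w + 1) := Real.one_le_exp (by linarith)
    rw [hN]
    push_cast
    linarith
  have hN0 : (0 : ℝ) < N := (Real.exp_pos _).trans hN1
  have hHN : HH g u w N = 0 := by
    apply HH_zero hg
    rw [le_abs]
    left
    have : w + 1 ≤ Real.log N := by
      rw [Real.le_log_iff_exp_le hN0]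
      exact hN1.le
    linarith
  rw [window (ps χ m) hg u w N hN1.le, abel _ _ N hHN, norm_neg]
  -- the size of `e^(w-1)`
  have hbig : Real.exp (w / 2) + 1 ≤ Real.exp (w - 1) := by
    have h1 : Real.exp (w - 1) = Real.exp (w / 2) * Real.exp (w / 2 - 1) := by
      rw [← Real.exp_add]
      congr 1
      ring
    have h2 : 2 ≤ Real.exp (w / 2 - 1) := by
      have := Real.add_one_le_exp (w / 2 - 1)
      linarith
    have h3 : 1 ≤ Real.exp (w / 2) := Real.one_le_exp (by linarith)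
    rw [h1]
    nlinarith
  have hterm : ∀ i ∈ range N, ‖(HH g u w (i + 1) - HH g u w i) * ∑ z ∈ disc (i : ℝ), ps χ m z‖ ≤
      9 * B * (1 + |u|) * (4 * Real.exp 2 * Real.exp (-2 * w)) *
        Real.exp ((w + 1) * (1 - c')) := by
    intro i hi
    by_cases hi1 : ((i : ℝ) + 1) ≤ Real.exp (w - 1)
    · -- both vanish
      have h1 : HH g u w (i + 1) = 0 := by
        apply HH_zero hg
        rw [le_abs]
        right
        have : Real.log ((i + 1 : ℕ) : ℝ) ≤ w - 1 := by
          rw [Real.log_le_iff_le_exp (by positivity)]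
          push_cast
          exact hi1
        linarith
      have h2 : HH g u w i = 0 := by
        apply HH_zero hg
        rw [le_abs]
        right
        rcases Nat.eq_zero_or_pos i with h0 | h0
        · rw [h0, Nat.cast_zero, Real.log_zero]
          linarith
        · have : Real.log (i : ℝ) ≤ w - 1 := by
            rw [Real.log_le_iff_le_exp (by exact_mod_cast h0)]
            linarith
          linarith
      rw [h1, h2, sub_zero, zero_mul, norm_zero]
      positivity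
    · push Not at hi1
      have hi2 : Real.exp (w / 2) ≤ i := by linarith
      have hi3 : Real.exp (w - 1) / 2 ≤ i := by
        have : 2 ≤ Real.exp (w - 1) := by
          have h3 : 1 ≤ Real.exp (w / 2) := Real.one_le_exp (by linarith)
          linarith
        linarith
      have hi0 : (0 : ℝ) < i := (Real.exp_pos _).trans_le hi2
      have hi4 : 1 ≤ i := by exact_mod_cast hi0
      have hi5 : (i : ℝ) ≤ Real.exp (w + 1) := by
        have h1 : i ≤ ⌊Real.exp (w + 1)⌋₊ := by
          have := Finset.mem_range.1 hi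
          omega
        exact (Nat.cast_le.2 h1).trans (Nat.floor_le (Real.exp_pos _).le)
      have hlogi : w / 2 ≤ Real.log i := by
        rw [Real.le_log_iff_exp_le hi0]
        exact hi2
      have hS : ‖∑ z ∈ disc (i : ℝ), ps χ m z‖ ≤ Real.exp ((w + 1) * (1 - c')) := by
        have h1 := H i (by
            have : x₀ ≤ Real.exp (w / 2) := by
              rw [← Real.log_le_iff_le_exp (by linarith)]
              linarith
            linarith) f χ m hf (by
            refine hfw.trans ?_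
            rw [Real.rpow_def_of_pos hi0, Real.exp_le_exp]
            nlinarith) hχ hNP (by
            refine hm.trans ?_
            rw [Real.rpow_def_of_pos hi0, Real.exp_le_exp]
            nlinarith)
        refine h1.trans ?_
        rw [Real.rpow_def_of_pos hi0, Real.exp_le_exp]
        have h2 : Real.log i ≤ w + 1 := by
          rw [Real.log_le_iff_le_exp hi0]
          exact hi5
        exact mul_le_mul_of_nonneg_right h2 (by linarith)
      rw [norm_mul]
      refine mul_le_mul ?_ hS (norm_nonneg _) (by positivity)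
      refine (HH_diff hg u w hi4).trans ?_
      rw [div_eq_mul_inv]
      refine mul_le_mul_of_nonneg_left ?_ (by positivity)
      have h5 : 4 * Real.exp 2 * Real.exp (-2 * w) = ((Real.exp (w - 1) / 2) ^ 2)⁻¹ := by
        rw [div_pow, inv_div, ← Real.exp_nat_mul]
        have : Real.exp (((2 : ℕ) : ℝ) * (w - 1)) = (Real.exp 2 * Real.exp (-2 * w))⁻¹ := by
          rw [← Real.exp_add, ← Real.exp_neg]
          congr 1
          push_cast
          ring
        rw [this, div_inv_eq_mul]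
        ring
      rw [h5]
      apply inv_anti₀ (by positivity)
      exact pow_le_pow_left₀ (by positivity) hi3 2
  calc ‖∑ i ∈ range N, (HH g u w (i + 1) - HH g u w i) * ∑ z ∈ disc (i : ℝ), ps χ m z‖
      ≤ ∑ i ∈ range N, 9 * B * (1 + |u|) * (4 * Real.exp 2 * Real.exp (-2 * w)) *
        Real.exp ((w + 1) * (1 - c')) := (norm_sum_le _ _).trans (Finset.sum_le_sum hterm)
    _ = N * (9 * B * (1 + |u|) * (4 * Real.exp 2 * Real.exp (-2 * w)) *
        Real.exp ((w + 1) * (1 - c'))) := by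
        rw [Finset.sum_const, Finset.card_range, nsmul_eq_mul]
    _ ≤ 2 * Real.exp (w + 1) * (9 * B * (1 + |u|) * (4 * Real.exp 2 * Real.exp (-2 * w)) *
        Real.exp ((w + 1) * (1 - c'))) := mul_le_mul_of_nonneg_right hN2 (by positivity)
    _ = B * (1 + |u|) * (72 * (Real.exp (w + 1) * Real.exp 2 * Real.exp (-2 * w) *
        Real.exp ((w + 1) * (1 - c')))) := by ring
    _ ≤ B * (1 + |u|) * Real.exp (-(c' / 2 * w)) := by
        refine mul_le_mul_of_nonneg_left ?_ (by positivity)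
        have h72 : (72 : ℝ) ≤ Real.exp 5 := by
          have h1 := Real.exp_one_gt_d9
          have h2 : Real.exp 5 = Real.exp 1 ^ 5 := by
            rw [← Real.exp_nat_mul]
            norm_num
          rw [h2]
          have h3 : (2.7 : ℝ) ^ 5 ≤ Real.exp 1 ^ 5 :=
            pow_le_pow_left₀ (by norm_num) (by linarith) 5
          refine le_trans ?_ h3
          norm_num
        rw [← Real.exp_add, ← Real.exp_add, ← Real.exp_add]
        refine (mul_le_mul_of_nonneg_right h72 (Real.exp_pos _).le).trans ?_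
        rw [← Real.exp_add, Real.exp_le_exp]
        have h3 : 12 ≤ c' / 2 * w := by
          have h4 : c' / 2 * (2 / c' * 12) ≤ c' / 2 * w :=
            mul_le_mul_of_nonneg_left hwc (by positivity)
          have h5 : c' / 2 * (2 / c' * 12) = 12 := by
            field_simp
          linarith
        nlinarith

end

end Pool.Agent.Lib.MP391708.X.PH
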