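import Pool.Agent.Lib.MP_391708_nt.X.TYU
import Pool.Agent.Lib.MP_391708_nt.X.CTU
import Pool.Agent.Lib.MP_391708_nt.X.SCZ
import Pool.Agent.Lib.MP_391708_nt.X.ANC
import Pool.Agent.Lib.MP_391708_nt.MR.VDC
import Pool.Agent.Lib.MP_391708_nt.X.PH.CHB
import Pool.Agent.Lib.MP_391708_nt.X.PH.PSU
import Pool.Agent.Lib.MP_391708_nt.X.PH.WIN
import Pool.Agent.Lib.MP_391708_nt.X.PH.UWN
import Pool.Agent.Lib.MP_391708_nt.X.PH.TWN
import Pool.Agent.Lib.MP_391708_nt.X.PH.DIV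
import Pool.Agent.Lib.MP_391708_nt.X.PH.WGM
import Pool.Agent.Lib.MP_391708_nt.X.PH.FLU
import Pool.Agent.Lib.MP_391708_nt.X.PH.TRG
import Pool.Agent.Lib.MP_391708_nt.X.PH.ROG
import Pool.Agent.Lib.MP_391708_nt.X.PH.OSG
import Pool.Agent.Lib.MP_391708_nt.X.PH.PLI
import Pool.Agent.Lib.MP_391708_nt.X.PH.INV
import Pool.Agent.Lib.MP_391708_nt.X.PH.SER
import Pool.Agent.Lib.MP_391708_nt.X.PH.IDG
import Pool.Agent.Lib.MP_391708_nt.X.PH.TPP
import Pool.Agent.Lib.MP_391708_nt.X.PH.T1G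
import Pool.Agent.Lib.MP_391708_nt.X.PH.T2G
import Pool.Agent.Lib.MP_391708_nt.X.PH.WEX
import Pool.Agent.Lib.MP_391708_nt.X.PH.FBG
import Pool.Agent.Lib.MP_391708_nt.X.PH.FLG
import Pool.Agent.Lib.MP_391708_nt.X.PH.AWG
import Pool.Agent.Lib.MP_391708_nt.X.PH.PWG
import Pool.Agent.Lib.MP_391708_nt.X.PH.BLG
import Pool.Agent.Lib.MP_391708_nt.X.PH.NCG
import Pool.Agent.Lib.MP_391708_nt.X.PH.HCH
import Pool.Agent.Lib.MP_391708_nt.X.PH.RSW
import Pool.Agent.Lib.MP_391708_nt.X.PH.PHF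
import Pool.Agent.Lib.MP_391708_nt.X.PH.PHX

/-!
# MP_391708, Theorem X, part PH: assembly
-/

set_option autoImplicit false

namespace Pool.Agent.Lib.MP391708.X.PH

open Pool.Agent.Lib.MP391708

theorem mANC : X.SpecANC := X.specANC (X.specTYU MR.specVDC) X.specCTU X.specSCZ
theorem mPSU : SpecPSU := specPSU mANC
theorem mWIN : SpecWIN := specWIN mPSU
theorem mFLU : SpecFLU := specFLU specUWN specDIV specWGM
theorem mTRG : SpecTRG := specTRG specWGM mFLU
theorem mROG : SpecROG := specROG mWIN specUWN specTWN specDIV specWGM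
theorem mOSG : SpecOSG := specOSG specWGM mROG
theorem mIDG : SpecIDG := specIDG specSER
theorem mTPP : SpecTPP := specTPP specSER
theorem mT1G : SpecT1G := specT1G specSER
theorem mT2G : SpecT2G := specT2G specSER
theorem mWEX : SpecWEX := specWEX mTRG specSER
theorem mFBG : SpecFBG := specFBG specPLI specSER mWEX
theorem mFLG : SpecFLG := specFLG specSER mT1G mT2G mFBG
theorem mAWG : SpecAWG := specAWG specPLI specINV specSER mIDG mTPP mWEX mFBG mFLG
theorem mPWG : SpecPWG := specPWG specCHB mOSG mTPP mAWG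
theorem mBLG : SpecBLG := specBLG specCHB mPWG
theorem mHCH : SpecHCH := specHCH specNCG
theorem mRSW : SpecRSW := specRSW mHCH
theorem mPHF : SpecPHF := specPHF specCHB mBLG mRSW
theorem mPHX : SpecPHX := specPHX mPHF

end Pool.Agent.Lib.MP391708.X.PH
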