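import Pool.Agent.Lib.MP_391708_nt.X.PH.SpecA
import Pool.Agent.Lib.MP_391708_nt.MR.Basic

/-!
# MP_391708, Theorem X, part PH, module DIV (helper46): `δ ∣ N(z)` in terms of divisors in `ℤ[i]`
-/

set_option autoImplicit false

namespace Pool.Agent.Lib.MP391708.X.PH

open Finset Filter Topology MeasureTheory
open Pool.Agent.Lib.MP391708.MR

namespace DIVM

open scoped Classical in
/-- the statement with an arbitrary finite index type -/
def Q (δ : ℕ) : Prop := ∃ (ι : Type) (_ : Fintype ι) (α : ι → Gi) (e : ι → ℝ),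
  Fintype.card ι ≤ 3 ^ δ.primeFactors.card ∧
  (∀ i, α i ≠ 0 ∧ δ ∣ nm (α i) ∧ nm (α i) ∣ δ ^ 2 ∧ |e i| ≤ 1) ∧
  (∀ z : Gi, ∑ i, (if α i ∣ z then e i else 0) = if δ ∣ nm z then 1 else 0) ∧
  ∑ i, e i / (nm (α i) : ℝ) = ∏ p ∈ δ.primeFactors, gG p

theorem nm_star_mul (z : Gi) : ((nm z : ℕ) : Gi) = z * star z := by
  have h2 := Zsqrtd.norm_eq_mul_conj z
  rw [← h2, nm_norm]
  have h3 : ((z.norm.natAbs : ℕ) : ℤ) = z.norm :=
    Int.natAbs_of_nonneg (GaussianInt.norm_nonneg z)
  rw [← Int.cast_natCast, h3]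

theorem nm_star (z : Gi) : nm (star z) = nm z := by
  unfold nm
  simp

theorem nm_nat (n : ℕ) : nm (n : Gi) = n ^ 2 := by
  have h := nm_cast (n : Gi)
  simp only [Zsqrtd.re_natCast, Zsqrtd.im_natCast] at h
  have h2 : ((nm (n : Gi) : ℕ) : ℤ) = ((n ^ 2 : ℕ) : ℤ) := by
    rw [h]
    push_cast
    ring
  exact_mod_cast h2

theorem dvd_star {x y : Gi} (h : x ∣ y) : star x ∣ star y := by
  obtain ⟨c, rfl⟩ := h
  rw [star_mul']
  exact dvd_mul_right _ _

theorem cop {a b : ℕ} (h : Nat.Coprime a b) {x y : Gi} (hx : nm x ∣ a ^ 2) (hy : nm y ∣ b ^ 2) :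
    IsCoprime x y := by
  have h1 : Nat.Coprime (nm x) (nm y) :=
    Nat.Coprime.coprime_dvd_left hx (Nat.Coprime.coprime_dvd_right hy (Nat.Coprime.pow 2 2 h))
  have h2 := Nat.isCoprime_iff_coprime.2 h1
  obtain ⟨u, v, huv⟩ := h2
  refine ⟨(u : Gi) * star x, (v : Gi) * star y, ?_⟩
  have h3 : ((u * (nm x : ℤ) + v * (nm y : ℤ) : ℤ) : Gi) = 1 := by
    rw [huv]
    simp
  push_cast at h3
  rw [nm_star_mul, nm_star_mul] at h3
  rw [← h3]
  ring

theorem q_one : Q 1 := by
  classical
  refine ⟨Unit, inferInstance, fun _ => 1, fun _ => 1, ?_, ?_, ?_, ?_⟩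
  · simp
  · intro i
    refine ⟨one_ne_zero, ?_, ?_, ?_⟩ <;> simp
  · intro z
    simp
  · simp

theorem q_mul (a b : ℕ) (hc : Nat.Coprime a b) (ha : Q a) (hb : Q b) : Q (a * b) := by
  classical
  obtain ⟨ι, hι, α, e, a1, a2, a3, a4⟩ := ha
  obtain ⟨κ, hκ, β, f, b1, b2, b3, b4⟩ := hb
  refine ⟨ι × κ, inferInstance, fun i => α i.1 * β i.2, fun i => e i.1 * f i.2, ?_, ?_, ?_, ?_⟩
  · rw [Fintype.card_prod, hc.primeFactors_mul,
      Finset.card_union_of_disjoint hc.disjoint_primeFactors, pow_add]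
    exact Nat.mul_le_mul a1 b1
  · rintro ⟨i, j⟩
    obtain ⟨c1, c2, c3, c4⟩ := a2 i
    obtain ⟨d1, d2, d3, d4⟩ := b2 j
    refine ⟨mul_ne_zero c1 d1, ?_, ?_, ?_⟩
    · rw [nm_mul]
      exact mul_dvd_mul c2 d2
    · rw [nm_mul, mul_pow]
      exact mul_dvd_mul c3 d3
    · rw [abs_mul]
      exact mul_le_one₀ c4 (abs_nonneg _) d4
  · intro z
    have h1 : ∀ i j, (if α i * β j ∣ z then e i * f j else 0) =
        (if α i ∣ z then e i else 0) * (if β j ∣ z then f j else 0) := by
      intro i j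
      have hij : IsCoprime (α i) (β j) := cop hc (a2 i).2.2.1 (b2 j).2.2.1
      by_cases h2 : α i ∣ z
      · by_cases h3 : β j ∣ z
        · rw [if_pos h2, if_pos h3, if_pos (hij.mul_dvd h2 h3)]
        · rw [if_neg h3, mul_zero, if_neg (fun h => h3 ((dvd_mul_left _ _).trans h))]
      · rw [if_neg h2, zero_mul, if_neg (fun h => h2 ((dvd_mul_right _ _).trans h))]
    show ∑ i : ι × κ, (if α i.1 * β i.2 ∣ z then e i.1 * f i.2 else 0) = _
    rw [Fintype.sum_prod_type]
    simp only [h1]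
    rw [← Finset.sum_mul_sum, a3, b3]
    by_cases h2 : a ∣ nm z
    · by_cases h3 : b ∣ nm z
      · rw [if_pos h2, if_pos h3, if_pos (hc.mul_dvd_of_dvd_of_dvd h2 h3), one_mul]
      · rw [if_neg h3, mul_zero, if_neg (fun h => h3 ((dvd_mul_left _ _).trans h))]
    · rw [if_neg h2, zero_mul, if_neg (fun h => h2 ((dvd_mul_right _ _).trans h))]
  · rw [hc.primeFactors_mul, Finset.prod_union hc.disjoint_primeFactors, ← a4, ← b4,
      Finset.sum_mul_sum, Fintype.sum_prod_type]
    apply Finset.sum_congr rfl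
    intro i _
    apply Finset.sum_congr rfl
    intro j _
    show e i * f j / (nm (α i * β j) : ℝ) = _
    rw [nm_mul]
    push_cast
    rw [div_mul_div_comm]

/-- one divisor -/
theorem q_single (p : ℕ) (hp : p.Prime) (a : Gi) (h0 : a ≠ 0) (h1 : p ∣ nm a)
    (h2 : nm a ∣ p ^ 2) (h3 : ∀ z : Gi, a ∣ z ↔ p ∣ nm z) (h4 : 1 / (nm a : ℝ) = gG p) : Q p := by
  classical
  refine ⟨Unit, inferInstance, fun _ => a, fun _ => 1, ?_, ?_, ?_, ?_⟩
  · rw [hp.primeFactors]
    simp
  · intro i
    exact ⟨h0, h1, h2, by simp⟩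
  · intro z
    simp [h3]
  · rw [hp.primeFactors]
    simp only [Finset.univ_unique, Finset.sum_const, Finset.card_singleton, one_smul,
      Finset.prod_singleton]
    exact h4

theorem q_two : Q 2 := by
  apply q_single 2 Nat.prime_two ⟨1, 1⟩
  · intro h
    have := congrArg Zsqrtd.re h
    simp at this
  · exact ⟨1, by decide⟩
  · exact ⟨2, by decide⟩
  · intro z
    constructor
    · intro h
      have := nm_dvd h
      exact (show (2 : ℕ) ∣ nm ⟨1, 1⟩ from ⟨1, by decide⟩).trans this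
    · intro h
      have h2 : ((2 : ℕ) : ℤ) ∣ z.re ^ 2 + z.im ^ 2 := by
        rw [← nm_cast]
        exact_mod_cast h
      have h3 : (2 : ℤ) ∣ z.re + z.im := by
        have h4 : (2 : ℤ) ∣ (z.re + z.im) ^ 2 := by
          have : (z.re + z.im) ^ 2 = (z.re ^ 2 + z.im ^ 2) + 2 * (z.re * z.im) := by ring
          rw [this]
          exact dvd_add (by exact_mod_cast h2) (dvd_mul_right _ _)
        exact Int.prime_two.dvd_of_dvd_pow h4
      obtain ⟨c, hc⟩ := h3
      refine ⟨⟨c, c - z.re⟩, ?_⟩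
      ext
      · simp only [Zsqrtd.re_mul]
        ring
      · simp only [Zsqrtd.im_mul]
        linarith
  · have h : nm (⟨1, 1⟩ : Gi) = 2 := by decide
    rw [h]
    unfold gG
    simp

theorem q_three (p : ℕ) (hp : p.Prime) (h : p % 4 = 3) : Q p := by
  have : Fact p.Prime := ⟨hp⟩
  have hpr : Prime (p : Gi) := GaussianInt.prime_iff_mod_four_eq_three_of_nat_prime p |>.2 h
  apply q_single p hp (p : Gi) hpr.ne_zero
  · rw [nm_nat]
    exact ⟨p, by ring⟩
  · rw [nm_nat]
  · intro z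
    constructor
    · intro hz
      have := nm_dvd hz
      rw [nm_nat] at this
      exact (dvd_pow_self p two_ne_zero).trans this
    · intro hz
      have h2 : (p : Gi) ∣ z * star z := by
        rw [← nm_star_mul]
        exact_mod_cast (Nat.cast_dvd_cast hz : ((p : ℕ) : Gi) ∣ ((nm z : ℕ) : Gi))
      rcases hpr.dvd_or_dvd h2 with h3 | h3
      · exact h3
      · have := dvd_star h3
        rw [star_star, star_natCast] at this
        exact this
  · rw [nm_nat]
    unfold gG
    have h1 : p ≠ 2 := by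
      rintro rfl
      simp at h
    have h2 : p % 4 ≠ 1 := by omega
    rw [if_neg h1, if_neg h2]
    push_cast
    rfl

theorem q_onemod (p : ℕ) (hp : p.Prime) (h : p % 4 = 1) : Q p := by
  classical
  have : Fact p.Prime := ⟨hp⟩
  obtain ⟨a, b, hab⟩ := Nat.Prime.sq_add_sq (p := p) (by omega)
  let π : Gi := ⟨a, b⟩
  let π' : Gi := ⟨a, -b⟩
  have hs : star π = π' := by
    ext <;> simp [π, π']
  have hs' : star π' = π := by
    rw [← hs, star_star]
  have hn : nm π = p := by
    have h1 := nm_cast π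
    have h2 : ((nm π : ℕ) : ℤ) = (p : ℤ) := by
      rw [h1, ← hab]
      push_cast
      rfl
    exact_mod_cast h2
  have hn' : nm π' = p := by
    rw [← hs, nm_star, hn]
  have hpp : (p : Gi) = π * π' := by
    have := nm_star_mul π
    rw [hn, hs] at this
    exact this
  have hpr : Prime π := prime_of_nm_prime (by rw [hn]; exact hp)
  have hpr' : Prime π' := prime_of_nm_prime (by rw [hn']; exact hp)
  have hp2 : 2 < p := by
    have := hp.two_le
    omega
  have hnd : ¬ π' ∣ π := by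
    intro hd
    have h1 : π' ∣ π + π' := dvd_add hd dvd_rfl
    have h2 := nm_dvd h1
    rw [hn'] at h2
    have h3 : nm (π + π') = 4 * a ^ 2 := by
      have h4 := nm_cast (π + π')
      have h5 : ((nm (π + π') : ℕ) : ℤ) = ((4 * a ^ 2 : ℕ) : ℤ) := by
        rw [h4]
        simp only [Zsqrtd.re_add, Zsqrtd.im_add, π, π']
        push_cast
        ring
      exact_mod_cast h5
    rw [h3] at h2
    have h4 : p ∣ a := by
      rcases (hp.dvd_mul).1 h2 with h5 | h5
      · exfalso
        have h6 : p ∣ 2 ^ 2 := by simpa using h5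
        have := Nat.le_of_dvd (by norm_num) (hp.dvd_of_dvd_pow h6)
        omega
      · exact hp.dvd_of_dvd_pow h5
    have h5 : p ∣ b := by
      have h6 : p ∣ a ^ 2 + b ^ 2 := by rw [hab]
      exact hp.dvd_of_dvd_pow ((Nat.dvd_add_right (dvd_pow h4 two_ne_zero)).1 h6)
    have h6 : p ^ 2 ∣ p := by
      conv_rhs => rw [← hab]
      exact dvd_add (pow_dvd_pow_of_dvd h4 2) (pow_dvd_pow_of_dvd h5 2)
    have h7 := Nat.le_of_dvd hp.pos h6
    nlinarith
  have hdv : ∀ z : Gi, p ∣ nm z ↔ (π ∣ z ∨ π' ∣ z) := by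
    intro z
    constructor
    · intro hz
      have h2 : π ∣ z * star z := by
        rw [← nm_star_mul]
        have h3 : ((p : ℕ) : Gi) ∣ ((nm z : ℕ) : Gi) := Nat.cast_dvd_cast hz
        exact (Dvd.intro π' hpp.symm).trans h3
      rcases hpr.dvd_or_dvd h2 with h3 | h3
      · exact Or.inl h3
      · right
        have := dvd_star h3
        rwa [star_star, hs] at this
    · rintro (h1 | h1)
      · have := nm_dvd h1
        rwa [hn] at this
      · have := nm_dvd h1
        rwa [hn'] at this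
  have hboth : ∀ z : Gi, (p : Gi) ∣ z ↔ (π ∣ z ∧ π' ∣ z) := by
    intro z
    constructor
    · intro hz
      rw [hpp] at hz
      exact ⟨(dvd_mul_right _ _).trans hz, (dvd_mul_left _ _).trans hz⟩
    · rintro ⟨⟨y, rfl⟩, h2⟩
      rcases hpr'.dvd_or_dvd h2 with h3 | h3
      · exact absurd h3 hnd
      · rw [hpp]
        exact mul_dvd_mul_left _ h3
  refine ⟨Fin 3, inferInstance, ![π, π', (p : Gi)], ![1, 1, -1], ?_, ?_, ?_, ?_⟩
  · rw [hp.primeFactors]
    simp
  · intro i
    fin_cases i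
    · refine ⟨hpr.ne_zero, ?_, ?_, ?_⟩
      · show p ∣ nm π
        rw [hn]
      · show nm π ∣ p ^ 2
        rw [hn]
        exact ⟨p, by ring⟩
      · simp
    · refine ⟨hpr'.ne_zero, ?_, ?_, ?_⟩
      · show p ∣ nm π'
        rw [hn']
      · show nm π' ∣ p ^ 2
        rw [hn']
        exact ⟨p, by ring⟩
      · simp
    · refine ⟨?_, ?_, ?_, ?_⟩
      · show (p : Gi) ≠ 0
        rw [hpp]
        exact mul_ne_zero hpr.ne_zero hpr'.ne_zero
      · show p ∣ nm (p : Gi)
        rw [nm_nat]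
        exact ⟨p, by ring⟩
      · show nm (p : Gi) ∣ p ^ 2
        rw [nm_nat]
      · simp
  · intro z
    rw [Fin.sum_univ_three]
    show (if π ∣ z then (1 : ℝ) else 0) + (if π' ∣ z then (1 : ℝ) else 0) +
      (if (p : Gi) ∣ z then (-1 : ℝ) else 0) = _
    by_cases h1 : π ∣ z <;> by_cases h2 : π' ∣ z <;> simp [h1, h2, hdv z, hboth z]
  · rw [Fin.sum_univ_three, hp.primeFactors, Finset.prod_singleton]
    show (1 : ℝ) / (nm π : ℝ) + 1 / (nm π' : ℝ) + (-1) / (nm (p : Gi) : ℝ) = gG p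
    rw [hn, hn', nm_nat]
    unfold gG
    rw [if_neg (by omega), if_pos h]
    have hp0 : (p : ℝ) ≠ 0 := by exact_mod_cast hp.pos.ne'
    push_cast
    field_simp
    ring

theorem q_all (δ : ℕ) : Squarefree δ → Q δ := by
  induction δ using Nat.recOnPrimeCoprime with
  | zero =>
    intro h
    exact absurd h not_squarefree_zero
  | prime_pow p n hp =>
    intro h
    rcases Nat.lt_or_ge n 2 with hn | hn
    · interval_cases n
      · rw [pow_zero]
        exact q_one
      · rw [pow_one]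
        rcases hp.eq_two_or_odd with h2 | h2
        · rw [h2]
          exact q_two
        · have h3 : p % 4 = 1 ∨ p % 4 = 3 := by omega
          rcases h3 with h3 | h3
          · exact q_onemod p hp h3
          · exact q_three p hp h3
    · exfalso
      have h1 : p * p ∣ p ^ n := by
        rw [← pow_two]
        exact pow_dvd_pow p hn
      exact hp.one_lt.ne' (Nat.isUnit_iff.1 (h p h1))
  | coprime a b _ _ hc ha hb =>
    intro h
    exact q_mul a b hc (ha (h.squarefree_of_dvd (dvd_mul_right _ _)))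
      (hb (h.squarefree_of_dvd (dvd_mul_left _ _)))

end DIVM

open scoped Classical in
open DIVM in
theorem specDIV : SpecDIV := by
  intro δ hδ
  obtain ⟨ι, hι, α, e, h1, h2, h3, h4⟩ := q_all δ hδ
  let E := Fintype.equivFin ι
  refine ⟨Fintype.card ι, fun i => α (E.symm i), fun i => e (E.symm i), h1,
    fun i => h2 _, ?_, ?_⟩
  · intro z
    rw [← h3 z]
    exact Equiv.sum_comp E.symm fun i => if α i ∣ z then e i else 0
  · rw [← h4]
    exact Equiv.sum_comp E.symm fun i => e i / (nm (α i) : ℝ)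

end Pool.Agent.Lib.MP391708.X.PH
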