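import Pool.Agent.Lib.MP_391708_nt.X.PH.SpecC

/-!
# MP_391708, Theorem X, part PH, module PHF: the theorem (helper9)
-/

set_option autoImplicit false

namespace Pool.Agent.Lib.MP391708.X.PH

open Finset Filter Topology MeasureTheory
open Pool.Agent.Lib.MP391708.MR

namespace PHFM

theorem real_of_sq {a : ℂ} (h : a ^ 2 = 0 ∨ a ^ 2 = 1) : a = 0 ∨ a = 1 ∨ a = -1 := by
  rcases h with h | h
  · exact Or.inl ((pow_eq_zero_iff two_ne_zero).1 h)
  · have h1 : (a - 1) * (a + 1) = 0 := by linear_combination h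
    rcases mul_eq_zero.1 h1 with h2 | h2
    · exact Or.inr (Or.inl (sub_eq_zero.1 h2))
    · exact Or.inr (Or.inr (eq_neg_of_add_eq_zero_left h2))

theorem eq_of_prod {a b : ℂ} (ha : a = 0 ∨ a = 1 ∨ a = -1) (hb : b = 0 ∨ b = 1 ∨ b = -1)
    (h0 : a ≠ 0) (hb0 : b ≠ 0) (h : b * a = 0 ∨ b * a = 1) : a = b := by
  rcases ha with rfl | rfl | rfl
  · exact absurd rfl h0
  · rcases hb with rfl | rfl | rfl
    · exact absurd rfl hb0
    · rfl
    · rcases h with h | h <;> norm_num at h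
  · rcases hb with rfl | rfl | rfl
    · exact absurd rfl hb0
    · rcases h with h | h <;> norm_num at h
    · rfl

/-- if `(χ, m)` is not principal and not in the cases of the analytic method -/
theorem not_good {f : ℕ} {χ : Gi → ℂ} {m : ℤ} (hf : 0 < f) (hCHB : SpecCHB) (hχ : ChQ f χ)
    (hUI : UI χ m) (hNP : NP χ m) (hG : ¬ GoodC χ m) :
    m = 0 ∧ (∀ z, χ z = 0 ∨ χ z = 1 ∨ χ z = -1) ∧ χ ⟨0, 1⟩ = 1 ∧ ∀ z, χ (star z) = χ z := by
  have h1 : ¬ NP (fun z => χ z ^ 2) (2 * m) := fun h => hG ⟨hNP, Or.inl h⟩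
  have hm : m = 0 := by
    by_contra hm
    exact h1 (Or.inl (by omega))
  have hsq : ∀ z, χ z ^ 2 = 0 ∨ χ z ^ 2 = 1 := by
    intro z
    by_contra hz
    push Not at hz
    exact h1 (Or.inr ⟨z, hz.1, hz.2⟩)
  have hreal : ∀ z, χ z = 0 ∨ χ z = 1 ∨ χ z = -1 := fun z => real_of_sq (hsq z)
  have h2 : ¬ NP (fun z => χ z * χ (star z)) 0 := fun h => hG ⟨hNP, Or.inr ⟨hm, hreal, h⟩⟩
  have hpr : ∀ z, χ z * χ (star z) = 0 ∨ χ z * χ (star z) = 1 := by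
    intro z
    by_contra hz
    push Not at hz
    exact h2 (Or.inr ⟨z, hz.1, hz.2⟩)
  obtain ⟨-, -, hst, -⟩ := hCHB f χ hf hχ
  refine ⟨hm, hreal, ?_, fun z => ?_⟩
  · have h3 := hUI
    unfold UI at h3
    rwa [hm, zpow_zero, mul_one] at h3
  · have h4 : χ (star z) ≠ 0 ↔ χ z ≠ 0 := by rw [hst.sup z, hχ.sup z]
    by_cases hz : χ z = 0
    · rw [hz]
      by_contra h5
      exact h4.1 h5 hz
    · exact eq_of_prod (hreal _) (hreal z) (h4.2 hz) hz (hpr z)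

end PHFM

open PHFM

theorem specPHF (h1 : SpecCHB) (h2 : SpecBLG) (h3 : SpecRSW) : SpecPHF := by
  intro ε A δ₀ hε hA hδ hδ1
  obtain ⟨N₁, hN₁⟩ := h2 ε A δ₀ hε hA hδ hδ1
  obtain ⟨N₂, hN₂⟩ := h3 ε A δ₀ hε hA hδ hδ1
  refine ⟨max N₁ N₂, fun N hN f χ m hf hfN hχ hUI hm hNP y y' hy hyy hy' => ?_⟩
  by_cases hG : GoodC χ m
  · exact hN₁ N (le_trans (le_max_left _ _) hN) f χ m hf hfN hχ hUI hm hG y y' hy hyy hy'
  · obtain ⟨hm0, hreal, hi, hst⟩ := not_good hf h1 hχ hUI hNP hG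
    subst hm0
    exact hN₂ N (le_trans (le_max_right _ _) hN) f χ hf hfN hχ hreal hi hst hNP y y' hy hyy hy'

end Pool.Agent.Lib.MP391708.X.PH
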