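import Pool.Agent.Lib.MP_391708_nt.MR.OSDir
import Pool.Agent.Lib.MP_391708_nt.MR.Spec
import Pool.Agent.Lib.MP_391708_nt.X.SpecHM
import Pool.Agent.Lib.MP_391708_nt.QPA.Spec
import Pool.Agent.Lib.MP_553de0_nt.AA.Spec
import Pool.Agent.Lib.SW.Spec

/-!
# MP_391708, Theorem X, part PH (primes and Hecke characters): definitions, statements A

AIM (`SpecPH` in `SpecC`): for all nonprincipal unit-invariant `ψ = (χ mod f, m)` (`ψ(z) = χ(z) (z/|z|)^m`), `f ≤ (log N)^A`,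
`|m| ≤ N^A`, and all `N^δ ≤ y ≤ y' ≤ N`: `‖∑_{π ∈ GP y y'} ψ(π)‖ ≤ ε y'/log y'`.

METHOD (as `MP_553de0_nt/AA`, the chain of PPB). Let `t = e^(δL)`, `G = ψ` restricted to the `z` whose norm has no
prime factor below `t`, `F_G(λ, u) = (1/4) ∑_z G(z) N(z)^(-1-λ) e(-u log N(z))`. By the fundamental lemma and van der
Corput's method the windows of `G` beyond `KδL` are small (`Osc`), so `|F| ≤ CK`, `|F'| ≤ CK²δL`; by 3-4-1 at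
`λ = c K^(-10)/(δL)` and the bound for `F'`: `|F_G(1/L, u)| ≥ c K^(-8)`. Then `A = (F'/F)' = D₂/F - (D₁/F)²` is equal to
`D₂ - D₂ (F-1)/F - (D₁/F)²`; the first term has a small window at `L` (`Osc`), the other two are at most
`C K^19 δ L` in `L¹`. So the window of `Λ log` at `L` is `≤ C (K^19 δ + s/δ) L`. For real `χ` the role of 3-4-1 is
played by `|1 + X + Y|² ≥ 0`, `X = χ(π) e(..)`, `Y = χ(conj π) e(..)`, if `χ ∘ conj ≠ χ`; if `χ ∘ conj = χ` the value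
`χ(z)` depends only on `N(z) mod 2f`, and the landed Siegel-Walfisz theorem (`Lib/SW`) is applied.

Files: one module `XXX` = file `X/PH/XXX.lean`, namespace `Pool.Agent.Lib.MP391708.X.PH`, own lemmas in the
sub-namespace `XXXM`, theorem `specXXX (hYYY : SpecYYY) .. : SpecXXX` with the modules named after USES in this order.
`C`, `c` denote constants, new ones at every occurrence. Theorems which are already proved in the library (`specVDC`, `specPG`,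
`specFL`, `specKRB` ..) may be imported and used directly.
-/

set_option autoImplicit false

namespace Pool.Agent.Lib.MP391708.X.PH

open Finset Filter Topology MeasureTheory
open Pool.Agent.Lib.MP391708.MR
open Pool.Agent.Lib.MP391708.MR.OS (CM RP pw)
open Pool.Agent.Lib.MP391708.QPA (Rough rInd PB)
open Pool.Agent.Lib.MP054243.AV (ee)
open Pool.Agent.Lib.MP553de0.AA (Ker ft kk kap)

noncomputable section

/-! ## Definitions -/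

/-- characters of `(ℤ[i]/f)ˣ`, extended by `0`; `f` is a positive rational integer -/
structure ChQ (f : ℕ) (χ : Gi → ℂ) : Prop where
  one : χ 1 = 1
  mul : ∀ x y, χ (x * y) = χ x * χ y
  per : ∀ x y : Gi, (f : ℤ) ∣ x.re - y.re → (f : ℤ) ∣ x.im - y.im → χ x = χ y
  sup : ∀ x : Gi, χ x ≠ 0 ↔ IsCoprime x (f : Gi)

/-- `ψ(z) = χ(z) (z/|z|)^m` -/
def ps (χ : Gi → ℂ) (m : ℤ) (z : Gi) : ℂ := χ z * xi m z

/-- `(χ, m)` is not principal -/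
def NP (χ : Gi → ℂ) (m : ℤ) : Prop := m ≠ 0 ∨ ∃ x, χ x ≠ 0 ∧ χ x ≠ 1

/-- the residues modulo `q` -/
def RS (q : ℕ) : Finset Gi :=
  ((range q) ×ˢ (range q)).image (fun p => (⟨(p.1 : ℤ), (p.2 : ℤ)⟩ : Gi))

/-- the window of `G` at `v`, frequency `u`, kernel `g` -/
def VV (G : Gi → ℂ) (g : ℝ → ℝ) (u v : ℝ) : ℂ :=
  ∑ z ∈ disc (Real.exp (v + 1)), G z * ((g (Real.log (nm z) - v) / (nm z : ℝ) : ℝ) : ℂ) *
    ee (-(u * Real.log (nm z)))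

/-- the density of the `z` with `p ∣ N(z)` -/
def gG (p : ℕ) : ℝ :=
  if p = 2 then 1 / 2 else if p % 4 = 1 then (2 * (p : ℝ) - 1) / (p : ℝ) ^ 2 else 1 / (p : ℝ) ^ 2

/-- `∏_{p<t} (1 - gG p)` -/
def WG (t : ℝ) : ℝ := ∏ p ∈ PB t, (1 - gG p)

/-- `ψ` on the `z` whose norm has no prime factor below `t` -/
def RG (t : ℝ) (χ : Gi → ℂ) (m : ℤ) (z : Gi) : ℂ := ((rInd t (nm z) : ℝ) : ℂ) * ps χ m z

/-- the windows of `G` beyond `KδL` are smaller than the trivial bound by the factor `s` -/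
def Osc (G : Gi → ℂ) (δ K s L U : ℝ) : Prop :=
  ∀ (B : ℝ) (g : ℝ → ℝ), Ker B g → ∀ v u : ℝ, K * (δ * L) ≤ v → |u| ≤ U →
    ‖VV G g u v‖ ≤ s * B / (δ * L)

/-! ## Smooth sums -/

/-- CHB (200 lines), basic facts. PROOF. `x` coprime to `f`: a power `x^n` (`n` the order of the finite group
`(ℤ[i]/f)ˣ`, or by pigeonhole on the classes) is `≡ 1` mod `f`, so `χ(x)^n = 1`. Products and `z ↦ χ(star z)` are again
characters (`f` is rational, so `star z` is coprime to `f` iff `z` is). Orthogonality: every class is represented exactly once in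
`RS f`; if `χ(x) ≠ 0, 1`, multiplication by `x` permutes the classes (those with `χ = 0` among themselves), so
`S = χ(x) S`. Unit: `ps χ m i = χ(i) I^m`. -/
def SpecCHB : Prop := ∀ (f : ℕ) (χ : Gi → ℂ), 0 < f → ChQ f χ →
  (∀ z, χ z = 0 ∨ ‖χ z‖ = 1) ∧ ChQ f (fun z => χ z ^ 2) ∧ ChQ f (fun z => χ (star z)) ∧
  (∀ χ' : Gi → ℂ, ChQ f χ' → ChQ f (fun z => χ z * χ' z)) ∧
  ((∃ x, χ x ≠ 0 ∧ χ x ≠ 1) → ∑ a ∈ RS f, χ a = 0) ∧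
  (∀ z : Gi, ∃! a, a ∈ RS f ∧ (f : ℤ) ∣ z.re - a.re ∧ (f : ℤ) ∣ z.im - a.im) ∧
  (∀ m : ℤ, ps χ m ⟨0, 1⟩ = χ ⟨0, 1⟩ * Complex.I ^ m)

/-- PSU (60 lines), USES X.SpecANC of `X/SpecHM.lean` (helper40): `theorem specPSU (h : Pool.Agent.Lib.MP391708.X.SpecANC) : SpecPSU`: partial sums of `ψ`. PROOF. `ChQ f χ` is
`ChiG (f : Gi) χ`, `nm (f : Gi) = f²`, `ps = hk`, `NP` is its hypothesis. Take `SpecANC` with `A`, `B = 1`, `y = x`, and `c = min (1/8) (c'/2)`. -/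
def SpecPSU : Prop := ∀ A : ℝ, 1 ≤ A → ∃ c x₀ : ℝ, 0 < c ∧ c ≤ 1 / 8 ∧ 1 ≤ x₀ ∧ ∀ x : ℝ, x₀ ≤ x →
  ∀ (f : ℕ) (χ : Gi → ℂ) (m : ℤ), 0 < f → (f : ℝ) ≤ x ^ c → ChQ f χ → NP χ m → |(m : ℝ)| ≤ x ^ A →
    ‖∑ z ∈ disc x, ps χ m z‖ ≤ x ^ (1 - c)

/-- WIN (250 lines), USES PSU: windows of `ψ`. PROOF. Let `S(n) = ∑_{z ≠ 0, N(z) ≤ n} ψ(z)`,
`h(t) = t⁻¹ g(log t - w) ee(-(u log t))` for `t ≥ 1`. The window is `∑_n (S(n) - S(n-1)) h(n) = ∑_n S(n) (h(n) - h(n+1))`, only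
`e^(w-1) - 1 ≤ n ≤ e^(w+1)` contribute, there `|h(n) - h(n+1)| ≤ C B (1 + |u|) e^(-2w)` (`g` is bounded by `B` and
`B`-Lipschitz, `t⁻¹`, `log t`, `ee(-(u log t))` on `[e^(w-1)-1, e^(w+1)+1]`), and `|S(n)| ≤ n^(1-c')` by PSU with `4A`: for
`w ≥ w₀` and `c ≤ c'/4` the hypotheses `f ≤ e^(cw) ≤ n^(c')`, `|m| ≤ e^(Aw) ≤ n^(4A)` hold. The total is
`≤ C B (1+|u|) e^(-2w) e^(w+1) e^((w+1)(1-c')) ≤ B (1+|u|) e^(-cw)` for `w ≥ w₀`. -/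
def SpecWIN : Prop := ∀ A : ℝ, 1 ≤ A → ∃ c w₀ : ℝ, 0 < c ∧ c ≤ 1 / 8 ∧ 1 ≤ w₀ ∧ ∀ w : ℝ, w₀ ≤ w →
  ∀ (f : ℕ) (χ : Gi → ℂ) (m : ℤ), 0 < f → (f : ℝ) ≤ Real.exp (c * w) → ChQ f χ → NP χ m →
    |(m : ℝ)| ≤ Real.exp (A * w) → ∀ (B : ℝ) (g : ℝ → ℝ), Ker B g → ∀ u : ℝ,
      ‖VV (ps χ m) g u w‖ ≤ B * (1 + |u|) * Real.exp (-(c * w))

open scoped Classical in
/-- UWN (250 lines; imports MR/Count for `specCount`, used with `m = 1`): the window of the multiples of `α`. PROOF. `z = α y`, `N(z) = N(α) N(y)`, `w' = w - log N(α) ≥ 0`: the sum is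
`N(α)⁻¹ ∑_{y ≠ 0} h(N(y))`, `h(t) = t⁻¹ g(log t - w')`. With `S(n) = #{y ≠ 0 : N(y) ≤ n} = π n + O(√n + 1)` (SpecCount)
and `|h(n) - h(n+1)| ≤ C B e^(-2w')` for `n ≤ e^(w'+1)` (zero beyond):
`∑_n S(n) (h(n) - h(n+1)) = π ∑_{n ≥ 1} h(n) + O(B e^(-w'/2))`, and `∑_{n ≥ 1} h(n) = ∫_0^∞ h + O(B e^(-w'))`,
`∫_0^∞ h(t) dt = ∫ g` (`h` vanishes below `e^(w'-1)`; if this is below `1` everything is `O(B)`). -/
def SpecUWN : Prop := ∃ C : ℝ, 0 < C ∧ ∀ (B : ℝ) (g : ℝ → ℝ), Ker B g → ∀ (α : Gi) (w : ℝ), α ≠ 0 →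
  (nm α : ℝ) ≤ Real.exp w →
    |∑ z ∈ (disc (Real.exp (w + 1))).filter (fun z => α ∣ z), g (Real.log (nm z) - w) / (nm z : ℝ)
      - Real.pi / (nm α : ℝ) * ∫ x, g x| ≤
      C * B / (nm α : ℝ) * (Real.exp w / (nm α : ℝ)) ^ (-(1 / 2) : ℝ)

open scoped Classical in
/-- TWN (100 lines): the same with a completely multiplicative function, an identity. PROOF. Substitute `z = α y`:
`G(αy) = G(α) G(y)`, `log N(αy) = log N(α) + log N(y)`, `ee(a + b) = ee a · ee b`; `y` runs through `disc (exp (w - log N(α) + 1))`. -/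
def SpecTWN : Prop := ∀ G : Gi → ℂ, (∀ x y, G (x * y) = G x * G y) → ∀ (g : ℝ → ℝ) (u w : ℝ) (α : Gi), α ≠ 0 →
  ∑ z ∈ (disc (Real.exp (w + 1))).filter (fun z => α ∣ z),
      G z * ((g (Real.log (nm z) - w) / (nm z : ℝ) : ℝ) : ℂ) * ee (-(u * Real.log (nm z))) =
    G α * ((1 / (nm α : ℝ) : ℝ) : ℂ) * ee (-(u * Real.log (nm α))) * VV G g u (w - Real.log (nm α))

/-! ## Sieve -/

open scoped Classical in
/-- DIV (250 lines): the condition `δ ∣ N(z)` in terms of divisors in `ℤ[i]`. PROOF. Induction over the prime factors. `δ = 1`: `n = 1`,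
`α = 1`, `e = 1`. `p = 2`: `2 ∣ N(z)` iff `1 + i ∣ z`: `α = 1 + i`, `e = 1`. `p ≡ 3 mod 4`: `p ∣ N(z)` iff `p ∣ z`: `α = p`, `e = 1`.
`p ≡ 1 mod 4`, `p = π π'` (`π' = star π`, not associated): `p ∣ N(z)` iff `π ∣ z` or `π' ∣ z`, so the indicator is
`1_(π∣z) + 1_(π'∣z) - 1_(p∣z)`; `1/p + 1/p - 1/p² = gG p`. For `δ = p δ'` take all products `α α'` with `e e'`
(`Fin n × Fin n' ≃ Fin (n n')`): `N(α) ∣ p²` and `N(α') ∣ δ'²` are coprime, so `α`, `α'` are coprime and `α α' ∣ z` iff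
`α ∣ z` and `α' ∣ z`; `N(α α') = N(α) N(α')`. -/
def SpecDIV : Prop := ∀ δ : ℕ, Squarefree δ → ∃ (n : ℕ) (α : Fin n → Gi) (e : Fin n → ℝ),
  n ≤ 3 ^ δ.primeFactors.card ∧ (∀ i, α i ≠ 0 ∧ δ ∣ nm (α i) ∧ nm (α i) ∣ δ ^ 2 ∧ |e i| ≤ 1) ∧
  (∀ z : Gi, ∑ i, (if α i ∣ z then e i else 0) = if δ ∣ nm z then 1 else 0) ∧
  ∑ i, e i / (nm (α i) : ℝ) = ∏ p ∈ δ.primeFactors, gG p

/-- WGM (120 lines; imports MR/PG and what `specPG` needs): Mertens. PROOF. `0 ≤ gG p ≤ 2/p`, `gG p ≤ 2/3` (`gG 5 = 9/25`), so all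
factors are in `(0, 1]`. For `p ≡ 1 mod 4`: `1 - gG p = (1 - 1/p)² ≤ e^(-2/p)`. Drop the other primes:
`WG t ≤ exp(-∑_{p ≡ 1 (4), 3 < p < t} 2/p) = exp(-WW 3 t')`, `t' < t` close to `t` (every `p ≡ 1 mod 4` is the norm of exactly
two elements of `GP`), and `WW 3 t' ≥ log log t' - C` (`SpecPG`, second claim). For `t < 4` use `WG t ≤ 1`. -/
def SpecWGM : Prop := (∀ p : ℕ, p.Prime → 0 ≤ gG p ∧ gG p ≤ 2 / (p : ℝ) ∧ gG p ≤ 2 / 3) ∧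
  (∀ t : ℝ, 0 < WG t ∧ WG t ≤ 1) ∧ ∃ C : ℝ, 0 < C ∧ ∀ t : ℝ, 2 ≤ t → WG t ≤ C / Real.log t

/-- FLU (250 lines; imports QPA/FL for `specFL`), USES UWN, DIV, WGM: the fundamental lemma for windows of the rough elements. PROOF. `g = g⁺ - g⁻`, both in
`Ker B`; so let `g ≥ 0`. `QPA.SpecFL` with `S` = the image of `disc (e^(w+1))` under an injection `Gi → ℕ`
(`Encodable.encode`), `v = nm`, `om = g(log N - w)/N`, `X = π ∫ g ≤ 2πB`, `g p = gG p`. For squarefree `δ ≤ t^(8b+16) ≤ e^(w/4)`: by DIV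
and UWN (`N(α_i) ≤ δ² ≤ e^(w/2)`, `N(α_i) ≥ δ`) the remainder is
`≤ ∑_i C B N(α_i)⁻¹ e^(-w/4) ≤ C B 3^(ω(δ)) δ⁻¹ e^(-w/4)`. Sum over `δ ≤ e^(w/4)`: `∑ 3^(ω(δ))/δ ≤ (∑_{n ≤ e^(w/4)} 1/n)³ ≤ (1 + w)³`
(`3^(ω(δ))` is the number of `δ = a b c`), times `C (1 + log t) ≤ C (1 + w)`: total `≤ C B (1+w)⁴ e^(-w/4) ≤ C B e^(-w/8)`. -/
def SpecFLU : Prop := ∃ C : ℝ, 0 < C ∧ ∀ (b : ℕ) (t w : ℝ), 2 ≤ t → 1 ≤ w → t ^ (16 * b + 32) ≤ Real.exp (w / 2) →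
  ∀ (B : ℝ) (g : ℝ → ℝ), Ker B g →
    |∑ z ∈ disc (Real.exp (w + 1)), rInd t (nm z) * (g (Real.log (nm z) - w) / (nm z : ℝ)) -
      WG t * (Real.pi * ∫ x, g x)| ≤ B * (C * Real.exp (-(b : ℝ)) * WG t + C * Real.exp (-(w / 8)))

/-- TRG (200 lines; imports MR/Count for `specCount`), USES WGM, FLU: trivial bound for windows of rough elements. PROOF. If `v + 1 < log t` the sum is empty or zero: `2 ≤ N(z)`
rough implies `N(z) ≥ t`. For `v ≤ v₀` (a constant) with `v + 1 ≥ log t`: `log t` is bounded and the sum is `≤ C`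
(`#disc Y ≤ 9 Y`, `card_disc_le` of MR/Basic; `N(z) ≥ e^(v-1)`). For `v ≥ v₀`, `v + 1 ≥ log t`: let `t' = min t (e^(v/100)) ≥ 2`; rough for `t` implies rough for `t'`. Apply FLU with `b = 0`
(`t'^32 ≤ e^(v/2)`), `w = v` and `w = v ± 1/2, ..`: kernels `g(x) = max 0 (1 - |x|)`, in `Ker 1`, at the points `v - 1, v - 1/2, .., v + 1`
add up to at least `1/2` on `|x| ≤ 1`. Every window is `≤ C WG t' + C e^(-v/8) ≤ C/log t' ≤ C/log t`, as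
`log t' ≥ min (log t) (v/100) ≥ (log t - 1)/100`. -/
def SpecTRG : Prop := ∃ C : ℝ, 0 < C ∧ ∀ t v : ℝ, 2 ≤ t →
  ∑ z ∈ (disc (Real.exp (v + 1))).filter (fun z => 2 ≤ nm z ∧ v - 1 ≤ Real.log (nm z)),
    rInd t (nm z) / (nm z : ℝ) ≤ C / Real.log t

/-- ROG (300 lines; imports QPA/FL for `specFL`), USES WIN, UWN, TWN, DIV, WGM: windows of `ψ` on rough elements. PROOF. Let `g ≥ 0` (as in FLU). Apply
`QPA.SpecFL` (see FLU) with `X = π ∫ g`, density `gG`, to the three nonnegative weights `om₁ = g(log N - w)/N`,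
`om₂ = om₁ (1 + Re (ψ(z) ee(-(u log N))))`, `om₃ = om₁ (1 + Im ..)` (`‖ψ(z)‖ ≤ 1`). For squarefree `δ ≤ t^(8b+16) ≤ e^(w/4)`
the remainder of `om₁` is `≤ C B 3^(ω(δ)) δ⁻¹ e^(-w/4)` (FLU), and `‖∑_{δ ∣ N(z)} om₁ ψ ee‖ ≤ ∑_i N(α_i)⁻¹ ‖VV (ps χ m) g u (w - log N(α_i))‖`
(DIV, TWN, `‖ψ(α)‖ ≤ 1`) `≤ 3^(ω(δ)) δ⁻¹ B (1+|u|) e^(-c' w/2)` by WIN with `2A` at `w' = w - log N(α_i) ≥ w/2`
(`f ≤ e^(cw) ≤ e^(c'w')` for `c ≤ c'/2`, `|m| ≤ e^(Aw) ≤ e^(2Aw')`). The sum over `δ` costs `(1 + w)³`, `1 + log t ≤ 1 + w`, and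
`1 + |u| ≤ 2 e^(cw)`: the total remainder is `≤ B e^(-cw)` for small `c` and `w ≥ w₀`. Subtracting the results for `om₁` from
those for `om₂`, `om₃` the main terms cancel; what is left is `2 C e^(-b) X WG t` and the remainders. -/
def SpecROG : Prop := ∃ C₀ : ℝ, 0 < C₀ ∧ ∀ A : ℝ, 1 ≤ A → ∃ c w₀ : ℝ, 0 < c ∧ 1 ≤ w₀ ∧
  ∀ (b : ℕ) (t w : ℝ), 2 ≤ t → w₀ ≤ w → t ^ (16 * b + 32) ≤ Real.exp (w / 2) →
  ∀ (f : ℕ) (χ : Gi → ℂ) (m : ℤ), 0 < f → (f : ℝ) ≤ Real.exp (c * w) → ChQ f χ → NP χ m →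
    |(m : ℝ)| ≤ Real.exp (A * w) → ∀ (B : ℝ) (g : ℝ → ℝ), Ker B g → ∀ u : ℝ, |u| ≤ Real.exp (c * w) →
      ‖VV (RG t χ m) g u w‖ ≤ B * (C₀ * Real.exp (-(b : ℝ)) * WG t + Real.exp (-(c * w)))

/-- OSG (150 lines), USES WGM, ROG: the hypothesis `Osc` holds. PROOF. `K = 32b + 64`, `t = e^(δL)`, `v ≥ KδL`: `t^(16b+32) = e^(KδL/2) ≤ e^(v/2)`.
ROG with `A' = max 1 (A/(Kδ))`: `|m| ≤ e^(AL) ≤ e^(A'v)`; for `L ≥ L₀` also `v ≥ KδL ≥ w₀`, `t ≥ 2`, `f ≤ L^A ≤ e^(cKδL) ≤ e^(cv)`,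
`|u| ≤ 2L ≤ e^(cv)`. The bound is `B (C₀ e^(-b) WG t + e^(-cv))`, `WG t ≤ C/(δL)` (WGM) and `e^(-cKδL) ≤ e^(-b)/(δL)` for `L ≥ L₀`. -/
def SpecOSG : Prop := ∃ C : ℝ, 1 ≤ C ∧ ∀ (A δ : ℝ) (b : ℕ), 1 ≤ A → 0 < δ → δ ≤ 1 → ∃ L₀ : ℝ, ∀ L : ℝ, L₀ ≤ L →
  ∀ (f : ℕ) (χ : Gi → ℂ) (m : ℤ), 0 < f → (f : ℝ) ≤ L ^ A → ChQ f χ → NP χ m → |(m : ℝ)| ≤ Real.exp (A * L) →
    Osc (RG (Real.exp (δ * L)) χ m) δ (32 * b + 64) (C * Real.exp (-(b : ℝ))) L (2 * L)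

end

end Pool.Agent.Lib.MP391708.X.PH
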