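import Pool.Agent.Lib.MP_391708_nt.X.PH.SpecA

/-!
# MP_391708, Theorem X, part PH: statements B (analysis)
-/

set_option autoImplicit false

namespace Pool.Agent.Lib.MP391708.X.PH

open Finset Filter Topology MeasureTheory
open Pool.Agent.Lib.MP391708.MR
open Pool.Agent.Lib.MP391708.MR.OS (CM RP pw)
open Pool.Agent.Lib.MP391708.QPA (Rough rInd PB)
open Pool.Agent.Lib.MP054243.AV (ee)
open Pool.Agent.Lib.MP553de0.AA (Ker ft kk kap)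

noncomputable section

/-! ## Series and windows -/

/-- completely multiplicative, unimodular or `0`, supported on the elements whose norm is `t`-rough -/
def RCM (G : Gi → ℂ) (t : ℝ) : Prop :=
  CM G ∧ (∀ z, G z = 0 ∨ ‖G z‖ = 1) ∧ ∀ z, G z ≠ 0 → Rough t (nm z)

/-- coefficients `(1/4) G(z) N(z)^(-1-lam) (log N(z))^j` (`0` for `z = 0`, as `0^(-(1+lam)) = 0`) -/
def ac (G : Gi → ℂ) (lam : ℝ) (j : ℕ) (z : Gi) : ℂ :=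
  G z * ((1 / 4 * (nm z : ℝ) ^ (-(1 + lam)) * Real.log (nm z) ^ j : ℝ) : ℂ)

/-- the same without the units -/
def an (G : Gi → ℂ) (lam : ℝ) (j : ℕ) (z : Gi) : ℂ := if 2 ≤ nm z then ac G lam j z else 0

/-- the series; `DJ G lam 0 u` is `F_G(lam, u)` -/
def DJ (G : Gi → ℂ) (lam : ℝ) (j : ℕ) (u : ℝ) : ℂ :=
  ∑' z : Gi, ac G lam j z * ee (-(u * Real.log (nm z)))

/-- the series without the units -/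
def DN (G : Gi → ℂ) (lam : ℝ) (j : ℕ) (u : ℝ) : ℂ :=
  ∑' z : Gi, an G lam j z * ee (-(u * Real.log (nm z)))

/-- its windows with the kernel `g` -/
def WN (g : ℝ → ℝ) (G : Gi → ℂ) (lam : ℝ) (j : ℕ) (u v : ℝ) : ℂ :=
  ∑' z : Gi, an G lam j z * ee (-(u * Real.log (nm z))) * ((g (Real.log (nm z) - v) : ℝ) : ℂ)

/-- coefficients of the series over prime powers: `pw x = π^(k+1)` for `x = (π, k)` -/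
def ap (G : Gi → ℂ) (lam : ℝ) (j : ℕ) (x : RP × ℕ) : ℂ :=
  G (pw x) * ((Real.log (nm (x.1 : Gi)) * (nm (pw x) : ℝ) ^ (-(1 + lam)) *
    Real.log (nm (pw x)) ^ j : ℝ) : ℂ)

/-- the series over prime powers; `PJ G lam 0 u = -F'/F`, `PJ G lam 1 u = (F'/F)'` -/
def PJ (G : Gi → ℂ) (lam : ℝ) (j : ℕ) (u : ℝ) : ℂ :=
  ∑' x : RP × ℕ, ap G lam j x * ee (-(u * Real.log (nm (pw x))))

/-- PLI (250 lines; see `MP_553de0_nt/AA/PLN.lean`, imports AA/KRA for `specKRA`): Plancherel for windows of a summable family. PROOF. `‖c i‖` is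
summable, `|g| ≤ B`. The function `v ↦ W(v) = ∑ c_i g(l_i - v)` is continuous, bounded and integrable
(`∫ ∑ |c_i||g(l_i - v)| dv = ∑|c_i| ∫|g|`), so it is in `L¹ ∩ L²`; its Fourier transform at `-u` .. is
`∑ c_i ee(-(u l_i)) ft g (-u)`, and `‖ft g (-u)‖ = ‖ft g u‖` (`g` real). Plancherel for `L¹ ∩ L²`: `lintegral_fourier_sq` of
`Pool/Agent/Lib/MP_424d38_an/LIN/PLA.lean`. The last claim: integrate termwise. -/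
def SpecPLI : Prop := ∀ (B : ℝ) (g : ℝ → ℝ), Ker B g → ∀ (ι : Type) [Countable ι] (c : ι → ℂ) (l : ι → ℝ),
  (Summable fun i => ‖c i‖) →
  Continuous (fun u : ℝ => ∑' i, c i * ee (-(u * l i))) ∧
  Integrable (fun v : ℝ => ∑' i, c i * ((g (l i - v) : ℝ) : ℂ)) ∧
  Integrable (fun v : ℝ => ‖∑' i, c i * ((g (l i - v) : ℝ) : ℂ)‖ ^ 2) ∧
  Integrable (fun u : ℝ => ‖∑' i, c i * ee (-(u * l i))‖ ^ 2 * ‖ft g u‖ ^ 2) ∧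
  ∫ v : ℝ, ‖∑' i, c i * ((g (l i - v) : ℝ) : ℂ)‖ ^ 2 =
    ∫ u : ℝ, ‖∑' i, c i * ee (-(u * l i))‖ ^ 2 * ‖ft g u‖ ^ 2 ∧
  (∑' i, c i) * ((∫ x : ℝ, g x : ℝ) : ℂ) = ∫ v : ℝ, ∑' i, c i * ((g (l i - v) : ℝ) : ℂ)

/-- INV (200 lines; imports AA/KRB for `specKRB`): Fourier inversion for the kernel `kap ρ`. PROOF. `kap ρ` is continuous and integrable, its
transform `ft (kap ρ) = (ft (kk ρ))²` is integrable (`≤ min ρ² (1/(ρ² u⁴))`, KRB), so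
`kap ρ x = ∫ ft (kap ρ) u · ee(u x) du` (`MeasureTheory.Integrable.fourierInv_fourier_eq`, `Continuous.fourierInv_fourier_eq` or
similar). With `kap ρ` even: `kap ρ (l - w) = ∫ ft (kap ρ) u · ee(-(u l)) ee(u w) du`; sum over `i` (Fubini, `∑ ‖c i‖ < ∞`). -/
def SpecINV : Prop := ∀ ρ : ℝ, 0 < ρ → ρ ≤ 1 / 16 → ∀ (ι : Type) [Countable ι] (c : ι → ℂ) (l : ι → ℝ),
  (Summable fun i => ‖c i‖) → ∀ w : ℝ,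
  Integrable (fun u : ℝ => ‖∑' i, c i * ee (-(u * l i))‖ * ‖ft (kk ρ) u‖ ^ 2) ∧
  ‖∑' i, c i * ((kap ρ (l i - w) : ℝ) : ℂ)‖ ≤
    ∫ u : ℝ, ‖∑' i, c i * ee (-(u * l i))‖ * ‖ft (kk ρ) u‖ ^ 2

/-- SER (200 lines; imports MR/OSDir): summability, link with `OS.LL`, `OS.La`, derivative in `lam`. PROOF. `OS.summable_nm`,
`OS.summable_log_nm`, `OS.summable_La_bound` and `(log x)^j ≤ C_ε x^ε` (write `1 + lam = (1 + lam/2) + lam/2`). With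
`s = 1 + lam + 2π i u`: `T G s z = 4 ac G lam 0 z ee(-(u log N(z)))` for `z ≠ 0` (`ee(-(u log n)) = n^(-2π i u)`), `T_zero`. Units: `nm z = 1` for exactly
four `z`, `G = 1` there (`CM.one`, `CM.I`, `CM.mul`), so `DJ 0 = 1 + DN 0`, and `log 1 = 0` gives `DJ j = DN j` for `j ≥ 1`.
The derivative: `OS.hasDerivAt_LL` composed with `lam ↦ 1 + lam + 2π i u`, and `OS.hasSum_log_T`. -/
def SpecSER : Prop := ∀ (G : Gi → ℂ), CM G → ∀ lam : ℝ, 0 < lam →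
  (∀ j : ℕ, j ≤ 2 → Summable (fun z => ‖ac G lam j z‖) ∧ Summable (fun z => ‖an G lam j z‖)) ∧
  (∀ j : ℕ, j ≤ 1 → Summable (fun x => ‖ap G lam j x‖)) ∧
  ∀ u : ℝ, DJ G lam 0 u = 1 + DN G lam 0 u ∧ DJ G lam 1 u = DN G lam 1 u ∧ DJ G lam 2 u = DN G lam 2 u ∧
    DJ G lam 0 u = 1 / 4 * OS.LL G (1 + (lam : ℂ) + 2 * Real.pi * Complex.I * (u : ℂ)) ∧
    PJ G lam 0 u = OS.La G (1 + (lam : ℂ) + 2 * Real.pi * Complex.I * (u : ℂ)) ∧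
    HasDerivAt (fun r : ℝ => DJ G r 0 u) (-DJ G lam 1 u) lam

/-- IDG (200 lines), USES SER: identities. PROOF. First: `OS.hasSum_log_T` (divide by `4`). Second: `(log N(z))²` is
`∑_{pw x ∣ z} log N(π) log N(z)` and `log N(z) = log N(pw x) + log N(z/pw x)`; so with `z = pw x · y`
`∑_z (log N)² T z = ∑_x ∑_y log N(π) (log N(pw x) + log N(y)) T(pw x) T(y)`, exactly as in the proof of `OS.hasSum_log_T`. Third: trivial bound: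
`‖PJ‖ ≤ ∑ ‖ap‖`. -/
def SpecIDG : Prop := ∀ (G : Gi → ℂ), CM G → ∀ lam u : ℝ, 0 < lam →
  PJ G lam 0 u * DJ G lam 0 u = DJ G lam 1 u ∧
  PJ G lam 1 u * DJ G lam 0 u + PJ G lam 0 u * DJ G lam 1 u = DJ G lam 2 u

/-- TPP (200 lines; imports MR/PG), USES SER: Chebyshev for prime powers in `ℤ[i]`. PROOF. First claim: a split or ramified prime `π` (norm
`p`): at most two per `p`, `∑_{|log p - v| ≤ 1} log p/p ≤ C` (Chebyshev: `SpecPG`, fourth claim, or Mathlib); inert primes have norm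
`p²`, and powers `k ≥ 2`: altogether `∑ log N(π)/N(π)^k` over `N(π)^k ≥ e^(v-1)`, `k ≥ 2` or `π` inert, is `≤ C v e^(-v/2)`. Second claim: cut into the
windows at `v = 0, 1, 2, ..`: `≤ ∑_v C (v+1) e^(-v/L) ≤ C L²`. -/
def SpecTPP : Prop := ∃ C : ℝ, 1 ≤ C ∧
  (∀ (v : ℝ) (S : Finset (RP × ℕ)), (∀ x ∈ S, |Real.log (nm (pw x)) - v| ≤ 1) →
    ∑ x ∈ S, Real.log (nm (x.1 : Gi)) / (nm (pw x) : ℝ) ≤ C) ∧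
  (∀ (v : ℝ) (S : Finset (RP × ℕ)), 0 ≤ v → (∀ x ∈ S, |Real.log (nm (pw x)) - v| ≤ 1 ∧
      ¬ (x.2 = 0 ∧ (nm (x.1 : Gi)).Prime ∧ nm (x.1 : Gi) % 4 = 1)) →
    ∑ x ∈ S, Real.log (nm (x.1 : Gi)) / (nm (pw x) : ℝ) ≤ C * (v + 1) * Real.exp (-(v / 2))) ∧
  ∀ (G : Gi → ℂ), CM G → ∀ L u : ℝ, 1 ≤ L → ‖PJ G (1 / L) 1 u‖ ≤ C * L ^ 2

/-! ## Lower bound ingredients -/

/-- T1G (200 lines), USES SER: 3-4-1. PROOF. `Q(z) = ‖G(z)‖²` and `G²` are `CM`. Let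
`Φ(r) = 3 log‖DJ Q r 0 0‖ + 4 log‖DJ G r 0 u‖ + log‖DJ G² r 0 (2u)‖` for `r > 0` (the series do not vanish: `LL ≠ 0` for `Re s > 1`
- if there is no lemma for it in `MR/OS*`: `LL' = -La LL`, so `LL` is `exp` of a primitive of `-La` times a constant, and `LL → 4` as `Re s → ∞`).
`Φ'(r) = -Re (3 PJ Q r 0 0 + 4 PJ G r 0 u + PJ G² r 0 (2u)) = -∑_x log N(π) N(pw x)^(-1-r) (3 q + 4 q cos θ + q cos 2θ) ≤ 0`, where `q ∈ {0, 1}`,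
`G(pw x) ee(-(u log N(pw x))) = q e^(iθ)`, `3 + 4 cos θ + cos 2θ = 2 (1 + cos θ)² ≥ 0`. `Φ(r) → 0` for `r → ∞`. So `Φ(lam) ≥ 0`.
(Or via the Euler product.) -/
def SpecT1G : Prop := ∀ (G : Gi → ℂ), CM G → (∀ z, G z = 0 ∨ ‖G z‖ = 1) → ∀ lam u : ℝ, 0 < lam →
  1 ≤ ‖DJ (fun z => ((‖G z‖ : ℝ) : ℂ) ^ 2) lam 0 0‖ ^ 3 * ‖DJ G lam 0 u‖ ^ 4 *
    ‖DJ (fun z => G z ^ 2) lam 0 (2 * u)‖

/-- T2G (250 lines), USES SER: the inequality for real functions. PROOF. As T1G with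
`Φ(r) = 3 log‖DJ Q r 0 0‖ + 4 log‖DJ G r 0 u‖ + 2 log‖DJ (G G*) r 0 0‖`, `G*(z) = G(star z)`. In
`-Φ'(r) = ∑_x log N(π) N(pw x)^(-1-r) Re (3 q + 4 X + 2 G(pw x) G*(pw x))`, `X = G(pw x) e(-u log N)`, add the term of `x = (π, k)` and the term of
`(π*, k)`, `π*` the representative of `star π` (`π ↦ π*` is an involution of `RP` which preserves the norm; `G`
is unit-invariant). With `Y = G*(pw x) e(-u log N)`: `X conj Y = G(pw x) G*(pw x)` is real, `‖X‖² = ‖Y‖² = q`, and the sum of the two real parts is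
`6q + 4 Re X + 4 Re Y + 4 Re (X conj Y) = 2 (3q + 2 Re X + 2 Re Y + 2 Re (X conj Y)) ≥ 2 |1 + X + Y|² - 2 (1 - q) ≥ 0`
(if `q = 1` it is `2 |1 + X + Y|²`; if `q = 0` then `X = Y = 0` and it is `0`). So `2 Φ' ≤ 0`. -/
def SpecT2G : Prop := ∀ (G : Gi → ℂ), CM G → (∀ z, G z = 0 ∨ G z = 1 ∨ G z = -1) →
  (∀ z, G (star z) = 0 ↔ G z = 0) → ∀ lam u : ℝ, 0 < lam →
  1 ≤ ‖DJ (fun z => ((‖G z‖ : ℝ) : ℂ) ^ 2) lam 0 0‖ ^ 3 * ‖DJ G lam 0 u‖ ^ 4 *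
    ‖DJ (fun z => G z * G (star z)) lam 0 0‖ ^ 2

/-! ## Bounds -/

/-- WEX (250 lines), USES TRG, SER: windows of the series in terms of `VV`. PROOF. Only `z` with `|log N(z) - v| < 1` contribute (finitely many,
in `disc (e^(v+1))`). (1) A rough `z` with `N(z) ≥ 2` has `N(z) ≥ t`, so for `v ≤ log t - 1` the window is `0`. (2) `‖an G lam j z‖ ≤ N(z)⁻¹ e^(-lam (v-1)) (v+1)^j`
and TRG (`‖G z‖ ≤ rInd t (nm z)`). (3) `v ≥ 2`: then `N(z) > e > 2`, `log N = v + (log N - v)` and the binomial formula: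
`WN g G lam j u v = (1/4) e^(-lam v) ∑_{i ≤ j} (j choose i) v^(j-i) VV G g_i u v`, `g_i(x) = x^i e^(-lam x) g(x)` is in `Ker (12 B)` for
`0 < lam ≤ 1`, `i ≤ 2`; use `Osc` and `∑ (j choose i) v^(j-i) ≤ (v+1)^j`. -/
def SpecWEX : Prop := ∃ C : ℝ, 1 ≤ C ∧ ∀ (B : ℝ) (g : ℝ → ℝ), Ker B g → ∀ (G : Gi → ℂ) (t : ℝ), 2 ≤ t → RCM G t →
  ∀ lam : ℝ, 0 < lam → lam ≤ 1 → ∀ j : ℕ, j ≤ 2 → ∀ u v : ℝ,
    (v ≤ Real.log t - 1 → WN g G lam j u v = 0) ∧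
    (0 ≤ v → ‖WN g G lam j u v‖ ≤ C * B * (v + 1) ^ j * Real.exp (-(lam * v)) / Real.log t) ∧
    (∀ δ K s L U : ℝ, 0 < δ → 0 < L → 0 ≤ s → Osc G δ K s L U → K * (δ * L) ≤ v → 2 ≤ v → |u| ≤ U →
      ‖WN g G lam j u v‖ ≤ C * s * B * (v + 1) ^ j * Real.exp (-(lam * v)) / (δ * L))

/-- FBG (300 lines; imports AA/KRB), USES PLI, SER, WEX: upper bounds. PROOF. `t = e^(δL) ≥ e⁴`. PLI (last claim, family `an G lam j z ee(-(u log N(z)))`, kernel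
`kk ρ`, `∫ kk ρ = ρ`): `DN G lam j u = (1/ρ) ∫ WN (kk ρ) G lam j u v dv`, the window is `0` for `v ≤ δL - 1`.
(1) `‖DN G lam 0 u‖ ≤ (1/ρ) ∫_0^∞ C e^(-lam v)/(δL) dv ≤ C/(lam δL)`. (2) `j ≤ 2`, `lam = 1/L`: `(1/ρ) ∫_0^∞ C (v+1)^j e^(-v/L)/(δL) dv ≤ C L^j/δ`
(`L ≥ 4`). (3) With `Osc`: `v ≤ KδL` contributes `≤ C (KδL+1)^(j+1)/(δL) ≤ C K^(j+1) (δL)^j`, `v ≥ KδL` (`≥ 4`) at most
`C s ∫ (v+1)^j e^(-v/L)/(δL) dv ≤ C s L^(j+1)/(δL) = C s L^j/δ ≤ C δ² L^j ≤ C (δL)^j` as `s ≤ δ³`, `j ≤ 2`. (4) PLI (Plancherel, family `an G (1/L) j`, `u = 0`):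
`∫ ‖DN G (1/L) j u‖² ‖ft (kk ρ) u‖² du = ∫ ‖WN (kk ρ) G (1/L) j 0 v‖² dv ≤ C (KδL+1)^(2j+1)/(δL)² + C s² L^(2j+1)/(δL)²
≤ C K^(2j+1) (δL)^(2j-1)`, as `s² L^(2j+1)/(δL)² ≤ δ⁶ L^(2j-1)/δ² ≤ (δL)^(2j-1) δ^(5-2j)`. -/
def SpecFBG : Prop := ∀ ρ : ℝ, 0 < ρ → ρ ≤ 1 / 16 → ∃ C : ℝ, 1 ≤ C ∧ ∀ (G : Gi → ℂ) (δ L : ℝ), 0 < δ → δ ≤ 1 →
  4 ≤ δ * L → RCM G (Real.exp (δ * L)) →
  (∀ lam u : ℝ, 1 / L ≤ lam → lam ≤ 1 → ‖DJ G lam 0 u‖ ≤ 1 + C / (lam * (δ * L))) ∧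
  (∀ j : ℕ, j ≤ 2 → ∀ u : ℝ, ‖DN G (1 / L) j u‖ ≤ C * L ^ j / δ) ∧
  ∀ K s U : ℝ, 1 ≤ K → 0 ≤ s → s ≤ δ ^ 3 → 0 ≤ U → Osc G δ K s L U →
    (∀ lam u : ℝ, 1 / L ≤ lam → lam ≤ 1 → |u| ≤ U →
      ‖DJ G lam 0 u‖ ≤ C * K ∧ ‖DJ G lam 1 u‖ ≤ C * K ^ 2 * (δ * L)) ∧
    ∫ u : ℝ, ‖DN G (1 / L) 0 u‖ ^ 2 * ‖ft (kk ρ) u‖ ^ 2 ≤ C * K / (δ * L) ∧
    ∫ u : ℝ, ‖DN G (1 / L) 1 u‖ ^ 2 * ‖ft (kk ρ) u‖ ^ 2 ≤ C * K ^ 3 * (δ * L) ∧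
    ∫ u : ℝ, ‖DN G (1 / L) 2 u‖ ^ 2 * ‖ft (kk ρ) u‖ ^ 2 ≤ C * K ^ 5 * (δ * L) ^ 3

/-- FLG (200 lines), USES SER, T1G, T2G, FBG (with `ρ = 1/16`): the lower bound. PROOF. `C` the constant of FBG, `λ = c₁ K^(-10)`, `r = λ/(δL)`; by
hypothesis `δ ≤ λ`, so `1/L ≤ r ≤ 1`. `Q = ‖G‖²` is `RCM`, `‖DJ Q r 0 0‖ ≤ 1 + C/λ ≤ 2C/λ`. In the first case `G²` is `RCM`,
`‖DJ G² r 0 (2u)‖ ≤ CK`, in the second case `‖DJ (G G*) r 0 0‖² ≤ C²K²`. So T1G resp. T2G give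
`‖DJ G r 0 u‖⁴ ≥ (λ/(2C))³/(C²K²)`, `‖DJ G r 0 u‖ ≥ c λ^(3/4) K^(-1/2)`. By SER and FBG
`‖DJ G r 0 u - DJ G (1/L) 0 u‖ ≤ r · C K² δL = C K² λ ≤ (c/2) λ^(3/4) K^(-1/2)` if `λ^(1/4) ≤ (c/2C) K^(-5/2)`, i.e. for `c₁` small enough. So
`‖DJ G (1/L) 0 u‖ ≥ C K² λ = c K^(-8)`. -/
def SpecFLG : Prop := ∃ c : ℝ, 0 < c ∧ c ≤ 1 ∧ ∀ (G : Gi → ℂ) (δ L K s U : ℝ), 0 < δ → δ ≤ c * K ^ (-10 : ℝ) →
  4 ≤ δ * L → 1 ≤ K → 0 ≤ s → s ≤ δ ^ 3 → 0 ≤ U → RCM G (Real.exp (δ * L)) → Osc G δ K s L U →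
  (Osc (fun z => G z ^ 2) δ K s L (2 * U) ∨
    ((∀ z, G z = 0 ∨ G z = 1 ∨ G z = -1) ∧ (∀ z, G (star z) = 0 ↔ G z = 0) ∧
      Osc (fun z => G z * G (star z)) δ K s L U)) →
  ∀ u : ℝ, |u| ≤ U → c * K ^ (-8 : ℝ) ≤ ‖DJ G (1 / L) 0 u‖

/-- AWG (300 lines; imports AA/KRB), USES PLI, INV, SER, IDG, TPP, WEX, FBG, FLG: the window of `Λ log` at `L`. PROOF. Let `F = DJ 0`, `D₁ = DJ 1`, `D₂ = DJ 2`, `ψ = PJ 0`,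
`A = PJ 1` at `lam = 1/L`. FLG (`U = L`): `‖F(u)‖ ≥ c K^(-8)` for `|u| ≤ L`. IDG: `A = D₂/F - (D₁/F)²`, so for `|u| ≤ L`
`A - D₂ = -D₂ (F - 1)/F - D₁²/F²`, `F - 1 = DN 0`. By Cauchy-Schwarz and FBG (integrability: PLI)
`∫_{|u| ≤ L} ‖A - D₂‖ ‖ft (kk ρ)‖² ≤ C K^8 (C K^5 (δL)^3 · C K/(δL))^(1/2) + C K^16 · C K^3 δL ≤ C K^19 δL`. For `|u| > L`: `‖A‖ ≤ C L²` (TPP),
`‖D₂‖ ≤ C L²/δ` (FBG), `‖ft (kk ρ) u‖² ≤ 1/(ρ² u⁴)` (KRB): `∫_{|u| > L} ≤ C (L²/δ) L^(-3) ≤ C`. INV for the family indexed by `(RP × ℕ) ⊕ Gi`, coefficients `ap G (1/L) 1` and `-an G (1/L) 2`,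
`l = log N`: the window (kernel `kap ρ`, at `w = L`) of `A` minus the one of `D₂` is `≤ ∫ ‖A - D₂‖ ‖ft (kk ρ)‖²`. The window of `D₂` is
`WN (kap ρ) G (1/L) 2 0 L`, `kap ρ` in `Ker 1`, `L ≥ KδL`: by WEX `≤ C s (L+1)²/(δL) ≤ C (s/δ) L`. -/
def SpecAWG : Prop := ∀ ρ : ℝ, 0 < ρ → ρ ≤ 1 / 16 → ∃ C c : ℝ, 1 ≤ C ∧ 0 < c ∧ c ≤ 1 ∧
  ∀ (G : Gi → ℂ) (δ L K s : ℝ), 0 < δ → δ ≤ c * K ^ (-10 : ℝ) → 4 ≤ δ * L → 1 ≤ K → K * δ ≤ 1 / 2 → 0 ≤ s → s ≤ δ ^ 3 →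
  RCM G (Real.exp (δ * L)) → Osc G δ K s L L →
  (Osc (fun z => G z ^ 2) δ K s L (2 * L) ∨
    ((∀ z, G z = 0 ∨ G z = 1 ∨ G z = -1) ∧ (∀ z, G (star z) = 0 ↔ G z = 0) ∧
      Osc (fun z => G z * G (star z)) δ K s L L)) →
  ‖∑' x : RP × ℕ, ap G (1 / L) 1 x * ((kap ρ (Real.log (nm (pw x)) - L) : ℝ) : ℂ)‖ ≤
    C * (K ^ (19 : ℝ) * δ + s / δ) * L + C

end

end Pool.Agent.Lib.MP391708.X.PH
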