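import Pool.Agent.Lib.MP_391708_nt.X.PH.SpecB

/-!
# MP_391708, Theorem X, part PH: statements C (prime windows, blocks, real characters, conclusion)
-/

set_option autoImplicit false

namespace Pool.Agent.Lib.MP391708.X.PH

open Finset Filter Topology MeasureTheory
open Pool.Agent.Lib.MP391708.MR
open Pool.Agent.Lib.MP391708.MR.OS (CM RP pw)
open Pool.Agent.Lib.MP391708.QPA (Rough rInd PB)
open Pool.Agent.Lib.MP054243.AV (ee)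
open Pool.Agent.Lib.MP553de0.AA (Ker ft kk kap)

noncomputable section

/-- unit-invariant -/
def UI (χ : Gi → ℂ) (m : ℤ) : Prop := χ ⟨0, 1⟩ * Complex.I ^ m = 1

/-- the cases of the analytic method: `ψ²` is not principal, or `m = 0`, `χ` is real and `χ (χ ∘ conj)` is not principal -/
def GoodC (χ : Gi → ℂ) (m : ℤ) : Prop := NP χ m ∧ (NP (fun z => χ z ^ 2) (2 * m) ∨
  (m = 0 ∧ (∀ z, χ z = 0 ∨ χ z = 1 ∨ χ z = -1) ∧ NP (fun z => χ z * χ (star z)) 0))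

/-- PWG (300 lines), USES CHB, OSG, TPP, AWG: windows of primes. PROOF. Let `C` be the maximum of the constants of OSG and AWG (they depend on `ρ` only), `c` the constant of AWG. For
`δ ∈ (0, 1]` let `b = ⌈log(C/δ³)⌉₊`, `K = 32 b + 64`, `s = C e^(-b) ≤ δ³`. Since `K ≤ C (1 + log(1/δ))` we can choose `δ` with
`δ ≤ c K^(-10)`, `Kδ ≤ 1/2`, `C (K^19 δ + δ²) ≤ σ/8`. For `L ≥ L₀`: `G = RG (e^(δL)) χ m` is `RCM` (`CM`: CHB, `UI`, `rInd t (nm (x y)) = rInd t (nm x) rInd t (nm y)`, `xi m` is multiplicative; at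
`z = 0`: `Rough t 0` fails as `t > 2`). OSG with `A + 1` for `(χ, m)`; `G² = RG t χ² (2m)`, `|2m| ≤ e^((A+1)L)` (first case; if `2m = 0` then `m = 0`); `G(z) G(star z) = RG t (χ χ*) 0 (z)`
(second case; `rInd² = rInd`, `nm (star z) = nm z`, `xi 0 = 1`), `Osc .. (2L)` implies `Osc .. L`. So AWG holds. For `x` in the window (`|log N(pw x) - L| < 1`):
`ap G (1/L) 1 x = G(pw x) (log N(π)/N(pw x)) · N(pw x)^(-1/L) log N(pw x)`, and `N^(-1/L) log N = (L/e) (1 + O(1/L))`. Divide by `L/e`, with TPP (first claim, `|kap ρ| ≤ 1`):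
`‖∑ G(pw x) (log N(π)/N(pw x)) kap ρ‖ ≤ e σ/8 + C/L`. Prime powers, inert primes and `1 + i` contribute `≤ C L e^(-L/2)` (TPP, second claim). The remaining `x = (π, 0)`,
`π` split, are the elements of `GP 0 (e^(L+1))` in the window (`Rep` and split imply `0 < re, 0 < im`), `N(π) ≥ e^(L-1) ≥ t` gives `G(π) = ps χ m π`. -/
def SpecPWG : Prop := ∀ ρ : ℝ, 0 < ρ → ρ ≤ 1 / 16 → ∀ σ A : ℝ, 0 < σ → 1 ≤ A → ∃ L₀ : ℝ, ∀ L : ℝ, L₀ ≤ L →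
  ∀ (f : ℕ) (χ : Gi → ℂ) (m : ℤ), 0 < f → (f : ℝ) ≤ L ^ A → ChQ f χ → UI χ m → |(m : ℝ)| ≤ Real.exp (A * L) →
    GoodC χ m →
    ‖∑ π ∈ GP 0 (Real.exp (L + 1)), ps χ m π *
      ((Real.log (nm π) / (nm π : ℝ) * kap ρ (Real.log (nm π) - L) : ℝ) : ℂ)‖ ≤ σ

/-- BLG (300 lines; imports AA/KRB, QPA/PNT with QPA/PNTAP), USES CHB, PWG: from windows to blocks. PROOF. For a prime of norm `n`, `l = log n`, let
`W(l) = ρ^(-2) ∫_{log y}^{log y'} (l/n) kap ρ (l - L) (e^L/L) dL`. If `log y + 2ρ ≤ l ≤ log y' - 2ρ`: `W(l) = ρ^(-2) ∫ kap ρ(x) e^(-x) l/(l-x) dx = 1 + O(ρ)` (`∫ kap ρ = ρ²`,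
`|x| ≤ 2ρ`); outside `[log y - 2ρ, log y' + 2ρ]` it is `0`; always `0 ≤ W ≤ 2`. So
`‖∑_{GP y y'} ψ - ∑ ψ W‖ ≤ C ρ #GP y y' + 3 #{π : |log N(π) - log y| ≤ 2ρ or |log N(π) - log y'| ≤ 2ρ} ≤ C ρ y'/log y'` for `y ≥ N^δ₀` large (each `p` is the norm
of at most two elements of `GP`; `π(x e^(4ρ)) - π(x) ≤ C ρ x/log x` for `x ≥ x₀(ρ)` by the prime number theorem `QPA.specPNT`). And
`‖∑ ψ W‖ ≤ ρ^(-2) ∫_{log y}^{log y'} σ (e^L/L) dL ≤ 2 σ ρ^(-2) y'/log y'` by PWG for every `L ∈ [log y, log y']`: `L ≥ δ₀ log N` gives `f ≤ (log N)^A ≤ (L/δ₀)^A ≤ L^(A+1)`,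
`|m| ≤ N^A ≤ e^((A/δ₀) L)`, so take PWG with `A/δ₀ + 1 + A`. Choose first `ρ`, then `σ`. -/
def SpecBLG : Prop := ∀ ε A δ₀ : ℝ, 0 < ε → 1 ≤ A → 0 < δ₀ → δ₀ ≤ 1 → ∃ N₀ : ℝ, ∀ N : ℝ, N₀ ≤ N →
  ∀ (f : ℕ) (χ : Gi → ℂ) (m : ℤ), 0 < f → (f : ℝ) ≤ Real.log N ^ A → ChQ f χ → UI χ m → |(m : ℝ)| ≤ N ^ A →
    GoodC χ m → ∀ y y' : ℝ, N ^ δ₀ ≤ y → y ≤ y' → y' ≤ N →
      ‖∑ π ∈ GP y y', ps χ m π‖ ≤ ε * y' / Real.log y'

/-! ## Real characters with `χ ∘ conj = χ` -/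

/-- NCG (300 lines): `χ(z)` depends only on `N(z)` modulo `2f`. PROOF. (1) For every prime `p ∣ 2f` there is `x_p ∈ {1, i}` such that `s_p = z x_p + w star(x_p)` (i.e. `z + w` or `i (z - w)`) is coprime to `p` if `p` is odd,
resp. not divisible by `(1+i)³` if `p = 2`. Odd `p`: if a prime `π ∣ p` divides `z + w`, then `z ≡ -w` mod `π`, `N(z) ≡ N(w)` mod `p` gives `w star w ≡ z star z ≡ -w star z`, so `star z ≡ -star w` mod `π`, i.e.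
`z ≡ -w` mod `star π`, and the same for inert `p`; so `z ≡ -w` modulo every prime above `p`, hence `z - w ≡ 2z` is coprime to `p`. `p = 2`: if `(1+i)³` divides `z + w` and `z - w`, it divides `2z`, but
`z` is odd. (2) CRT in `ℤ[i]`: `x ≡ x_p` modulo `p` for all odd `p ∣ f` and `x ≡ x_2` modulo `4`; `x` is coprime to `2f`. Let `s = z x + w star x`. Then
`s star(z x) - star(s) (w star x) = N(x) (N(z) - N(w))` is divisible by `2f`. (3) `s = (1+i)^j s'`, `j ≤ 2`, `s'` coprime to `2f`; `star s = (-i)^j (1+i)^j star s'`. As `2f = (-i)(1+i)² f`, dividing by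
`(1+i)^j` gives `s' star(z x) ≡ (-i)^j star(s') w star(x)` mod `f`. Apply `χ` (unit-invariant, `χ ∘ star = χ`, values `±1` on elements coprime to `f`): `χ(z) = χ(w)`. -/
def SpecNCG : Prop := ∀ (f : ℕ) (χ : Gi → ℂ), 0 < f → ChQ f χ → (∀ z, χ z = 0 ∨ χ z = 1 ∨ χ z = -1) →
  χ ⟨0, 1⟩ = 1 → (∀ z, χ (star z) = χ z) → ∀ z w : Gi, IsCoprime z ((2 * f : ℕ) : Gi) →
  IsCoprime w ((2 * f : ℕ) : Gi) → ((2 * f : ℕ) : ℤ) ∣ (nm z : ℤ) - (nm w : ℤ) → χ z = χ w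

/-- HCH (250 lines), USES NCG: the class function. PROOF. `q = 8f`. For `a` coprime to `q`, `a ≡ 1 mod 4`, Dirichlet's theorem (`Nat.forall_exists_prime_gt_and_eq_mod`) gives a prime `p ≡ a` mod `q`; `p ≡ 1 mod 4`, `p = N(π)`,
`π` coprime to `2f` (else `p ∣ 2f`). Let `h a = (χ π).re` (a choice), `h a = 0` for the other `a`. By NCG (`2f ∣ 8f`) `χ(z) = h (nm z % q)` for every `z` coprime to `2f` (`N(z)` is odd, a sum of two squares, so `≡ 1 mod 4`; `z` coprime to `2f` iff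
`N(z)` coprime to `2f`). `χ` not principal: there is `x` with `χ(x) = -1`; if `N(x)` is even then `f` is odd, replace `x` by `x + f`
(`N(x)` even iff `re + im` even). So `χ(x) = -1`, `x` coprime to `2f`, `a₀ = N(x)`; multiplication by `a₀` permutes the classes `a` mod `q` which are coprime to `q` and `≡ 1 mod 4`, and `h(a₀ a mod q) = -h(a)`; so the sum is `0`. -/
def SpecHCH : Prop := ∀ (f : ℕ) (χ : Gi → ℂ), 0 < f → ChQ f χ → (∀ z, χ z = 0 ∨ χ z = 1 ∨ χ z = -1) →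
  χ ⟨0, 1⟩ = 1 → (∀ z, χ (star z) = χ z) → NP χ 0 → ∃ h : ℕ → ℝ, (∀ a, |h a| ≤ 1) ∧
  (∀ z : Gi, IsCoprime z ((2 * f : ℕ) : Gi) → χ z = ((h (nm z % (8 * f)) : ℝ) : ℂ)) ∧
  ∑ a ∈ (range (8 * f)).filter (fun a => a.Coprime (8 * f) ∧ a % 4 = 1), h a = 0

/-- RSW (250 lines; imports SW/SWA, SW/Main), USES HCH. PROOF. Every prime `p ≡ 1 mod 4` is the norm of exactly two elements `π` of `GP`; if `p` does not divide `2f`, `χ(π) = h(p mod 8f)` for both; the `p ∣ f` contribute `0`. So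
`∑_{GP y y'} χ(π) = 2 ∑_a h(a) #{y < p ≤ y' : p ≡ a mod 8f}` (`a` coprime to `8f`, `a ≡ 1 mod 4`) and by `SW.SpecSWA` (proved: `SW/Main.lean`; `8f ≤ (log y)^(A')` for `y ≥ N^δ₀`, `A' > A`; at `y` and at `y'`) this is
`2 ((π(y') - π(y))/φ(8f)) ∑_a h(a) + O(8f · 4 y'/(log y)^B) = O(32 f y'/(log y)^B)`, `B = ⌈A⌉ + 3`; `log y ≥ δ₀ log N`. -/
def SpecRSW : Prop := ∀ ε A δ₀ : ℝ, 0 < ε → 1 ≤ A → 0 < δ₀ → δ₀ ≤ 1 → ∃ N₀ : ℝ, ∀ N : ℝ, N₀ ≤ N →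
  ∀ (f : ℕ) (χ : Gi → ℂ), 0 < f → (f : ℝ) ≤ Real.log N ^ A → ChQ f χ → (∀ z, χ z = 0 ∨ χ z = 1 ∨ χ z = -1) →
    χ ⟨0, 1⟩ = 1 → (∀ z, χ (star z) = χ z) → NP χ 0 → ∀ y y' : ℝ, N ^ δ₀ ≤ y → y ≤ y' → y' ≤ N →
      ‖∑ π ∈ GP y y', ps χ 0 π‖ ≤ ε * y' / Real.log y'

/-! ## Conclusion -/

/-- PHF (120 lines), USES CHB, BLG, RSW: the theorem. PROOF. `m ≠ 0`: `2m ≠ 0`, so `GoodC` (first case). `m = 0`: if `χ(x)² ∉ {0, 1}` for some `x`, `GoodC` (first case). Otherwise `χ(x) ∈ {0, 1, -1}` for all `x`. If `χ(star z) = χ(z)` for all `z`: RSW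
(`UI` with `m = 0` is `χ(i) = 1`). Otherwise `χ(star z) ≠ χ(z)` for some `z`; both are nonzero (`ChQ.sup`, CHB), so `χ(z) χ(star z) = -1` and `GoodC` holds (second case). BLG. -/
def SpecPHF : Prop := ∀ ε A δ₀ : ℝ, 0 < ε → 1 ≤ A → 0 < δ₀ → δ₀ ≤ 1 → ∃ N₀ : ℝ, ∀ N : ℝ, N₀ ≤ N →
  ∀ (f : ℕ) (χ : Gi → ℂ) (m : ℤ), 0 < f → (f : ℝ) ≤ Real.log N ^ A → ChQ f χ → UI χ m → |(m : ℝ)| ≤ N ^ A →
    NP χ m → ∀ y y' : ℝ, N ^ δ₀ ≤ y → y ≤ y' → y' ≤ N →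
      ‖∑ π ∈ GP y y', ps χ m π‖ ≤ ε * y' / Real.log y'

/-- PHX (80 lines), USES PHF: the same in terms of `ChiG`, `hk` of `X/SpecHM.lean`. PROOF. `ChiG (f : Gi) χ` gives `ChQ f χ` (`x - y = f w` if `f` divides both components of `x - y`), `hk χ k = ps χ k`,
`xi k ⟨0, 1⟩ = I^k`. -/
def SpecPHX : Prop := ∀ ε A δ₀ : ℝ, 0 < ε → 1 ≤ A → 0 < δ₀ → δ₀ ≤ 1 → ∃ N₀ : ℝ, ∀ N : ℝ, N₀ ≤ N →
  ∀ (f : ℕ) (χ : Gi → ℂ) (k : ℤ), 0 < f → (f : ℝ) ≤ Real.log N ^ A →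
    Pool.Agent.Lib.MP391708.X.ChiG (f : Gi) χ → |(k : ℝ)| ≤ N ^ A →
    (k ≠ 0 ∨ ∃ z, χ z ≠ 0 ∧ χ z ≠ 1) → Pool.Agent.Lib.MP391708.X.hk χ k ⟨0, 1⟩ = 1 →
    ∀ y y' : ℝ, N ^ δ₀ ≤ y → y ≤ y' → y' ≤ N →
      ‖∑ π ∈ GP y y', Pool.Agent.Lib.MP391708.X.hk χ k π‖ ≤ ε * y' / Real.log y'

end

end Pool.Agent.Lib.MP391708.X.PH
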