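import Pool.Agent.Lib.MP_391708_nt.X.PH.SpecB
import Pool.Agent.Lib.MP_391708_nt.MR.OSLow

/-!
# MP_391708, Theorem X, part PH: module T1G, the 3-4-1 inequality
-/

set_option autoImplicit false

namespace Pool.Agent.Lib.MP391708.X.PH

open Finset Filter Topology MeasureTheory
open Pool.Agent.Lib.MP391708.MR
open Pool.Agent.Lib.MP391708.MR.OS (CM RP pw)

noncomputable section

namespace T1GM

/-- the square of the norm is completely multiplicative -/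
lemma cm_Q {G : Gi → ℂ} (hG : CM G) : CM (fun z => ((‖G z‖ : ℝ) : ℂ) ^ 2) where
  one := by simp [hG.one]
  I := by simp [hG.I]
  mul := fun x y => by
    simp only [hG.mul, norm_mul]
    push_cast
    ring
  le := fun z => by
    rw [norm_pow, Complex.norm_real, norm_norm]
    exact pow_le_one₀ (norm_nonneg _) (hG.le z)

/-- the square is completely multiplicative -/
lemma cm_sq {G : Gi → ℂ} (hG : CM G) : CM (fun z => G z ^ 2) where
  one := by simp [hG.one]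
  I := by simp [hG.I]
  mul := fun x y => by
    simp only [hG.mul]
    ring
  le := fun z => by
    rw [norm_pow]
    exact pow_le_one₀ (norm_nonneg _) (hG.le z)

/-- the trigonometric inequality -/
lemma trig {w : ℂ} (h : w = 0 ∨ ‖w‖ = 1) : 0 ≤ 3 * ‖w‖ ^ 2 + 4 * w.re + (w ^ 2).re := by
  rcases h with rfl | h
  · simp
  · have h1 : w.re ^ 2 + w.im ^ 2 = 1 := by
      have := Complex.sq_norm w
      rw [h, Complex.normSq_apply] at this
      nlinarith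
    have h2 : (w ^ 2).re = w.re ^ 2 - w.im ^ 2 := by
      rw [pow_two, Complex.mul_re]
      ring
    rw [h, h2]
    nlinarith [sq_nonneg (1 + w.re)]

/-- the terms -/
lemma term {G : Gi → ℂ} (h01 : ∀ z, G z = 0 ∨ ‖G z‖ = 1) (σ y : ℝ) {z : Gi} (hz : 0 < nm z) :
    0 ≤ 3 * (OS.T (fun z => ((‖G z‖ : ℝ) : ℂ) ^ 2) (σ + (0 : ℝ) * Complex.I) z).re +
      4 * (OS.T G (σ + y * Complex.I) z).re +
      (OS.T (fun z => G z ^ 2) (σ + ((2 * y : ℝ) : ℂ) * Complex.I) z).re := by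
  have hn : (0 : ℝ) < (nm z : ℝ) := by exact_mod_cast hz
  have hnc : ((nm z : ℕ) : ℂ) ≠ 0 := by
    have : nm z ≠ 0 := by omega
    exact_mod_cast this
  set u : ℂ := ((nm z : ℕ) : ℂ) ^ (-(y * Complex.I)) with hu
  set r : ℝ := (nm z : ℝ) ^ (-σ) with hr
  have hr0 : 0 ≤ r := by positivity
  have hrc : ((nm z : ℕ) : ℂ) ^ (-(σ : ℂ)) = (r : ℂ) := by
    rw [hr, Complex.ofReal_cpow hn.le]
    push_cast
    rfl
  have hun : ‖u‖ = 1 := by
    rw [hu]
    have := Complex.norm_cpow_eq_rpow_re_of_pos hn (-(y * Complex.I))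
    have e : ((nm z : ℝ) : ℂ) = ((nm z : ℕ) : ℂ) := by push_cast; rfl
    rw [e] at this
    rw [this]
    simp
  have e1 : ((nm z : ℕ) : ℂ) ^ (-((σ : ℂ) + y * Complex.I)) = r * u := by
    rw [neg_add, Complex.cpow_add _ _ hnc, hrc]
  have e2 : ((nm z : ℕ) : ℂ) ^ (-((σ : ℂ) + ((2 * y : ℝ) : ℂ) * Complex.I)) = r * u ^ 2 := by
    have : -((σ : ℂ) + ((2 * y : ℝ) : ℂ) * Complex.I) =
        -(σ : ℂ) + (-(y * Complex.I) + -(y * Complex.I)) := by
      push_cast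
      ring
    rw [this, Complex.cpow_add _ _ hnc, Complex.cpow_add _ _ hnc, hrc, pow_two]
  have e0 : ((nm z : ℕ) : ℂ) ^ (-((σ : ℂ) + ((0 : ℝ) : ℂ) * Complex.I)) = r := by
    rw [Complex.ofReal_zero, zero_mul, add_zero, hrc]
  unfold OS.T
  simp only []
  rw [e0, e1, e2]
  have hw : G z * u = 0 ∨ ‖G z * u‖ = 1 := by
    rcases h01 z with h | h
    · left; rw [h, zero_mul]
    · right; rw [norm_mul, h, hun, one_mul]
  have h := trig hw
  have f0 : (((‖G z‖ : ℝ) : ℂ) ^ 2 * (r : ℂ)).re = r * ‖G z * u‖ ^ 2 := by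
    rw [norm_mul, hun, mul_one, ← Complex.ofReal_pow, ← Complex.ofReal_mul, Complex.ofReal_re]
    ring
  have f1 : (G z * ((r : ℂ) * u)).re = r * (G z * u).re := by
    rw [show G z * ((r : ℂ) * u) = (r : ℂ) * (G z * u) by ring, Complex.re_ofReal_mul]
  have f2 : (G z ^ 2 * ((r : ℂ) * u ^ 2)).re = r * ((G z * u) ^ 2).re := by
    rw [show G z ^ 2 * ((r : ℂ) * u ^ 2) = (r : ℂ) * (G z * u) ^ 2 by ring, Complex.re_ofReal_mul]
  rw [f0, f1, f2]
  have := mul_nonneg hr0 h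
  linarith

/-- the inequality for the logarithmic derivatives -/
lemma La_nonneg {G : Gi → ℂ} (hG : CM G) (h01 : ∀ z, G z = 0 ∨ ‖G z‖ = 1) {σ : ℝ} (y : ℝ)
    (hs : 1 < σ) :
    0 ≤ 3 * (OS.La (fun z => ((‖G z‖ : ℝ) : ℂ) ^ 2) (σ + (0 : ℝ) * Complex.I)).re +
      4 * (OS.La G (σ + y * Complex.I)).re +
      (OS.La (fun z => G z ^ 2) (σ + ((2 * y : ℝ) : ℂ) * Complex.I)).re := by
  have s0 := (OS.summable_norm_La (cm_Q hG) (s := (σ : ℂ) + (0 : ℝ) * Complex.I)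
    (by simpa using hs)).of_norm
  have s1 := (OS.summable_norm_La hG (s := (σ : ℂ) + y * Complex.I) (by simpa using hs)).of_norm
  have s2 := (OS.summable_norm_La (cm_sq hG) (s := (σ : ℂ) + ((2 * y : ℝ) : ℂ) * Complex.I)
    (by simpa using hs)).of_norm
  have r0 := Complex.reCLM.hasSum s0.hasSum
  have r1 := Complex.reCLM.hasSum s1.hasSum
  have r2 := Complex.reCLM.hasSum s2.hasSum
  have h := ((r0.mul_left 3).add (r1.mul_left 4)).add r2
  refine h.nonneg (fun x => ?_)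
  have hl := OS.log_nm_nonneg (x.1 : Gi)
  have hx : 0 < nm (pw x) := by
    rcases Nat.eq_zero_or_pos (nm (pw x)) with h0 | h0
    · exfalso
      have h1 := nm_eq_zero.1 h0
      exact OS.pw_ne_zero x h1
    · exact h0
  have ht := term h01 σ y hx
  simp only [Complex.reCLM_apply, Complex.re_ofReal_mul]
  have := mul_nonneg hl ht
  linarith

/-- the inequality -/
lemma main {G : Gi → ℂ} (hG : CM G) (h01 : ∀ z, G z = 0 ∨ ‖G z‖ = 1) {σ : ℝ} (y : ℝ)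
    (hs : 1 < σ) :
    (4 : ℝ) ^ 8 ≤ ‖OS.LL (fun z => ((‖G z‖ : ℝ) : ℂ) ^ 2) (σ + (0 : ℝ) * Complex.I)‖ ^ 3 *
      ‖OS.LL G (σ + y * Complex.I)‖ ^ 4 *
      ‖OS.LL (fun z => G z ^ 2) (σ + ((2 * y : ℝ) : ℂ) * Complex.I)‖ := by
  set A : ℝ → ℝ := fun x =>
    ‖OS.LL (fun z => ((‖G z‖ : ℝ) : ℂ) ^ 2) (x + (0 : ℝ) * Complex.I)‖ ^ 2 with hA
  set B : ℝ → ℝ := fun x => ‖OS.LL G (x + y * Complex.I)‖ ^ 2 with hB
  set C : ℝ → ℝ := fun x =>
    ‖OS.LL (fun z => G z ^ 2) (x + ((2 * y : ℝ) : ℂ) * Complex.I)‖ ^ 2 with hC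
  set a : ℝ → ℝ := fun x =>
    (OS.La (fun z => ((‖G z‖ : ℝ) : ℂ) ^ 2) (x + (0 : ℝ) * Complex.I)).re with ha
  set b : ℝ → ℝ := fun x => (OS.La G (x + y * Complex.I)).re with hb
  set c : ℝ → ℝ := fun x =>
    (OS.La (fun z => G z ^ 2) (x + ((2 * y : ℝ) : ℂ) * Complex.I)).re with hc
  have dA : ∀ x : ℝ, 1 < x → HasDerivAt A (-2 * a x * A x) x := fun x hx =>
    OS.hasDerivAt_norm_sq (cm_Q hG) 0 hx
  have dB : ∀ x : ℝ, 1 < x → HasDerivAt B (-2 * b x * B x) x := fun x hx =>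
    OS.hasDerivAt_norm_sq hG y hx
  have dC : ∀ x : ℝ, 1 < x → HasDerivAt C (-2 * c x * C x) x := fun x hx =>
    OS.hasDerivAt_norm_sq (cm_sq hG) (2 * y) hx
  have A0 : ∀ x, 0 ≤ A x := fun x => by positivity
  have B0 : ∀ x, 0 ≤ B x := fun x => by positivity
  have C0 : ∀ x, 0 ≤ C x := fun x => by positivity
  set h : ℝ → ℝ := fun x => A x ^ 3 * B x ^ 4 * C x with hh
  have hd : ∀ x : ℝ, 1 < x → HasDerivAt h
      (-2 * (3 * a x + 4 * b x + c x) * h x) x := by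
    intro x hx
    have e := (((dA x hx).pow 3).mul ((dB x hx).pow 4)).mul (dC x hx)
    refine e.congr_deriv ?_
    simp only [hh, Pi.mul_apply, Pi.pow_apply]
    push_cast
    ring
  have hanti : AntitoneOn h (Set.Ioi 1) := by
    apply antitoneOn_of_deriv_nonpos (convex_Ioi 1)
    · exact fun x hx => (hd x hx).continuousAt.continuousWithinAt
    · rw [interior_Ioi]
      exact fun x hx => (hd x hx).differentiableAt.differentiableWithinAt
    · rw [interior_Ioi]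
      intro x hx
      rw [(hd x hx).deriv]
      have h1 : 0 ≤ 3 * a x + 4 * b x + c x := La_nonneg hG h01 y hx
      have h2 : 0 ≤ h x := by
        simp only [hh]
        have := A0 x
        have := B0 x
        have := C0 x
        positivity
      have h3 := mul_nonneg h1 h2
      linarith
  have hlim : Tendsto h atTop (𝓝 ((4 : ℝ) ^ 16)) := by
    have h1 := ((OS.tendsto_LL (cm_Q hG) 0).norm.pow 2).pow 3
    have h2 := ((OS.tendsto_LL hG y).norm.pow 2).pow 4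
    have h3 := (OS.tendsto_LL (cm_sq hG) (2 * y)).norm.pow 2
    have h4 := (h1.mul h2).mul h3
    have e : ((‖(4 : ℂ)‖ ^ 2) ^ 3 * (‖(4 : ℂ)‖ ^ 2) ^ 4) * ‖(4 : ℂ)‖ ^ 2 = (4 : ℝ) ^ 16 := by
      have : ‖(4 : ℂ)‖ = 4 := by simp
      rw [this]; norm_num
    rw [e] at h4
    exact h4
  have h1 : (4 : ℝ) ^ 16 ≤ h σ := by
    apply le_of_tendsto hlim
    filter_upwards [eventually_ge_atTop σ] with x hx
    exact hanti hs (lt_of_lt_of_le hs hx) hx
  have h2 : h σ = (‖OS.LL (fun z => ((‖G z‖ : ℝ) : ℂ) ^ 2) (σ + (0 : ℝ) * Complex.I)‖ ^ 3 *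
      ‖OS.LL G (σ + y * Complex.I)‖ ^ 4 *
      ‖OS.LL (fun z => G z ^ 2) (σ + ((2 * y : ℝ) : ℂ) * Complex.I)‖) ^ 2 := by
    simp only [hh, hA, hB, hC]
    ring
  rw [h2, show ((4 : ℝ) ^ 16) = ((4 : ℝ) ^ 8) ^ 2 by norm_num] at h1
  exact (pow_le_pow_iff_left₀ (by norm_num) (by positivity) (by norm_num)).1 h1

end T1GM

theorem specT1G (hSER : SpecSER) : SpecT1G := by
  intro G hG h01 lam u hlam
  have e0 := ((hSER _ (T1GM.cm_Q hG) lam hlam).2.2 0).2.2.2.1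
  have e1 := ((hSER G hG lam hlam).2.2 u).2.2.2.1
  have e2 := ((hSER _ (T1GM.cm_sq hG) lam hlam).2.2 (2 * u)).2.2.2.1
  have h := T1GM.main hG h01 (σ := 1 + lam) (2 * Real.pi * u) (by linarith)
  have f0 : ((1 + lam : ℝ) : ℂ) + ((0 : ℝ) : ℂ) * Complex.I =
      1 + (lam : ℂ) + 2 * Real.pi * Complex.I * ((0 : ℝ) : ℂ) := by
    push_cast
    ring
  have f1 : ((1 + lam : ℝ) : ℂ) + ((2 * Real.pi * u : ℝ) : ℂ) * Complex.I =
      1 + (lam : ℂ) + 2 * Real.pi * Complex.I * (u : ℂ) := by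
    push_cast
    ring
  have f2 : ((1 + lam : ℝ) : ℂ) + ((2 * (2 * Real.pi * u) : ℝ) : ℂ) * Complex.I =
      1 + (lam : ℂ) + 2 * Real.pi * Complex.I * ((2 * u : ℝ) : ℂ) := by
    push_cast
    ring
  rw [f0, f1, f2] at h
  rw [e0, e1, e2]
  rw [norm_mul, norm_mul, norm_mul]
  have e4 : ‖(1 / 4 : ℂ)‖ = 1 / 4 := by
    rw [norm_div, norm_one]
    simp
  rw [e4]
  have : (4 : ℝ) ^ 8 = 65536 := by norm_num
  rw [this] at h
  set X := ‖OS.LL (fun z => ((‖G z‖ : ℝ) : ℂ) ^ 2)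
    (1 + (lam : ℂ) + 2 * Real.pi * Complex.I * ((0 : ℝ) : ℂ))‖
  set Y := ‖OS.LL G (1 + (lam : ℂ) + 2 * Real.pi * Complex.I * (u : ℂ))‖
  set Z := ‖OS.LL (fun z => G z ^ 2)
    (1 + (lam : ℂ) + 2 * Real.pi * Complex.I * ((2 * u : ℝ) : ℂ))‖
  have e : (1 / 4 * X) ^ 3 * (1 / 4 * Y) ^ 4 * (1 / 4 * Z) = X ^ 3 * Y ^ 4 * Z / 65536 := by
    ring
  rw [e, le_div_iff₀ (by norm_num)]
  linarith

end

end Pool.Agent.Lib.MP391708.X.PH
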